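import Pool.Agent.H980R2.Cross.Defs
import Pool.Agent.H988R2.Perc.T14

/-! T03: `lin F` (the polynomial attached to a function `F` of words): exchange, recursion,
inversion, degree.  Everything follows from the corresponding facts for `Fw`
(`H988R2.Perc.T11, T13`: `Fw_exch`, `Fw_rec`, `Fw_spec`, `Fw_V`, `Psi_inv1`, `Psi_invN`, `Z_eq_sum`
for the models of the proofs): sum them with the weights `F w`. -/

namespace Pool.Agent.H980R2.Cross

open Pool.Agent.H988R2.Perc Finset

theorem lin_eq (F : Word → ℂ) {l : List ℂ} {N : ℕ} (h : l.length = N) :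
    lin F l = ∑ w ∈ LP N, F w * Fw w l := by
  subst h; rfl

theorem lin_exch (F : Word → ℂ) (u v : List ℂ) (x y : ℂ) (h : Even (u.length + v.length)) :
    (q * x - q^2 * y) * lin F (u ++ y :: x :: v) =
      (q * y - q^2 * x) * lin F (u ++ x :: y :: v) +
      (y - x) * lin (fun w => F (act u.length w)) (u ++ x :: y :: v) := by
  obtain ⟨m, hm⟩ := h.exists_two_nsmul
  rw [smul_eq_mul] at hm
  have hl1 : (u ++ y :: x :: v).length = 2 * (m+1) := by simp; omega
  have hl2 : (u ++ x :: y :: v).length = 2 * (m+1) := by simp; omega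
  rw [lin_eq F hl1, lin_eq F hl2, lin_eq _ hl2, Finset.mul_sum, Finset.mul_sum, Finset.mul_sum]
  have h1 : ∀ pi ∈ LP (2*(m+1)),
      (q * x - q^2 * y) * (F pi * Fw pi (u ++ y :: x :: v)) =
      (q * y - q^2 * x) * (F pi * Fw pi (u ++ x :: y :: v)) +
      ∑ w ∈ LP (2*(m+1)), (if act u.length w = pi then
        (y - x) * (F pi * Fw w (u ++ x :: y :: v)) else 0) := by
    intro pi hpi
    have h2 := Fw_exch hpi u v x y (by omega)
    have h3 : (q * x - q^2 * y) * (F pi * Fw pi (u ++ y :: x :: v)) =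
        F pi * ((q * x - q^2 * y) * Fw pi (u ++ y :: x :: v)) := by ring
    rw [h3, h2, mul_add]
    congr 1
    · ring
    · rw [Finset.mul_sum, Finset.mul_sum]
      refine Finset.sum_congr rfl fun w _ => ?_
      split_ifs
      · ring
      · ring
  rw [Finset.sum_congr rfl h1, Finset.sum_add_distrib]
  congr 1
  rw [Finset.sum_comm]
  refine Finset.sum_congr rfl fun w hw => ?_
  have hw' := mem_LP.1 hw
  have hmem : act u.length w ∈ LP (2*(m+1)) :=
    mem_LP.2 ⟨by rw [length_act (by omega)]; exact hw'.1, dyck_act hw'.2 (by omega)⟩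
  rw [Finset.sum_ite_eq, if_pos hmem]

theorem lin_rec (F : Word → ℂ) (u v : List ℂ) (x : ℂ) (h : Even (u.length + v.length)) :
    lin F (u ++ x :: (q^2 * x) :: v) =
      fac x (u ++ v) * lin (fun w => F (ins u.length w)) (u ++ v) := by
  obtain ⟨m, hm⟩ := h.exists_two_nsmul
  rw [smul_eq_mul] at hm
  have hl1 : (u ++ x :: (q^2 * x) :: v).length = 2 * (m+1) := by simp; omega
  have hl2 : (u ++ v).length = 2 * m := by simp; omega
  rw [lin_eq F hl1, lin_eq _ hl2, Finset.mul_sum]
  have h1 : ∀ w ∈ LP (2*(m+1)),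
      F w * Fw w (u ++ x :: (q^2 * x) :: v) =
      ∑ w' ∈ LP (2*m), (if ins u.length w' = w then
        fac x (u ++ v) * (F w * Fw w' (u ++ v)) else 0) := by
    intro w hw
    rw [Fw_rec hw u v x (by omega), Finset.mul_sum, Finset.mul_sum]
    refine Finset.sum_congr rfl fun w' _ => ?_
    split_ifs
    · ring
    · ring
  rw [Finset.sum_congr rfl h1, Finset.sum_comm]
  refine Finset.sum_congr rfl fun w' hw' => ?_
  have hw1 := mem_LP.1 hw'
  have hmem : ins u.length w' ∈ LP (2*(m+1)) :=
    mem_LP.2 ⟨by rw [length_ins, hw1.1]; ring, (dyck_ins_iff (by omega)).2 hw1.2⟩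
  rw [Finset.sum_ite_eq, if_pos hmem]

theorem lin_inv1 (F : Word → ℂ) (x : ℂ) (l : List ℂ) (hx : x ≠ 0) (h : Odd l.length) :
    lin F (x :: l) = x^(l.length - 1) * lin F (x⁻¹ :: l) := by
  obtain ⟨m, hm⟩ := h
  have hl1 : (x :: l).length = 2 * (m+1) := by simp; omega
  have hl2 : (x⁻¹ :: l).length = 2 * (m+1) := by simp; omega
  rw [lin_eq F hl1, lin_eq F hl2, Finset.mul_sum]
  refine Finset.sum_congr rfl fun w hw => ?_
  have hw1 := mem_LP.1 hw
  have := (Fw_spec hw1.2).2.1
  rw [hw1.1] at this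
  have h2 := this x l hx (by omega)
  have h3 : 2 * (m+1) - 2 = l.length - 1 := by omega
  rw [h2, h3]
  ring

theorem lin_invN (F : Word → ℂ) (x : ℂ) (l : List ℂ) (hx : x ≠ 0) (h : Odd l.length) :
    lin F (l ++ [x]) = x^(l.length - 1) * lin F (l ++ [x⁻¹]) := by
  obtain ⟨m, hm⟩ := h
  have hl1 : (l ++ [x]).length = 2 * (m+1) := by simp; omega
  have hl2 : (l ++ [x⁻¹]).length = 2 * (m+1) := by simp; omega
  rw [lin_eq F hl1, lin_eq F hl2, Finset.mul_sum]
  refine Finset.sum_congr rfl fun w hw => ?_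
  have hw1 := mem_LP.1 hw
  have := (Fw_spec hw1.2).2.2.1
  rw [hw1.1] at this
  have h2 := this x l hx (by omega)
  have h3 : 2 * (m+1) - 2 = l.length - 1 := by omega
  rw [h2, h3]
  ring

theorem lin_pd (F : Word → ℂ) (N : ℕ) (hN : Even N) : PD N (N-2) (lin F) := by
  have _ := hN
  have h1 : PD N (N-2) (fun l => ∑ w ∈ LP N, F w * Fw w l) :=
    PD.sum _ fun w hw => (Fw_V hw).pd.smul _
  refine h1.congr fun l hl => ?_
  exact lin_eq F hl

theorem lin_congr {F G : Word → ℂ} {l : List ℂ}
    (h : ∀ w, Dyck w → w.length = l.length → F w = G w) : lin F l = lin G l := by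
  unfold lin
  refine Finset.sum_congr rfl fun w hw => ?_
  have hw1 := mem_LP.1 hw
  rw [h w hw1.2 hw1.1]

theorem lin_one (l : List ℂ) : lin (fun _ => 1) l = Z l := by
  rw [Z_eq_sum]
  unfold lin
  exact Finset.sum_congr rfl fun w _ => one_mul _

theorem lin_add (F G : Word → ℂ) (l : List ℂ) : lin (fun w => F w + G w) l = lin F l + lin G l := by
  unfold lin
  rw [← Finset.sum_add_distrib]
  exact Finset.sum_congr rfl fun w _ => add_mul _ _ _

theorem lin_smul (c : ℂ) (F : Word → ℂ) (l : List ℂ) : lin (fun w => c * F w) l = c * lin F l := by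
  unfold lin
  rw [Finset.mul_sum]
  exact Finset.sum_congr rfl fun w _ => mul_assoc _ _ _

theorem lin_zero (l : List ℂ) : lin (fun _ => 0) l = 0 := by
  unfold lin
  exact Finset.sum_eq_zero fun w _ => zero_mul _

/-- version of the inversion with last variable `0` (as `Psi_inv0` in `H988R2.Perc.T14`) -/
theorem lin_inv0 (F : Word → ℂ) (x : ℂ) (u : List ℂ) (hx : x ≠ 0) (h : Even u.length) :
    lin F (u ++ [x, 0]) = x^(u.length) * lin F (u ++ [x⁻¹, 0]) := by
  set eF : Word → ℂ := fun w => F (act u.length w) with heF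
  have hq := q_spec
  have hq3 := q_cube
  have hee : ∀ l : List ℂ, l.length = u.length + 2 →
      lin (fun w => eF (act u.length w)) l = lin eF l := by
    intro l hl
    refine lin_congr fun w hw hwl => ?_
    rw [heF]
    show F (act u.length (act u.length w)) = F (act u.length w)
    congr 1
    have h1 : act u.length w = ins u.length (cap u.length w) := rfl
    rw [h1, act_ins_self]
    rw [length_cap (by omega)]
    omega
  -- exchange at `(x, 0)`
  have hexch : ∀ G : Word → ℂ, ∀ x : ℂ, x ≠ 0 → lin G (u ++ [0, x]) =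
      (-q) * lin G (u ++ [x, 0]) + (-q^2) * lin (fun w => G (act u.length w)) (u ++ [x, 0]) := by
    intro G x hx
    have h1 := lin_exch G u [] x 0 (by simpa using h)
    have h4 : q * x ≠ 0 := mul_ne_zero q_ne_zero hx
    apply mul_left_cancel₀ h4
    linear_combination h1 + x * hq3 * lin (fun w => G (act u.length w)) (u ++ [x, 0])
  have hinv : ∀ a b : ℂ, (-q^2) * ((-q) * a + (-q^2) * b) +
      (-q) * ((-q) * b + (-q^2) * b) = a := by
    intro a b
    linear_combination (a + q * b) * hq3 + (q * b) * hq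
  have hlast : ∀ G : Word → ℂ, lin G (u ++ [0, x]) = x^(u.length) * lin G (u ++ [0, x⁻¹]) := by
    intro G
    have hlast := lin_invN G x (u ++ [0]) hx (by simp; exact Even.add_one h)
    have hlen : (u ++ [(0:ℂ)]).length - 1 = u.length := by simp
    rw [hlen] at hlast
    simpa only [List.append_assoc, List.singleton_append] using hlast
  have a1 := hexch F x hx
  have a2 := hexch eF x hx
  have b1 := hexch F x⁻¹ (inv_ne_zero hx)
  have b2 := hexch eF x⁻¹ (inv_ne_zero hx)
  rw [hee _ (by simp)] at a2 b2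
  have c1 := hlast F
  have c2 := hlast eF
  have d1 := hinv (lin F (u ++ [x, 0])) (lin eF (u ++ [x, 0]))
  have d2 := hinv (lin F (u ++ [x⁻¹, 0])) (lin eF (u ++ [x⁻¹, 0]))
  rw [← d1, ← d2]
  linear_combination (-q^2) * (c1 - a1 + x^(u.length) * b1) + (-q) * (c2 - a2 + x^(u.length) * b2)

end Pool.Agent.H980R2.Cross
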