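import Mathlib
import Pool.Agent.H988R2.Perc.Defs

/-!
Definitions for the exact expected number of crossing clusters (critical bond percolation on
`ℤ²`, rotated rectangles).  Built on the qKZ vector of `Pool.Agent.H988R2.Perc`.
-/

namespace Pool.Agent.H980R2.Cross

open Pool.Agent.H988R2.Perc Finset

/-! ## words and linear functionals -/

/-- the word has a small arc at the positions `i, i+1` -/
def arc (i : ℕ) (w : Word) : Prop := w[i]? = some true ∧ w[i+1]? = some false

instance (i : ℕ) (w : Word) : Decidable (arc i w) := by unfold arc; infer_instance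

/-- number of opening letters at even positions -/
def nn (w : Word) : ℕ :=
  ((List.range w.length).filter (fun p => p % 2 = 0 ∧ w[p]? = some true)).length

/-- the polynomial function attached to a function of the words -/
noncomputable def lin (F : Word → ℂ) (l : List ℂ) : ℂ := ∑ w ∈ LP l.length, F w * Fw w l

/-- mass of the words with a small arc at `i` -/
noncomputable def A (i : ℕ) (l : List ℂ) : ℂ := lin (fun w => if arc i w then 1 else 0) l

/-- mean of `nn` -/
noncomputable def NN (l : List ℂ) : ℂ := lin (fun w => (nn w : ℂ)) l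

/-- forward sum: the variable `x`, sitting after the prefix `u`, moves to the right end -/
noncomputable def Fr : List ℂ → ℂ → List ℂ → ℂ
  | _, _, [] => 0
  | u, x, y :: v =>
    (A u.length (u ++ x :: y :: v) - A u.length (u ++ y :: x :: v)) + Fr (u ++ [y]) x v

/-- the same, only the steps at odd positions -/
noncomputable def Fro : List ℂ → ℂ → List ℂ → ℂ
  | _, _, [] => 0
  | u, x, y :: v =>
    (if u.length % 2 = 1 then A u.length (u ++ x :: y :: v) - A u.length (u ++ y :: x :: v) else 0)
      + Fro (u ++ [y]) x v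

/-- sum along the closed path: `x` moves to the right end, is inverted, and comes back -/
noncomputable def Mt (x : ℂ) (l : List ℂ) : ℂ := Fr [] x l - x^(l.length - 1) * Fr [] x⁻¹ l

/-- the same, only the steps at odd positions -/
noncomputable def Mto (x : ℂ) (l : List ℂ) : ℂ := Fro [] x l - x^(l.length - 1) * Fro [] x⁻¹ l

/-- symmetrised derivative of `Z` -/
noncomputable def DZ (x : ℂ) (l : List ℂ) : ℂ :=
  2 * x * deriv (fun t => Z (t :: l)) x - ((l.length : ℂ) - 1) * Z (x :: l)

/-- `(q²-q)` times the symmetrised logarithmic derivative of `Z` -/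
noncomputable def LD (x : ℂ) (l : List ℂ) : ℂ := (q^2 - q) * DZ x l / Z (x :: l)

/-- the numbers `R_N`: `2, 8, 64/5, 128/7, …` -/
noncomputable def RR (N : ℕ) : ℝ :=
  2 * ∏ j ∈ range N, (2 * (mu (j+1) : ℝ)) / (2 * (mu (j+1) : ℝ) - 3)

/-- the exact density of crossing clusters (per double row of the strip of odd width `N`) -/
noncomputable def rho (N : ℕ) : ℝ := RR N - 3 * (3 * N + 1) * (3 * N + 2) / RR N

/-! ## lacunary sequences -/

/-- the non-multiples of `3` of absolute value at most `mu k` -/
noncomputable def Lam (k : ℕ) : Finset ℤ := (Finset.Icc (-(mu k : ℤ)) (mu k)).filter (fun l => ¬ (3 ∣ l))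

/-- `c` is supported by `Lam k`, its first `2k+1` moments vanish, and it is not zero -/
structure Good (k : ℕ) (c : ℤ → ℂ) : Prop where
  supp : ∀ l, l ∉ Lam k → c l = 0
  mom : ∀ r < 2 * k + 1, ∑ l ∈ Lam k, c l * (l : ℂ)^r = 0
  ne : ∃ l, c l ≠ 0

/-- derivatives at the sixth root of unity `-q` -/
noncomputable def Ev (k j : ℕ) (c : ℤ → ℂ) : ℂ := ∑ l ∈ Lam k, c l * (l : ℂ)^j * (-q)^l

/-! ## vectors of states -/

open Classical in
/-- mass of the states relating the faces `p` and `p+2` -/
noncomputable def phi (p : ℕ) (f : St →₀ ℂ) : ℂ := f.sum fun R a => if R.rel p (p+2) then a else 0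

/-- tiles at the positions `d, …, d+L-1` (in this order) -/
noncomputable def fwV (d : ℕ) : ℕ → (St →₀ ℂ) → (St →₀ ℂ)
  | 0, f => f
  | L+1, f => tile (L+d) (fwV d L f)

/-- tiles at the positions `d+L-1, …, d` (in this order) -/
noncomputable def bwV (d : ℕ) : ℕ → (St →₀ ℂ) → (St →₀ ℂ)
  | 0, f => f
  | L+1, f => bwV d L (tile (L+d) f)

/-- sum over the odd positions of the forward sweep of the probability that the two faces are
already joined -/
noncomputable def JF (d : ℕ) : ℕ → (St →₀ ℂ) → ℂ
  | 0, _ => 0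
  | L+1, f => JF d L f + (if (L+d) % 2 = 1 then phi (L+d) (fwV d L f) else 0)

/-- the same for the backward sweep -/
noncomputable def JB (d : ℕ) : ℕ → (St →₀ ℂ) → ℂ
  | 0, _ => 0
  | L+1, f => (if (L+d) % 2 = 1 then phi (L+d) f else 0) + JB d L (tile (L+d) f)

/-- insertion of a new face -/
noncomputable def ins0 (f : St →₀ ℂ) : St →₀ ℂ := Finsupp.mapDomain (St.ins 0) f

/-- the sum for a double row of the chain `Tvec` -/
noncomputable def JT (L : ℕ) (f : St →₀ ℂ) : ℂ := JF 1 L (ins0 f) + JB 1 L (fwV 1 L (ins0 f))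

/-- double row without insertion -/
noncomputable def UV (d L : ℕ) (f : St →₀ ℂ) : St →₀ ℂ := bwV d L (fwV d L f)

/-- the sum for a double row of the chain `UV d` -/
noncomputable def JU (d L : ℕ) (f : St →₀ ℂ) : ℂ := JF d L f + JB d L (fwV d L f)

/-- the word enclosed by an outer arc -/
def ext (w : Word) : Word := true :: (w ++ [false])

/-- the vector of the states of the even faces -/
noncomputable def PsiX (l : List ℂ) : St →₀ ℂ :=
  ∑ w ∈ LP l.length, Finsupp.single (Phi (l.length / 2 + 1) (ext w)) (Fw w l)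

/-- the state in which exactly the faces `1` and `N+2` are joined (`N` odd) -/
def RW (N : ℕ) : St where
  rel a b := a = b ∨ (N % 2 = 1 ∧ (a = 1 ∨ a = N+2) ∧ (b = 1 ∨ b = N+2))
  eqv := by
    refine ⟨fun _ => Or.inl rfl, ?_, ?_⟩
    · rintro a b (h | ⟨h, h1, h2⟩)
      · exact Or.inl h.symm
      · exact Or.inr ⟨h, h2, h1⟩
    · rintro a b c (h | ⟨h, h1, h2⟩) (k | ⟨k, k1, k2⟩)
      · exact Or.inl (h.trans k)
      · subst h; exact Or.inr ⟨k, k1, k2⟩
      · subst k; exact Or.inr ⟨h, h1, h2⟩
      · exact Or.inr ⟨h, h1, k2⟩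
  odd := by
    rintro a b (h | ⟨h, h1, h2⟩)
    · exact Or.inl h
    · right
      constructor
      · rcases h1 with h1 | h1 <;> omega
      · rcases h2 with h2 | h2 <;> omega

/-- initial state of the chains `UV d` -/
def st0 (d N : ℕ) : St := if d = 0 then St.bot else RW N

/-! ## the strip graph: vertices are `(column, time)` -/

/-- edges given by the open tiles `o k i` (`1 ≤ i ≤ N`, `k < K`) of the lattice of the vertices
with `column + time ≡ lam` mod 2. -/
def TE (lam N K : ℕ) (o : ℕ → ℕ → Bool) (a b : ℕ × ℕ) : Prop :=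
  ∃ i k, 1 ≤ i ∧ i ≤ N ∧ k < K ∧ o k i = true ∧
    (((i + k) % 2 = lam ∧ a = (i, k) ∧ b = (i-1, k+1)) ∨
     ((i + k) % 2 ≠ lam ∧ a = (i-1, k) ∧ b = (i, k+1)))

/-- vertices of the box -/
def VV (lam N K : ℕ) : Finset (ℕ × ℕ) :=
  ((range (N+1)) ×ˢ (range (K+1))).filter (fun p => (p.1 + p.2) % 2 = lam)

open Classical in
/-- number of classes, meeting `S`, of the equivalence relation generated by `E` -/
noncomputable def ncl {α : Type*} (E : α → α → Prop) (S : Finset α) : ℕ :=
  (S.image (fun a => {b | Relation.EqvGen E a b})).card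

/-- number of clusters when all vertices in the columns of `W` are identified -/
noncomputable def kk (lam N K : ℕ) (W : Finset ℕ) (o : ℕ → ℕ → Bool) : ℕ :=
  ncl (fun a b => TE lam N K o a b ∨ (a.1 ∈ W ∧ b.1 ∈ W)) (VV lam N K)

open Classical in
/-- number of clusters meeting both sides -/
noncomputable def CC (lam N K : ℕ) (o : ℕ → ℕ → Bool) : ℕ :=
  ((((VV lam N K).filter (fun p => p.1 = 0)).image (fun a => {b | Relation.EqvGen (TE lam N K o) a b}))
    ∩ (((VV lam N K).filter (fun p => p.1 = N)).image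
        (fun a => {b | Relation.EqvGen (TE lam N K o) a b}))).card

/-- average over the bits `o k i`, `k < K`, `1 ≤ i ≤ N` -/
noncomputable def avg (N K : ℕ) (F : (ℕ → ℕ → Bool) → ℝ) : ℝ :=
  (∑ t ∈ ((range K) ×ˢ (Icc 1 N)).powerset, F (fun k i => decide ((k, i) ∈ t))) / 2^(K*N)

/-! ## dynamics of (state, number of clusters) driven by the open bits -/

open Classical in
/-- one tile at position `p` -/
noncomputable def stepT (p : ℕ) (b : Bool) (s : St × ℤ) : St × ℤ :=
  if p % 2 = 1 then
    (if b then (St.act p s.1, s.2 - (if s.1.rel p (p+2) then 0 else 1)) else s)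
  else
    (if b then s else (St.act p s.1, s.2 + 1))

noncomputable def fwK (d : ℕ) : ℕ → (ℕ → Bool) → St × ℤ → St × ℤ
  | 0, _, s => s
  | L+1, o, s => stepT (L+d) (o (L+1)) (fwK d L o s)

noncomputable def bwK (d : ℕ) : ℕ → (ℕ → Bool) → St × ℤ → St × ℤ
  | 0, _, s => s
  | L+1, o, s => bwK d L o (stepT (L+d) (o (L+1)) s)

/-- chain for the strip with wired right side -/
noncomputable def TK (N : ℕ) (o : ℕ → ℕ → Bool) : ℕ → St × ℤ
  | 0 => (St.bot, ((N+1)/2 : ℕ))
  | M+1 =>
    let s := TK N o M
    let s3 := bwK 1 N (o (2*M+1)) (fwK 1 N (o (2*M)) (St.ins 0 s.1, s.2 + 1))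
    (St.cap 0 s3.1, s3.2)

/-- chain for the free strip (`d = 0`) and the strip with both sides wired together (`d = 1`) -/
noncomputable def UK (d N : ℕ) (o : ℕ → ℕ → Bool) : ℕ → St × ℤ
  | 0 => (st0 d N, ((N+1)/2 : ℕ))
  | M+1 => bwK d N (o (2*M+1)) (fwK d N (o (2*M)) (UK d N o M))

end Pool.Agent.H980R2.Cross
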