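import Pool.Agent.H980R2.Cross.T04

/-! T05: the two compatibility relations of the step function
`ph i L = A i L - A i (L with the entries i, i+1 exchanged)`.

`A_comm`: first for generic values (`q x ≠ q² y`, `q z ≠ q² t`): `lin_exch` for the exchange of
`x,y` (position `i`) applied to `arc j`, and for the exchange of `z,t` applied to `arc i`, together
with `A_exch`, reduce the identity to `arc_comm` (T02), after multiplication by
`(qx-q²y)(qz-q²t)`.  Then remove the exceptional values by polynomiality.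

`A_braid`: everything is expressed by `α = A_i(xyz)`, `β = A_{i+1}(xyz)`, `Z` by `A_exch`,
`A_exch_succ`, `A_exch_pred` (and the symmetry of `Z`, `Z_swap`).
Again remove exceptional values by polynomiality. -/

namespace Pool.Agent.H980R2.Cross

open Pool.Agent.H988R2.Perc Finset

namespace T05

/-- polynomial functions of one variable -/
def IsPoly (f : ℂ → ℂ) : Prop := ∃ P : Polynomial ℂ, ∀ z, f z = P.eval z

theorem IsPoly.add {f g : ℂ → ℂ} (hf : IsPoly f) (hg : IsPoly g) : IsPoly (fun z => f z + g z) := by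
  obtain ⟨P, hP⟩ := hf
  obtain ⟨Q, hQ⟩ := hg
  exact ⟨P + Q, fun z => by rw [Polynomial.eval_add, ← hP, ← hQ]⟩

theorem IsPoly.sub {f g : ℂ → ℂ} (hf : IsPoly f) (hg : IsPoly g) : IsPoly (fun z => f z - g z) := by
  obtain ⟨P, hP⟩ := hf
  obtain ⟨Q, hQ⟩ := hg
  exact ⟨P - Q, fun z => by rw [Polynomial.eval_sub, ← hP, ← hQ]⟩

theorem IsPoly.eq_of_ne {f g : ℂ → ℂ} (hf : IsPoly f) (hg : IsPoly g) (S : Finset ℂ)
    (h : ∀ z, z ∉ S → f z = g z) (z : ℂ) : f z = g z := by
  obtain ⟨P, hP⟩ := hf
  obtain ⟨Q, hQ⟩ := hg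
  rw [hP, hQ]
  have h1 : P - Q = 0 := by
    apply Polynomial.eq_zero_of_infinite_isRoot
    apply Set.Infinite.mono (s := (↑S : Set ℂ)ᶜ)
    · intro z hz
      have h2 := h z hz
      rw [hP, hQ] at h2
      show (P - Q).eval z = 0
      rw [Polynomial.eval_sub, h2, sub_self]
    · exact S.finite_toSet.infinite_compl
  rw [sub_eq_zero.1 h1]

/-- `A i` as a polynomial in one entry -/
theorem A_poly (i : ℕ) (u v : List ℂ) (h : Odd (u.length + v.length)) :
    IsPoly (fun z => A i (u ++ z :: v)) := by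
  have h1 : Even (u.length + v.length + 1) := by
    rcases h with ⟨k, hk⟩
    exact ⟨k + 1, by omega⟩
  obtain ⟨P, _, hP⟩ := (A_pd i _ h1).univ u v rfl
  exact ⟨P, hP⟩

theorem A_poly' (i : ℕ) (u v : List ℂ) (L : ℂ → List ℂ) (hL : ∀ z, L z = u ++ z :: v)
    (h : Odd (u.length + v.length)) : IsPoly (fun z => A i (L z)) := by
  have h1 : (fun z => A i (L z)) = (fun z => A i (u ++ z :: v)) := by
    funext z; rw [hL]
  rw [h1]
  exact A_poly i u v h

theorem gen_ne {x y : ℂ} (h : x ≠ q * y) : q * x - q^2 * y ≠ 0 := by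
  intro h0
  apply h
  have h1 : q * (x - q * y) = 0 := by linear_combination h0
  rcases mul_eq_zero.1 h1 with h2 | h2
  · exact absurd h2 q_ne_zero
  · exact sub_eq_zero.1 h2

/-- the algebra of the commutation relation -/
theorem comm_alg {D D' E E' a1 a2 a3 a4 b1 b2 b3 b4 ζ F G : ℂ} (hD : D ≠ 0) (hD' : D' ≠ 0)
    (e1 : D * a2 = (D - E) * a1 + E * ζ) (e2 : D * a3 = (D - E) * a4 + E * ζ)
    (e3 : D' * b4 = (D' - E') * b1 + E' * ζ) (e4 : D' * b3 = (D' - E') * b2 + E' * ζ)
    (e5 : D' * a4 = (D' - E') * a1 + E' * F) (e6 : D * b2 = (D - E) * b1 + E * G)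
    (e7 : a1 + G = b1 + F) :
    (a1 - a2) + (b2 - b3) = (b1 - b4) + (a4 - a3) := by
  have h : D * D' * ((a1 - a2) + (b2 - b3) - ((b1 - b4) + (a4 - a3))) = 0 := by
    linear_combination (-D') * e1 + D' * e2 + D * e3 - D * e4 - E * e5 + E' * e6 + E * E' * e7
  rcases mul_eq_zero.1 h with h1 | h1
  · rcases mul_eq_zero.1 h1 with h2 | h2
    · exact absurd h2 hD
    · exact absurd h2 hD'
  · exact sub_eq_zero.1 h1

/-- the algebra of the braid relation -/
theorem braid_alg {x y z a b c p1 p2 p3 p4 p5 s1 s2 s3 s4 s5 : ℂ}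
    (h1 : q * x - q^2 * y ≠ 0) (h2 : q * x - q^2 * z ≠ 0) (h3 : q * y - q^2 * z ≠ 0)
    (e1 : (q * x - q^2 * y) * p1 = (q * y - q^2 * x) * a + (y - x) * c)
    (e2 : (q * x - q^2 * z) * p2 = (q * z - q^2 * x) * p1)
    (e3 : (q * y - q^2 * z) * p3 = (q * z - q^2 * y) * p2 + (z - y) * c)
    (e4 : (q * y - q^2 * z) * p4 = (q * z - q^2 * y) * a)
    (e5 : (q * x - q^2 * z) * p5 = (q * z - q^2 * x) * p4 + (z - x) * c)
    (e6 : (q * x - q^2 * y) * s1 = (q * y - q^2 * x) * b)
    (e7 : (q * x - q^2 * z) * s2 = (q * z - q^2 * x) * s1 + (z - x) * c)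
    (e8 : (q * y - q^2 * z) * s3 = (q * z - q^2 * y) * b + (z - y) * c)
    (e9 : (q * x - q^2 * z) * s4 = (q * z - q^2 * x) * s3)
    (e10 : (q * x - q^2 * y) * s5 = (q * y - q^2 * x) * s4 + (y - x) * c) :
    (a - p1) + (s1 - s2) + (p2 - p3) = (b - s3) + (p4 - p5) + (s4 - s5) := by
  have h : (q * x - q^2 * y) * (q * x - q^2 * z) * (q * y - q^2 * z) *
      ((a - p1) + (s1 - s2) + (p2 - p3) - ((b - s3) + (p4 - p5) + (s4 - s5))) = 0 := by
    linear_combination
      (-(q * x - q^2 * z) * (q * y - q^2 * z) + (q * y - q^2 * z) * (q * z - q^2 * x)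
        - (q * z - q^2 * y) * (q * z - q^2 * x)) * e1 +
      ((q * x - q^2 * y) * (q * y - q^2 * z) - (q * x - q^2 * y) * (q * z - q^2 * y)) * e2 +
      (-(q * x - q^2 * y) * (q * x - q^2 * z)) * e3 +
      (-(q * x - q^2 * y) * (q * x - q^2 * z) + (q * x - q^2 * y) * (q * z - q^2 * x)) * e4 +
      ((q * x - q^2 * y) * (q * y - q^2 * z)) * e5 +
      ((q * x - q^2 * z) * (q * y - q^2 * z) - (q * y - q^2 * z) * (q * z - q^2 * x)) * e6 +
      (-(q * x - q^2 * y) * (q * y - q^2 * z)) * e7 +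
      ((q * x - q^2 * y) * (q * x - q^2 * z) - (q * x - q^2 * y) * (q * z - q^2 * x) +
        (q * y - q^2 * x) * (q * z - q^2 * x)) * e8 +
      (-(q * x - q^2 * y) * (q * y - q^2 * z) + (q * y - q^2 * x) * (q * y - q^2 * z)) * e9 +
      ((q * x - q^2 * z) * (q * y - q^2 * z)) * e10 +
      (q^3 * (1 + q) * (b - a) * (y * z^2 - y^2 * z - x * z^2 + x * y^2 + x^2 * z - x^2 * y)) *
        q_spec
  rcases mul_eq_zero.1 h with h4 | h4
  · rcases mul_eq_zero.1 h4 with h5 | h5
    · rcases mul_eq_zero.1 h5 with h6 | h6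
      · exact absurd h6 h1
      · exact absurd h6 h2
    · exact absurd h5 h3
  · exact sub_eq_zero.1 h4

theorem coef_eq (x y : ℂ) : q * y - q^2 * x = (q * x - q^2 * y) - (y - x) := by
  linear_combination (y - x) * q_spec

theorem A_comm_gen (u m v : List ℂ) (x y z t : ℂ) (h : Even (u.length + m.length + v.length))
    (hxy : x ≠ q * y) (hzt : z ≠ q * t) :
    (A u.length (u ++ x :: y :: (m ++ z :: t :: v)) - A u.length (u ++ y :: x :: (m ++ z :: t :: v)))
    + (A (u.length + 2 + m.length) (u ++ y :: x :: (m ++ z :: t :: v))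
        - A (u.length + 2 + m.length) (u ++ y :: x :: (m ++ t :: z :: v))) =
    (A (u.length + 2 + m.length) (u ++ x :: y :: (m ++ z :: t :: v))
        - A (u.length + 2 + m.length) (u ++ x :: y :: (m ++ t :: z :: v)))
    + (A u.length (u ++ x :: y :: (m ++ t :: z :: v))
        - A u.length (u ++ y :: x :: (m ++ t :: z :: v))) := by
  have hev1 : ∀ a b : ℂ, Even (u.length + (m ++ a :: b :: v).length) := by
    intro a b
    rcases h with ⟨k, hk⟩
    exact ⟨k + 1, by simp only [List.length_append, List.length_cons]; omega⟩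
  have hev2 : ∀ a b : ℂ, Even ((u ++ a :: b :: m).length + v.length) := by
    intro a b
    rcases h with ⟨k, hk⟩
    exact ⟨k + 1, by simp only [List.length_append, List.length_cons]; omega⟩
  have hlen : ∀ a b : ℂ, (u ++ a :: b :: m).length = u.length + 2 + m.length := by
    intro a b
    simp only [List.length_append, List.length_cons]; omega
  have hl : ∀ a b c d : ℂ, (u ++ a :: b :: m) ++ c :: d :: v = u ++ a :: b :: (m ++ c :: d :: v) := by
    intro a b c d; simp
  -- the exchange of `z, t`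
  have hex2 : ∀ (F : Word → ℂ) (a b : ℂ),
      (q * z - q^2 * t) * lin F (u ++ a :: b :: (m ++ t :: z :: v)) =
      (q * t - q^2 * z) * lin F (u ++ a :: b :: (m ++ z :: t :: v)) +
      (t - z) * lin (fun w => F (act (u.length + 2 + m.length) w))
        (u ++ a :: b :: (m ++ z :: t :: v)) := by
    intro F a b
    have := lin_exch F (u ++ a :: b :: m) v z t (hev2 a b)
    rw [hl, hl, hlen] at this
    exact this
  have hexA : ∀ (a b : ℂ),
      (q * z - q^2 * t) * A (u.length + 2 + m.length) (u ++ a :: b :: (m ++ t :: z :: v)) =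
      (q * t - q^2 * z) * A (u.length + 2 + m.length) (u ++ a :: b :: (m ++ z :: t :: v)) +
      (t - z) * Z (u ++ a :: b :: (m ++ z :: t :: v)) := by
    intro a b
    have := A_exch (u ++ a :: b :: m) v z t (hev2 a b)
    rw [hl, hl, hlen] at this
    exact this
  have hZ1 : Z (u ++ x :: y :: (m ++ t :: z :: v)) = Z (u ++ x :: y :: (m ++ z :: t :: v)) := by
    have := Z_swap (u ++ x :: y :: m) v z t (hev2 x y)
    rw [hl, hl] at this
    exact this
  have hZ2 : Z (u ++ y :: x :: (m ++ z :: t :: v)) = Z (u ++ x :: y :: (m ++ z :: t :: v)) :=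
    Z_swap u _ x y (hev1 z t)
  have e1 := A_exch u (m ++ z :: t :: v) x y (hev1 z t)
  have e2 := A_exch u (m ++ t :: z :: v) x y (hev1 t z)
  have e3 := hexA x y
  have e4 := hexA y x
  have e5 := hex2 (fun w => if arc u.length w then 1 else 0) x y
  have e6 := lin_exch (fun w => if arc (u.length + 2 + m.length) w then 1 else 0) u
    (m ++ z :: t :: v) x y (hev1 z t)
  rw [hZ1] at e2
  rw [hZ2] at e4
  rw [coef_eq x y] at e1 e2 e6
  rw [coef_eq z t] at e3 e4 e5
  refine comm_alg (gen_ne hxy) (gen_ne hzt) e1 e2 e3 e4 e5 e6 ?_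
  -- the commutation of the small arcs
  show lin _ _ + lin _ _ = lin _ _ + lin _ _
  rw [← lin_add, ← lin_add]
  apply lin_congr
  intro w hw hwl
  have hwl' : w.length = u.length + (2 + (m.length + (2 + v.length))) := by
    rw [hwl]
    simp only [List.length_append, List.length_cons]; omega
  exact arc_comm hw (by omega) (by omega)

theorem A_braid_gen (u v : List ℂ) (x y z : ℂ) (h : Odd (u.length + v.length))
    (hxy : x ≠ q * y) (hxz : x ≠ q * z) (hyz : y ≠ q * z) :
    (A u.length (u ++ x :: y :: z :: v) - A u.length (u ++ y :: x :: z :: v))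
    + (A (u.length + 1) (u ++ y :: x :: z :: v) - A (u.length + 1) (u ++ y :: z :: x :: v))
    + (A u.length (u ++ y :: z :: x :: v) - A u.length (u ++ z :: y :: x :: v)) =
    (A (u.length + 1) (u ++ x :: y :: z :: v) - A (u.length + 1) (u ++ x :: z :: y :: v))
    + (A u.length (u ++ x :: z :: y :: v) - A u.length (u ++ z :: x :: y :: v))
    + (A (u.length + 1) (u ++ z :: x :: y :: v) - A (u.length + 1) (u ++ z :: y :: x :: v)) := by
  have hev1 : ∀ a : ℂ, Even (u.length + (a :: v).length) := by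
    intro a
    rcases h with ⟨k, hk⟩
    exact ⟨k + 1, by simp only [List.length_cons]; omega⟩
  have hev2 : ∀ a : ℂ, Even ((u ++ [a]).length + v.length) := by
    intro a
    rcases h with ⟨k, hk⟩
    exact ⟨k + 1, by simp only [List.length_append, List.length_cons, List.length_nil]; omega⟩
  have hlen : ∀ a : ℂ, (u ++ [a]).length = u.length + 1 := by
    intro a; simp
  have hl : ∀ a b c : ℂ, (u ++ [a]) ++ b :: c :: v = u ++ a :: b :: c :: v := by
    intro a b c; simp
  -- exchanges at the second place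
  have hA2 : ∀ a b c : ℂ, (q * b - q^2 * c) * A (u.length + 1) (u ++ a :: c :: b :: v) =
      (q * c - q^2 * b) * A (u.length + 1) (u ++ a :: b :: c :: v) +
      (c - b) * Z (u ++ a :: b :: c :: v) := by
    intro a b c
    have := A_exch (u ++ [a]) v b c (hev2 a)
    rw [hl, hl, hlen] at this
    exact this
  have hA3 : ∀ a b c : ℂ, (q * b - q^2 * c) * A u.length (u ++ a :: c :: b :: v) =
      (q * c - q^2 * b) * A u.length (u ++ a :: b :: c :: v) := by
    intro a b c
    have := A_exch_pred (u ++ [a]) v b c (hev2 a) (by rw [hlen]; omega)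
    rw [hl, hl, hlen, Nat.add_sub_cancel] at this
    exact this
  have hZ2 : ∀ a b c : ℂ, Z (u ++ a :: c :: b :: v) = Z (u ++ a :: b :: c :: v) := by
    intro a b c
    have := Z_swap (u ++ [a]) v b c (hev2 a)
    rw [hl, hl] at this
    exact this
  have hZ1 : ∀ a b c : ℂ, Z (u ++ b :: a :: c :: v) = Z (u ++ a :: b :: c :: v) :=
    fun a b c => Z_swap u (c :: v) a b (hev1 c)
  have z1 : Z (u ++ y :: x :: z :: v) = Z (u ++ x :: y :: z :: v) := hZ1 x y z
  have z2 : Z (u ++ y :: z :: x :: v) = Z (u ++ x :: y :: z :: v) := by rw [hZ2 y x z, z1]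
  have z3 : Z (u ++ x :: z :: y :: v) = Z (u ++ x :: y :: z :: v) := hZ2 x y z
  have z4 : Z (u ++ z :: x :: y :: v) = Z (u ++ x :: y :: z :: v) := by rw [hZ1 x z y, z3]
  have e1 := A_exch u (z :: v) x y (hev1 z)
  have e2 := hA3 y x z
  have e3 := A_exch u (x :: v) y z (hev1 x)
  have e4 := hA3 x y z
  have e5 := A_exch u (y :: v) x z (hev1 y)
  have e6 := A_exch_succ u (z :: v) x y (hev1 z)
  have e7 := hA2 y x z
  have e8 := hA2 x y z
  have e9 := A_exch_succ u (y :: v) x z (hev1 y)
  have e10 := hA2 z x y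
  rw [z2] at e3
  rw [z3] at e5
  rw [z1] at e7
  rw [z4] at e10
  exact braid_alg (gen_ne hxy) (gen_ne hxz) (gen_ne hyz) e1 e2 e3 e4 e5 e6 e7 e8 e9 e10

end T05

open T05 in
theorem A_comm (u m v : List ℂ) (x y z t : ℂ) (h : Even (u.length + m.length + v.length)) :
    (A u.length (u ++ x :: y :: (m ++ z :: t :: v)) - A u.length (u ++ y :: x :: (m ++ z :: t :: v)))
    + (A (u.length + 2 + m.length) (u ++ y :: x :: (m ++ z :: t :: v))
        - A (u.length + 2 + m.length) (u ++ y :: x :: (m ++ t :: z :: v))) =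
    (A (u.length + 2 + m.length) (u ++ x :: y :: (m ++ z :: t :: v))
        - A (u.length + 2 + m.length) (u ++ x :: y :: (m ++ t :: z :: v)))
    + (A u.length (u ++ x :: y :: (m ++ t :: z :: v))
        - A u.length (u ++ y :: x :: (m ++ t :: z :: v))) := by
  classical
  have hx1 : ∀ (i : ℕ) (a b : ℂ), IsPoly (fun x => A i (u ++ x :: y :: (m ++ a :: b :: v))) := by
    intro i a b
    apply A_poly' i u (y :: (m ++ a :: b :: v)) _ (fun _ => rfl)
    rcases h with ⟨k, hk⟩
    exact ⟨k + 1, by simp only [List.length_append, List.length_cons]; omega⟩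
  have hx2 : ∀ (i : ℕ) (a b : ℂ), IsPoly (fun x => A i (u ++ y :: x :: (m ++ a :: b :: v))) := by
    intro i a b
    apply A_poly' i (u ++ [y]) (m ++ a :: b :: v) _ (fun _ => by simp)
    rcases h with ⟨k, hk⟩
    exact ⟨k + 1, by simp only [List.length_append, List.length_cons, List.length_nil]; omega⟩
  have hz1 : ∀ (i : ℕ) (a b : ℂ), IsPoly (fun z => A i (u ++ a :: b :: (m ++ z :: t :: v))) := by
    intro i a b
    apply A_poly' i (u ++ a :: b :: m) (t :: v) _ (fun _ => by simp)
    rcases h with ⟨k, hk⟩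
    exact ⟨k + 1, by simp only [List.length_append, List.length_cons]; omega⟩
  have hz2 : ∀ (i : ℕ) (a b : ℂ), IsPoly (fun z => A i (u ++ a :: b :: (m ++ t :: z :: v))) := by
    intro i a b
    apply A_poly' i (u ++ a :: b :: (m ++ [t])) v _ (fun _ => by simp)
    rcases h with ⟨k, hk⟩
    exact ⟨k + 1, by simp only [List.length_append, List.length_cons, List.length_nil]; omega⟩
  -- first remove the exceptional `x`
  have key : ∀ z : ℂ, z ∉ ({q * t} : Finset ℂ) →
    (A u.length (u ++ x :: y :: (m ++ z :: t :: v)) - A u.length (u ++ y :: x :: (m ++ z :: t :: v)))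
    + (A (u.length + 2 + m.length) (u ++ y :: x :: (m ++ z :: t :: v))
        - A (u.length + 2 + m.length) (u ++ y :: x :: (m ++ t :: z :: v))) =
    (A (u.length + 2 + m.length) (u ++ x :: y :: (m ++ z :: t :: v))
        - A (u.length + 2 + m.length) (u ++ x :: y :: (m ++ t :: z :: v)))
    + (A u.length (u ++ x :: y :: (m ++ t :: z :: v))
        - A u.length (u ++ y :: x :: (m ++ t :: z :: v))) := by
    intro z hz
    have hz' : z ≠ q * t := fun h0 => hz (by rw [h0]; exact Finset.mem_singleton_self _)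
    refine IsPoly.eq_of_ne (((hx1 _ _ _).sub (hx2 _ _ _)).add ((hx2 _ _ _).sub (hx2 _ _ _)))
      (((hx1 _ _ _).sub (hx1 _ _ _)).add ((hx1 _ _ _).sub (hx2 _ _ _))) {q * y} ?_ x
    intro x hx
    exact A_comm_gen u m v x y z t h
      (fun h0 => hx (by rw [h0]; exact Finset.mem_singleton_self _)) hz'
  exact IsPoly.eq_of_ne (((hz1 _ _ _).sub (hz1 _ _ _)).add ((hz1 _ _ _).sub (hz2 _ _ _)))
      (((hz1 _ _ _).sub (hz2 _ _ _)).add ((hz2 _ _ _).sub (hz2 _ _ _))) {q * t} key z

open T05 in
theorem A_braid (u v : List ℂ) (x y z : ℂ) (h : Odd (u.length + v.length)) :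
    (A u.length (u ++ x :: y :: z :: v) - A u.length (u ++ y :: x :: z :: v))
    + (A (u.length + 1) (u ++ y :: x :: z :: v) - A (u.length + 1) (u ++ y :: z :: x :: v))
    + (A u.length (u ++ y :: z :: x :: v) - A u.length (u ++ z :: y :: x :: v)) =
    (A (u.length + 1) (u ++ x :: y :: z :: v) - A (u.length + 1) (u ++ x :: z :: y :: v))
    + (A u.length (u ++ x :: z :: y :: v) - A u.length (u ++ z :: x :: y :: v))
    + (A (u.length + 1) (u ++ z :: x :: y :: v) - A (u.length + 1) (u ++ z :: y :: x :: v)) := by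
  classical
  -- the three places of a variable
  have p1 : ∀ (i : ℕ) (a b : ℂ), IsPoly (fun x => A i (u ++ x :: a :: b :: v)) := by
    intro i a b
    apply A_poly' i u (a :: b :: v) _ (fun _ => rfl)
    rcases h with ⟨k, hk⟩
    exact ⟨k + 1, by simp only [List.length_cons]; omega⟩
  have p2 : ∀ (i : ℕ) (a b : ℂ), IsPoly (fun x => A i (u ++ a :: x :: b :: v)) := by
    intro i a b
    apply A_poly' i (u ++ [a]) (b :: v) _ (fun _ => by simp)
    rcases h with ⟨k, hk⟩
    exact ⟨k + 1, by simp only [List.length_append, List.length_cons, List.length_nil]; omega⟩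
  have p3 : ∀ (i : ℕ) (a b : ℂ), IsPoly (fun x => A i (u ++ a :: b :: x :: v)) := by
    intro i a b
    apply A_poly' i (u ++ [a, b]) v _ (fun _ => by simp)
    rcases h with ⟨k, hk⟩
    exact ⟨k + 1, by simp only [List.length_append, List.length_cons, List.length_nil]; omega⟩
  -- first remove the exceptional `x`
  have key : ∀ y : ℂ, y ∉ ({q * z} : Finset ℂ) →
      (A u.length (u ++ x :: y :: z :: v) - A u.length (u ++ y :: x :: z :: v))
      + (A (u.length + 1) (u ++ y :: x :: z :: v) - A (u.length + 1) (u ++ y :: z :: x :: v))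
      + (A u.length (u ++ y :: z :: x :: v) - A u.length (u ++ z :: y :: x :: v)) =
      (A (u.length + 1) (u ++ x :: y :: z :: v) - A (u.length + 1) (u ++ x :: z :: y :: v))
      + (A u.length (u ++ x :: z :: y :: v) - A u.length (u ++ z :: x :: y :: v))
      + (A (u.length + 1) (u ++ z :: x :: y :: v) - A (u.length + 1) (u ++ z :: y :: x :: v)) := by
    intro y hy
    have hy' : y ≠ q * z := fun h0 => hy (by rw [h0]; exact Finset.mem_singleton_self _)
    refine IsPoly.eq_of_ne ((((p1 _ _ _).sub (p2 _ _ _)).add ((p2 _ _ _).sub (p3 _ _ _))).add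
        ((p3 _ _ _).sub (p3 _ _ _)))
      ((((p1 _ _ _).sub (p1 _ _ _)).add ((p1 _ _ _).sub (p2 _ _ _))).add
        ((p2 _ _ _).sub (p3 _ _ _))) {q * y, q * z} ?_ x
    intro x hx
    exact A_braid_gen u v x y z h
      (fun h0 => hx (by rw [h0]; exact Finset.mem_insert_self _ _))
      (fun h0 => hx (by rw [h0]; exact Finset.mem_insert_of_mem (Finset.mem_singleton_self _))) hy'
  exact IsPoly.eq_of_ne ((((p2 _ _ _).sub (p1 _ _ _)).add ((p1 _ _ _).sub (p1 _ _ _))).add
        ((p1 _ _ _).sub (p2 _ _ _)))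
      ((((p2 _ _ _).sub (p3 _ _ _)).add ((p3 _ _ _).sub (p3 _ _ _))).add
        ((p3 _ _ _).sub (p2 _ _ _))) {q * z} key y

end Pool.Agent.H980R2.Cross
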