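import Pool.Agent.H980R2.Cross.T01

/-! T02: small arcs and openings at even positions, under `act`.

`act i w = ins i (cap i w)` gives the first three (use `length_cap`).
`arc_comm` and `nn_act`: induction on `Dyck w` (`w = ins k w'`), with the lemmas `act_ins_self`,
`act_ins_succ`, `act_succ_ins`, `act_ins_right`, `act_ins_left` of `H988R2.Perc.T01` and T01:
* `nn_act`: `k = i`: `act i w = w`, both sides agree. `k = i+1`: `act i (ins (i+1) w') = ins i w'`.
  `k + 1 = i`: `act (k+1) (ins k w') = ins (k+1) w'`. Otherwise `act i` commutes with `ins k`.
* `arc_comm` (both sides count the loops closed by `act i` and `act j`): distinguish whether `k`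
  is `i-1, i, i+1, j-1, j, j+1` or none of them (then reduce to `w'` with shifted positions;
  note the case `j = i+2`, `k = i+1 = j-1`). -/

namespace Pool.Agent.H980R2.Cross

open Pool.Agent.H988R2.Perc

theorem arc_act_self {i : ℕ} {w : Word} (h : i + 2 ≤ w.length) : arc i (act i w) := by
  unfold act
  exact arc_ins_self (by rw [length_cap h]; omega)

theorem not_arc_succ_act {i : ℕ} {w : Word} (h : i + 2 ≤ w.length) : ¬ arc (i+1) (act i w) := by
  unfold act
  exact not_arc_succ_ins (by rw [length_cap h]; omega)

theorem not_arc_act_succ {i : ℕ} {w : Word} (h : i + 3 ≤ w.length) : ¬ arc i (act (i+1) w) := by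
  unfold act
  exact not_arc_ins_succ (by rw [length_cap (by omega)]; omega)

theorem t02_ite {P Q : Prop} [Decidable P] [Decidable Q] (h : P ↔ Q) :
    (if P then (1 : ℂ) else 0) = if Q then 1 else 0 := by
  simp only [h]

theorem t02_pos {P : Prop} [Decidable P] (h : P) : (if P then (1 : ℂ) else 0) = 1 := if_pos h

theorem t02_neg {P : Prop} [Decidable P] (h : ¬ P) : (if P then (1 : ℂ) else 0) = 0 := if_neg h

theorem arc_comm {i j : ℕ} {w : Word} (hw : Dyck w) (hij : i + 2 ≤ j) (hj : j + 2 ≤ w.length) :
    (if arc i w then (1:ℂ) else 0) + (if arc j (act i w) then 1 else 0) =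
      (if arc j w then 1 else 0) + (if arc i (act j w) then 1 else 0) := by
  induction hw generalizing i j with
  | nil => simp at hj
  | ins k w0 hk h0 ih =>
    rw [length_ins] at hj
    have hj' : j ≤ w0.length := by omega
    have hli : (act i w0).length = w0.length := length_act (by omega)
    rcases (by omega : k + 2 ≤ i ∨ i = k + 1 ∨ i = k ∨ k = i + 1 ∨ i + 2 ≤ k) with
      c | c | c | c | c
    · -- `k + 2 ≤ i`
      have hl1 : (act (i - 2) w0).length = w0.length := length_act (by omega)
      have hl2 : (act (j - 2) w0).length = w0.length := length_act (by omega)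
      rw [act_ins_left c (by omega), act_ins_left (by omega) hj',
        t02_ite (arc_ins_right c (by omega)),
        t02_ite (arc_ins_right (j := j) (w := act (i - 2) w0) (i := k) (by omega) (by omega)),
        t02_ite (arc_ins_right (j := j) (w := w0) (i := k) (by omega) (by omega)),
        t02_ite (arc_ins_right (j := i) (w := act (j - 2) w0) (i := k) (by omega) (by omega))]
      exact ih (by omega) (by omega)
    · -- `i = k + 1`
      subst c
      have hl2 : (act (j - 2) w0).length = w0.length := length_act (by omega)
      rw [act_succ_ins (by omega), act_ins_left (by omega) hj',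
        t02_neg (not_arc_succ_ins (by omega)),
        t02_ite (arc_ins_right (j := j) (w := w0) (i := k + 1) (by omega) (by omega)),
        t02_ite (arc_ins_right (j := j) (w := w0) (i := k) (by omega) (by omega)),
        t02_neg (not_arc_succ_ins (i := k) (w := act (j - 2) w0) (by omega))]
      ring
    · -- `i = k`
      subst c
      have hl2 : (act (j - 2) w0).length = w0.length := length_act (by omega)
      rw [act_ins_self (by omega), act_ins_left (by omega) hj',
        t02_pos (arc_ins_self (by omega)),
        t02_pos (arc_ins_self (i := i) (w := act (j - 2) w0) (by omega))]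
      ring
    · -- `k = i + 1`
      subst c
      rw [act_ins_succ (by omega), t02_neg (not_arc_ins_succ (by omega)),
        t02_ite (arc_ins_right (j := j) (w := w0) (i := i) (by omega) (by omega))]
      rcases (by omega : i + 3 ≤ j ∨ j = i + 2) with c | c
      · have hl2 : (act (j - 2) w0).length = w0.length := length_act (by omega)
        rw [act_ins_left (by omega) hj',
          t02_ite (arc_ins_right (j := j) (w := w0) (i := i + 1) (by omega) (by omega)),
          t02_neg (not_arc_ins_succ (i := i) (w := act (j - 2) w0) (by omega))]
        ring
      · subst c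
        rw [act_succ_ins (i := i + 1) (by omega),
          t02_neg (not_arc_succ_ins (i := i + 1) (w := w0) (by omega)),
          t02_ite (arc_ins_left (i := i + 2) (j := i) (w := w0) (by omega) (by omega)),
          Nat.add_sub_cancel]
    · -- `i + 2 ≤ k`
      rw [act_ins_right c hk, t02_ite (arc_ins_left (w := w0) c hk)]
      rcases (by omega : k + 2 ≤ j ∨ j = k + 1 ∨ j = k ∨ k = j + 1 ∨ j + 2 ≤ k) with
        e | e | e | e | e
      · have hl2 : (act (j - 2) w0).length = w0.length := length_act (by omega)
        rw [act_ins_left e hj',
          t02_ite (arc_ins_right (j := j) (w := act i w0) (i := k) (by omega) (by omega)),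
          t02_ite (arc_ins_right (j := j) (w := w0) (i := k) (by omega) (by omega)),
          t02_ite (arc_ins_left (w := act (j - 2) w0) c (by omega))]
        exact ih (by omega) (by omega)
      · subst e
        rw [act_succ_ins (by omega),
          t02_neg (not_arc_succ_ins (i := k) (w := act i w0) (by omega)),
          t02_neg (not_arc_succ_ins (i := k) (w := w0) (by omega)),
          t02_ite (arc_ins_left (i := k + 1) (j := i) (w := w0) (by omega) (by omega))]
        ring
      · subst e
        rw [act_ins_self (by omega),
          t02_pos (arc_ins_self (i := j) (w := act i w0) (by omega)),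
          t02_pos (arc_ins_self (i := j) (w := w0) (by omega)),
          t02_ite (arc_ins_left (i := j) (j := i) (w := w0) (by omega) (by omega))]
        ring
      · subst e
        rw [act_ins_succ (by omega),
          t02_neg (not_arc_ins_succ (i := j) (w := act i w0) (by omega)),
          t02_neg (not_arc_ins_succ (i := j) (w := w0) (by omega)),
          t02_ite (arc_ins_left (i := j) (j := i) (w := w0) (by omega) (by omega))]
        ring
      · have hl2 : (act j w0).length = w0.length := length_act (by omega)
        rw [act_ins_right e hk,
          t02_ite (arc_ins_left (i := k) (j := j) (w := act i w0) (by omega) (by omega)),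
          t02_ite (arc_ins_left (i := k) (j := j) (w := w0) (by omega) (by omega)),
          t02_ite (arc_ins_left (i := k) (j := i) (w := act j w0) (by omega) (by omega))]
        exact ih (by omega) (by omega)

theorem nn_act {i : ℕ} {w : Word} (hw : Dyck w) (hi : i + 2 ≤ w.length) :
    (nn (act i w) : ℂ) = nn w +
      (if i % 2 = 0 then 1 else -1) * (1 - (if arc i w then 1 else 0)) := by
  induction hw generalizing i with
  | nil => simp at hi
  | ins k w0 hk h0 ih =>
    rw [length_ins] at hi
    rcases (by omega : k + 2 ≤ i ∨ i = k + 1 ∨ i = k ∨ k = i + 1 ∨ i + 2 ≤ k) with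
      c | c | c | c | c
    · have hl : (act (i - 2) w0).length = w0.length := length_act (by omega)
      have hpar : (i - 2) % 2 = i % 2 := by omega
      have h1 := ih (i := i - 2) (by omega)
      rw [hpar] at h1
      rw [act_ins_left c (by omega), nn_ins (by omega), nn_ins hk,
        t02_ite (arc_ins_right c (by omega))]
      push_cast
      rw [h1]
      ring
    · subst c
      rw [act_succ_ins (by omega), nn_ins (by omega), nn_ins hk,
        t02_neg (not_arc_succ_ins (by omega))]
      rcases Nat.mod_two_eq_zero_or_one k with hp | hp
      · have hp1 : (k + 1) % 2 = 1 := by omega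
        rw [hp, hp1]
        push_cast
        simp
      · have hp1 : (k + 1) % 2 = 0 := by omega
        rw [hp, hp1]
        push_cast
        simp
    · subst c
      rw [act_ins_self (by omega), t02_pos (arc_ins_self (by omega))]
      ring
    · subst c
      rw [act_ins_succ (by omega), nn_ins (by omega), nn_ins hk,
        t02_neg (not_arc_ins_succ (by omega))]
      rcases Nat.mod_two_eq_zero_or_one i with hp | hp
      · have hp1 : (i + 1) % 2 = 1 := by omega
        rw [hp, hp1]
        push_cast
        simp
      · have hp1 : (i + 1) % 2 = 0 := by omega
        rw [hp, hp1]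
        push_cast
        simp
    · have hl : (act i w0).length = w0.length := length_act (by omega)
      rw [act_ins_right c hk, nn_ins (by omega), nn_ins hk,
        t02_ite (arc_ins_left (w := w0) c hk)]
      push_cast
      rw [ih (by omega)]
      ring

end Pool.Agent.H980R2.Cross
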