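import Pool.Agent.H980R2.Cross.T19
import Pool.Agent.H988R2.Perc.T24

/-! T21: convergence of `JT N (law N M)`.

`|JT N f| ≤ 2N nrm f` and linearity (`nrm`: `H988R2.Perc.T24`; `nrm (tile p f) ≤ nrm f`,
`nrm (mapDomain ..) ≤ nrm`, `‖phi p f‖ ≤ nrm f`), and `law N M = (Tvec N)^[M] u + w` with
`w = (mass v)⁻¹ • v`, `v = Psi (1^N ++ [0])`, `nrm ((Tvec N)^[M] u) → 0` (see the proof of `pair_law_tendsto`
in `H988R2.Perc.T24`: `iter_bound`; `stationary` in T20; `Psi_supp`; mass `≠ 0` by `Z_ones_zero`, `chi_pos`). -/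

namespace Pool.Agent.H980R2.Cross

open Pool.Agent.H988R2.Perc Finset Filter Topology
open Pool.Agent.H988R2.Perc.T24

namespace T21C

theorem mu_pos (j : ℕ) : 0 < mu j := by unfold mu; omega

theorem mu_lt {i j : ℕ} (h : i < j) : mu i < mu j := by unfold mu; omega

theorem chi_pos (N : ℕ) : 0 < chi N := by
  unfold chi
  apply mul_pos
  · apply Finset.prod_pos
    intro j _
    have : (0 : ℝ) < (mu j : ℝ) := by exact_mod_cast mu_pos j
    positivity
  · apply Finset.prod_pos
    intro j _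
    apply Finset.prod_pos
    intro i hi
    rw [Finset.mem_range] at hi
    have h1 : (mu i : ℝ) < mu j := by exact_mod_cast mu_lt hi
    have h2 : (i : ℝ) < j := by exact_mod_cast hi
    have h3 : (0 : ℝ) < mu i := by exact_mod_cast mu_pos i
    have h4 : (0 : ℝ) ≤ i := Nat.cast_nonneg i
    apply div_pos
    · nlinarith
    · nlinarith

theorem norm_phi_le (p : ℕ) (f : St →₀ ℂ) : ‖phi p f‖ ≤ nrm f := by
  classical
  unfold phi nrm
  rw [Finsupp.sum, Finsupp.sum]
  refine (norm_sum_le _ _).trans (Finset.sum_le_sum fun R _ => ?_)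
  split_ifs
  · exact le_rfl
  · rw [norm_zero]; exact norm_nonneg _

theorem fwV_add (d L : ℕ) (f g : St →₀ ℂ) : fwV d L (f + g) = fwV d L f + fwV d L g := by
  induction L with
  | zero => rfl
  | succ L ih => rw [fwV, fwV, fwV, ih, (dob_tile _).add]

theorem fwV_smul (d L : ℕ) (c : ℂ) (f : St →₀ ℂ) : fwV d L (c • f) = c • fwV d L f := by
  induction L with
  | zero => rfl
  | succ L ih => rw [fwV, fwV, ih, (dob_tile _).smul]

theorem nrm_fwV_le (d L : ℕ) (f : St →₀ ℂ) : nrm (fwV d L f) ≤ nrm f := by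
  induction L with
  | zero => exact le_rfl
  | succ L ih => rw [fwV]; exact ((dob_tile _).nrm_le _).trans ih

theorem JF_add (d L : ℕ) (f g : St →₀ ℂ) : JF d L (f + g) = JF d L f + JF d L g := by
  induction L with
  | zero => simp [JF]
  | succ L ih =>
    rw [JF, JF, JF, ih, fwV_add]
    split_ifs
    · rw [phi_add]; ring
    · ring

theorem JF_smul (d L : ℕ) (c : ℂ) (f : St →₀ ℂ) : JF d L (c • f) = c * JF d L f := by
  induction L with
  | zero => simp [JF]
  | succ L ih =>
    rw [JF, JF, ih, fwV_smul]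
    split_ifs
    · rw [phi_smul]; ring
    · ring

theorem JB_add (d L : ℕ) (f g : St →₀ ℂ) : JB d L (f + g) = JB d L f + JB d L g := by
  induction L generalizing f g with
  | zero => simp [JB]
  | succ L ih =>
    rw [JB, JB, JB, (dob_tile _).add, ih]
    split_ifs
    · rw [phi_add]; ring
    · ring

theorem JB_smul (d L : ℕ) (c : ℂ) (f : St →₀ ℂ) : JB d L (c • f) = c * JB d L f := by
  induction L generalizing f with
  | zero => simp [JB]
  | succ L ih =>
    rw [JB, JB, (dob_tile _).smul, ih]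
    split_ifs
    · rw [phi_smul]; ring
    · ring

theorem norm_JF_le (d L : ℕ) (f : St →₀ ℂ) : ‖JF d L f‖ ≤ L * nrm f := by
  induction L with
  | zero => simp [JF]
  | succ L ih =>
    rw [JF]
    refine (norm_add_le _ _).trans ?_
    have h1 : ‖(if (L+d) % 2 = 1 then phi (L+d) (fwV d L f) else 0)‖ ≤ nrm f := by
      split_ifs
      · exact (norm_phi_le _ _).trans (nrm_fwV_le d L f)
      · rw [norm_zero]; exact nrm_nonneg f
    push_cast
    linarith

theorem norm_JB_le (d L : ℕ) (f : St →₀ ℂ) : ‖JB d L f‖ ≤ L * nrm f := by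
  induction L generalizing f with
  | zero => simp [JB]
  | succ L ih =>
    rw [JB]
    refine (norm_add_le _ _).trans ?_
    have h1 : ‖(if (L+d) % 2 = 1 then phi (L+d) f else 0)‖ ≤ nrm f := by
      split_ifs
      · exact norm_phi_le _ _
      · rw [norm_zero]; exact nrm_nonneg f
    have h2 := ih (tile (L+d) f)
    have h3 := (dob_tile (L+d)).nrm_le f
    have h4 : (L : ℝ) * nrm (tile (L+d) f) ≤ L * nrm f :=
      mul_le_mul_of_nonneg_left h3 (Nat.cast_nonneg L)
    push_cast
    linarith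

theorem ins0_add (f g : St →₀ ℂ) : ins0 (f + g) = ins0 f + ins0 g := by
  unfold ins0; exact Finsupp.mapDomain_add

theorem ins0_smul (c : ℂ) (f : St →₀ ℂ) : ins0 (c • f) = c • ins0 f := by
  unfold ins0; exact Finsupp.mapDomain_smul c f

theorem JT_add (L : ℕ) (f g : St →₀ ℂ) : JT L (f + g) = JT L f + JT L g := by
  unfold JT
  rw [ins0_add, JF_add, fwV_add, JB_add]
  ring

theorem JT_smul (L : ℕ) (c : ℂ) (f : St →₀ ℂ) : JT L (c • f) = c * JT L f := by
  unfold JT
  rw [ins0_smul, JF_smul, fwV_smul, JB_smul]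
  ring

theorem norm_JT_le (L : ℕ) (f : St →₀ ℂ) : ‖JT L f‖ ≤ 2 * L * nrm f := by
  unfold JT
  refine (norm_add_le _ _).trans ?_
  have h1 := norm_JF_le 1 L (ins0 f)
  have h2 := norm_JB_le 1 L (fwV 1 L (ins0 f))
  have h3 := nrm_fwV_le 1 L (ins0 f)
  have h4 : nrm (ins0 f) ≤ nrm f := nrm_mapDomain_le _ f
  have hL : (0 : ℝ) ≤ L := Nat.cast_nonneg L
  have h5 : (L : ℝ) * nrm (ins0 f) ≤ L * nrm f := mul_le_mul_of_nonneg_left h4 hL
  have h6 : (L : ℝ) * nrm (fwV 1 L (ins0 f)) ≤ L * nrm f :=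
    mul_le_mul_of_nonneg_left (h3.trans h4) hL
  linarith

end T21C

open T21C

theorem JT_law_tendsto (N : ℕ) (hN : Odd N) :
    Tendsto (fun M => JT N (law N M)) atTop
      (𝓝 ((N : ℂ) + 1 + LD (-q) ((-q^2) :: (List.replicate N 1 ++ [0])))) := by
  set v : St →₀ ℂ := Psi (List.replicate N 1 ++ [0]) with hv
  have hT : Tvec N v = v := stationary N hN
  have hlen : (List.replicate N (1:ℂ) ++ [0]).length = N + 1 := by simp
  have hs : BdV (N+1) v := by
    intro R hR a b hab
    have h := Psi_supp (List.replicate N 1 ++ [0]) (by rw [hlen]; exact hN.add_one) R hR a b hab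
    rw [hlen] at h
    exact h
  have hmZ : mass v = Z (List.replicate N 1 ++ [0]) := rfl
  have hm : mass v ≠ 0 := by
    rw [hmZ]
    obtain ⟨n, rfl⟩ := hN
    rw [Z_ones_zero]
    exact mul_ne_zero (pow_ne_zero _ q_ne_zero)
      (by exact_mod_cast (chi_pos (2*n+1)).ne')
  set w : St →₀ ℂ := (mass v)⁻¹ • v with hw
  have hwT : Tvec N w = w := by rw [hw, (dob_Tvec N).smul, hT]
  have hwm : mass w = 1 := by rw [hw, T24.mass_smul, inv_mul_cancel₀ hm]
  have hwB : BdV (N+1) w := BdV.smul (fun R hR => hs R hR) _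
  set u : St →₀ ℂ := Finsupp.single St.bot 1 + (-1 : ℂ) • w with hu
  have huB : BdV (N+1) u := by
    refine BdV.add ?_ (hwB.smul _)
    intro R hR a b h
    have : R = St.bot := by
      have := Finsupp.support_single_subset hR
      simpa using this
    subst this
    exact Or.inl h
  have hum : mass u = 0 := by
    rw [hu, T24.mass_add, T24.mass_smul, T24.mass_single, hwm]; ring
  have hlaw : ∀ M, law N M = (Tvec N)^[M] u + w := by
    intro M
    have e : (Finsupp.single St.bot 1 : St →₀ ℂ) = u + w := by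
      rw [hu]; simp
    rw [law, e, iter_add, iter_fix N M w hwT]
  have hw2 : JT N w = (N : ℂ) + 1 + LD (-q) ((-q^2) :: (List.replicate N 1 ++ [0])) := by
    rw [hw, JT_smul, hv, JT_value N hN, ← hv, ← hmZ]
    field_simp
  rw [← hw2]
  set ρ : ℝ := 1 - (1/2)^N * (1/2)^N with hρ
  have hρ0 : 0 ≤ ρ := by have := (dob_Tvec N).le; linarith
  have hρ1 : ρ < 1 := by
    have : (0:ℝ) < (1/2)^N * (1/2)^N := by positivity
    linarith
  have hlim : Tendsto (fun M : ℕ => 2 * (N:ℝ) * (ρ^M * nrm u)) atTop (𝓝 0) := by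
    have := (tendsto_pow_atTop_nhds_zero_of_lt_one hρ0 hρ1).mul_const (nrm u)
    have := this.const_mul (2 * (N:ℝ))
    simpa using this
  rw [tendsto_iff_norm_sub_tendsto_zero]
  refine squeeze_zero (fun _ => norm_nonneg _) (fun M => ?_) hlim
  obtain ⟨h1, _, _⟩ := iter_bound hN huB hum M
  rw [hlaw M, JT_add, add_sub_cancel_right]
  refine (norm_JT_le N _).trans ?_
  exact mul_le_mul_of_nonneg_left h1 (by positivity)

end Pool.Agent.H980R2.Cross
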