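import Pool.Agent.H980R2.Cross.Defs

/-! T11: lacunary sequences with many vanishing moments, evaluated at the sixth root of unity
`ζ = -q` (`ζ³ = -1`, `ζ + ζ⁻¹ = 1`, `ζ - ζ⁻¹ = q² - q =: s`, `s² = -3`).

`mu k = (3k+2)/2`: `1,2,4,5,7,8,…` the positive non-multiples of `3`; `|Lam k| = 2(k+1)`;
`Lam (k+1) = Lam k ∪ {±mu (k+1)}`; `mu (k+2) = mu k + 3`.

* `vandermonde_zero`: apply the hypothesis to the polynomial `∏_{l' ∈ S∖{l}} (X - l')` of degree
  `|S|-1` (a combination of the powers `r < |S|`): gives `c l * ∏(l-l') = 0`.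
* `good_unique`: choose `l0 ∈ Lam k` with `c l0 ≠ 0` and apply `vandermonde_zero` to
  `c' - (c' l0/c l0) c` on `Lam k ∖ {l0}` (`2k+1` elements, `2k+1` vanishing moments).
* `good_down`: `(l² - mu(k+1)²) c l` vanishes at `±mu(k+1)`, its `r`-th moment is
  `m_{r+2} - mu(k+1)² m_r`; it is nonzero, otherwise `c` is supported by `±mu(k+1)` and has
  `2(k+1)+1 ≥ 3` vanishing moments.
* `good_odd`: `l ↦ c (-l)` is also `Good`, so `c(-l) = t c l` with `t² = 1`; `t = 1` would make all
  odd moments vanish, so `2k+2` moments vanish, so `c = 0`.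
* `good_ode`: let `a = mu (k+1)`, `b = mu k`, `d l = (l+a)(l+b) c l - (l-3-a)(l-3-b) c (l-3)`.
  `d` is supported by `Lam (k+1) ∖ {-a,-b}` (`2k+2` elements: every `l ∈ Lam(k+1)∖{a,b}` is `≤ a-3`,
  and `l+3 > -b`), and `∑ d l l^r = ∑ c l [(l+a)(l+b) l^r - (l-a)(l-b)(l+3)^r]` where the bracket is a
  polynomial in `l` of degree `≤ r+1`; so the moments `r < 2k+2` of `d` vanish
  (`c` has `2(k+1)+1 = 2k+3` vanishing moments); `vandermonde_zero` gives `d = 0`.
* `good_second`: multiply `good_ode` by `ζ^l` and sum: `E2+(a+b)E1+ab E0 = ζ³ (E2-(a+b)E1+ab E0)`.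
* `good_third`: multiply by `l ζ^l` and sum: the right side is `ζ³ ∑ (l+3)(l-a)(l-b) c l ζ^l`; use
  `good_second`.
* `good_eval`: induction on `k`.  `k = 0`: `c 1 = -c (-1) ≠ 0`, `E0 = c 1 (ζ-ζ⁻¹)`,
  `E1 = c 1 (ζ+ζ⁻¹)`, `RR 0 = 2`.  Step: for `c' l = (l²-a²) c l` (`good_down`):
  `E0' = E2 - a² E0 = -a(a+b) E0` and `E1' = E3 - a² E1 = -(a+b)(a-3/2) E1`, and
  `RR (k+1) = RR k * (2a)/(2a-3)`. -/

namespace Pool.Agent.H980R2.Cross

open Pool.Agent.H988R2.Perc Finset

/-! ### the numbers `mu` -/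

theorem T11_mu_pos (k : ℕ) : 0 < mu k := by unfold mu; omega

theorem T11_mu_lt (k : ℕ) : mu k < mu (k+1) := by unfold mu; omega

theorem T11_mu_le (k : ℕ) : mu (k+1) ≤ mu k + 2 := by unfold mu; omega

theorem T11_mu_two (k : ℕ) : 2 ≤ mu (k+1) := by unfold mu; omega

theorem T11_mu_ndvd (k : ℕ) : ¬ (3 : ℤ) ∣ (mu k : ℤ) := by unfold mu; omega

/-! ### vanishing of combinations of powers -/

theorem T11_poly (S : Finset ℤ) (c : ℤ → ℂ) (n : ℕ)
    (h : ∀ r < n, ∑ l ∈ S, c l * (l : ℂ)^r = 0) (p : Polynomial ℂ) (hp : p.degree < n) :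
    ∑ l ∈ S, c l * p.eval (l : ℂ) = 0 := by
  have hp' : p.natDegree < n ∨ p = 0 := by
    by_cases h0 : p = 0
    · exact Or.inr h0
    · left
      rw [Polynomial.degree_eq_natDegree h0] at hp
      exact_mod_cast hp
  rcases hp' with hp' | rfl
  · have : ∀ l ∈ S, c l * p.eval (l : ℂ) = ∑ r ∈ range n, p.coeff r * (c l * (l : ℂ)^r) := by
      intro l _
      rw [Polynomial.eval_eq_sum_range' hp', Finset.mul_sum]
      refine Finset.sum_congr rfl fun r _ => by ring
    rw [Finset.sum_congr rfl this, Finset.sum_comm]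
    refine Finset.sum_eq_zero fun r hr => ?_
    rw [← Finset.mul_sum, h r (mem_range.mp hr), mul_zero]
  · simp

theorem vandermonde_zero (S : Finset ℤ) (c : ℤ → ℂ)
    (h : ∀ r < S.card, ∑ l ∈ S, c l * (l : ℂ)^r = 0) : ∀ l ∈ S, c l = 0 := by
  intro l hl
  set p : Polynomial ℂ := ∏ l' ∈ S.erase l, (Polynomial.X - Polynomial.C (l' : ℂ)) with hp
  have hdeg : p.degree < (S.card : ℕ) := by
    rw [hp, Polynomial.degree_prod]
    simp only [Polynomial.degree_X_sub_C, Finset.sum_const, nsmul_eq_mul, mul_one]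
    rw [Finset.card_erase_of_mem hl]
    have : 0 < S.card := Finset.card_pos.mpr ⟨l, hl⟩
    exact_mod_cast Nat.sub_lt this one_pos
  have h1 := T11_poly S c S.card h p hdeg
  rw [Finset.sum_eq_single l] at h1
  · rcases mul_eq_zero.mp h1 with h2 | h2
    · exact h2
    · exfalso
      rw [hp, Polynomial.eval_prod, Finset.prod_eq_zero_iff] at h2
      obtain ⟨l', hl', h3⟩ := h2
      simp only [Polynomial.eval_sub, Polynomial.eval_X, Polynomial.eval_C, sub_eq_zero,
        Int.cast_inj] at h3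
      exact (Finset.mem_erase.mp hl').1 h3.symm
  · intro l' hl' hne
    have : p.eval (l' : ℂ) = 0 := by
      rw [hp, Polynomial.eval_prod, Finset.prod_eq_zero_iff]
      exact ⟨l', Finset.mem_erase.mpr ⟨hne, hl'⟩, by simp⟩
    rw [this, mul_zero]
  · intro hh; exact absurd hl hh

/-! ### the sets `Lam` -/

theorem T11_mem_Lam (k : ℕ) (l : ℤ) : l ∈ Lam k ↔ (-(mu k : ℤ) ≤ l ∧ l ≤ mu k) ∧ ¬ 3 ∣ l := by
  simp only [Lam, mem_filter, mem_Icc]

theorem T11_neg_mem (k : ℕ) (l : ℤ) : -l ∈ Lam k ↔ l ∈ Lam k := by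
  rw [T11_mem_Lam, T11_mem_Lam]
  constructor
  · rintro ⟨⟨h1, h2⟩, h3⟩; refine ⟨⟨by omega, by omega⟩, by omega⟩
  · rintro ⟨⟨h1, h2⟩, h3⟩; refine ⟨⟨by omega, by omega⟩, by omega⟩

theorem Lam_succ (k : ℕ) : Lam (k+1) = Lam k ∪ {(mu (k+1) : ℤ), -(mu (k+1) : ℤ)} := by
  ext l
  simp only [T11_mem_Lam, mem_union, mem_insert, mem_singleton]
  obtain ⟨j, hj | hj⟩ : ∃ j, k = 2 * j ∨ k = 2 * j + 1 := ⟨k / 2, by omega⟩
  · have e1 : (mu (k+1) : ℤ) = 3 * j + 2 := by unfold mu; omega
    have e2 : (mu k : ℤ) = 3 * j + 1 := by unfold mu; omega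
    rw [e1, e2]; omega
  · have e1 : (mu (k+1) : ℤ) = 3 * j + 4 := by unfold mu; omega
    have e2 : (mu k : ℤ) = 3 * j + 2 := by unfold mu; omega
    rw [e1, e2]; omega

theorem T11_Lam_subset (k : ℕ) : Lam k ⊆ Lam (k+1) := by
  rw [Lam_succ]; exact subset_union_left

theorem card_Lam (k : ℕ) : (Lam k).card = 2 * (k + 1) := by
  induction k with
  | zero =>
    have : Lam 0 = {1, -1} := by
      ext l
      simp only [T11_mem_Lam, mem_insert, mem_singleton]
      unfold mu
      omega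
    rw [this]
    decide
  | succ k ih =>
    rw [Lam_succ, Finset.card_union_of_disjoint, ih, Finset.card_pair]
    · ring
    · have := T11_mu_pos (k+1)
      omega
    · rw [Finset.disjoint_left]
      intro l hl hl'
      rw [T11_mem_Lam] at hl
      simp only [mem_insert, mem_singleton] at hl'
      have := T11_mu_lt k
      omega

/-- sums over sets containing the support -/
theorem T11_sum_eq (S T : Finset ℤ) (f : ℤ → ℂ) (hS : ∀ l, l ∉ S → f l = 0)
    (hT : ∀ l, l ∉ T → f l = 0) : ∑ l ∈ S, f l = ∑ l ∈ T, f l := by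
  exact (Finset.sum_subset (Finset.subset_union_left (s₁ := S) (s₂ := T))
      fun l _ hl => hS l hl).trans
    (Finset.sum_subset (Finset.subset_union_right (s₁ := S) (s₂ := T))
      fun l _ hl => hT l hl).symm

/-- shift of a sum -/
theorem T11_shift (S T : Finset ℤ) (f : ℤ → ℂ) (hS : ∀ l, l ∉ S → f l = 0)
    (hT : ∀ l, l ∉ T → f (l + 3) = 0) : ∑ l ∈ S, f l = ∑ l ∈ T, f (l + 3) := by
  have h1 : ∑ l ∈ T, f (l + 3) = ∑ l ∈ T.map ⟨fun l => l + 3, fun a b h => by simpa using h⟩, f l := by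
    rw [Finset.sum_map]; rfl
  rw [h1]
  apply T11_sum_eq S _ f hS
  intro l hl
  have := hT (l - 3) (fun h => hl (by
    rw [Finset.mem_map]
    exact ⟨l - 3, h, by simp⟩))
  simpa using this

/-! ### uniqueness -/

theorem good_unique {k : ℕ} {c c' : ℤ → ℂ} (h : Good k c) (h' : Good k c') :
    ∃ t : ℂ, ∀ l, c' l = t * c l := by
  obtain ⟨l0, hl0⟩ := h.ne
  have hmem : l0 ∈ Lam k := by
    by_contra hh
    exact hl0 (h.supp l0 hh)
  refine ⟨c' l0 / c l0, fun l => ?_⟩
  set t := c' l0 / c l0 with ht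
  have hd0 : c' l0 - t * c l0 = 0 := by
    rw [ht]; field_simp; ring
  by_cases hl : l ∈ Lam k
  · by_cases hll : l = l0
    · subst hll; exact sub_eq_zero.mp hd0
    · have := vandermonde_zero ((Lam k).erase l0) (fun l => c' l - t * c l) (by
        intro r hr
        rw [Finset.card_erase_of_mem hmem, card_Lam] at hr
        have e : ∑ l ∈ Lam k, (c' l - t * c l) * (l : ℂ)^r = 0 := by
          have e1 : ∀ l ∈ Lam k, (c' l - t * c l) * (l : ℂ)^r =
              c' l * (l : ℂ)^r - t * (c l * (l : ℂ)^r) := fun l _ => by ring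
          rw [Finset.sum_congr rfl e1, Finset.sum_sub_distrib, ← Finset.mul_sum,
            h.mom r (by omega), h'.mom r (by omega)]
          ring
        rw [← Finset.add_sum_erase _ _ hmem, hd0, zero_mul, zero_add] at e
        exact e) l (Finset.mem_erase.mpr ⟨hll, hl⟩)
      exact sub_eq_zero.mp this
  · rw [h.supp l hl, h'.supp l hl, mul_zero]

theorem T11_down_supp {k : ℕ} {c : ℤ → ℂ} (h : Good (k+1) c) (l : ℤ) (hl : l ∉ Lam k) :
    ((l:ℂ)^2 - (mu (k+1) : ℂ)^2) * c l = 0 := by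
  by_cases hl' : l ∈ Lam (k+1)
  · rw [Lam_succ, mem_union] at hl'
    rcases hl' with hl' | hl'
    · exact absurd hl' hl
    · simp only [mem_insert, mem_singleton] at hl'
      rcases hl' with rfl | rfl <;> simp
  · rw [h.supp l hl', mul_zero]

theorem good_down {k : ℕ} {c : ℤ → ℂ} (h : Good (k+1) c) :
    Good k (fun l => ((l:ℂ)^2 - (mu (k+1) : ℂ)^2) * c l) := by
  constructor
  · exact T11_down_supp h
  · intro r hr
    have e1 : ∑ l ∈ Lam k, ((l:ℂ)^2 - (mu (k+1) : ℂ)^2) * c l * (l:ℂ)^r =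
        ∑ l ∈ Lam (k+1), ((l:ℂ)^2 - (mu (k+1) : ℂ)^2) * c l * (l:ℂ)^r := by
      apply T11_sum_eq
      · intro l hl; rw [T11_down_supp h l hl, zero_mul]
      · intro l hl; rw [h.supp l hl]; ring
    rw [e1]
    have e2 : ∀ l ∈ Lam (k+1), ((l:ℂ)^2 - (mu (k+1) : ℂ)^2) * c l * (l:ℂ)^r =
        c l * (l:ℂ)^(r+2) - (mu (k+1) : ℂ)^2 * (c l * (l:ℂ)^r) := fun l _ => by ring
    rw [Finset.sum_congr rfl e2, Finset.sum_sub_distrib, ← Finset.mul_sum,
      h.mom r (by omega), h.mom (r+2) (by omega)]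
    ring
  · by_contra hcon
    push Not at hcon
    have hz : ∀ l : ℤ, l ≠ (mu (k+1) : ℤ) → l ≠ -(mu (k+1) : ℤ) → c l = 0 := by
      intro l h1 h2
      have := hcon l
      rcases mul_eq_zero.mp this with h3 | h3
      · exfalso
        have h4 : ((l : ℂ) - mu (k+1)) * ((l : ℂ) + mu (k+1)) = 0 := by linear_combination h3
        rcases mul_eq_zero.mp h4 with h5 | h5
        · apply h1
          have : ((l : ℤ) : ℂ) = ((mu (k+1) : ℤ) : ℂ) := by
            push_cast; linear_combination h5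
          exact_mod_cast this
        · apply h2
          have : ((l : ℤ) : ℂ) = ((-(mu (k+1) : ℤ) : ℤ) : ℂ) := by
            push_cast; linear_combination h5
          exact_mod_cast this
      · exact h3
    have hpos := T11_mu_pos (k+1)
    have hne : (mu (k+1) : ℤ) ≠ -(mu (k+1) : ℤ) := by omega
    have hv := vandermonde_zero {(mu (k+1) : ℤ), -(mu (k+1) : ℤ)} c (by
      intro r hr
      rw [Finset.card_pair hne] at hr
      have := h.mom r (by omega)
      rw [← this]
      apply T11_sum_eq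
      · intro l hl
        simp only [mem_insert, mem_singleton, not_or] at hl
        rw [hz l hl.1 hl.2, zero_mul]
      · intro l hl; rw [h.supp l hl, zero_mul])
    obtain ⟨l, hl⟩ := h.ne
    apply hl
    by_cases h1 : l = (mu (k+1) : ℤ)
    · exact hv l (by simp [h1])
    · by_cases h2 : l = -(mu (k+1) : ℤ)
      · exact hv l (by simp [h2])
      · exact hz l h1 h2

theorem T11_sum_neg (k : ℕ) (f : ℤ → ℂ) : ∑ l ∈ Lam k, f (-l) = ∑ l ∈ Lam k, f l := by
  refine Finset.sum_nbij' (fun l => -l) (fun l => -l) ?_ ?_ ?_ ?_ ?_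
  · intro l hl; exact (T11_neg_mem k l).mpr hl
  · intro l hl; exact (T11_neg_mem k l).mpr hl
  · intro l _; simp
  · intro l _; simp
  · intro l _; rfl

theorem good_odd {k : ℕ} {c : ℤ → ℂ} (h : Good k c) (l : ℤ) : c (-l) = - c l := by
  have h' : Good k (fun l => c (-l)) := by
    constructor
    · intro l hl
      exact h.supp (-l) (fun hh => hl ((T11_neg_mem k l).mp hh))
    · intro r hr
      have e1 : ∀ l ∈ Lam k, c (-l) * (l : ℂ)^r =
          (fun m : ℤ => (-1)^r * (c m * (m : ℂ)^r)) (-l) := by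
        intro l _
        simp only [Int.cast_neg]
        rw [neg_pow (l : ℂ) r]
        have : (-1 : ℂ)^r * (-1)^r = 1 := by rw [← mul_pow]; simp
        linear_combination (-(c (-l) * (l : ℂ)^r)) * this
      rw [Finset.sum_congr rfl e1, T11_sum_neg k (fun m : ℤ => (-1)^r * (c m * (m : ℂ)^r)),
        ← Finset.mul_sum, h.mom r hr, mul_zero]
    · obtain ⟨l, hl⟩ := h.ne
      exact ⟨-l, by simpa using hl⟩
  obtain ⟨t, ht⟩ := good_unique h h'
  replace ht : ∀ l, c (-l) = t * c l := ht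
  obtain ⟨l0, hl0⟩ := h.ne
  have ht2 : t^2 = 1 := by
    have h1 := ht l0
    have h2 := ht (-l0)
    rw [neg_neg, h1] at h2
    have : (t^2 - 1) * c l0 = 0 := by linear_combination -h2
    rcases mul_eq_zero.mp this with h3 | h3
    · linear_combination h3
    · exact absurd h3 hl0
  have ht3 : (t - 1) * (t + 1) = 0 := by linear_combination ht2
  rcases mul_eq_zero.mp ht3 with h3 | h3
  · exfalso
    have h4 : t = 1 := by linear_combination h3
    subst h4
    have hv := vandermonde_zero (Lam k) c (by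
      intro r hr
      rw [card_Lam] at hr
      rcases Nat.lt_or_ge r (2*k+1) with h5 | h5
      · exact h.mom r h5
      · have h6 : r = 2*k+1 := by omega
        subst h6
        have e := T11_sum_neg k (fun l => c l * (l : ℂ)^(2*k+1))
        have e1 : ∀ l ∈ Lam k, (fun l : ℤ => c l * (l : ℂ)^(2*k+1)) (-l) =
            - (c l * (l : ℂ)^(2*k+1)) := by
          intro l _
          simp only [Int.cast_neg]
          rw [ht l, Odd.neg_pow ⟨k, rfl⟩]
          ring
        rw [Finset.sum_congr rfl e1, Finset.sum_neg_distrib] at e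
        have : (2 : ℂ) * ∑ l ∈ Lam k, c l * (l : ℂ)^(2*k+1) = 0 := by linear_combination -e
        simpa using this)
    apply hl0
    apply hv
    by_contra hh
    exact hl0 (h.supp l0 hh)
  · rw [ht l]
    linear_combination (c l) * h3

/-! ### the first order recurrence -/

theorem good_ode {k : ℕ} {c : ℤ → ℂ} (h : Good (k+1) c) (l : ℤ) :
    ((l:ℂ) + mu (k+1)) * (l + mu k) * c l =
      ((l:ℂ) - 3 - mu (k+1)) * (l - 3 - mu k) * c (l-3) := by
  set a : ℤ := (mu (k+1) : ℤ) with ha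
  set b : ℤ := (mu k : ℤ) with hb
  have hac : (mu (k+1) : ℂ) = (a : ℂ) := by rw [ha]; push_cast; rfl
  have hbc : (mu k : ℂ) = (b : ℂ) := by rw [hb]; push_cast; rfl
  rw [hac, hbc]
  set f : ℤ → ℂ := fun l => ((l:ℂ) + a) * (l + b) * c l with hf
  set g : ℤ → ℂ := fun l => ((l:ℂ) - 3 - a) * (l - 3 - b) * c (l - 3) with hg
  set S : Finset ℤ := Lam (k+1) \ {-a, -b} with hS
  have hba : b < a := by have := T11_mu_lt k; omega
  have hab : a ≤ b + 2 := by have := T11_mu_le k; omega
  have hb0 : 0 < b := by have := T11_mu_pos k; omega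
  have hbmem : -b ∈ Lam (k+1) := by
    rw [T11_mem_Lam]
    have := T11_mu_ndvd k
    refine ⟨⟨by omega, by omega⟩, by omega⟩
  have hamem : -a ∈ Lam (k+1) := by
    rw [T11_mem_Lam]
    have := T11_mu_ndvd (k+1)
    refine ⟨⟨by omega, by omega⟩, by omega⟩
  have hcard : S.card = 2 * k + 2 := by
    rw [hS, Finset.card_sdiff_of_subset, card_Lam, Finset.card_pair]
    · omega
    · omega
    · intro x hx
      simp only [mem_insert, mem_singleton] at hx
      rcases hx with rfl | rfl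
      · exact hamem
      · exact hbmem
  have hfS : ∀ l, l ∉ S → f l = 0 := by
    intro l hl
    by_cases h1 : l ∈ Lam (k+1)
    · have h2 : l ∈ ({-a, -b} : Finset ℤ) := by
        by_contra hh; exact hl (by rw [hS, mem_sdiff]; exact ⟨h1, hh⟩)
      simp only [mem_insert, mem_singleton] at h2
      rcases h2 with rfl | rfl <;> simp [hf]
    · simp only [hf]; rw [h.supp l h1, mul_zero]
  have hgS : ∀ l, l ∉ S → g l = 0 := by
    intro l hl
    by_contra hne
    have h1 : l - 3 ∈ Lam (k+1) := by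
      by_contra hh
      apply hne
      simp only [hg]; rw [h.supp _ hh, mul_zero]
    have h2 : l - 3 ≠ a := by
      intro hh
      apply hne
      have : (l : ℂ) - 3 - a = 0 := by
        rw [← hh]; push_cast; ring
      simp only [hg]; rw [this]; ring
    have h3 : l - 3 ≠ b := by
      intro hh
      apply hne
      have : (l : ℂ) - 3 - b = 0 := by
        rw [← hh]; push_cast; ring
      simp only [hg]; rw [this]; ring
    apply hl
    rw [hS, mem_sdiff]
    rw [T11_mem_Lam] at h1 ⊢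
    simp only [mem_insert, mem_singleton, not_or]
    have e1 : a = ((3 * (k+1) + 2) / 2 : ℕ) := by rw [ha]; rfl
    have e2 : b = ((3 * k + 2) / 2 : ℕ) := by rw [hb]; rfl
    refine ⟨⟨⟨?_, ?_⟩, ?_⟩, ?_, ?_⟩ <;> omega
  have key : ∀ l ∈ S, f l - g l = 0 := by
    apply vandermonde_zero S (fun l => f l - g l)
    intro r hr
    rw [hcard] at hr
    have e0 : ∀ l ∈ S, (f l - g l) * (l : ℂ)^r = f l * (l : ℂ)^r - g l * (l : ℂ)^r :=
      fun l _ => by ring
    rw [Finset.sum_congr rfl e0, Finset.sum_sub_distrib]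
    have e1 : ∑ l ∈ S, f l * (l : ℂ)^r = ∑ l ∈ Lam (k+1), f l * (l : ℂ)^r := by
      apply T11_sum_eq
      · intro l hl; rw [hfS l hl, zero_mul]
      · intro l hl; simp only [hf]; rw [h.supp l hl]; ring
    have e2 : ∑ l ∈ S, g l * (l : ℂ)^r =
        ∑ l ∈ Lam (k+1), g (l+3) * ((l + 3 : ℤ) : ℂ)^r := by
      apply T11_shift S (Lam (k+1)) (fun l => g l * (l : ℂ)^r)
      · intro l hl; simp only [hgS l hl, zero_mul]
      · intro l hl
        simp only [hg]
        rw [show l + 3 - 3 = l by ring, h.supp l hl]; ring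
    rw [e1, e2, ← Finset.sum_sub_distrib]
    set P : Polynomial ℂ := (Polynomial.X + Polynomial.C (a:ℂ)) * (Polynomial.X + Polynomial.C (b:ℂ)) *
      Polynomial.X ^ r with hP
    set Q : Polynomial ℂ := (Polynomial.X - Polynomial.C (a:ℂ)) * (Polynomial.X - Polynomial.C (b:ℂ)) *
      (Polynomial.X + Polynomial.C 3) ^ r with hQ
    have hPm : P.Monic := by
      rw [hP]
      exact ((Polynomial.monic_X_add_C _).mul (Polynomial.monic_X_add_C _)).mul
        (Polynomial.monic_X_pow r)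
    have hQm : Q.Monic := by
      rw [hQ]
      exact ((Polynomial.monic_X_sub_C _).mul (Polynomial.monic_X_sub_C _)).mul
        ((Polynomial.monic_X_add_C _).pow r)
    have hPd : P.degree = (r + 2 : ℕ) := by
      rw [hP, Polynomial.degree_mul, Polynomial.degree_mul, Polynomial.degree_X_add_C,
        Polynomial.degree_X_add_C, Polynomial.degree_X_pow]
      push_cast
      ring
    have hQd : Q.degree = (r + 2 : ℕ) := by
      rw [hQ, Polynomial.degree_mul, Polynomial.degree_mul, Polynomial.degree_X_sub_C,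
        Polynomial.degree_X_sub_C, Polynomial.degree_pow, Polynomial.degree_X_add_C]
      push_cast
      simp
      ring
    have hd : (P - Q).degree < (2 * (k+1) + 1 : ℕ) := by
      refine lt_of_lt_of_le (Polynomial.degree_sub_lt (hPd.trans hQd.symm) hPm.ne_zero
        (by rw [hPm.leadingCoeff, hQm.leadingCoeff])) ?_
      rw [hPd]
      exact_mod_cast (by omega : r + 2 ≤ 2 * (k+1) + 1)
    have := T11_poly (Lam (k+1)) c (2*(k+1)+1) h.mom (P - Q) hd
    rw [← this]
    refine Finset.sum_congr rfl fun l _ => ?_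
    simp only [hf, hg, hP, hQ, Polynomial.eval_sub, Polynomial.eval_mul, Polynomial.eval_add,
      Polynomial.eval_X, Polynomial.eval_C, Polynomial.eval_pow]
    rw [show l + 3 - 3 = l by ring]
    push_cast
    ring
  have : f l - g l = 0 := by
    by_cases hl : l ∈ S
    · exact key l hl
    · rw [hfS l hl, hgS l hl, sub_zero]
  exact sub_eq_zero.mp this

theorem T11_zeta_ne : (-q : ℂ) ≠ 0 := neg_ne_zero.mpr q_ne_zero

theorem T11_zeta_shift (l : ℤ) : (-q : ℂ)^(l+3) = - (-q)^l := by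
  rw [zpow_add₀ T11_zeta_ne]
  have : (-q : ℂ)^(3:ℤ) = -1 := by
    have h := q_cube
    rw [show (3:ℤ) = ((3:ℕ):ℤ) by rfl, zpow_natCast]
    linear_combination -h
  rw [this]; ring

/-- the recurrence multiplied by `w l ζ^l` and summed -/
theorem T11_weight {k : ℕ} {c : ℤ → ℂ} (h : Good (k+1) c) (w : ℤ → ℂ) :
    ∑ l ∈ Lam (k+1), w l * (((l:ℂ) + mu (k+1)) * (l + mu k)) * c l * (-q)^l =
      - ∑ l ∈ Lam (k+1), w (l+3) * (((l:ℂ) - mu (k+1)) * (l - mu k)) * c l * (-q)^l := by
  have e := T11_shift (Lam (k+1)) (Lam (k+1))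
    (fun l : ℤ => w l * (((l:ℂ) + mu (k+1)) * (l + mu k)) * c l * (-q)^l) (by
      intro l hl; rw [h.supp l hl]; ring) (by
      intro l hl
      have := good_ode h (l+3)
      rw [show l + 3 - 3 = l by ring, h.supp l hl, mul_zero] at this
      linear_combination (w (l+3) * (-q)^(l+3)) * this)
  rw [e, ← Finset.sum_neg_distrib]
  refine Finset.sum_congr rfl fun l _ => ?_
  have := good_ode h (l+3)
  rw [show l + 3 - 3 = l by ring] at this
  rw [T11_zeta_shift]
  push_cast at this ⊢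
  linear_combination (-w (l+3) * (-q)^l) * this

theorem good_second {k : ℕ} {c : ℤ → ℂ} (h : Good (k+1) c) :
    Ev (k+1) 2 c = -((mu (k+1) : ℂ) * mu k) * Ev (k+1) 0 c := by
  have e := T11_weight h (fun _ => 1)
  have e1 : ∑ l ∈ Lam (k+1), (1:ℂ) * (((l:ℂ) + mu (k+1)) * (l + mu k)) * c l * (-q)^l =
      Ev (k+1) 2 c + ((mu (k+1) : ℂ) + mu k) * Ev (k+1) 1 c + (mu (k+1) : ℂ) * mu k * Ev (k+1) 0 c := by
    simp only [Ev, Finset.mul_sum, ← Finset.sum_add_distrib]
    exact Finset.sum_congr rfl fun l _ => by ring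
  have e2 : ∑ l ∈ Lam (k+1), (1:ℂ) * (((l:ℂ) - mu (k+1)) * (l - mu k)) * c l * (-q)^l =
      Ev (k+1) 2 c + (-((mu (k+1) : ℂ) + mu k)) * Ev (k+1) 1 c +
        (mu (k+1) : ℂ) * mu k * Ev (k+1) 0 c := by
    simp only [Ev, Finset.mul_sum, ← Finset.sum_add_distrib]
    exact Finset.sum_congr rfl fun l _ => by ring
  rw [e1, e2] at e
  linear_combination (1/2) * e

theorem good_third {k : ℕ} {c : ℤ → ℂ} (h : Good (k+1) c) :
    2 * Ev (k+1) 3 c =
      (3 * ((mu (k+1) : ℂ) + mu k) - 2 * (mu (k+1) : ℂ) * mu k) * Ev (k+1) 1 c := by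
  have e := T11_weight h (fun l => (l : ℂ))
  have e1 : ∑ l ∈ Lam (k+1), (l:ℂ) * (((l:ℂ) + mu (k+1)) * (l + mu k)) * c l * (-q)^l =
      Ev (k+1) 3 c + ((mu (k+1) : ℂ) + mu k) * Ev (k+1) 2 c + (mu (k+1) : ℂ) * mu k * Ev (k+1) 1 c := by
    simp only [Ev, Finset.mul_sum, ← Finset.sum_add_distrib]
    exact Finset.sum_congr rfl fun l _ => by ring
  have e2 : ∑ l ∈ Lam (k+1), ((l + 3 : ℤ):ℂ) * (((l:ℂ) - mu (k+1)) * (l - mu k)) * c l * (-q)^l =
      Ev (k+1) 3 c + (3 - ((mu (k+1) : ℂ) + mu k)) * Ev (k+1) 2 c +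
        ((mu (k+1) : ℂ) * mu k - 3 * ((mu (k+1) : ℂ) + mu k)) * Ev (k+1) 1 c +
        3 * ((mu (k+1) : ℂ) * mu k) * Ev (k+1) 0 c := by
    simp only [Ev, Finset.mul_sum, ← Finset.sum_add_distrib]
    exact Finset.sum_congr rfl fun l _ => by push_cast; ring
  rw [e1, e2] at e
  have h2 := good_second h
  linear_combination e - 3 * h2

theorem T11_Ev_down {k : ℕ} {c : ℤ → ℂ} (h : Good (k+1) c) (j : ℕ) :
    Ev k j (fun l => ((l:ℂ)^2 - (mu (k+1) : ℂ)^2) * c l) =
      Ev (k+1) (j+2) c - (mu (k+1) : ℂ)^2 * Ev (k+1) j c := by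
  have e1 : Ev k j (fun l => ((l:ℂ)^2 - (mu (k+1) : ℂ)^2) * c l) =
      ∑ l ∈ Lam (k+1), ((l:ℂ)^2 - (mu (k+1) : ℂ)^2) * c l * (l : ℂ)^j * (-q)^l := by
    unfold Ev
    apply T11_sum_eq
    · intro l hl
      show ((l:ℂ)^2 - (mu (k+1) : ℂ)^2) * c l * (l : ℂ)^j * (-q)^l = 0
      rw [T11_down_supp h l hl]; ring
    · intro l hl
      show ((l:ℂ)^2 - (mu (k+1) : ℂ)^2) * c l * (l : ℂ)^j * (-q)^l = 0
      rw [h.supp l hl]; ring
  rw [e1]
  simp only [Ev, Finset.mul_sum, ← Finset.sum_sub_distrib]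
  exact Finset.sum_congr rfl fun l _ => by ring

theorem T11_RR_succ (k : ℕ) :
    RR (k+1) = RR k * ((2 * (mu (k+1) : ℝ)) / (2 * (mu (k+1) : ℝ) - 3)) := by
  rw [RR, Finset.prod_range_succ, RR]; ring

theorem good_eval {k : ℕ} {c : ℤ → ℂ} (h : Good k c) :
    Ev k 0 c ≠ 0 ∧ 2 * (q^2 - q) * Ev k 1 c = (RR k : ℂ) * Ev k 0 c := by
  induction k generalizing c with
  | zero =>
    have hL : Lam 0 = {1, -1} := by
      ext l
      simp only [T11_mem_Lam, mem_insert, mem_singleton]
      unfold mu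
      omega
    have hodd := good_odd h 1
    have hz1 : (-q : ℂ)^(1:ℤ) = -q := zpow_one _
    have hz2 : (-q : ℂ)^(-1:ℤ) = -q^2 := by
      rw [zpow_neg_one]
      exact inv_eq_of_mul_eq_one_left (by linear_combination q_cube)
    have hne : (1:ℤ) ∉ ({-1} : Finset ℤ) := by decide
    have hE0 : Ev 0 0 c = c 1 * (q^2 - q) := by
      simp only [Ev, hL]
      rw [Finset.sum_insert hne, Finset.sum_singleton, hz1, hz2, hodd]
      push_cast
      ring
    have hE1 : Ev 0 1 c = c 1 := by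
      simp only [Ev, hL]
      rw [Finset.sum_insert hne, Finset.sum_singleton, hz1, hz2, hodd]
      have := q_spec
      push_cast
      linear_combination (-(c 1)) * this
    have hc1 : c 1 ≠ 0 := by
      intro h0
      obtain ⟨l, hl⟩ := h.ne
      apply hl
      by_cases hm : l ∈ Lam 0
      · rw [hL] at hm
        simp only [mem_insert, mem_singleton] at hm
        rcases hm with rfl | rfl
        · exact h0
        · rw [hodd, h0, neg_zero]
      · exact h.supp l hm
    have hs : q^2 - q ≠ 0 := by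
      intro h0
      have : q * (q - 1) = 0 := by linear_combination h0
      rcases mul_eq_zero.mp this with h1 | h1
      · exact q_ne_zero h1
      · exact q_ne_one (by linear_combination h1)
    refine ⟨by rw [hE0]; exact mul_ne_zero hc1 hs, ?_⟩
    rw [hE0, hE1]
    simp [RR]
    ring
  | succ k ih =>
    obtain ⟨h0, h1⟩ := ih (good_down h)
    rw [T11_Ev_down h 0] at h0 h1
    rw [T11_Ev_down h 1] at h1
    rw [zero_add] at h0 h1
    rw [show 1 + 2 = 3 by rfl] at h1
    have h2 := good_second h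
    have h3 := good_third h
    set a : ℂ := (mu (k+1) : ℂ) with ha
    set b : ℂ := (mu k : ℂ) with hb
    rw [h2] at h0 h1
    have hE0 : Ev (k+1) 0 c ≠ 0 := by
      intro hh; apply h0; rw [hh]; ring
    refine ⟨hE0, ?_⟩
    have hab : a + b ≠ 0 := by
      have h4 := T11_mu_pos k
      have h5 : (0:ℝ) < (mu (k+1) : ℝ) + (mu k : ℝ) := by positivity
      intro hh
      have : (((mu (k+1) : ℝ) + (mu k : ℝ) : ℝ) : ℂ) = 0 := by
        push_cast; rw [ha, hb] at hh; exact hh
      rw [Complex.ofReal_eq_zero] at this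
      linarith
    have h23 : (2 * a - 3 : ℂ) ≠ 0 := by
      have h4 := T11_mu_two k
      have h5 : (2:ℝ) ≤ (mu (k+1) : ℝ) := by exact_mod_cast h4
      intro hh
      have : ((2 * (mu (k+1) : ℝ) - 3 : ℝ) : ℂ) = 0 := by
        push_cast; rw [ha] at hh; exact hh
      rw [Complex.ofReal_eq_zero] at this
      linarith
    have hR : (RR (k+1) : ℂ) = RR k * ((2 * a) / (2 * a - 3)) := by
      rw [T11_RR_succ]; push_cast; rfl
    rw [hR]
    have h4 : (a + b) * ((2 * a - 3) * (2 * (q^2 - q) * Ev (k+1) 1 c) -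
        RR k * (2 * a) * Ev (k+1) 0 c) = 0 := by
      linear_combination (-2) * h1 + (2 * (q^2 - q)) * h3
    have h5 := (mul_eq_zero.mp h4).resolve_left hab
    rw [← mul_div_assoc, div_mul_eq_mul_div, eq_div_iff h23]
    linear_combination h5

end Pool.Agent.H980R2.Cross
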