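import Pool.Agent.H980R2.Cross.T02
import Pool.Agent.H980R2.Cross.T03
import Pool.Agent.H988R2.Perc.T03

/-! T04: exchange and recursion for the arc masses `A i` and for `NN`.

From T03 (`lin_exch`, `lin_rec`, `lin_congr`) and T01/T02. For `NN_step`: `lin_exch` with `nn` and
`nn_act` give `(qx-q²y)(NN(yx) - NN(xy)) = ± (y-x)(Z - A(xy))`, and `A_exch` gives
`(qx-q²y)(A(yx)-A(xy)) = (y-x)(Z-A(xy))`; divide by `q x - q² y` when it is not zero; the
exceptional `x` is removed by `eq_of_generic` (`H988R2.Perc.T07`) or `PD.univ` and continuity. -/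

namespace Pool.Agent.H980R2.Cross

open Pool.Agent.H988R2.Perc Finset

theorem A_exch (u v : List ℂ) (x y : ℂ) (h : Even (u.length + v.length)) :
    (q * x - q^2 * y) * A u.length (u ++ y :: x :: v) =
      (q * y - q^2 * x) * A u.length (u ++ x :: y :: v) + (y - x) * Z (u ++ x :: y :: v) := by
  have h1 := lin_exch (fun w => if arc u.length w then 1 else 0) u v x y h
  have h2 : lin (fun w => (fun w => if arc u.length w then (1:ℂ) else 0) (act u.length w))
      (u ++ x :: y :: v) = Z (u ++ x :: y :: v) := by
    rw [← lin_one]
    apply lin_congr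
    intro w _ hl
    have : arc u.length (act u.length w) := by
      apply arc_act_self
      rw [hl]
      simp only [List.length_append, List.length_cons]
      omega
    simp [this]
  rw [h2] at h1
  exact h1

theorem A_exch_succ (u v : List ℂ) (x y : ℂ) (h : Even (u.length + v.length)) :
    (q * x - q^2 * y) * A (u.length + 1) (u ++ y :: x :: v) =
      (q * y - q^2 * x) * A (u.length + 1) (u ++ x :: y :: v) := by
  have h1 := lin_exch (fun w => if arc (u.length + 1) w then 1 else 0) u v x y h
  have h2 : lin (fun w => (fun w => if arc (u.length + 1) w then (1:ℂ) else 0) (act u.length w))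
      (u ++ x :: y :: v) = 0 := by
    refine (lin_congr (G := fun _ => 0) ?_).trans (lin_zero _)
    intro w _ hl
    have : ¬ arc (u.length + 1) (act u.length w) := by
      apply not_arc_succ_act
      rw [hl]
      simp only [List.length_append, List.length_cons]
      omega
    simp [this]
  rw [h2, mul_zero, add_zero] at h1
  exact h1

theorem A_exch_pred (u v : List ℂ) (x y : ℂ) (h : Even (u.length + v.length))
    (hu : 1 ≤ u.length) :
    (q * x - q^2 * y) * A (u.length - 1) (u ++ y :: x :: v) =
      (q * y - q^2 * x) * A (u.length - 1) (u ++ x :: y :: v) := by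
  have h1 := lin_exch (fun w => if arc (u.length - 1) w then 1 else 0) u v x y h
  have h2 : lin (fun w => (fun w => if arc (u.length - 1) w then (1:ℂ) else 0) (act u.length w))
      (u ++ x :: y :: v) = 0 := by
    refine (lin_congr (G := fun _ => 0) ?_).trans (lin_zero _)
    intro w _ hl
    obtain ⟨i, hi⟩ : ∃ i, u.length = i + 1 := ⟨u.length - 1, by omega⟩
    have : ¬ arc (u.length - 1) (act u.length w) := by
      rw [hi, Nat.add_sub_cancel]
      apply not_arc_act_succ
      rw [hl]
      simp only [List.length_append, List.length_cons]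
      omega
    simp [this]
  rw [h2, mul_zero, add_zero] at h1
  exact h1

theorem A_rec_self (u v : List ℂ) (x : ℂ) (h : Even (u.length + v.length)) :
    A u.length (u ++ x :: (q^2 * x) :: v) = Z (u ++ x :: (q^2 * x) :: v) := by
  have h1 := lin_rec (fun w => if arc u.length w then 1 else 0) u v x h
  have h2 := lin_rec (fun _ => 1) u v x h
  rw [← lin_one]
  unfold A
  rw [h1, h2]
  congr 1
  apply lin_congr
  intro w _ hl
  have : arc u.length (ins u.length w) := by
    apply arc_ins_self
    rw [hl]
    simp only [List.length_append]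
    omega
  simp [this]

theorem A_rec_succ (u v : List ℂ) (x : ℂ) (h : Even (u.length + v.length)) :
    A (u.length + 1) (u ++ x :: (q^2 * x) :: v) = 0 := by
  have h1 := lin_rec (fun w => if arc (u.length + 1) w then 1 else 0) u v x h
  unfold A
  rw [h1]
  have h2 : lin (fun w => (fun w => if arc (u.length + 1) w then (1:ℂ) else 0) (ins u.length w))
      (u ++ v) = 0 := by
    refine (lin_congr (G := fun _ => 0) ?_).trans (lin_zero _)
    intro w _ hl
    have : ¬ arc (u.length + 1) (ins u.length w) := by
      apply not_arc_succ_ins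
      rw [hl]
      simp only [List.length_append]
      omega
    simp [this]
  rw [h2, mul_zero]

theorem A_rec_pred (u v : List ℂ) (x : ℂ) (h : Even (u.length + v.length)) (hu : 1 ≤ u.length) :
    A (u.length - 1) (u ++ x :: (q^2 * x) :: v) = 0 := by
  have h1 := lin_rec (fun w => if arc (u.length - 1) w then 1 else 0) u v x h
  unfold A
  rw [h1]
  have h2 : lin (fun w => (fun w => if arc (u.length - 1) w then (1:ℂ) else 0) (ins u.length w))
      (u ++ v) = 0 := by
    refine (lin_congr (G := fun _ => 0) ?_).trans (lin_zero _)
    intro w _ hl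
    obtain ⟨i, hi⟩ : ∃ i, u.length = i + 1 := ⟨u.length - 1, by omega⟩
    have : ¬ arc (u.length - 1) (ins u.length w) := by
      rw [hi, Nat.add_sub_cancel]
      apply not_arc_ins_succ
      rw [hl]
      simp only [List.length_append]
      omega
    simp [this]
  rw [h2, mul_zero]

theorem A_rec_right (u v : List ℂ) (x : ℂ) (h : Even (u.length + v.length)) (j : ℕ)
    (hj : u.length + 2 ≤ j) :
    A j (u ++ x :: (q^2 * x) :: v) = fac x (u ++ v) * A (j-2) (u ++ v) := by
  have h1 := lin_rec (fun w => if arc j w then 1 else 0) u v x h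
  unfold A
  rw [h1]
  congr 1
  apply lin_congr
  intro w _ hl
  have : arc j (ins u.length w) ↔ arc (j-2) w := by
    apply arc_ins_right hj
    rw [hl]
    simp only [List.length_append]
    omega
  simp [this]

theorem A_pd (i N : ℕ) (hN : Even N) : PD N (N-2) (A i) := lin_pd _ N hN

theorem NN_pd (N : ℕ) (hN : Even N) : PD N (N-2) NN := lin_pd _ N hN

/-- `nn` after the exchange -/
theorem NN_exch (u v : List ℂ) (x y : ℂ) (h : Even (u.length + v.length)) :
    (q * x - q^2 * y) * (NN (u ++ y :: x :: v) - NN (u ++ x :: y :: v)) =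
      (if u.length % 2 = 0 then 1 else -1) * ((q * x - q^2 * y) *
        (A u.length (u ++ y :: x :: v) - A u.length (u ++ x :: y :: v))) := by
  have h1 := lin_exch (fun w => (nn w : ℂ)) u v x y h
  have h2 := A_exch u v x y h
  have hq := q_spec
  set s : ℂ := if u.length % 2 = 0 then 1 else -1 with hs
  have h3 : lin (fun w => (fun w => (nn w : ℂ)) (act u.length w)) (u ++ x :: y :: v) =
      NN (u ++ x :: y :: v) + s * (Z (u ++ x :: y :: v) - A u.length (u ++ x :: y :: v)) := by
    have e1 : lin (fun w => (fun w => (nn w : ℂ)) (act u.length w)) (u ++ x :: y :: v) =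
        lin (fun w => (nn w : ℂ) + (s * 1 + (-s) * (if arc u.length w then 1 else 0)))
          (u ++ x :: y :: v) := by
      apply lin_congr
      intro w hw hl
      have := nn_act (i := u.length) hw (by
        rw [hl]
        simp only [List.length_append, List.length_cons]
        omega)
      simp only [this, ← hs]
      ring
    have e2 := lin_add (fun w => (nn w : ℂ))
      (fun w => s * 1 + (-s) * (if arc u.length w then 1 else 0)) (u ++ x :: y :: v)
    have e3 := lin_add (fun _ => s * 1)
      (fun w => (-s) * (if arc u.length w then 1 else 0)) (u ++ x :: y :: v)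
    have e4 := lin_smul s (fun _ => 1) (u ++ x :: y :: v)
    have e5 := lin_smul (-s) (fun w => if arc u.length w then 1 else 0) (u ++ x :: y :: v)
    have e6 := lin_one (u ++ x :: y :: v)
    rw [e1, e2, e3, e4, e5, e6]
    unfold NN A
    ring
  rw [h3] at h1
  change (q * x - q^2 * y) * NN (u ++ y :: x :: v) =
    (q * y - q^2 * x) * NN (u ++ x :: y :: v) + (y - x) * _ at h1
  linear_combination h1 - s * h2 + (y - x) * (NN (u ++ x :: y :: v) -
    s * A u.length (u ++ x :: y :: v)) * hq

theorem NN_step (u v : List ℂ) (x y : ℂ) (h : Even (u.length + v.length)) :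
    NN (u ++ y :: x :: v) - NN (u ++ x :: y :: v) =
      (if u.length % 2 = 0 then 1 else -1) *
        (A u.length (u ++ y :: x :: v) - A u.length (u ++ x :: y :: v)) := by
  set s : ℂ := if u.length % 2 = 0 then 1 else -1 with hs
  set N := u.length + v.length + 2 with hN
  have hNe : Even N := by
    rw [hN]
    exact Even.add h (by decide)
  obtain ⟨P1, _, hP1⟩ := (NN_pd N hNe).univ (u ++ [y]) v (by simp; omega)
  obtain ⟨P2, _, hP2⟩ := (NN_pd N hNe).univ u (y :: v) (by simp; omega)
  obtain ⟨P3, _, hP3⟩ := (A_pd u.length N hNe).univ (u ++ [y]) v (by simp; omega)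
  obtain ⟨P4, _, hP4⟩ := (A_pd u.length N hNe).univ u (y :: v) (by simp; omega)
  have k1 : ∀ z, NN (u ++ y :: z :: v) = P1.eval z := by
    intro z
    rw [← hP1 z]
    simp
  have k3 : ∀ z, A u.length (u ++ y :: z :: v) = P3.eval z := by
    intro z
    rw [← hP3 z]
    simp
  have hzero : P1 - P2 - Polynomial.C s * (P3 - P4) = 0 := by
    apply Polynomial.eq_zero_of_infinite_isRoot
    apply Set.Infinite.mono (s := ({q * y} : Set ℂ)ᶜ)
    · intro z hz
      have hz' : z ≠ q * y := hz
      have hne : q * z - q^2 * y ≠ 0 := by
        intro h0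
        apply hz'
        have : q * (z - q * y) = 0 := by linear_combination h0
        rcases mul_eq_zero.1 this with h1 | h1
        · exact absurd h1 q_ne_zero
        · exact sub_eq_zero.1 h1
      have h1 := NN_exch u v z y h
      rw [← hs] at h1
      have h2 : NN (u ++ y :: z :: v) - NN (u ++ z :: y :: v) =
          s * (A u.length (u ++ y :: z :: v) - A u.length (u ++ z :: y :: v)) := by
        apply mul_left_cancel₀ hne
        linear_combination h1
      rw [k1, k3, hP2, hP4] at h2
      show (P1 - P2 - Polynomial.C s * (P3 - P4)).eval z = 0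
      simp only [Polynomial.eval_sub, Polynomial.eval_mul, Polynomial.eval_C]
      rw [h2, sub_self]
    · exact (Set.finite_singleton _).infinite_compl
  have h5 := congrArg (fun P => Polynomial.eval x P) hzero
  simp only [Polynomial.eval_sub, Polynomial.eval_mul, Polynomial.eval_C,
    Polynomial.eval_zero] at h5
  rw [k1, k3, hP2, hP4]
  exact sub_eq_zero.1 h5

end Pool.Agent.H980R2.Cross
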