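import Pool.Agent.H980R2.Cross.T17
import Pool.Agent.H980R2.Cross.T04
import Pool.Agent.H988R2.Perc.T20

/-! T18: the vectors `Psi` and `PsiX`.

`phi_Psi`, `phi_PsiX`: `Phi_rel_arc` (for `ext w`: `arc_ext`); `phi p` is linear.
`PsiX_exch` as `Psi_exch` (`H988R2.Perc.T13`), with
`St.act (i+1) (Phi (n+1) (ext w)) = Phi (n+1) (ext (act i w))` (`Phi_act`, `ext_act`);
`PsiX_inv1`, `PsiX_invN` as `Psi_inv1`, `Psi_invN`; `PsiX_right/left` as `move_right/left` in T20. -/

namespace Pool.Agent.H980R2.Cross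

open Pool.Agent.H988R2.Perc Finset

theorem phi_add (p : ℕ) (f g : St →₀ ℂ) : phi p (f + g) = phi p f + phi p g := by
  classical
  unfold phi
  exact Finsupp.sum_add_index' (fun _ => by split_ifs <;> rfl)
    (fun _ _ _ => by split_ifs <;> simp)

theorem phi_smul (p : ℕ) (c : ℂ) (f : St →₀ ℂ) : phi p (c • f) = c * phi p f := by
  classical
  unfold phi
  rw [Finsupp.sum_smul_index' (fun _ => by split_ifs <;> rfl), Finsupp.mul_sum]
  refine Finsupp.sum_congr fun R _ => ?_
  split_ifs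
  · rfl
  · rw [mul_zero]

theorem phi_zero (p : ℕ) : phi p 0 = 0 := by
  unfold phi
  exact Finsupp.sum_zero_index

open Classical in
theorem phi_single (p : ℕ) (R : St) (c : ℂ) :
    phi p (Finsupp.single R c) = if R.rel p (p+2) then c else 0 := by
  unfold phi
  rw [Finsupp.sum_single_index (by split_ifs <;> rfl)]

theorem phi_sum {ι : Type*} (p : ℕ) (s : Finset ι) (f : ι → St →₀ ℂ) :
    phi p (∑ i ∈ s, f i) = ∑ i ∈ s, phi p (f i) := by
  classical
  induction s using Finset.induction_on with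
  | empty => simp [phi_zero]
  | insert a s ha ih => rw [Finset.sum_insert ha, Finset.sum_insert ha, phi_add, ih]

theorem phi_Psi {l : List ℂ} (hl : Even l.length) {p : ℕ} (hp : p % 2 = 1)
    (h : p + 2 ≤ l.length) : phi p (Psi l) = A p l := by
  classical
  obtain ⟨m, hm⟩ := hl.exists_two_nsmul
  rw [smul_eq_mul] at hm
  unfold A lin
  rw [Psi_eq hm, hm, phi_sum]
  refine Finset.sum_congr rfl fun w hw => ?_
  have hw1 := mem_LP.1 hw
  rw [phi_single]
  have key := Phi_rel_arc hw1.2 hw1.1 hp (by omega)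
  show _ = (if arc p w then (1:ℂ) else 0) * Fw w l
  by_cases ha : arc p w
  · rw [if_pos (key.2 ha), if_pos ha, one_mul]
  · rw [if_neg (fun h' => ha (key.1 h')), if_neg ha, zero_mul]

theorem PsiX_eq {l : List ℂ} {n : ℕ} (h : l.length = 2*n) :
    PsiX l = ∑ w ∈ LP (2*n), Finsupp.single (Phi (n+1) (ext w)) (Fw w l) := by
  unfold PsiX
  rw [h]
  have hn : (2 * n) / 2 = n := by omega
  rw [hn]

theorem phi_PsiX {l : List ℂ} (hl : Even l.length) {p : ℕ} (hp : p % 2 = 0)
    (h : p + 2 ≤ l.length) : phi (p+1) (PsiX l) = A p l := by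
  classical
  obtain ⟨m, hm⟩ := hl.exists_two_nsmul
  rw [smul_eq_mul] at hm
  unfold A lin
  rw [PsiX_eq hm, hm, phi_sum]
  refine Finset.sum_congr rfl fun w hw => ?_
  have hw1 := mem_LP.1 hw
  rw [phi_single]
  have key := Phi_rel_arc (n := m + 1) (p := p + 1) (w := ext w) (ext_dyck hw1.2)
    (by rw [length_ext, hw1.1]; ring) (by omega) (by omega)
  have key2 := arc_ext (i := p) (w := w) (by rw [hw1.1]; omega)
  show _ = (if arc p w then (1:ℂ) else 0) * Fw w l
  by_cases ha : arc p w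
  · rw [if_pos (key.2 (key2.2 ha)), if_pos ha, one_mul]
  · rw [if_neg (fun h' => ha (key2.1 (key.1 h'))), if_neg ha, zero_mul]

theorem mass_PsiX (l : List ℂ) : mass (PsiX l) = Z l := by
  unfold PsiX
  rw [mass_sum, Z_eq_sum]
  exact Finset.sum_congr rfl (fun w _ => mass_single _ _)

theorem PsiX_exch (u v : List ℂ) (x y : ℂ) (h : Even (u.length + v.length)) :
    (q * x - q^2 * y) • PsiX (u ++ y :: x :: v) =
      (q * y - q^2 * x) • PsiX (u ++ x :: y :: v) +
      (y - x) • Finsupp.mapDomain (St.act (u.length + 1)) (PsiX (u ++ x :: y :: v)) := by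
  obtain ⟨m, hm⟩ := h.exists_two_nsmul
  rw [smul_eq_mul] at hm
  have hl1 : (u ++ y :: x :: v).length = 2 * (m+1) := by simp; omega
  have hl2 : (u ++ x :: y :: v).length = 2 * (m+1) := by simp; omega
  rw [PsiX_eq hl1, PsiX_eq hl2, Finsupp.mapDomain_finsetSum, Finset.smul_sum, Finset.smul_sum,
    Finset.smul_sum]
  have h1 : ∀ pi ∈ LP (2*(m+1)),
      (q * x - q^2 * y) • Finsupp.single (Phi (m+1+1) (ext pi)) (Fw pi (u ++ y :: x :: v)) =
      (q * y - q^2 * x) • Finsupp.single (Phi (m+1+1) (ext pi)) (Fw pi (u ++ x :: y :: v)) +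
      ∑ w ∈ LP (2*(m+1)), (if act u.length w = pi then
        (y - x) • Finsupp.single (Phi (m+1+1) (ext pi)) (Fw w (u ++ x :: y :: v)) else 0) := by
    intro pi hpi
    rw [Finsupp.smul_single, Finsupp.smul_single, smul_eq_mul, smul_eq_mul,
      Fw_exch hpi u v x y (by omega), Finsupp.single_add]
    congr 1
    rw [Finset.mul_sum, Finsupp.single_finsetSum]
    refine Finset.sum_congr rfl fun w _ => ?_
    split_ifs
    · rw [Finsupp.smul_single, smul_eq_mul]
    · rw [mul_zero, Finsupp.single_zero]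
  rw [Finset.sum_congr rfl h1, Finset.sum_add_distrib]
  congr 1
  rw [Finset.sum_comm]
  refine Finset.sum_congr rfl fun w hw => ?_
  have hw' := mem_LP.1 hw
  have hmem : act u.length w ∈ LP (2*(m+1)) :=
    mem_LP.2 ⟨by rw [length_act (by omega)]; exact hw'.1, dyck_act hw'.2 (by omega)⟩
  rw [Finset.sum_ite_eq, if_pos hmem, Finsupp.mapDomain_single,
    ← Phi_act (ext_dyck hw'.2) (by rw [length_ext, hw'.1]; ring) (by omega),
    ext_act hw'.2 (by omega)]

theorem PsiX_inv1 (x : ℂ) (l : List ℂ) (hx : x ≠ 0) (h : Odd l.length) :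
    PsiX (x :: l) = x^(l.length - 1) • PsiX (x⁻¹ :: l) := by
  obtain ⟨m, hm⟩ := h
  have hl1 : (x :: l).length = 2 * (m+1) := by simp; omega
  have hl2 : (x⁻¹ :: l).length = 2 * (m+1) := by simp; omega
  rw [PsiX_eq hl1, PsiX_eq hl2, Finset.smul_sum]
  refine Finset.sum_congr rfl fun w hw => ?_
  have hw1 := mem_LP.1 hw
  rw [Finsupp.smul_single, smul_eq_mul]
  congr 1
  have := (Fw_spec hw1.2).2.1
  rw [hw1.1] at this
  have h2 := this x l hx (by omega)
  rw [h2]
  congr 2; omega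

theorem PsiX_invN (x : ℂ) (l : List ℂ) (hx : x ≠ 0) (h : Odd l.length) :
    PsiX (l ++ [x]) = x^(l.length - 1) • PsiX (l ++ [x⁻¹]) := by
  obtain ⟨m, hm⟩ := h
  have hl1 : (l ++ [x]).length = 2 * (m+1) := by simp; omega
  have hl2 : (l ++ [x⁻¹]).length = 2 * (m+1) := by simp; omega
  rw [PsiX_eq hl1, PsiX_eq hl2, Finset.smul_sum]
  refine Finset.sum_congr rfl fun w hw => ?_
  have hw1 := mem_LP.1 hw
  rw [Finsupp.smul_single, smul_eq_mul]
  congr 1
  have := (Fw_spec hw1.2).2.2.1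
  rw [hw1.1] at this
  have h2 := this x l hx (by omega)
  rw [h2]
  congr 2; omega

theorem PsiX_right (u v : List ℂ) (h : Even (u.length + v.length)) :
    PsiX (u ++ 1 :: (-q) :: v) = tile (u.length + 1) (PsiX (u ++ (-q) :: 1 :: v)) := by
  have h1 := PsiX_exch u v (-q) 1 h
  have e1 : q * (-q) - q^2 * 1 = -2 * q^2 := by ring
  have e2 : q * 1 - q^2 * (-q) = -q^2 := by
    have := q_cube; have h2 := q_spec
    linear_combination this + h2
  have e3 : (1 : ℂ) - (-q) = -q^2 := by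
    have h2 := q_spec
    linear_combination h2
  rw [e1, e2, e3, ← smul_add] at h1
  have hq : (-2 * q^2) ≠ 0 := mul_ne_zero (by norm_num) (pow_ne_zero _ q_ne_zero)
  unfold tile
  have h3 : PsiX (u ++ 1 :: (-q) :: v) =
      (-2 * q^2)⁻¹ • ((-2 * q^2) • PsiX (u ++ 1 :: (-q) :: v)) := by
    rw [smul_smul, inv_mul_cancel₀ hq, one_smul]
  rw [h3, h1, smul_smul]
  congr 1
  have hq1 : q ≠ 0 := q_ne_zero
  have hq2 : q^2 ≠ 0 := pow_ne_zero _ q_ne_zero
  field_simp

theorem PsiX_left (u v : List ℂ) (h : Even (u.length + v.length)) :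
    PsiX (u ++ (-q^2) :: 1 :: v) = tile (u.length + 1) (PsiX (u ++ 1 :: (-q^2) :: v)) := by
  have h1 := PsiX_exch u v 1 (-q^2) h
  have e1 : q * 1 - q^2 * (-q^2) = 2 * q := by
    have := T20.q4
    linear_combination this
  have e2 : q * (-q^2) - q^2 * 1 = q := by
    have := q_cube; have h2 := q_spec
    linear_combination -this - h2
  have e3 : (-q^2 : ℂ) - 1 = q := by
    have h2 := q_spec
    linear_combination -h2
  rw [e1, e2, e3, ← smul_add] at h1
  have hq : (2 * q) ≠ 0 := mul_ne_zero (by norm_num) q_ne_zero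
  unfold tile
  have h3 : PsiX (u ++ (-q^2) :: 1 :: v) =
      (2 * q)⁻¹ • ((2 * q) • PsiX (u ++ (-q^2) :: 1 :: v)) := by
    rw [smul_smul, inv_mul_cancel₀ hq, one_smul]
  rw [h3, h1, smul_smul]
  congr 1
  have hq2 := q_ne_zero
  field_simp

theorem PsiX_supp (l : List ℂ) (h : Even l.length) (R : St) (hR : R ∈ (PsiX l).support) :
    R.rel 1 (l.length + 1) ∧ ∀ a b, R.rel a b → a = b ∨ (a < l.length + 2 ∧ b < l.length + 2) := by
  classical
  obtain ⟨m, hm⟩ := h.exists_two_nsmul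
  rw [smul_eq_mul] at hm
  rw [PsiX_eq hm] at hR
  have h1 := Finsupp.support_finsetSum hR
  rw [Finset.mem_biUnion] at h1
  obtain ⟨w, hw, h2⟩ := h1
  have h3 := Finsupp.support_single_subset h2
  rw [Finset.mem_singleton] at h3
  have hw1 := mem_LP.1 hw
  subst h3
  rw [hm]
  refine ⟨Phi_ext_outer hw1.2 hw1.1, fun a b hab => ?_⟩
  have := Phi_supp (ext_dyck hw1.2) (n := m + 1) (by rw [length_ext, hw1.1]; ring) a b hab
  omega

end Pool.Agent.H980R2.Cross
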