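import Pool.Agent.H980R2.Cross.T20
import Pool.Agent.H988R2.Perc.T24

/-! T22: convergence for the chains `UV d`, `d = 0, 1`, `N` odd (Doeblin). -/

namespace Pool.Agent.H980R2.Cross

open Pool.Agent.H988R2.Perc Finset Filter Topology

namespace T22

open Pool.Agent.H988R2.Perc.T24

/-! ### an abstract convergence statement -/

/-- all states of the support are in the class `C` -/
def Cl (C : St → Prop) (f : St →₀ ℂ) : Prop := ∀ R ∈ f.support, C R

theorem Cl.add {C : St → Prop} {f g : St →₀ ℂ} (hf : Cl C f) (hg : Cl C g) : Cl C (f + g) := by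
  classical
  intro R hR
  rcases Finset.mem_union.mp (Finsupp.support_add hR) with h | h
  · exact hf R h
  · exact hg R h

theorem Cl.smul {C : St → Prop} {f : St →₀ ℂ} (hf : Cl C f) (c : ℂ) : Cl C (c • f) :=
  fun R hR => hf R (Finsupp.support_smul hR)

theorem Cl.map {C C' : St → Prop} {f : St →₀ ℂ} (hf : Cl C f) {φ : St → St}
    (hφ : ∀ R, C R → C' (φ R)) : Cl C' (Finsupp.mapDomain φ f) := by
  classical
  intro R hR
  obtain ⟨R', hR', rfl⟩ := Finset.mem_image.mp (Finsupp.mapDomain_support hR)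
  exact hφ _ (hf _ hR')

theorem Cl.tile {C : St → Prop} {i : ℕ} (hC : ∀ R, C R → C (St.act i R)) {f : St →₀ ℂ}
    (hf : Cl C f) : Cl C (tile i f) :=
  (hf.add (hf.map hC)).smul _

theorem Cl.fwV {C : St → Prop} {d L : ℕ}
    (hC : ∀ i, d ≤ i → i < L + d → ∀ R, C R → C (St.act i R)) {f : St →₀ ℂ}
    (hf : Cl C f) : Cl C (fwV d L f) := by
  induction L with
  | zero => exact hf
  | succ L ih =>
    exact (ih (fun i h1 h2 => hC i h1 (by omega))).tile (hC (L + d) (by omega) (by omega))

theorem Cl.bwV {C : St → Prop} {d L : ℕ}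
    (hC : ∀ i, d ≤ i → i < L + d → ∀ R, C R → C (St.act i R)) {f : St →₀ ℂ}
    (hf : Cl C f) : Cl C (bwV d L f) := by
  induction L generalizing f with
  | zero => exact hf
  | succ L ih =>
    exact ih (fun i h1 h2 => hC i h1 (by omega)) (hf.tile (hC (L + d) (by omega) (by omega)))

theorem mapDomain_const {C : St → Prop} {φ : St → St} {R0 : St} (hφ : ∀ R, C R → φ R = R0)
    {f : St →₀ ℂ} (hf : Cl C f) : Finsupp.mapDomain φ f = Finsupp.single R0 (mass f) := by
  unfold Finsupp.mapDomain mass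
  rw [Finsupp.sum, Finsupp.sum, Finsupp.single_finsetSum]
  refine Finset.sum_congr rfl fun R hR => ?_
  rw [hφ R (hf R hR)]

theorem iter_bd {T : (St →₀ ℂ) → (St →₀ ℂ)} {φ : St → St} {ε : ℝ} (h : Dob T φ ε)
    {C : St → Prop} (hC : ∀ f, Cl C f → Cl C (T f)) {R0 : St} (hφ : ∀ R, C R → φ R = R0)
    {f : St →₀ ℂ} (hf : Cl C f) (hm : mass f = 0) (M : ℕ) :
    nrm (T^[M] f) ≤ (1 - ε)^M * nrm f ∧ Cl C (T^[M] f) ∧ mass (T^[M] f) = 0 := by
  induction M with
  | zero => simp [hf, hm]
  | succ M ih =>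
    obtain ⟨h1, h2, h3⟩ := ih
    rw [Function.iterate_succ_apply']
    refine ⟨?_, hC _ h2, by rw [h.mass, h3]⟩
    have h4 := h.dec (T^[M] f)
    rw [mapDomain_const hφ h2, h3, Finsupp.single_zero, smul_zero, sub_zero] at h4
    refine h4.trans ?_
    rw [pow_succ, mul_comm ((1 - ε)^M) (1 - ε), mul_assoc]
    exact mul_le_mul_of_nonneg_left h1 (by linarith [h.le])

theorem iter_add' {T : (St →₀ ℂ) → (St →₀ ℂ)} {φ : St → St} {ε : ℝ} (h : Dob T φ ε)
    (M : ℕ) (f g : St →₀ ℂ) : T^[M] (f + g) = T^[M] f + T^[M] g := by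
  induction M with
  | zero => rfl
  | succ M ih =>
    rw [Function.iterate_succ_apply', Function.iterate_succ_apply',
      Function.iterate_succ_apply', ih, h.add]

theorem conv_abs {T : (St →₀ ℂ) → (St →₀ ℂ)} {φ : St → St} {ε : ℝ} (h : Dob T φ ε)
    (hε : 0 < ε) {C : St → Prop} (hC : ∀ f, Cl C f → Cl C (T f)) {R0 : St}
    (hφ : ∀ R, C R → φ R = R0) {v : St →₀ ℂ} (hv : T v = v) (hvC : Cl C v) (hm : mass v ≠ 0)
    {s0 : St} (hs0 : C s0) {J : (St →₀ ℂ) → ℂ} (hadd : ∀ f g, J (f + g) = J f + J g)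
    (hsmul : ∀ (c : ℂ) f, J (c • f) = c * J f) {K : ℝ} (hK : 0 ≤ K)
    (hJ : ∀ f, ‖J f‖ ≤ K * nrm f) :
    Tendsto (fun M => J (T^[M] (Finsupp.single s0 1))) atTop (𝓝 (J v / mass v)) := by
  set w : St →₀ ℂ := (mass v)⁻¹ • v with hw
  have hwT : T w = w := by rw [hw, h.smul, hv]
  have hwm : mass w = 1 := by rw [hw, T24.mass_smul, inv_mul_cancel₀ hm]
  have hwC : Cl C w := Cl.smul hvC _
  set u : St →₀ ℂ := Finsupp.single s0 1 + (-1 : ℂ) • w with hu
  have huC : Cl C u := by
    refine Cl.add ?_ (hwC.smul _)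
    intro R hR
    have : R = s0 := by
      have := Finsupp.support_single_subset hR
      simpa using this
    subst this
    exact hs0
  have hum : mass u = 0 := by
    rw [hu, T24.mass_add, T24.mass_smul, T24.mass_single, hwm]; ring
  have hlaw : ∀ M, T^[M] (Finsupp.single s0 1) = T^[M] u + w := by
    intro M
    have e : (Finsupp.single s0 1 : St →₀ ℂ) = u + w := by
      rw [hu]; simp
    rw [e, iter_add' h, Function.iterate_fixed hwT M]
  have hw2 : J w = J v / mass v := by
    rw [hw, hsmul]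
    field_simp
  rw [← hw2]
  have hρ0 : 0 ≤ 1 - ε := by have := h.le; linarith
  have hρ1 : 1 - ε < 1 := by linarith
  have hlim : Tendsto (fun M : ℕ => K * ((1 - ε)^M * nrm u)) atTop (𝓝 0) := by
    have := (tendsto_pow_atTop_nhds_zero_of_lt_one hρ0 hρ1).mul_const (nrm u)
    have := this.const_mul K
    simpa using this
  rw [tendsto_iff_norm_sub_tendsto_zero]
  refine squeeze_zero (fun _ => norm_nonneg _) (fun M => ?_) hlim
  obtain ⟨h1, _, _⟩ := iter_bd h hC hφ huC hum M
  have e : J (T^[M] (Finsupp.single s0 1)) - J w = J (T^[M] u) := by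
    rw [hlaw M, hadd]; ring
  rw [e]
  exact (hJ _).trans (mul_le_mul_of_nonneg_left h1 hK)

/-! ### the sweeps -/

/-- the good branch of a forward sweep -/
def gfw (d : ℕ) : ℕ → St → St
  | 0, R => R
  | L+1, R => good (L+d) (gfw d L R)

/-- the good branch of a backward sweep -/
def gbw (d : ℕ) : ℕ → St → St
  | 0, R => R
  | L+1, R => gbw d L (good (L+d) R)

theorem dob_fwV (d L : ℕ) : Dob (fwV d L) (gfw d L) ((1/2)^L) := by
  induction L with
  | zero =>
    have h := dob_map (fun R => R)
    have e : (Finsupp.mapDomain (fun R : St => R) : (St →₀ ℂ) → (St →₀ ℂ)) = fwV d 0 := by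
      funext f
      exact Finsupp.mapDomain_id
    rw [e] at h
    have e2 : gfw d 0 = (fun R => R) := rfl
    rw [e2, pow_zero]
    exact h
  | succ L ih =>
    have h := (dob_tile (L+d)).comp ih
    rw [pow_succ, mul_comm]
    exact h

theorem dob_bwV (d L : ℕ) : Dob (bwV d L) (gbw d L) ((1/2)^L) := by
  induction L with
  | zero =>
    have h := dob_map (fun R => R)
    have e : (Finsupp.mapDomain (fun R : St => R) : (St →₀ ℂ) → (St →₀ ℂ)) = bwV d 0 := by
      funext f
      exact Finsupp.mapDomain_id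
    rw [e] at h
    have e2 : gbw d 0 = (fun R => R) := rfl
    rw [e2, pow_zero]
    exact h
  | succ L ih =>
    have h := ih.comp (dob_tile (L+d))
    rw [pow_succ]
    exact h

theorem dob_UV (d L : ℕ) :
    Dob (UV d L) (fun R => gbw d L (gfw d L R)) ((1/2)^L * (1/2)^L) :=
  (dob_bwV d L).comp (dob_fwV d L)

/-! ### the functionals -/

theorem phi_le (p : ℕ) (f : St →₀ ℂ) : ‖phi p f‖ ≤ nrm f := by
  classical
  unfold phi nrm
  rw [Finsupp.sum, Finsupp.sum]
  refine (norm_sum_le _ _).trans (Finset.sum_le_sum fun R _ => ?_)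
  split_ifs
  · exact le_rfl
  · rw [norm_zero]; exact norm_nonneg _

theorem JF_add (d L : ℕ) (f g : St →₀ ℂ) : JF d L (f + g) = JF d L f + JF d L g := by
  induction L with
  | zero => simp [JF]
  | succ L ih =>
    rw [JF, JF, JF, ih, (dob_fwV d L).add]
    split_ifs
    · rw [phi_add]; ring
    · ring

theorem JF_smul (d L : ℕ) (c : ℂ) (f : St →₀ ℂ) : JF d L (c • f) = c * JF d L f := by
  induction L with
  | zero => simp [JF]
  | succ L ih =>
    rw [JF, JF, ih, (dob_fwV d L).smul]
    split_ifs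
    · rw [phi_smul]; ring
    · ring

theorem JF_le (d L : ℕ) (f : St →₀ ℂ) : ‖JF d L f‖ ≤ L * nrm f := by
  induction L with
  | zero => simp [JF]
  | succ L ih =>
    rw [JF]
    refine (norm_add_le _ _).trans ?_
    have h1 : ‖(if (L+d) % 2 = 1 then phi (L+d) (fwV d L f) else 0)‖ ≤ nrm f := by
      split_ifs
      · exact (phi_le _ _).trans ((dob_fwV d L).nrm_le f)
      · rw [norm_zero]; exact nrm_nonneg f
    push_cast
    linarith

theorem JB_add (d L : ℕ) (f g : St →₀ ℂ) : JB d L (f + g) = JB d L f + JB d L g := by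
  induction L generalizing f g with
  | zero => simp [JB]
  | succ L ih =>
    rw [JB, JB, JB, (dob_tile (L+d)).add, ih]
    split_ifs
    · rw [phi_add]; ring
    · ring

theorem JB_smul (d L : ℕ) (c : ℂ) (f : St →₀ ℂ) : JB d L (c • f) = c * JB d L f := by
  induction L generalizing f with
  | zero => simp [JB]
  | succ L ih =>
    rw [JB, JB, (dob_tile (L+d)).smul, ih]
    split_ifs
    · rw [phi_smul]; ring
    · ring

theorem JB_le (d L : ℕ) (f : St →₀ ℂ) : ‖JB d L f‖ ≤ L * nrm f := by
  induction L generalizing f with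
  | zero => simp [JB]
  | succ L ih =>
    rw [JB]
    refine (norm_add_le _ _).trans ?_
    have h1 : ‖(if (L+d) % 2 = 1 then phi (L+d) f else 0)‖ ≤ nrm f := by
      split_ifs
      · exact phi_le _ _
      · rw [norm_zero]; exact nrm_nonneg f
    have h2 := ih (tile (L+d) f)
    have h3 := mul_le_mul_of_nonneg_left ((dob_tile (L+d)).nrm_le f) (Nat.cast_nonneg (α := ℝ) L)
    push_cast
    linarith

theorem JU_add (d L : ℕ) (f g : St →₀ ℂ) : JU d L (f + g) = JU d L f + JU d L g := by
  unfold JU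
  rw [JF_add, (dob_fwV d L).add, JB_add]
  ring

theorem JU_smul (d L : ℕ) (c : ℂ) (f : St →₀ ℂ) : JU d L (c • f) = c * JU d L f := by
  unfold JU
  rw [JF_smul, (dob_fwV d L).smul, JB_smul]
  ring

theorem JU_le (d L : ℕ) (f : St →₀ ℂ) : ‖JU d L f‖ ≤ (2 * L) * nrm f := by
  unfold JU
  refine (norm_add_le _ _).trans ?_
  have h1 := JF_le d L f
  have h2 := JB_le d L (fwV d L f)
  have h3 := mul_le_mul_of_nonneg_left ((dob_fwV d L).nrm_le f) (Nat.cast_nonneg (α := ℝ) L)
  linarith

/-! ### the good branch -/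

theorem gfw_rel (d L : ℕ) (R : St) (a b : ℕ) (h : (gfw d L R).rel a b) :
    a = b ∨ (R.rel a b ∧ ∀ i, d ≤ i → i < L + d → i % 2 = 0 → a ≠ i + 1 ∧ b ≠ i + 1) := by
  induction L generalizing a b with
  | zero =>
    right
    exact ⟨h, fun i h1 h2 => by omega⟩
  | succ L ih =>
    rw [gfw] at h
    unfold good at h
    split_ifs at h with hp
    · rcases act_even hp _ a b h with h | ⟨h1, h2, h3⟩
      · exact Or.inl h
      · rcases ih a b h3 with h | ⟨h4, h5⟩
        · exact Or.inl h
        · right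
          refine ⟨h4, fun i hi1 hi2 hi3 => ?_⟩
          rcases Nat.lt_or_ge i (L+d) with hlt | hge
          · exact h5 i hi1 hlt hi3
          · have : i = L + d := by omega
            subst this
            exact ⟨h1, h2⟩
    · rcases ih a b h with h | ⟨h4, h5⟩
      · exact Or.inl h
      · right
        refine ⟨h4, fun i hi1 hi2 hi3 => ?_⟩
        rcases Nat.lt_or_ge i (L+d) with hlt | hge
        · exact h5 i hi1 hlt hi3
        · have : i = L + d := by omega
          subst this
          exact absurd hi3 hp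

theorem gbw_bot (d L : ℕ) : gbw d L St.bot = St.bot := by
  induction L with
  | zero => rfl
  | succ L ih => rw [gbw, good_bot, ih]

/-- the chain `UV 0` -/
theorem good0 {N : ℕ} (hN : Odd N) {R : St} (hR : Bd (N+1) R) :
    gbw 0 N (gfw 0 N R) = St.bot := by
  have hN2 : N % 2 = 1 := Nat.odd_iff.mp hN
  have h1 : gfw 0 N R = St.bot := by
    apply St.ext
    funext a b
    apply propext
    constructor
    · intro h
      change a = b
      rcases gfw_rel 0 N R a b h with h | ⟨h1, h2⟩
      · exact h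
      · rcases hR a b h1 with h | ⟨l1, l2⟩
        · exact h
        · rcases R.odd a b h1 with h | ⟨o1, o2⟩
          · exact h
          · exfalso
            exact (h2 (a - 1) (by omega) (by omega) (by omega)).1 (by omega)
    · intro h
      change a = b at h
      subst h
      exact (gfw 0 N R).eqv.refl a
  rw [h1, gbw_bot]

theorem cl0_act {N i : ℕ} (hN : Odd N) (hi : i < N) {R : St} (hR : Bd (N+1) R) :
    Bd (N+1) (St.act i R) := by
  have hN2 : N % 2 = 1 := Nat.odd_iff.mp hN
  rcases Nat.mod_two_eq_zero_or_one i with h | h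
  · intro a b hab
    rcases act_even h R a b hab with h1 | ⟨_, _, h1⟩
    · exact Or.inl h1
    · exact hR a b h1
  · exact bd_act (by omega) hR

/-- the class for the chain `UV 1` -/
def C1 (N : ℕ) (R : St) : Prop := R.rel 1 (N+2) ∧ Bd (N+3) R

theorem rel_act {N i : ℕ} (hN : Odd N) (h1 : 1 ≤ i) (hi : i < N + 1) {R : St}
    (hR : R.rel 1 (N+2)) : (St.act i R).rel 1 (N+2) := by
  have hN2 : N % 2 = 1 := Nat.odd_iff.mp hN
  exact Or.inr ⟨rfl, by omega, by omega, by omega, Or.inl hR⟩

theorem cl1_act {N i : ℕ} (hN : Odd N) (h1 : 1 ≤ i) (hi : i < N + 1) {R : St}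
    (hR : C1 N R) : C1 N (St.act i R) :=
  ⟨rel_act hN h1 hi hR.1, bd_act (by omega) hR.2⟩

theorem gfw_one {N : ℕ} (hN : Odd N) (L : ℕ) (hL : L ≤ N) {R : St} (hR : R.rel 1 (N+2)) :
    (gfw 1 L R).rel 1 (N+2) := by
  induction L with
  | zero => exact hR
  | succ L ih =>
    have h := ih (by omega)
    rw [gfw]
    unfold good
    split_ifs
    · exact rel_act hN (by omega) (by omega) h
    · exact h

theorem good_RW {N i : ℕ} (h1 : 1 ≤ i) (hi : i < N + 1) : good i (RW N) = RW N := by
  unfold good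
  split_ifs with h
  · apply St.ext
    funext a b
    apply propext
    constructor
    · intro hab
      rcases act_even h _ a b hab with h2 | ⟨_, _, h2⟩
      · exact Or.inl h2
      · exact h2
    · intro hab
      rcases hab with h2 | ⟨h2, h3, h4⟩
      · exact Or.inl h2
      · refine Or.inr ⟨?_, ?_, ?_, ?_, Or.inl (Or.inr ⟨h2, h3, h4⟩)⟩
        · rcases h3 with h3 | h3 <;> omega
        · rcases h4 with h4 | h4 <;> omega
        · rcases h3 with h3 | h3 <;> omega
        · rcases h4 with h4 | h4 <;> omega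
  · rfl

theorem gbw_RW {N : ℕ} (L : ℕ) (hL : L ≤ N) : gbw 1 L (RW N) = RW N := by
  induction L with
  | zero => rfl
  | succ L ih => rw [gbw, good_RW (by omega) (by omega), ih (by omega)]

theorem good1 {N : ℕ} (hN : Odd N) {R : St} (hR : C1 N R) :
    gbw 1 N (gfw 1 N R) = RW N := by
  have hN2 : N % 2 = 1 := Nat.odd_iff.mp hN
  have h1 : gfw 1 N R = RW N := by
    have hrel := gfw_one hN N le_rfl hR.1
    apply St.ext
    funext a b
    apply propext
    constructor
    · intro h
      rcases gfw_rel 1 N R a b h with h | ⟨h1, h2⟩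
      · exact Or.inl h
      · rcases hR.2 a b h1 with h | ⟨l1, l2⟩
        · exact Or.inl h
        · rcases R.odd a b h1 with h | ⟨o1, o2⟩
          · exact Or.inl h
          · refine Or.inr ⟨hN2, ?_, ?_⟩
            · by_contra hne
              exact (h2 (a - 1) (by omega) (by omega) (by omega)).1 (by omega)
            · by_contra hne
              exact (h2 (b - 1) (by omega) (by omega) (by omega)).2 (by omega)
    · intro h
      rcases h with h | ⟨_, h3, h4⟩
      · subst h
        exact (gfw 1 N R).eqv.refl a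
      · rcases h3 with h3 | h3 <;> rcases h4 with h4 | h4 <;> subst h3 <;> subst h4
        · exact (gfw 1 N R).eqv.refl _
        · exact hrel
        · exact (gfw 1 N R).eqv.symm hrel
        · exact (gfw 1 N R).eqv.refl _
  rw [h1, gbw_RW N le_rfl]

end T22

open Pool.Agent.H988R2.Perc.T24 in
theorem JU_tendsto (N : ℕ) (hN : Odd N) :
    Tendsto (fun M => JU 0 N ((UV 0 N)^[M] (Finsupp.single (st0 0 N) 1))
      + JU 1 N ((UV 1 N)^[M] (Finsupp.single (st0 1 N) 1))) atTop
      (𝓝 (2 * (N : ℂ) + 2 * LD (-q) (List.replicate N 1))) := by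
  have hz := (LD_Z N hN).1
  have hlen : ((-q : ℂ) :: List.replicate N (1:ℂ)).length = N + 1 := by simp
  have heven : Even ((-q : ℂ) :: List.replicate N (1:ℂ)).length := by
    rw [hlen]; exact hN.add_one
  have hε : (0:ℝ) < (1/2)^N * (1/2)^N := by positivity
  have h0 : Tendsto (fun M => JU 0 N ((UV 0 N)^[M] (Finsupp.single (st0 0 N) 1))) atTop
      (𝓝 (JU 0 N (Psi ((-q) :: List.replicate N 1)) / mass (Psi ((-q) :: List.replicate N 1)))) := by
    refine T22.conv_abs (T22.dob_UV 0 N) hε (C := Bd (N+1)) ?_ (R0 := St.bot)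
      (fun R hR => T22.good0 hN hR) (UV0_fix N hN) ?_ hz ?_ (T22.JU_add 0 N) (T22.JU_smul 0 N)
      (K := 2 * N) (by positivity) (T22.JU_le 0 N)
    · intro f hf
      exact (hf.fwV (fun i _ hi R hR => T22.cl0_act hN (by omega) hR)).bwV
        (fun i _ hi R hR => T22.cl0_act hN (by omega) hR)
    · intro R hR a b hab
      have := Psi_supp _ heven R hR a b hab
      rw [hlen] at this
      exact this
    · intro a b h
      exact Or.inl h
  have h1 : Tendsto (fun M => JU 1 N ((UV 1 N)^[M] (Finsupp.single (st0 1 N) 1))) atTop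
      (𝓝 (JU 1 N (PsiX ((-q) :: List.replicate N 1)) / mass (PsiX ((-q) :: List.replicate N 1)))) := by
    refine T22.conv_abs (T22.dob_UV 1 N) hε (C := T22.C1 N) ?_ (R0 := RW N)
      (fun R hR => T22.good1 hN hR) (UV1_fix N hN) ?_ ?_ ?_ (T22.JU_add 1 N) (T22.JU_smul 1 N)
      (K := 2 * N) (by positivity) (T22.JU_le 1 N)
    · intro f hf
      exact (hf.fwV (fun i hi1 hi R hR => T22.cl1_act hN hi1 (by omega) hR)).bwV
        (fun i hi1 hi R hR => T22.cl1_act hN hi1 (by omega) hR)
    · intro R hR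
      have := PsiX_supp _ heven R hR
      rw [hlen] at this
      exact this
    · rw [mass_PsiX]; exact hz
    · have hN2 : N % 2 = 1 := Nat.odd_iff.mp hN
      refine ⟨Or.inr ⟨hN2, Or.inl rfl, Or.inr rfl⟩, ?_⟩
      rintro a b (h | ⟨_, h3, h4⟩)
      · exact Or.inl h
      · right
        constructor
        · rcases h3 with h3 | h3 <;> omega
        · rcases h4 with h4 | h4 <;> omega
  have h2 := h0.add h1
  have hm0 : mass (Psi ((-q) :: List.replicate N 1)) = Z ((-q) :: List.replicate N 1) := rfl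
  rw [mass_PsiX, hm0, ← add_div, JU_value N hN, mul_div_assoc, div_self hz, mul_one] at h2
  exact h2

end Pool.Agent.H980R2.Cross
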