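import Pool.Agent.H980R2.Cross.Defs

/-! Definitions for the final statement, in `ℤ²` coordinates. -/

namespace Pool.Agent.H980R2.Cross

open Pool.Agent.H988R2.Perc MeasureTheory

/-- the rotated rectangle of `ℤ²` -/
def Box (N K : ℕ) : Set (ℤ × ℤ) :=
  {p | 0 ≤ p.1 - p.2 ∧ p.1 - p.2 ≤ N ∧ 1 ≤ p.1 + p.2 ∧ p.1 + p.2 ≤ K + 1}

/-- the open cluster of `a` inside the rectangle -/
def boxCluster (N K : ℕ) (ω : Conf) (a : ℤ × ℤ) : Set (ℤ × ℤ) :=
  {b | Relation.ReflTransGen (fun x y => OpenAdj ω x y ∧ x ∈ Box N K ∧ y ∈ Box N K) a b}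

/-- the open clusters of the rectangle which meet both sides `u - v = 0` and `u - v = N` -/
def crossingClusters (N K : ℕ) (ω : Conf) : Set (Set (ℤ × ℤ)) :=
  {C | ∃ a ∈ Box N K, a.1 - a.2 = 0 ∧ C = boxCluster N K ω a ∧ ∃ b ∈ C, b.1 - b.2 = N}

end Pool.Agent.H980R2.Cross
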