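import Pool.Agent.H980R2.Cross.Defs
import Pool.Agent.H988R2.Perc.T15
import Pool.Agent.H988R2.Perc.T16

/-! T13: lacunarity.  `HH x t` is a polynomial in `x` without the powers `x^j`, `j ≡ 2 mod 3`.

Let `|t| = 2n+1`, `l = x :: t`.  `Z_det` (`H988R2.Perc.T15`): `Z l * ddl (2n+2) l = q^(..) * dmu (2n+2) l`.
* `dmu (2n+2) l = det [ l_i^(a + mu j) - l_i^(a - mu j) ]`, `a = mu (2n+1) = 3n+2`.  As a function of `x`
  (first row, `l_0 = x`) each entry `f` satisfies `f(x) + q f(q x) + q² f(q² x) = 0`, because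
  `a ± mu j ≢ 2 mod 3`; by multilinearity of `det` in the row `0`, `x ↦ dmu (x::t)` satisfies it.
* for nonzero entries, by `dV_eq` (T15) and `weyl` (T16),
  `ddl (x::t) = c(t) * (x²-1) * ∏_{z∈t} (x-z)(x z-1)` where `c(t) ≠ 0` if the entries of `t` are
  nonzero, `z² ≠ 1`, and `z + z⁻¹` pairwise distinct (generic `t`), for all `x ≠ 0` (and then for all `x`
  by continuity; or treat `x = 0` at the end by continuity of both sides of the claim).
* So the claim holds for generic `t`; the left side of the claim is polynomial in the entries of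
  `t` (`Z_pd`, slices), so it holds for all `t` (`PD.generic` in `H988R2.Perc.T03`). -/

namespace Pool.Agent.H980R2.Cross

open Pool.Agent.H988R2.Perc Finset

noncomputable def HH (x : ℂ) (t : List ℂ) : ℂ :=
  Z (x :: t) * ((x^2 - 1) * (t.map (fun z => (x - z) * (x * z - 1))).prod)

namespace T13

/-- the powers which occur do not see the residue class `2` -/
theorem pow_rel (x : ℂ) (e : ℕ) (he : e % 3 ≠ 2) :
    x^e + q * (q * x)^e + q^2 * (q^2 * x)^e = 0 := by
  have h3 := q_cube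
  have hs := q_spec
  obtain ⟨k, hk⟩ : ∃ k, e = 3 * k + e % 3 := ⟨e / 3, by omega⟩
  have hq : q^e = q^(e % 3) := by
    conv_lhs => rw [hk]
    rw [pow_add, pow_mul, h3, one_pow, one_mul]
  rw [mul_pow, mul_pow, ← pow_mul, mul_comm 2 e, pow_mul, hq]
  have hlt : e % 3 < 3 := Nat.mod_lt _ (by norm_num)
  interval_cases h : e % 3
  · linear_combination x^e * hs
  · linear_combination x^e * hs + x^e * q * h3
  · exact absurd rfl he

theorem mu_mod (j : ℕ) : mu j % 3 ≠ 0 := by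
  unfold mu; omega

theorem mu_le' {j k : ℕ} (h : j ≤ k) : mu j ≤ mu k := by
  unfold mu; omega

/-- multilinearity in the first row -/
theorem dmu_rel (n : ℕ) (x : ℂ) (t : List ℂ) :
    dmu (2*n+2) (x :: t) + q * dmu (2*n+2) ((q * x) :: t) +
      q^2 * dmu (2*n+2) ((q^2 * x) :: t) = 0 := by
  have key : ∀ y : ℂ, dmu (2*n+2) (y :: t) =
      ∑ j : Fin (2*n+2), (y^(mu (2*n+1) + mu j) - y^(mu (2*n+1) - mu j)) *
        ((-1)^(j:ℕ) * (Matrix.of fun (i : Fin (2*n+1)) (k : Fin (2*n+1)) =>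
          (t.getD i 0)^(mu (2*n+1) + mu (j.succAbove k)) -
            (t.getD i 0)^(mu (2*n+1) - mu (j.succAbove k))).det) := by
    intro y
    unfold dmu
    rw [Matrix.det_succ_row_zero]
    apply Finset.sum_congr rfl
    intro j _
    have h1 : (Matrix.of fun i j : Fin (2*n+2) => ((y :: t).getD i 0)^(mu (2*n+2-1) + mu j) -
        ((y :: t).getD i 0)^(mu (2*n+2-1) - mu j)) 0 j =
        y^(mu (2*n+1) + mu j) - y^(mu (2*n+1) - mu j) := by
      simp
    rw [h1]
    have h2 : (Matrix.of fun i j : Fin (2*n+2) => ((y :: t).getD i 0)^(mu (2*n+2-1) + mu j) -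
        ((y :: t).getD i 0)^(mu (2*n+2-1) - mu j)).submatrix Fin.succ j.succAbove =
        Matrix.of fun (i : Fin (2*n+1)) (k : Fin (2*n+1)) =>
          (t.getD i 0)^(mu (2*n+1) + mu (j.succAbove k)) -
            (t.getD i 0)^(mu (2*n+1) - mu (j.succAbove k)) := by
      ext i k
      simp
    rw [h2]
    ring
  rw [key, key, key, Finset.mul_sum, Finset.mul_sum, ← Finset.sum_add_distrib,
    ← Finset.sum_add_distrib]
  apply Finset.sum_eq_zero
  intro j _
  have hm := mu_mod j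
  have hle : mu j ≤ mu (2*n+1) := mu_le' (by omega)
  have ha := mu_odd n
  have h1 := pow_rel x (mu (2*n+1) + mu j) (by omega)
  have h2 := pow_rel x (mu (2*n+1) - mu j) (by omega)
  linear_combination ((-1)^(j:ℕ) * (Matrix.of fun (i : Fin (2*n+1)) (k : Fin (2*n+1)) =>
          (t.getD i 0)^(mu (2*n+1) + mu (j.succAbove k)) -
            (t.getD i 0)^(mu (2*n+1) - mu (j.succAbove k))).det) * (h1 - h2)

/-- the Weyl denominator as a function of the first variable -/
theorem dV_cons (M : ℕ) (t : Fin M → ℂ) (ht : ∀ i, t i ≠ 0)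
    (h2 : ∀ i, (t i)^2 ≠ 1) (h3 : ∀ i j, i ≠ j → t j + (t j)⁻¹ ≠ t i + (t i)⁻¹) :
    ∃ c : ℂ, c ≠ 0 ∧ ∀ x : ℂ, x ≠ 0 →
      dV (M+1) (fun j => j+1) (Fin.cons x t : Fin (M+1) → ℂ) =
        c * ((x^2 - 1) * ∏ i, ((x - t i) * (x * t i - 1))) := by
  refine ⟨(∏ i, t i)^(M+1) * ((∏ i, (t i - (t i)⁻¹)) *
    (∏ i : Fin M, ∏ j ∈ Ioi i, ((t j + (t j)⁻¹) - (t i + (t i)⁻¹)))) *
      ((-1)^M * (∏ i, t i)⁻¹), ?_, ?_⟩
  · have hp : (∏ i, t i) ≠ 0 := Finset.prod_ne_zero_iff.2 fun i _ => ht i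
    refine mul_ne_zero (mul_ne_zero (pow_ne_zero _ hp) (mul_ne_zero ?_ ?_))
      (mul_ne_zero (pow_ne_zero _ (by norm_num)) (inv_ne_zero hp))
    · refine Finset.prod_ne_zero_iff.2 fun i _ => ?_
      intro h
      apply h2 i
      have h4 : t i * (t i)⁻¹ = 1 := mul_inv_cancel₀ (ht i)
      linear_combination (t i) * h + h4
    · refine Finset.prod_ne_zero_iff.2 fun i _ => Finset.prod_ne_zero_iff.2 fun j hj => ?_
      rw [Finset.mem_Ioi] at hj
      exact sub_ne_zero.2 (h3 i j (ne_of_lt hj))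
  · intro x hx
    have hz : ∀ i, (Fin.cons x t : Fin (M+1) → ℂ) i ≠ 0 := by
      intro i
      refine Fin.cases ?_ (fun j => ?_) i
      · simpa using hx
      · simpa using ht j
    rw [dV_eq (M+1) (fun j => j+1) (by intro j hj; omega) _ hz]
    have hw := Pool.Agent.H988R2.Perc.T16.weyl (M+1) (Fin.cons x t : Fin (M+1) → ℂ) hz
    rw [← Matrix.det_transpose] at hw
    have hT : (Matrix.of fun i j : Fin (M+1) => sL ((fun j => j+1) (j:ℕ))
        ((Fin.cons x t : Fin (M+1) → ℂ) i)) =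
        (Matrix.of fun i j : Fin (M+1) => ((Fin.cons x t : Fin (M+1) → ℂ) j)^((i:ℕ)+1) -
          ((Fin.cons x t : Fin (M+1) → ℂ) j)⁻¹^((i:ℕ)+1)).transpose := by
      ext i j
      simp [sL]
    rw [hT, hw, Fin.prod_univ_succ, Fin.prod_univ_succ, Fin.prod_univ_succ, Fin.prod_Ioi_zero]
    simp only [Fin.cons_zero, Fin.cons_succ, Fin.prod_Ioi_succ]
    have e1 : ∀ i : Fin M, (t i + (t i)⁻¹ - (x + x⁻¹)) =
        (-1) * (x⁻¹ * (t i)⁻¹) * ((x - t i) * (x * t i - 1)) := by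
      intro i
      have hti := ht i
      field_simp
      ring
    rw [Finset.prod_congr rfl (fun i _ => e1 i), Finset.prod_mul_distrib,
      Finset.prod_mul_distrib, Finset.prod_mul_distrib, Finset.prod_const, Finset.prod_const,
      Finset.card_univ, Fintype.card_fin, Finset.prod_inv_distrib]
    have e2 : x^(M+1) * (x - x⁻¹) * (x⁻¹)^M = x^2 - 1 := by
      have h5 : x * x⁻¹ = 1 := mul_inv_cancel₀ hx
      have h6 : x^M * (x⁻¹)^M = 1 := by rw [← mul_pow, h5, one_pow]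
      calc x^(M+1) * (x - x⁻¹) * (x⁻¹)^M = (x^M * (x⁻¹)^M) * (x * x - x * x⁻¹) := by ring
        _ = x^2 - 1 := by rw [h6, h5]; ring
    rw [mul_pow]
    linear_combination ((∏ i, t i)^(M+1) * ((∏ i, (t i - (t i)⁻¹)) *
      (∏ i : Fin M, ∏ j ∈ Ioi i, ((t j + (t j)⁻¹) - (t i + (t i)⁻¹)))) *
      ((-1)^M * (∏ i, t i)⁻¹) * ∏ i, ((x - t i) * (x * t i - 1))) * e2

/-- the product over the list -/
theorem prod_map_eq {M : ℕ} (x : ℂ) {t : List ℂ} (ht : t.length = M) :
    (t.map (fun z => (x - z) * (x * z - 1))).prod =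
      ∏ i : Fin M, ((x - t.getD i 0) * (x * t.getD i 0 - 1)) := by
  conv_lhs => rw [← ofFn_getD ht]
  rw [List.map_ofFn, List.prod_ofFn]
  rfl

/-- the claim for generic entries -/
theorem generic_case (n : ℕ) (x : ℂ) (t : List ℂ) (ht : t.length = 2*n+1)
    (hgen : ∀ k < 2*n+1, t.getD k 0 ∉ badSet (t.take k)) :
    HH x t + q * HH (q * x) t + q^2 * HH (q^2 * x) t = 0 := by
  by_cases hx : x = 0
  · subst hx
    rw [mul_zero, mul_zero]
    linear_combination (HH 0 t) * q_spec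
  set y : Fin (2*n+1) → ℂ := fun i => t.getD i 0 with hy
  have hy0 : ∀ i, y i ≠ 0 := fun i => (notMem_badSet (hgen i (by omega))).1
  have hy1 : ∀ i, (y i)^6 ≠ 1 := fun i => (notMem_badSet (hgen i (by omega))).2.1
  have hy2 : ∀ i j : Fin (2*n+1), (j:ℕ) < i → (y i)^6 ≠ (y j)^6 ∧ (y i)^6 ≠ ((y j)⁻¹)^6 := by
    intro i j hij
    apply (notMem_badSet (hgen i (by omega))).2.2
    rw [hy]
    simp only
    rw [List.getD_eq_getElem t 0 (by omega)]
    rw [List.mem_take_iff_getElem]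
    exact ⟨j, by omega, rfl⟩
  have hne : ∀ i j : Fin (2*n+1), (j:ℕ) < i → y i + (y i)⁻¹ ≠ y j + (y j)⁻¹ := by
    intro i j hij h
    obtain ⟨h1, h2⟩ := hy2 i j hij
    have h3 : (y i - y j) * (y i * y j - 1) = 0 := by
      have a1 : y i * (y i)⁻¹ = 1 := mul_inv_cancel₀ (hy0 i)
      have a2 : y j * (y j)⁻¹ = 1 := mul_inv_cancel₀ (hy0 j)
      linear_combination (y i * y j) * h - y j * a1 + y i * a2
    rcases mul_eq_zero.1 h3 with h4 | h4
    · exact h1 (by rw [sub_eq_zero.1 h4])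
    · apply h2
      rw [eq_inv_of_mul_eq_one_left (sub_eq_zero.1 h4)]
  obtain ⟨c, hc, hcx⟩ := dV_cons (2*n+1) y hy0
    (fun i h => hy1 i (by rw [show (6:ℕ) = 2 * 3 from rfl, pow_mul, h, one_pow]))
    (fun i j hij => by
      rcases lt_or_gt_of_ne (fun h => hij (Fin.ext h) : (i:ℕ) ≠ j) with h | h
      · exact hne j i h
      · exact fun h' => hne i j h h'.symm)
  have key : ∀ w : ℂ, w ≠ 0 → HH w t * c = q^((n+1)*n) * dmu (2*n+2) (w :: t) := by
    intro w hw
    have h1 := Z_det (n+1) (w :: t) (by rw [List.length_cons, ht]; ring)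
    rw [show 2*(n+1) = 2*n+2 by ring, show n + 1 - 1 = n by omega] at h1
    rw [← h1]
    have h2 : ddl (2*n+2) (w :: t) = dV (2*n+1+1) (fun j => j+1) (Fin.cons w y : Fin (2*n+1+1) → ℂ) := by
      rw [ddl_eq]
      congr 1
      funext i
      refine Fin.cases ?_ (fun j => ?_) i
      · simp
      · simp [hy]
    rw [h2, hcx w hw]
    unfold HH
    rw [prod_map_eq w ht]
    ring
  have hq := q_ne_zero
  have k1 := key x hx
  have k2 := key (q * x) (mul_ne_zero hq hx)
  have k3 := key (q^2 * x) (mul_ne_zero (pow_ne_zero _ hq) hx)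
  have hd := dmu_rel n x t
  have : (HH x t + q * HH (q * x) t + q^2 * HH (q^2 * x) t) * c = 0 := by
    linear_combination k1 + q * k2 + q^2 * k3 + q^((n+1)*n) * hd
  exact (mul_eq_zero.1 this).resolve_right hc

/-- the product is a polynomial function -/
theorem pd_prod (M : ℕ) (x : ℂ) :
    ∃ d, PD M d (fun t => (t.map (fun z => (x - z) * (x * z - 1))).prod) := by
  refine ⟨(Finset.univ : Finset (Fin M)).sup (fun i => (∏ k : Fin M,
    ((MvPolynomial.C x - MvPolynomial.X k) * (MvPolynomial.C x * MvPolynomial.X k - 1) :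
      MvPolynomial (Fin M) ℂ)).degreeOf i), ∏ k : Fin M,
    ((MvPolynomial.C x - MvPolynomial.X k) * (MvPolynomial.C x * MvPolynomial.X k - 1)),
    fun i => Finset.le_sup (f := fun i => (∏ k : Fin M,
    ((MvPolynomial.C x - MvPolynomial.X k) * (MvPolynomial.C x * MvPolynomial.X k - 1) :
      MvPolynomial (Fin M) ℂ)).degreeOf i) (Finset.mem_univ i), ?_⟩
  intro t ht
  show (t.map (fun z => (x - z) * (x * z - 1))).prod = _
  rw [prod_map_eq x ht, map_prod]
  apply Finset.prod_congr rfl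
  intro k _
  simp

theorem pd_HH (n : ℕ) (x : ℂ) : ∃ d, PD (2*n+1) d (HH x) := by
  obtain ⟨d1, h1⟩ := pd_prod (2*n+1) x
  have h2 : PD (2*n+1) (2*n+1+1-2) (fun t => Z (x :: t)) := by
    have := PD.slice (Z_pd (2*n+1+1) ⟨n+1, by ring⟩) 0 (Nat.zero_le _) x
    simpa using this
  have h3 := (h2.mul h1).smul (x^2-1)
  refine ⟨_, h3.congr fun t _ => ?_⟩
  unfold HH
  ring

end T13

theorem lacunary (x : ℂ) (t : List ℂ) (h : Odd t.length) :
    HH x t + q * HH (q * x) t + q^2 * HH (q^2 * x) t = 0 := by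
  obtain ⟨n, hn⟩ := h
  obtain ⟨d1, h1⟩ := T13.pd_HH n x
  obtain ⟨d2, h2⟩ := T13.pd_HH n (q * x)
  obtain ⟨d3, h3⟩ := T13.pd_HH n (q^2 * x)
  have hF : PD (2*n+1) (d1 + d2 + d3)
      (fun t => HH x t + q * HH (q * x) t + q^2 * HH (q^2 * x) t) :=
    ((h1.le (by omega)).add ((h2.smul q).le (by omega))).add ((h3.smul (q^2)).le (by omega))
  exact hF.generic badSet (fun l hl hk => T13.generic_case n x l hl hk) t hn

end Pool.Agent.H980R2.Cross
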