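import Mathlib

/-! T15, auxiliary lemmas (helper36). -/

namespace Pool.Agent.H980R2.Cross.X15

open Finset Polynomial

theorem one_zero (n : ℕ) (f : ℕ → ℂ)
    (h : ∀ x : ℂ, x ≠ 0 → ∑ i ∈ range n, f i * x^i = 0) : ∀ i < n, f i = 0 := by
  intro i hi
  have h1 : (∑ i ∈ range n, C (f i) * X^i : ℂ[X]) = 0 := by
    apply Polynomial.eq_zero_of_infinite_isRoot
    refine Set.Infinite.mono (s := {0}ᶜ) ?_ (Set.finite_singleton (0:ℂ)).infinite_compl
    intro x hx
    simp only [Set.mem_ofPred_eq, IsRoot.def, eval_finsetSum, eval_mul, eval_C, eval_pow, eval_X]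
    exact h x hx
  have h2 := congrArg (fun p => coeff p i) h1
  simp only [finsetSum_coeff, coeff_C_mul, coeff_X_pow, coeff_zero] at h2
  rw [Finset.sum_eq_single i] at h2
  · simpa using h2
  · intro j _ hj
    rw [if_neg (Ne.symm hj), mul_zero]
  · intro hni
    exact absurd (mem_range.mpr hi) hni

theorem arr_zero (n : ℕ) (g : ℕ → ℕ → ℂ)
    (h : ∀ x y : ℂ, x ≠ 0 → ∑ i ∈ range n, ∑ j ∈ range n, g i j * x^i * y^j = 0) :
    ∀ i < n, ∀ j < n, g i j = 0 := by
  intro i hi j hj
  refine one_zero n (fun i => g i j) (fun x hx => ?_) i hi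
  refine one_zero n (fun j => ∑ i ∈ range n, g i j * x^i) (fun y _ => ?_) j hj
  rw [← h x y hx, Finset.sum_comm]
  refine Finset.sum_congr rfl fun j _ => ?_
  rw [Finset.sum_mul]

/-- coefficients of a bivariate polynomial -/
noncomputable def cf (P : ℂ[X][X]) (i j : ℕ) : ℂ := (P.coeff j).coeff i

theorem rep (P : ℂ[X][X]) : ∃ n : ℕ, (∀ i j, n ≤ i ∨ n ≤ j → cf P i j = 0) ∧
    ∀ m, n ≤ m → ∀ x y : ℂ, (P.eval (C y)).eval x =
      ∑ i ∈ range m, ∑ j ∈ range m, cf P i j * x^i * y^j := by
  refine ⟨P.natDegree + ∑ j ∈ range (P.natDegree + 1), (P.coeff j).natDegree + 1, ?_, ?_⟩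
  · intro i j hij
    unfold cf
    by_cases hj : P.natDegree < j
    · rw [coeff_eq_zero_of_natDegree_lt hj, coeff_zero]
    · apply coeff_eq_zero_of_natDegree_lt
      have h1 : (P.coeff j).natDegree ≤ ∑ j ∈ range (P.natDegree + 1), (P.coeff j).natDegree :=
        Finset.single_le_sum (f := fun j => (P.coeff j).natDegree) (fun _ _ => Nat.zero_le _)
          (mem_range.mpr (by omega))
      omega
  · intro m hm x y
    have h0 : P.natDegree < m := by omega
    rw [eval_eq_sum_range' h0, eval_finsetSum, Finset.sum_comm]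
    refine Finset.sum_congr rfl fun j _ => ?_
    have h2 : (P.coeff j).natDegree < m := by
      by_cases hj : P.natDegree < j
      · rw [coeff_eq_zero_of_natDegree_lt hj, natDegree_zero]; omega
      · have h1 : (P.coeff j).natDegree ≤ ∑ j ∈ range (P.natDegree + 1), (P.coeff j).natDegree :=
          Finset.single_le_sum (f := fun j => (P.coeff j).natDegree) (fun _ _ => Nat.zero_le _)
            (mem_range.mpr (by omega))
        omega
    rw [eval_mul, eval_eq_sum_range' h2, ← C_pow, eval_C, Finset.sum_mul]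
    rfl

/-- the functional `∑ P_i f(i)` kills multiples of `(X-1)^n` if `f` is a polynomial of degree `< n` -/
theorem moment (n : ℕ) : ∀ (Q f : ℂ[X]) (m : ℕ), f.degree < n →
    ((X - 1)^n * Q).natDegree < m →
    ∑ i ∈ range m, ((X - 1)^n * Q).coeff i * f.eval (i:ℂ) = 0 := by
  induction n with
  | zero =>
    intro Q f m hf _
    have : f = 0 := by
      rw [← degree_eq_bot]
      exact Nat.WithBot.lt_zero_iff.mp (by exact_mod_cast hf)
    simp [this]
  | succ n ih =>
    intro Q f m hf hm
    set R := (X - 1)^n * Q with hR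
    have hPR : (X - 1)^(n+1) * Q = R * X - R := by rw [hR]; ring
    rw [hPR] at hm ⊢
    -- degree of R
    have hRm : R.natDegree < m := by
      by_cases h0 : R = 0
      · rw [h0, natDegree_zero]; omega
      · have h1 : (R * X - R).natDegree = R.natDegree + 1 := by
          rw [show R * X - R = R * (X - C 1) by rw [C_1]; ring]
          rw [natDegree_mul h0 (X_sub_C_ne_zero 1), natDegree_X_sub_C]
        omega
    have h1 : ∑ i ∈ range m, (R * X - R).coeff i * f.eval (i:ℂ) =
        ∑ i ∈ range m, R.coeff i * ((f.comp (X + 1)) - f).eval (i:ℂ) := by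
      have h2 : ∑ i ∈ range m, (R * X).coeff i * f.eval (i:ℂ) =
          ∑ i ∈ range m, R.coeff i * f.eval ((i:ℂ) + 1) := by
        obtain ⟨m, rfl⟩ : ∃ m', m = m' + 1 := ⟨m - 1, by omega⟩
        rw [Finset.sum_range_succ', Finset.sum_range_succ (n := m)]
        have h3 : R.coeff m = 0 := by
          by_cases h0 : R = 0
          · rw [h0, coeff_zero]
          · have h1 : (R * X - R).natDegree = R.natDegree + 1 := by
              rw [show R * X - R = R * (X - C 1) by rw [C_1]; ring]
              rw [natDegree_mul h0 (X_sub_C_ne_zero 1), natDegree_X_sub_C]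
            exact coeff_eq_zero_of_natDegree_lt (by omega)
        rw [h3, zero_mul, add_zero]
        have h4 : (R * X).coeff 0 = 0 := by simp
        rw [h4, zero_mul, add_zero]
        refine Finset.sum_congr rfl fun i _ => ?_
        rw [coeff_mul_X]
        push_cast
        rfl
      simp only [coeff_sub, sub_mul, Finset.sum_sub_distrib, h2, eval_sub, mul_sub, eval_comp,
        eval_add, eval_X, eval_one]
    rw [h1]
    apply ih Q _ m _ hRm
    -- degree drop
    by_cases h0 : f = 0
    · rw [h0]; simp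
    · have h5 : (f.comp (X + 1) - f).degree < f.degree := by
        apply degree_sub_lt_right
        · rw [degree_eq_natDegree h0, degree_eq_natDegree, natDegree_comp]
          · rw [show (X + 1 : ℂ[X]) = X + C 1 by rw [C_1], natDegree_X_add_C, mul_one]
          · intro h6
            have h7 := congrArg (fun p => p.comp (X - 1)) h6
            simp only [comp_assoc, add_comp, X_comp, one_comp, sub_add_cancel, comp_X,
              zero_comp] at h7
            exact h0 h7
        · exact h0
        · rw [show (X + 1 : ℂ[X]) = X + C 1 by rw [C_1]]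
          rw [leadingCoeff_comp (by rw [natDegree_X_add_C]; omega), leadingCoeff_X_add_C,
            one_pow, mul_one]
      have h6 : f.natDegree < n + 1 := by
        rw [degree_eq_natDegree h0] at hf
        exact_mod_cast hf
      refine lt_of_lt_of_le h5 ?_
      rw [degree_eq_natDegree h0]
      exact_mod_cast Nat.lt_succ_iff.mp h6

/-- `θ = X d/dX` -/
noncomputable def th (P : ℂ[X]) : ℂ[X] := X * derivative P

theorem coeff_th (P : ℂ[X]) (i : ℕ) : (th P).coeff i = (i:ℂ) * P.coeff i := by
  unfold th
  cases i with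
  | zero => simp
  | succ i => rw [coeff_X_mul, coeff_derivative]; push_cast; ring

theorem natDegree_th (P : ℂ[X]) : (th P).natDegree ≤ P.natDegree := by
  rw [natDegree_le_iff_coeff_eq_zero]
  intro i hi
  rw [coeff_th, coeff_eq_zero_of_natDegree_lt hi, mul_zero]

theorem sum_one (P : ℂ[X]) (n : ℕ) (h : P.natDegree < n) (a z : ℂ) :
    ∑ i ∈ range n, ((i:ℂ) - a)^1 * z^i * P.coeff i = (th P).eval z - a * P.eval z := by
  rw [eval_eq_sum_range' h, eval_eq_sum_range' (lt_of_le_of_lt (natDegree_th P) h),
    Finset.mul_sum, ← Finset.sum_sub_distrib]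
  refine Finset.sum_congr rfl fun i _ => ?_
  rw [coeff_th]
  ring

theorem sum_two (P : ℂ[X]) (n : ℕ) (h : P.natDegree < n) (a z : ℂ) :
    ∑ i ∈ range n, ((i:ℂ) - a)^2 * z^i * P.coeff i =
      (th (th P)).eval z - 2 * a * (th P).eval z + a^2 * P.eval z := by
  have h1 := lt_of_le_of_lt (natDegree_th P) h
  rw [eval_eq_sum_range' h, eval_eq_sum_range' h1,
    eval_eq_sum_range' (lt_of_le_of_lt (natDegree_th _) h1),
    Finset.mul_sum, Finset.mul_sum, ← Finset.sum_sub_distrib, ← Finset.sum_add_distrib]
  refine Finset.sum_congr rfl fun i _ => ?_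
  rw [coeff_th, coeff_th]
  ring

theorem th_factor (z : ℂ) (R : ℂ[X]) :
    ((X - C z) * R).eval z = 0 ∧ (th ((X - C z) * R)).eval z = z * R.eval z ∧
    (th (th ((X - C z) * R))).eval z = z * R.eval z + 2 * z^2 * (derivative R).eval z := by
  refine ⟨?_, ?_, ?_⟩
  · simp
  · simp [th]
  · simp [th]
    ring

end Pool.Agent.H980R2.Cross.X15
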