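import Pool.Agent.H980R2.Cross.T12
import Pool.Agent.H980R2.Cross.T13
import Pool.Agent.H980R2.Cross.T15Aux
import Pool.Agent.H988R2.Perc.T14
import Pool.Agent.H988R2.Perc.T16
import Pool.Agent.H988R2.Perc.T20

/-! T15: the second logarithmic derivative.

`K x y = Z (x :: y :: 1^N ++ [0])` (polynomial, degree `≤ N+1` in `x` and in `y`, symmetric,
`x^(N+1) K(x⁻¹,y) = K(x,y)`), `N` odd.  `H(x,y) = K(x,y) (x²-1)(x-1)^(2N) (y²-1)(y-1)^(2N) (x-y)(xy-1)`.
For fixed `y`: `HH x (y::1^N++[0]) = -x * K(x,y)(x²-1)(x-1)^(2N)(x-y)(xy-1)` (the factor of the entry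
`0` is `(x-0)(x*0-1) = -x`), so by T13 `x ↦ H(x,y)` has no powers `j ≡ 1 mod 3`; degree `≤ 3N+5 = 2a`,
`a = (3N+5)/2 = mu (N+1) ≡ 1 mod 3`.  `c l l' = coeff of x^(l+a) y^(l'+a)` (zero outside the range) is
`Good2 (N+1)`: `supp` (also in the second variable by antisymmetry), `anti` (`H(y,x) = -H(x,y)`), `odd`
(`x^(2a) H(x⁻¹,y) = -H(x,y)`), `mom` (`(x-1)^(2N+1) ∣ H`, `2(N+1)-1 = 2N+1`).
Let `ζ = -q`, `η = ζ⁻¹ = -q²`, `P(x) = H(x,η) = (x-ζ) R(x)`, `θ = x d/dx`:
`E1 = (θP)(ζ) = ζ R(ζ)`, `E2 = (θ-a)² P (ζ) = (1-2a) ζ R(ζ) + 2 ζ² R'(ζ)`. -/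

namespace Pool.Agent.H980R2.Cross

open Pool.Agent.H988R2.Perc Finset
open scoped Polynomial

namespace X15

theorem exists_K (N : ℕ) (hN : Odd N) : ∃ K : Polynomial ℂ[X], K.natDegree ≤ N + 1 ∧
    ∀ x y : ℂ, Z (x :: y :: (List.replicate N 1 ++ [0])) =
      (K.eval (Polynomial.C y)).eval x := by
  have h1 := Z_pd (N + 3) (by obtain ⟨k, rfl⟩ := hN; exact ⟨k + 2, by ring⟩)
  have h2 : PD 2 (N + 1) (fun l => Z (l ++ (List.replicate N 1 ++ [0]))) := by
    apply PD.sliceRight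
    have h3 : 2 + (List.replicate N (1:ℂ) ++ [0]).length = N + 3 := by simp; ring
    rw [h3]
    exact h1
  obtain ⟨p, hp, hp'⟩ := h2
  refine ⟨∑ e ∈ p.support, Polynomial.monomial (e 1) (Polynomial.monomial (e 0) (p.coeff e)),
    ?_, ?_⟩
  · apply Polynomial.natDegree_sum_le_of_forall_le
    intro e he
    refine (Polynomial.natDegree_monomial_le _).trans ?_
    exact (MvPolynomial.monomial_le_degreeOf 1 he).trans (hp 1)
  · intro x y
    have h3 := hp' [x, y] rfl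
    simp only [List.cons_append, List.nil_append] at h3
    rw [h3, MvPolynomial.eval_eq', Polynomial.eval_finsetSum, Polynomial.eval_finsetSum]
    refine Finset.sum_congr rfl fun e _ => ?_
    rw [Fin.prod_univ_two, Polynomial.eval_monomial, Polynomial.eval_mul,
      Polynomial.eval_monomial, ← Polynomial.C_pow, Polynomial.eval_C]
    simp [mul_assoc]

/-- `(x²-1)(x-1)^(2N)` -/
noncomputable def UU (N : ℕ) : ℂ[X] := (Polynomial.X^2 - 1) * (Polynomial.X - 1)^(2*N)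

theorem UU_eval (N : ℕ) (x : ℂ) : (UU N).eval x = (x^2 - 1) * (x - 1)^(2*N) := by
  simp [UU]

/-- `H` as a polynomial -/
noncomputable def H2 (N : ℕ) (K : Polynomial ℂ[X]) : Polynomial ℂ[X] :=
  K * Polynomial.C (UU N) * (UU N).map Polynomial.C * (Polynomial.C Polynomial.X - Polynomial.X) *
    (Polynomial.C Polynomial.X * Polynomial.X - 1)

theorem H2_evalC (N : ℕ) (K : Polynomial ℂ[X]) (y : ℂ) :
    (H2 N K).eval (Polynomial.C y) = K.eval (Polynomial.C y) * UU N *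
      Polynomial.C ((UU N).eval y) * (Polynomial.X - Polynomial.C y) *
      (Polynomial.X * Polynomial.C y - 1) := by
  have h : ((UU N).map Polynomial.C).eval (Polynomial.C y) = Polynomial.C ((UU N).eval y) := by
    rw [Polynomial.eval_map]
    exact Polynomial.eval₂_at_apply _ _
  simp only [H2, Polynomial.eval_mul, Polynomial.eval_C, Polynomial.eval_sub, Polynomial.eval_X,
    Polynomial.eval_one, h]

theorem natDegree_H2 (N : ℕ) (K : Polynomial ℂ[X]) (hK : K.natDegree ≤ N + 1) :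
    (H2 N K).natDegree ≤ 3 * N + 5 := by
  have hU : (UU N).natDegree ≤ 2 * N + 2 := by
    unfold UU
    refine Polynomial.natDegree_mul_le.trans ?_
    have h1 : ((Polynomial.X : ℂ[X])^2 - 1).natDegree ≤ 2 := by compute_degree
    have h2 : (((Polynomial.X : ℂ[X]) - 1)^(2*N)).natDegree ≤ 2 * N := by
      refine Polynomial.natDegree_pow_le.trans ?_
      have h3 : ((Polynomial.X : ℂ[X]) - 1).natDegree ≤ 1 := by compute_degree
      nlinarith
    omega
  have h4 : (K * Polynomial.C (UU N)).natDegree ≤ N + 1 := by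
    refine Polynomial.natDegree_mul_le.trans ?_
    rw [Polynomial.natDegree_C]
    omega
  have h5 : ((UU N).map (Polynomial.C : ℂ →+* ℂ[X])).natDegree ≤ 2 * N + 2 :=
    (Polynomial.natDegree_map_le).trans hU
  have h6 : ((Polynomial.C Polynomial.X : Polynomial ℂ[X]) - Polynomial.X).natDegree ≤ 1 := by
    refine (Polynomial.natDegree_sub_le _ _).trans ?_
    rw [Polynomial.natDegree_C, Polynomial.natDegree_X]
    simp
  have h7 : ((Polynomial.C Polynomial.X : Polynomial ℂ[X]) * Polynomial.X - 1).natDegree ≤ 1 := by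
    refine (Polynomial.natDegree_sub_le _ _).trans ?_
    rw [Polynomial.natDegree_one]
    refine max_le ?_ (Nat.zero_le _)
    exact (Polynomial.natDegree_C_mul_le _ _).trans Polynomial.natDegree_X_le
  unfold H2
  refine Polynomial.natDegree_mul_le.trans ?_
  refine (Nat.add_le_add Polynomial.natDegree_mul_le h7).trans ?_
  refine (Nat.add_le_add_right (Nat.add_le_add Polynomial.natDegree_mul_le h6) 1).trans ?_
  omega

theorem H2_coeff (N : ℕ) (K : Polynomial ℂ[X]) :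
    ∃ G : Polynomial ℂ[X], ∀ j, (H2 N K).coeff j =
      (Polynomial.X - 1)^(2*N+1) * G.coeff j := by
  refine ⟨K * Polynomial.C (Polynomial.X + 1) * (UU N).map Polynomial.C *
    (Polynomial.C Polynomial.X - Polynomial.X) * (Polynomial.C Polynomial.X * Polynomial.X - 1),
    fun j => ?_⟩
  rw [← Polynomial.coeff_C_mul]
  congr 1
  have h : Polynomial.C (UU N) = Polynomial.C ((Polynomial.X - 1)^(2*N+1)) *
      Polynomial.C (Polynomial.X + 1) := by
    rw [← Polynomial.C_mul]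
    congr 1
    unfold UU
    ring
  unfold H2
  rw [h]
  ring

section

variable {N : ℕ} (hN : Odd N) {K : Polynomial ℂ[X]} (hK : K.natDegree ≤ N + 1)
  (hZ : ∀ x y : ℂ, Z (x :: y :: (List.replicate N 1 ++ [0])) = (K.eval (Polynomial.C y)).eval x)

/-- the function `H` -/
noncomputable def Hf (N : ℕ) (x y : ℂ) : ℂ :=
  Z (x :: y :: (List.replicate N 1 ++ [0])) * ((x^2 - 1) * (x - 1)^(2*N)) *
    ((y^2 - 1) * (y - 1)^(2*N)) * (x - y) * (x * y - 1)

include hZ in
theorem Hf_eq (x y : ℂ) : ((H2 N K).eval (Polynomial.C y)).eval x = Hf N x y := by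
  rw [H2_evalC, Hf, hZ]
  simp only [Polynomial.eval_mul, Polynomial.eval_sub, Polynomial.eval_C, Polynomial.eval_X,
    Polynomial.eval_one, UU_eval]

include hN in
theorem Hf_anti (x y : ℂ) : Hf N y x = - Hf N x y := by
  unfold Hf
  have h : Z (y :: x :: (List.replicate N 1 ++ [0])) = Z (x :: y :: (List.replicate N 1 ++ [0])) := by
    apply Z_perm
    · obtain ⟨k, rfl⟩ := hN
      simp only [List.length_cons, List.length_append, List.length_replicate, List.length_nil]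
      exact ⟨k + 2, by ring⟩
    · exact List.Perm.swap _ _ _
  rw [h]
  ring

include hN in
theorem Hf_inv (x y : ℂ) (hx : x ≠ 0) : x^(3*N+5) * Hf N x⁻¹ y = - Hf N x y := by
  unfold Hf
  have h := Z_inv x (y :: (List.replicate N 1 ++ [0])) hx (by
    obtain ⟨k, rfl⟩ := hN
    simp only [List.length_cons, List.length_append, List.length_replicate, List.length_nil]
    exact ⟨k + 1, by ring⟩)
  have hl : (y :: (List.replicate N (1:ℂ) ++ [0])).length - 1 = N + 1 := by simp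
  rw [hl] at h
  rw [h]
  have e1 : x^2 * ((x⁻¹)^2 - 1) = -(x^2 - 1) := by field_simp; ring
  have e2 : x^(2*N) * (x⁻¹ - 1)^(2*N) = (x - 1)^(2*N) := by
    rw [← mul_pow, show x * (x⁻¹ - 1) = -(x - 1) by field_simp; ring, pow_mul, pow_mul]
    ring
  have e3 : x^2 * ((x⁻¹ - y) * (x⁻¹ * y - 1)) = (x - y) * (x * y - 1) := by field_simp; ring
  have e4 : x^(3*N+5) = x^(N+1) * x^2 * x^(2*N) * x^2 := by
    rw [← pow_add, ← pow_add, ← pow_add]; congr 1; ring
  rw [e4]
  linear_combination (Z (x⁻¹ :: y :: (List.replicate N 1 ++ [0])) * x^(N+1) *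
    ((y^2 - 1) * (y - 1)^(2*N))) * (x^(2*N) * (x⁻¹ - 1)^(2*N) * (x^2 * ((x⁻¹ - y) * (x⁻¹ * y - 1))) * e1
      - (x^2 - 1) * (x^2 * ((x⁻¹ - y) * (x⁻¹ * y - 1))) * e2
      - (x^2 - 1) * (x - 1)^(2*N) * e3)

theorem HH_eq (x y : ℂ) : HH x (y :: (List.replicate N 1 ++ [0])) * ((y^2 - 1) * (y - 1)^(2*N)) =
    - x * Hf N x y := by
  unfold HH Hf
  simp only [List.map_cons, List.map_append, List.map_replicate, List.map_nil, List.prod_cons,
    List.prod_append, List.prod_replicate, List.prod_nil, mul_one]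
  rw [show (x - 1) * (x - 1) = (x - 1)^2 by ring, ← pow_mul]
  ring

include hN in
theorem Hf_lac (x y : ℂ) (hx : x ≠ 0) :
    Hf N x y + q^2 * Hf N (q * x) y + q * Hf N (q^2 * x) y = 0 := by
  have h := lacunary x (y :: (List.replicate N 1 ++ [0])) (by
    obtain ⟨k, rfl⟩ := hN
    simp only [List.length_cons, List.length_append, List.length_replicate, List.length_nil]
    exact ⟨k + 1, by ring⟩)
  have h1 := HH_eq (N := N) x y
  have h2 := HH_eq (N := N) (q * x) y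
  have h3 := HH_eq (N := N) (q^2 * x) y
  have h4 : x * (Hf N x y + q^2 * Hf N (q * x) y + q * Hf N (q^2 * x) y) = 0 := by
    have hq := q_cube
    linear_combination -((y^2 - 1) * (y - 1)^(2*N)) * h + h1 + q * h2 + q^2 * h3 -
      x * q * Hf N (q^2 * x) y * hq
  exact (mul_eq_zero.mp h4).resolve_left hx

include hZ in
theorem rep' : ∃ n, 3 * N + 6 ≤ n ∧ ∀ x y : ℂ, Hf N x y =
    ∑ i ∈ range n, ∑ j ∈ range n, cf (H2 N K) i j * x^i * y^j ∧
      ∀ i j, n ≤ i ∨ n ≤ j → cf (H2 N K) i j = 0 := by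
  obtain ⟨n, h1, h2⟩ := rep (H2 N K)
  refine ⟨max n (3 * N + 6), le_max_right _ _, fun x y => ⟨?_, fun i j hij => ?_⟩⟩
  · rw [← Hf_eq hZ, h2 _ (le_max_left _ _)]
  · exact h1 i j (hij.imp (fun h => (le_max_left _ _).trans h) (fun h => (le_max_left _ _).trans h))

include hN hZ in
theorem cf_anti (i j : ℕ) : cf (H2 N K) i j = - cf (H2 N K) j i := by
  obtain ⟨n, hn, h⟩ := rep' (N := N) hZ
  by_cases hij : n ≤ i ∨ n ≤ j
  · rw [(h 0 0).2 i j hij, (h 0 0).2 j i hij.symm, neg_zero]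
  · push Not at hij
    have h1 := arr_zero n (fun i j => cf (H2 N K) i j + cf (H2 N K) j i) (fun x y _ => by
      have h2 := (h x y).1
      have h3 := (h y x).1
      rw [Hf_anti hN, Finset.sum_comm] at h3
      have h4 : ∑ i ∈ range n, ∑ j ∈ range n, (cf (H2 N K) i j + cf (H2 N K) j i) * x^i * y^j =
          Hf N x y + - Hf N x y := by
        rw [h3]
        conv_rhs => rw [h2]
        rw [← Finset.sum_add_distrib]
        refine Finset.sum_congr rfl fun i _ => ?_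
        rw [← Finset.sum_add_distrib]
        refine Finset.sum_congr rfl fun j _ => ?_
        ring
      rw [h4]
      ring) i hij.1 j hij.2
    exact eq_neg_of_add_eq_zero_left h1

include hN hK hZ in
theorem cf_bound (i j : ℕ) (h : 3 * N + 5 < i ∨ 3 * N + 5 < j) : cf (H2 N K) i j = 0 := by
  have key : ∀ i j, 3 * N + 5 < j → cf (H2 N K) i j = 0 := by
    intro i j hj
    unfold cf
    rw [Polynomial.coeff_eq_zero_of_natDegree_lt (lt_of_le_of_lt (natDegree_H2 N K hK) hj),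
      Polynomial.coeff_zero]
  rcases h with h | h
  · rw [cf_anti hN hZ, key j i h, neg_zero]
  · exact key i j h

include hN hK hZ in
theorem rep2 (x y : ℂ) : Hf N x y =
    ∑ i ∈ range (3 * N + 6), ∑ j ∈ range (3 * N + 6), cf (H2 N K) i j * x^i * y^j := by
  obtain ⟨n, hn, h⟩ := rep' (N := N) hZ
  rw [(h x y).1]
  have hsub : range (3 * N + 6) ⊆ range n := by
    intro i hi
    rw [mem_range] at hi ⊢
    omega
  symm
  rw [← Finset.sum_subset hsub]
  · refine Finset.sum_congr rfl fun i _ => ?_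
    apply Finset.sum_subset hsub
    intro j _ hj
    rw [mem_range] at hj
    rw [cf_bound hN hK hZ i j (Or.inr (by omega)), zero_mul, zero_mul]
  · intro i _ hi
    rw [mem_range] at hi
    refine Finset.sum_eq_zero fun j _ => ?_
    rw [cf_bound hN hK hZ i j (Or.inl (by omega)), zero_mul, zero_mul]

include hN hK hZ in
theorem cf_inv (i j : ℕ) (hi : i < 3 * N + 6) (hj : j < 3 * N + 6) :
    cf (H2 N K) (3 * N + 5 - i) j = - cf (H2 N K) i j := by
  have h1 := arr_zero (3 * N + 6) (fun i j => cf (H2 N K) i j + cf (H2 N K) (3 * N + 5 - i) j)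
    (fun x y hx => by
      have h2 := rep2 hN hK hZ x y
      have h3 := Hf_inv hN x y hx
      rw [rep2 hN hK hZ x⁻¹ y, Finset.mul_sum] at h3
      have h5 : ∑ i ∈ range (3 * N + 6), x^(3*N+5) * ∑ j ∈ range (3 * N + 6),
            cf (H2 N K) i j * (x⁻¹)^i * y^j =
          ∑ i ∈ range (3 * N + 6), ∑ j ∈ range (3 * N + 6),
            cf (H2 N K) (3 * N + 5 - i) j * x^i * y^j := by
        rw [← Finset.sum_range_reflect]
        refine Finset.sum_congr rfl fun i hi => ?_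
        rw [mem_range] at hi
        rw [Finset.mul_sum]
        refine Finset.sum_congr rfl fun j _ => ?_
        rw [show 3 * N + 6 - 1 - i = 3 * N + 5 - i by omega]
        have h6 : x^(3*N+5) * (x⁻¹)^(3 * N + 5 - i) = x^i := by
          have h7 : x^(3*N+5) = x^(3*N+5-i) * x^i := by
            rw [← pow_add]; congr 1; omega
          rw [h7, inv_pow]
          have := pow_ne_zero (3 * N + 5 - i) hx
          field_simp
        linear_combination cf (H2 N K) (3 * N + 5 - i) j * y^j * h6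
      have h4 : ∑ i ∈ range (3 * N + 6), ∑ j ∈ range (3 * N + 6),
          (cf (H2 N K) i j + cf (H2 N K) (3 * N + 5 - i) j) * x^i * y^j =
          Hf N x y + - Hf N x y := by
        rw [← h3, h5]
        conv_rhs => rw [h2]
        rw [← Finset.sum_add_distrib]
        refine Finset.sum_congr rfl fun i _ => ?_
        rw [← Finset.sum_add_distrib]
        refine Finset.sum_congr rfl fun j _ => ?_
        ring
      rw [h4]
      ring) i hi j hj
  exact eq_neg_of_add_eq_zero_right h1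

include hN hK hZ in
theorem cf_lac (i j : ℕ) (hi : i % 3 = 1) : cf (H2 N K) i j = 0 := by
  by_cases hb : 3 * N + 5 < i ∨ 3 * N + 5 < j
  · exact cf_bound hN hK hZ i j hb
  push Not at hb
  have h1 := arr_zero (3 * N + 6) (fun i j => cf (H2 N K) i j * (1 + q^2 * q^i + q * (q^2)^i))
    (fun x y hx => by
      have h2 := Hf_lac hN x y hx
      rw [rep2 hN hK hZ x y, rep2 hN hK hZ (q * x) y, rep2 hN hK hZ (q^2 * x) y] at h2
      rw [← h2, Finset.mul_sum, Finset.mul_sum, ← Finset.sum_add_distrib, ← Finset.sum_add_distrib]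
      refine Finset.sum_congr rfl fun i _ => ?_
      rw [Finset.mul_sum, Finset.mul_sum, ← Finset.sum_add_distrib, ← Finset.sum_add_distrib]
      refine Finset.sum_congr rfl fun j _ => ?_
      ring) i (by omega) j (by omega)
  obtain ⟨m, rfl⟩ : ∃ m, i = 3 * m + 1 := ⟨i / 3, by omega⟩
  have h2 : (1 + q^2 * q^(3*m+1) + q * (q^2)^(3*m+1)) = 3 := by
    have e1 : q^(3*m+1) = q := by rw [pow_add, pow_mul, q_cube, one_pow, one_mul, pow_one]
    have e2 : (q^2)^(3*m+1) = q^2 := by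
      rw [← pow_mul, show 2 * (3 * m + 1) = 3 * (2 * m) + 2 by ring, pow_add, pow_mul, q_cube,
        one_pow, one_mul]
    rw [e1, e2]
    linear_combination 2 * q_cube
  simp only [h2] at h1
  exact (mul_eq_zero.mp h1).resolve_right (by norm_num)

include hN hK hZ in
theorem cf_mom (j : ℕ) (r : ℕ) (hr : r < 2 * N + 1) (a : ℂ) :
    ∑ i ∈ range (3 * N + 6), cf (H2 N K) i j * ((i:ℂ) - a)^r = 0 := by
  obtain ⟨G, hG⟩ := H2_coeff N K
  have h1 := moment (2 * N + 1) (G.coeff j) ((Polynomial.X - Polynomial.C a)^r) (3 * N + 6)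
    (by
      rw [Polynomial.degree_pow, Polynomial.degree_X_sub_C]
      simp only [nsmul_eq_mul, mul_one]
      exact_mod_cast hr)
    (by
      rw [← hG]
      refine Nat.lt_succ_of_le (Polynomial.natDegree_le_iff_coeff_eq_zero.mpr fun i hi => ?_)
      exact cf_bound hN hK hZ i j (Or.inl hi))
  rw [← hG] at h1
  rw [← h1]
  refine Finset.sum_congr rfl fun i _ => ?_
  simp [cf]

/-! ### the array -/

/-- the shifted array -/
noncomputable def cc (N : ℕ) (K : Polynomial ℂ[X]) (l l' : ℤ) : ℂ :=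
  if 0 ≤ l + (mu (N+1) : ℤ) ∧ 0 ≤ l' + (mu (N+1) : ℤ) then
    cf (H2 N K) (l + (mu (N+1) : ℤ)).toNat (l' + (mu (N+1) : ℤ)).toNat else 0

theorem mem_Lam (k : ℕ) (l : ℤ) : l ∈ Lam k ↔ (-(mu k : ℤ) ≤ l ∧ l ≤ mu k) ∧ ¬ (3 ∣ l) := by
  simp [Lam]

include hN in
theorem two_mu : 2 * mu (N+1) = 3 * N + 5 := by
  obtain ⟨k, rfl⟩ := hN
  unfold mu
  omega

include hN in
theorem mu_mod : mu (N+1) % 3 = 1 := by
  obtain ⟨k, rfl⟩ := hN
  unfold mu
  omega

include hN in
theorem sumLam (F : ℤ → ℂ) (hF : ∀ l, l ∉ Lam (N+1) → F l = 0) :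
    ∑ l ∈ Lam (N+1), F l = ∑ i ∈ range (3 * N + 6), F ((i:ℤ) - (mu (N+1) : ℤ)) := by
  have h2 := two_mu hN
  have hsub : Lam (N+1) ⊆ Finset.Icc (-(mu (N+1) : ℤ)) (mu (N+1)) := Finset.filter_subset _ _
  rw [Finset.sum_subset hsub (fun l _ hl => hF l hl)]
  refine Finset.sum_nbij' (fun l => (l + (mu (N+1) : ℤ)).toNat)
    (fun i => (i:ℤ) - (mu (N+1) : ℤ)) ?_ ?_ ?_ ?_ ?_
  · intro l hl
    rw [Finset.mem_Icc] at hl
    rw [mem_range]
    omega
  · intro i hi
    rw [mem_range] at hi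
    rw [Finset.mem_Icc]
    omega
  · intro l hl
    rw [Finset.mem_Icc] at hl
    show (((l + (mu (N+1) : ℤ)).toNat : ℕ) : ℤ) - (mu (N+1) : ℤ) = l
    omega
  · intro i hi
    show (((i:ℤ) - (mu (N+1) : ℤ)) + (mu (N+1) : ℤ)).toNat = i
    omega
  · intro l hl
    rw [Finset.mem_Icc] at hl
    congr 1
    show l = (((l + (mu (N+1) : ℤ)).toNat : ℕ) : ℤ) - (mu (N+1) : ℤ)
    omega

theorem cc_shift (i : ℕ) (l' : ℤ) (h : 0 ≤ l' + (mu (N+1) : ℤ)) :
    cc N K ((i:ℤ) - (mu (N+1) : ℤ)) l' = cf (H2 N K) i (l' + (mu (N+1) : ℤ)).toNat := by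
  unfold cc
  rw [if_pos ⟨by omega, h⟩]
  congr 1
  omega

theorem cc_shift2 (i j : ℕ) :
    cc N K ((i:ℤ) - (mu (N+1) : ℤ)) ((j:ℤ) - (mu (N+1) : ℤ)) = cf (H2 N K) i j := by
  rw [cc_shift _ _ (by omega)]
  congr 1
  omega

include hN hK hZ in
theorem cc_supp (l l' : ℤ) (hl : l ∉ Lam (N+1)) : cc N K l l' = 0 := by
  have h2 := two_mu hN
  have h3 := mu_mod hN
  unfold cc
  split_ifs with h
  · rw [mem_Lam] at hl
    by_cases hb : l ≤ (mu (N+1) : ℤ)
    · have h4 : (3:ℤ) ∣ l := by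
        by_contra h5
        exact hl ⟨⟨by omega, hb⟩, h5⟩
      apply cf_lac hN hK hZ
      omega
    · apply cf_bound hN hK hZ
      left
      omega
  · rfl

include hN hZ in
theorem cc_anti (l l' : ℤ) : cc N K l l' = - cc N K l' l := by
  unfold cc
  by_cases h : 0 ≤ l + (mu (N+1) : ℤ) ∧ 0 ≤ l' + (mu (N+1) : ℤ)
  · rw [if_pos h, if_pos h.symm]
    exact cf_anti hN hZ _ _
  · rw [if_neg h, if_neg (fun h' => h h'.symm), neg_zero]

include hN hK hZ in
theorem cc_odd (l l' : ℤ) : cc N K (-l) l' = - cc N K l l' := by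
  have h2 := two_mu hN
  by_cases hl : -(mu (N+1) : ℤ) ≤ l ∧ l ≤ (mu (N+1) : ℤ)
  · by_cases hl' : 0 ≤ l' + (mu (N+1) : ℤ)
    · unfold cc
      rw [if_pos ⟨by omega, hl'⟩, if_pos ⟨by omega, hl'⟩]
      by_cases hb : 3 * N + 5 < (l' + (mu (N+1) : ℤ)).toNat
      · rw [cf_bound hN hK hZ _ _ (Or.inr hb), cf_bound hN hK hZ _ _ (Or.inr hb), neg_zero]
      · rw [← cf_inv hN hK hZ _ _ (by omega) (by omega)]
        congr 1
        omega
    · unfold cc
      rw [if_neg (fun h => hl' h.2), if_neg (fun h => hl' h.2), neg_zero]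
  · rw [cc_supp hN hK hZ l l', cc_supp hN hK hZ (-l) l', neg_zero]
    · rw [mem_Lam]
      rintro ⟨⟨h3, h4⟩, _⟩
      apply hl
      omega
    · rw [mem_Lam]
      rintro ⟨h3, _⟩
      exact hl h3

include hN hK hZ in
theorem cc_good : Good2 (N+1) (cc N K) where
  supp := cc_supp hN hK hZ
  anti := cc_anti hN hZ
  odd := cc_odd hN hK hZ
  mom := by
    intro r hr l'
    rw [sumLam hN _ (fun l hl => by rw [cc_supp hN hK hZ l l' hl, zero_mul])]
    by_cases hl' : 0 ≤ l' + (mu (N+1) : ℤ)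
    · rw [← cf_mom hN hK hZ (l' + (mu (N+1) : ℤ)).toNat r (by omega) (mu (N+1) : ℂ)]
      refine Finset.sum_congr rfl fun i _ => ?_
      rw [cc_shift _ _ hl']
      push_cast
      rfl
    · refine Finset.sum_eq_zero fun i _ => ?_
      unfold cc
      rw [if_neg (fun h => hl' h.2), zero_mul]

include hK in
theorem coeff_eval (y : ℂ) (i : ℕ) : ((H2 N K).eval (Polynomial.C y)).coeff i =
    ∑ j ∈ range (3 * N + 6), cf (H2 N K) i j * y^j := by
  rw [Polynomial.eval_eq_sum_range' (Nat.lt_succ_of_le (natDegree_H2 N K hK)),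
    Polynomial.finsetSum_coeff]
  refine Finset.sum_congr rfl fun j _ => ?_
  rw [← Polynomial.C_pow, Polynomial.coeff_mul_C]
  rfl

include hN hK hZ in
theorem natDegree_eval (y : ℂ) : ((H2 N K).eval (Polynomial.C y)).natDegree < 3 * N + 6 := by
  refine Nat.lt_succ_of_le (Polynomial.natDegree_le_iff_coeff_eq_zero.mpr fun i hi => ?_)
  rw [coeff_eval hK]
  refine Finset.sum_eq_zero fun j _ => ?_
  rw [cf_bound hN hK hZ i j (Or.inl hi), zero_mul]

theorem q4 : q^4 = q := by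
  calc q^4 = q^3 * q := by ring
    _ = q := by rw [q_cube, one_mul]

theorem inv_mq : (-q)⁻¹ = -q^2 := by
  have h := q_ne_zero
  rw [inv_eq_iff_eq_inv]
  refine eq_inv_of_mul_eq_one_left ?_
  linear_combination q_cube

include hN hK hZ in
theorem Ev2_cc (j : ℕ) : Ev2 (N+1) j (cc N K) =
    ∑ i ∈ range (3 * N + 6), ((i:ℂ) - (mu (N+1) : ℂ))^j * (-q)^i *
      ((H2 N K).eval (Polynomial.C (-q^2))).coeff i := by
  have hq : (-q : ℂ) ≠ 0 := neg_ne_zero.mpr q_ne_zero
  unfold Ev2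
  rw [sumLam hN _ (fun l hl => by
    refine Finset.sum_eq_zero fun l' _ => ?_
    rw [cc_supp hN hK hZ l l' hl]
    ring)]
  refine Finset.sum_congr rfl fun i _ => ?_
  rw [sumLam hN _ (fun l' hl' => by
    rw [cc_anti hN hZ, cc_supp hN hK hZ l' _ hl']
    ring)]
  rw [coeff_eval hK, Finset.mul_sum]
  refine Finset.sum_congr rfl fun i' _ => ?_
  rw [cc_shift2]
  have e1 : (-q : ℂ)^((i:ℤ) - (mu (N+1) : ℤ)) * (-q : ℂ)^(-((i':ℤ) - (mu (N+1) : ℤ))) =
      (-q)^i * (-q^2)^i' := by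
    rw [← zpow_add₀ hq, ← inv_mq, ← zpow_natCast, ← zpow_natCast, inv_zpow', ← zpow_add₀ hq]
    congr 1
    ring
  push_cast
  linear_combination (cf (H2 N K) i i' * ((i:ℂ) - (mu (N+1) : ℂ))^j) * e1

end

/-! ### numbers -/

theorem RR_succ (N : ℕ) : RR (N+1) = RR N * ((2 * (mu (N+1) : ℝ)) / (2 * (mu (N+1) : ℝ) - 3)) := by
  unfold RR
  rw [Finset.prod_range_succ]
  ring

theorem RR_pos (N : ℕ) : 0 < RR N := by
  unfold RR
  refine mul_pos (by norm_num) (Finset.prod_pos fun j _ => ?_)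
  have h : (2:ℝ) ≤ (mu (j+1) : ℝ) := by
    exact_mod_cast (show 2 ≤ mu (j+1) by unfold mu; omega)
  apply div_pos <;> linarith

theorem chi_pos (N : ℕ) : 0 < chi N := by
  unfold chi
  apply mul_pos
  · apply Finset.prod_pos
    intro j _
    have : (0 : ℝ) < (mu j : ℝ) := by exact_mod_cast (show 0 < mu j by unfold mu; omega)
    positivity
  · apply Finset.prod_pos
    intro j _
    apply Finset.prod_pos
    intro i hi
    rw [Finset.mem_range] at hi
    have h1 : (mu i : ℝ) < mu j := by exact_mod_cast (show mu i < mu j by unfold mu; omega)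
    have h2 : (i : ℝ) < j := by exact_mod_cast hi
    have h3 : (0 : ℝ) < mu i := by exact_mod_cast (show 0 < mu i by unfold mu; omega)
    have h4 : (0 : ℝ) ≤ i := Nat.cast_nonneg i
    apply div_pos
    · nlinarith
    · nlinarith

theorem Z_ne (N : ℕ) (hN : Odd N) : Z ((-q) :: (-q^2) :: (List.replicate N 1 ++ [0])) ≠ 0 := by
  have hev : Even (List.length ((-q) :: (-q^2) :: (List.replicate N (1:ℂ) ++ [0]))) := by
    obtain ⟨k, rfl⟩ := hN
    simp only [List.length_cons, List.length_append, List.length_replicate, List.length_nil]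
    exact ⟨k + 2, by ring⟩
  rw [Z_perm hev (List.Perm.swap _ _ _)]
  have h1 := Z_rec [] (List.replicate N 1 ++ [0]) (-q^2) (by
    obtain ⟨k, rfl⟩ := hN
    simp only [List.length_append, List.length_replicate, List.length_nil, List.length_cons]
    exact ⟨k + 1, by ring⟩)
  rw [show q^2 * (-q^2) = -q by linear_combination -q4] at h1
  simp only [List.nil_append] at h1
  rw [h1]
  refine mul_ne_zero (T20.fac_ne N) ?_
  obtain ⟨k, rfl⟩ := hN
  rw [Z_ones_zero]
  refine mul_ne_zero (pow_ne_zero _ q_ne_zero) ?_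
  exact_mod_cast (chi_pos _).ne'


theorem UU_deriv (N : ℕ) (x : ℂ) : (Polynomial.derivative (UU N)).eval x =
    2 * x * (x - 1)^(2*N) + (x^2 - 1) * (2 * N * (x - 1)^(2*N-1)) := by
  unfold UU
  simp [Polynomial.derivative_pow]

theorem alg1 (kv kd T w N rho : ℂ)
    (main : ((-q) * (kv*((q^2-1)*T)*w*(-q+q^2)*(-(q^2))) + 2*q^2*
        (((kd*((q^2-1)*T)+kv*(2*(-q)*T+(q^2-1)*(2*N*(q*T))))*(-q+q^2)+kv*((q^2-1)*T))*w*(-(q^2)))
        - 2*((3*N+5)/2)*((-q)*(kv*((q^2-1)*T)*w*(-q+q^2)*(-(q^2)))))*rho =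
      6*(q^2-q)*((3*N+1)/2)*((-q)*(kv*((q^2-1)*T)*w*(-q+q^2)*(-(q^2))))) :
    (T*w*(-(q^2)))*((6*kd+kv*((9*N+6)*q^2+(12*N+6)*q))*rho+18*q^2*(q^2-q)*((3*N+1)/2)*kv) = 0 := by
  linear_combination main + ((-12)*N*T*kv*q^3*rho*w + (6)*N*T*kv*q^4*rho*w + (3)*N*T*kv*q^5*rho*w + (18)*N*T*kv*q^5*w + (-8)*N*T*kv*q^6*rho*w + (-27)*N*T*kv*q^6*w + (4)*N*T*kv*q^7*rho*w + (9)*N*T*kv*q^7*w + (-6)*T*kd*q^2*rho*w + (6)*T*kd*q^3*rho*w + (-4)*T*kd*q^5*rho*w + (2)*T*kd*q^6*rho*w + (-6)*T*kv*q^3*rho*w + (2)*T*kv*q^4*rho*w + (6)*T*kv*q^5*w + (-9)*T*kv*q^6*w + (3)*T*kv*q^7*w) * q_spec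

theorem alg2 (kv kd N r : ℂ)
    (h : (6*kd+kv*((9*N+6)*q^2+(12*N+6)*q))*r = 3*q^2*(q^2-q)*(3*N+1)*(3*N+2)*kv) :
    (q^2-q)*(2*(-q)*kd-(N+1)*kv)*r = kv*(3*(3*N+1)*(3*N+2)-(6*N+3)*r) := by
  linear_combination (-(q*(q^2-q)/3)) * h + ((-27)*N*kv + (27)*N*kv*q + (-5)*N*kv*q*r + (-2)*N*kv*q^2*r + (-27)*N*kv*q^3 + (3)*N*kv*q^3*r + (27)*N*kv*q^4 + (-9)*N*kv*q^5 + (6)*N*kv*r + (-27)*N^2*kv + (27)*N^2*kv*q + (-27)*N^2*kv*q^3 + (27)*N^2*kv*q^4 + (-9)*N^2*kv*q^5 + (-6)*kv + (6)*kv*q + (-2)*kv*q*r + (-2)*kv*q^2*r + (-6)*kv*q^3 + (2)*kv*q^3*r + (6)*kv*q^4 + (-2)*kv*q^5 + (3)*kv*r) * q_spec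

end X15

open X15 in
theorem LD_T (N : ℕ) (hN : Odd N) :
    Z ((-q) :: (-q^2) :: (List.replicate N 1 ++ [0])) ≠ 0 ∧
    LD (-q) ((-q^2) :: (List.replicate N 1 ++ [0])) =
      ((3 * (3 * N + 1) * (3 * N + 2) / RR N - 6 * N - 3 : ℝ) : ℂ) := by
  refine ⟨Z_ne N hN, ?_⟩
  obtain ⟨K, hK, hZ⟩ := exists_K N hN
  have hN1 : 1 ≤ N := hN.pos
  set Kη : ℂ[X] := K.eval (Polynomial.C (-q^2)) with hKη
  set kv : ℂ := Kη.eval (-q) with hkv
  set kd : ℂ := (Polynomial.derivative Kη).eval (-q) with hkd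
  set w : ℂ := (UU N).eval (-q^2) with hw
  set T : ℂ := (-q - 1)^(2*N) with hT
  set R : ℂ[X] := Kη * UU N * (Polynomial.X - Polynomial.C (-q^2)) *
    Polynomial.C (w * (-q^2)) with hR
  have hP : (H2 N K).eval (Polynomial.C (-q^2)) = (Polynomial.X - Polynomial.C (-q)) * R := by
    rw [H2_evalC, ← hKη, ← hw]
    have h1 : Polynomial.C (-q) * Polynomial.C (-q^2) = (1 : ℂ[X]) := by
      rw [← Polynomial.C_mul, show (-q) * (-q^2) = q^3 by ring, q_cube, Polynomial.C_1]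
    rw [hR, Polynomial.C_mul]
    linear_combination (Kη * UU N * Polynomial.C w * (Polynomial.X - Polynomial.C (-q^2))) * h1
  have hT' : (-q - 1)^(2*N-1) = q * T := by
    have h1 : T = (-q - 1)^(2*N-1) * (-q - 1) := by
      rw [hT, ← pow_succ]; congr 1; omega
    rw [h1]
    linear_combination ((-q - 1)^(2*N-1)) * q_spec
  have hRv : R.eval (-q) = kv*((q^2-1)*T)*w*(-q+q^2)*(-(q^2)) := by
    rw [hR]
    simp only [Polynomial.eval_mul, Polynomial.eval_sub, Polynomial.eval_X, Polynomial.eval_C,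
      UU_eval, ← hkv, ← hT]
    ring
  have hRd : (Polynomial.derivative R).eval (-q) =
      ((kd*((q^2-1)*T)+kv*(2*(-q)*T+(q^2-1)*(2*(N:ℂ)*(q*T))))*(-q+q^2)+kv*((q^2-1)*T))*w*(-(q^2)) := by
    rw [hR]
    simp only [Polynomial.derivative_mul, Polynomial.eval_mul, Polynomial.eval_sub,
      Polynomial.eval_X, Polynomial.eval_C, Polynomial.eval_add, Polynomial.derivative_sub,
      Polynomial.derivative_X, Polynomial.derivative_C, Polynomial.eval_one, Polynomial.eval_zero,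
      UU_eval, UU_deriv, ← hkv, ← hkd, ← hT, hT']
    ring
  have hdeg := natDegree_eval hN hK hZ (-q^2)
  obtain ⟨t0, t1, t2⟩ := th_factor (-q) R
  have ha : (mu (N+1) : ℂ) = (3 * N + 5) / 2 := by
    have := two_mu hN
    have h2 : (2:ℂ) * (mu (N+1) : ℂ) = 3 * N + 5 := by exact_mod_cast this
    linear_combination h2 / 2
  have hE1 : Ev2 (N+1) 1 (cc N K) = (-q) * R.eval (-q) := by
    rw [Ev2_cc hN hK hZ, sum_one _ _ hdeg, hP, t0, t1]
    ring
  have hE2 : Ev2 (N+1) 2 (cc N K) = (-q) * R.eval (-q) + 2 * (-q)^2 * (Polynomial.derivative R).eval (-q)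
      - 2 * ((3 * N + 5) / 2) * ((-q) * R.eval (-q)) := by
    rw [Ev2_cc hN hK hZ, sum_two _ _ hdeg, hP, t0, t1, t2, ha]
    ring
  have hmu : (mu N : ℂ) = (3 * N + 1) / 2 := by
    have h2 : (2:ℂ) * (mu N : ℂ) = 3 * N + 1 := by
      have : 2 * mu N = 3 * N + 1 := by
        obtain ⟨k, rfl⟩ := hN
        unfold mu
        omega
      exact_mod_cast this
    linear_combination h2 / 2
  have hmain := good2_eval (by omega) (cc_good hN hK hZ)
  rw [hE1, hE2, hRv, hRd, Nat.add_sub_cancel, hmu] at hmain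
  have h1 := alg1 kv kd T w (N:ℂ) ((RR N : ℂ) - RR (N+1)) (by
    rw [← hmain]; ring)
  have hTne : T ≠ 0 := by
    rw [hT]
    apply pow_ne_zero
    rw [show (-q - 1) = q^2 by linear_combination -q_spec]
    exact pow_ne_zero _ q_ne_zero
  have hwne : w ≠ 0 := by
    rw [hw, UU_eval]
    apply mul_ne_zero
    · rw [show (-q^2)^2 - 1 = q - 1 by linear_combination q4]
      exact sub_ne_zero.mpr q_ne_one
    · apply pow_ne_zero
      rw [show (-q^2) - 1 = q by linear_combination -q_spec]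
      exact q_ne_zero
  have hqne : -(q^2) ≠ 0 := neg_ne_zero.mpr (pow_ne_zero _ q_ne_zero)
  have h2 := (mul_eq_zero.mp h1).resolve_left (mul_ne_zero (mul_ne_zero hTne hwne) hqne)
  have hr : (RR N : ℂ) ≠ 0 := by exact_mod_cast (RR_pos N).ne'
  have hN3 : (3 * (N:ℂ) + 2) ≠ 0 := by
    have : (3 * N + 2 : ℕ) ≠ 0 := by omega
    exact_mod_cast this
  have hrho : ((RR N : ℂ) - RR (N+1)) * (3 * N + 2) = -3 * RR N := by
    have ha' : (mu (N+1) : ℝ) = (3 * N + 5) / 2 := by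
      have := two_mu hN
      have h2 : (2:ℝ) * (mu (N+1) : ℝ) = 3 * N + 5 := by exact_mod_cast this
      linarith
    have h3 : (RR N - RR (N+1)) * (3 * N + 2) = -3 * RR N := by
      rw [RR_succ, ha']
      have h4 : (3 * (N:ℝ) + 2) ≠ 0 := by positivity
      have h5 : 2 * ((3 * (N:ℝ) + 5) / 2) - 3 = 3 * N + 2 := by ring
      rw [h5]
      field_simp
      ring
    exact_mod_cast congrArg (fun x : ℝ => (x : ℂ)) h3
  have h3 := alg2 kv kd (N:ℂ) (RR N : ℂ) (by
    linear_combination (-(3 * (N:ℂ) + 2) / 3) * h2 +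
      ((6*kd+kv*((9*(N:ℂ)+6)*q^2+(12*N+6)*q)) / 3) * hrho)
  have hkvne : kv ≠ 0 := by
    have := Z_ne N hN
    rw [hZ] at this
    exact this
  have hDZ : DZ (-q) ((-q^2) :: (List.replicate N 1 ++ [0])) = 2 * (-q) * kd - ((N:ℂ) + 1) * kv := by
    unfold DZ
    have e1 : (fun t => Z (t :: (-q^2) :: (List.replicate N 1 ++ [0]))) = fun t => Kη.eval t := by
      funext t
      rw [hZ]
    rw [e1, Polynomial.deriv, hZ]
    simp only [List.length_cons, List.length_append, List.length_replicate, List.length_nil]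
    push_cast
    ring
  unfold LD
  rw [hDZ, hZ]
  rw [div_eq_iff hkvne]
  push_cast
  have h4 : ((q^2-q)*(2*(-q)*kd-((N:ℂ)+1)*kv)) * (RR N : ℂ) =
      ((3 * (3 * (N:ℂ) + 1) * (3 * N + 2) / RR N - 6 * N - 3) * kv) * (RR N : ℂ) := by
    rw [h3]
    field_simp
    ring
  exact mul_right_cancel₀ hr h4

end Pool.Agent.H980R2.Cross
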