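import Pool.Agent.H980R2.Cross.T23

/-! T24: number of crossing clusters = combination of four cluster numbers.

`ncl_wire` with `W` = column `0`, column `N`, both (all nonempty in `VV lam N K` if `K ≥ 1`), and
inclusion-exclusion: `ncl E (A ∪ B) + |classes of A ∩ classes of B| = ncl E A + ncl E B`
(images of finsets). -/

namespace Pool.Agent.H980R2.Cross

open Pool.Agent.H988R2.Perc Finset

theorem TE_mem {lam N K : ℕ} (hlam : lam < 2) {o : ℕ → ℕ → Bool} {a b : ℕ × ℕ}
    (h : TE lam N K o a b) : a ∈ VV lam N K ∧ b ∈ VV lam N K := by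
  obtain ⟨i, k, h1, h2, h3, _, h | h⟩ := h
  · obtain ⟨h4, rfl, rfl⟩ := h
    unfold VV
    simp only [mem_filter, mem_product, mem_range]
    refine ⟨⟨⟨?_, ?_⟩, ?_⟩, ⟨⟨?_, ?_⟩, ?_⟩⟩ <;> omega
  · obtain ⟨h4, rfl, rfl⟩ := h
    unfold VV
    simp only [mem_filter, mem_product, mem_range]
    refine ⟨⟨⟨?_, ?_⟩, ?_⟩, ⟨⟨?_, ?_⟩, ?_⟩⟩ <;> omega

theorem crossing_identity (lam N K : ℕ) (hlam : lam < 2) (hN : 1 ≤ N) (hK : 1 ≤ K)
    (o : ℕ → ℕ → Bool) :
    CC lam N K o + kk lam N K {0} o + kk lam N K {N} o =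
      kk lam N K ∅ o + kk lam N K {0, N} o + 1 := by
  classical
  have hE : ∀ a b, TE lam N K o a b → a ∈ VV lam N K ∧ b ∈ VV lam N K := fun a b h => TE_mem hlam h
  have m0 : ((0, lam) : ℕ × ℕ) ∈ VV lam N K := by
    unfold VV
    simp only [mem_filter, mem_product, mem_range]
    refine ⟨⟨?_, ?_⟩, ?_⟩ <;> omega
  have mN : ((N, (N + lam) % 2) : ℕ × ℕ) ∈ VV lam N K := by
    unfold VV
    simp only [mem_filter, mem_product, mem_range]
    refine ⟨⟨?_, ?_⟩, ?_⟩ <;> omega
  have e0 := ncl_wire (TE lam N K o) (VV lam N K) (fun a => a.1 ∈ ({0} : Finset ℕ)) hE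
    ⟨_, m0, by simp⟩
  have eN := ncl_wire (TE lam N K o) (VV lam N K) (fun a => a.1 ∈ ({N} : Finset ℕ)) hE
    ⟨_, mN, by simp⟩
  have e0N := ncl_wire (TE lam N K o) (VV lam N K) (fun a => a.1 ∈ ({0, N} : Finset ℕ)) hE
    ⟨_, m0, by simp⟩
  have ee : kk lam N K ∅ o = ncl (TE lam N K o) (VV lam N K) := by
    unfold kk
    congr 1
    funext a b
    simp
  have hunion : ncl (TE lam N K o) ((VV lam N K).filter (fun p => p.1 = 0 ∨ p.1 = N)) +
      CC lam N K o = ncl (TE lam N K o) ((VV lam N K).filter (fun p => p.1 = 0)) +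
      ncl (TE lam N K o) ((VV lam N K).filter (fun p => p.1 = N)) := by
    rw [Finset.filter_or]
    unfold ncl CC
    rw [Finset.image_union]
    convert Finset.card_union_add_card_inter _ _ using 3
  have e0' : kk lam N K {0} o + ncl (TE lam N K o) ((VV lam N K).filter (fun p => p.1 = 0)) =
      ncl (TE lam N K o) (VV lam N K) + 1 := by
    rw [← e0]
    unfold kk
    congr 2
    ext a
    simp
  have eN' : kk lam N K {N} o + ncl (TE lam N K o) ((VV lam N K).filter (fun p => p.1 = N)) =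
      ncl (TE lam N K o) (VV lam N K) + 1 := by
    rw [← eN]
    unfold kk
    congr 2
    ext a
    simp
  have e0N' : kk lam N K {0, N} o +
      ncl (TE lam N K o) ((VV lam N K).filter (fun p => p.1 = 0 ∨ p.1 = N)) =
      ncl (TE lam N K o) (VV lam N K) + 1 := by
    rw [← e0N]
    unfold kk
    congr 2
    ext a
    simp
  rw [ee]
  omega

end Pool.Agent.H980R2.Cross
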