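import Pool.Agent.H980R2.Cross.T23

/-! T25: deterministic count, strip with wired right side (`N` odd, lattice `lam = 1`).

`TK` runs the dynamics `X` of `H988R2.Perc` together with a counter; `H988R2.Perc.T21` proves that the
states describe the connectivity of the frontier at every stage (`T21.Rep`, `rep_ins`, `rep_fwd`,
`rep_turn`, `rep_bwd`, `rep_cap`: relation `SA L o S`, which is the relation of `kk` restricted to the
processed tiles).  Here one keeps in addition the counter: at every stage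
`counter = ncl (SA N o (processed tiles)) (present vertices)`, where the present vertices are those of
`VV 1 N (2M)` plus the new ones: `(0,t+1)` at the insertion, `(i,t+1)` for `i ≤ N-1` even in the
forward sweep, `(i-1,t+2)` for `i` even in the backward sweep.  A vertical tile (even position) adds a
fresh vertex (`ncl_add_vertex`: `+1`) and, if open, the edge to it (`ncl_add_edge`: `-1`, never connected
before).  A tile at an odd position adds, if open, an edge between the vertices of the faces `i`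
and `i+2`: `-1` unless they were connected (`Rep`).  The vertices `(N, t+2)` of the wired column are in the
class of `(N, t)`: `ncl_add_old`.  At `M = 0`: `(N+1)/2` vertices, no tile; only column `N` is wired,
all classes distinct. -/

namespace Pool.Agent.H980R2.Cross

open Pool.Agent.H988R2.Perc Finset

namespace T25

open T21 Relation

theorem stepT_fst (p : ℕ) (b : Bool) (s : St × ℤ) :
    (stepT p b s).1 = if (if p % 2 = 1 then b else !b) then St.act p s.1 else s.1 := by
  unfold stepT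
  by_cases hp : p % 2 = 1
  · cases b <;> simp [hp]
  · cases b <;> simp [hp]

theorem fwK_fst (L : ℕ) (o : ℕ → ℕ → Bool) (k : ℕ) (s : St × ℤ) :
    (fwK 1 L (o k) s).1 = fwdS L (actBit o k) s.1 := by
  induction L with
  | zero => rfl
  | succ L ih =>
    simp only [fwK, fwdS]
    rw [stepT_fst, ih]
    rfl

theorem bwK_fst (L : ℕ) (o : ℕ → ℕ → Bool) (k : ℕ) : ∀ s : St × ℤ,
    (bwK 1 L (o k) s).1 = bwdS L (actBit o k) s.1 := by
  induction L with
  | zero => intro s; rfl
  | succ L ih =>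
    intro s
    simp only [bwK, bwdS]
    rw [ih, stepT_fst]
    rfl

theorem add_vertex (E : ℕ × ℕ → ℕ × ℕ → Prop) (S : Finset (ℕ × ℕ)) (v : ℕ × ℕ)
    (h1 : ∀ a, ¬ E v a) (h2 : ∀ a, ¬ E a v) (hv : v ∉ S) :
    ncl E (insert v S) = ncl E S + 1 := by
  have h := ncl_add_vertex E S v h1 h2 hv
  have e : (insert v S : Finset (ℕ × ℕ)) =
      @insert _ _ (@Finset.instInsert _ (fun a b => Classical.propDecidable _)) v S := by
    ext x
    simp only [Finset.mem_insert]
  rw [e]
  exact h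

theorem add_old (E : ℕ × ℕ → ℕ × ℕ → Prop) (S : Finset (ℕ × ℕ)) (v : ℕ × ℕ)
    (h : ∃ s ∈ S, EqvGen E v s) : ncl E (insert v S) = ncl E S := by
  have h := ncl_add_old E S v h
  have e : (insert v S : Finset (ℕ × ℕ)) =
      @insert _ _ (@Finset.instInsert _ (fun a b => Classical.propDecidable _)) v S := by
    ext x
    simp only [Finset.mem_insert]
  rw [e]
  exact h

/-- state and counter describe the connectivity of the frontier and the number of classes -/
def RC (n : ℕ) (s : St × ℤ) (E : ℕ × ℕ → ℕ × ℕ → Prop) (α : ℕ → ℕ × ℕ)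
    (S : Finset (ℕ × ℕ)) : Prop :=
  Rep n s.1 E α ∧ (ncl E S : ℤ) = s.2

theorem RC.congr {n : ℕ} {s : St × ℤ} {E E' : ℕ × ℕ → ℕ × ℕ → Prop} {α α' : ℕ → ℕ × ℕ}
    {S S' : Finset (ℕ × ℕ)} (h : RC n s E α S) (hE : ∀ a b, E a b ↔ E' a b)
    (hα : ∀ a, a % 2 = 1 → a ≤ n → α a = α' a) (hS : S = S') : RC n s E' α' S' := by
  have e : E = E' := by funext a b; exact propext (hE a b)
  subst e; subst hS
  exact ⟨h.1.congr (fun _ _ => Iff.rfl) hα, h.2⟩

theorem RC.join {n p : ℕ} {s : St × ℤ} {E : ℕ × ℕ → ℕ × ℕ → Prop} {α : ℕ → ℕ × ℕ}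
    {S : Finset (ℕ × ℕ)} (h : RC n s E α S) (hp2 : p % 2 = 1) (hpn : p + 2 ≤ n) (c : Bool)
    (P P' : ℕ × ℕ) (hp : (P = α p ∧ P' = α (p+2)) ∨ (P = α (p+2) ∧ P' = α p))
    (hP : P ∈ S) (hP' : P' ∈ S) :
    RC n (stepT p c s) (fun a b => E a b ∨ (c = true ∧ a = P ∧ b = P')) α S := by
  classical
  constructor
  · rw [stepT_fst, if_pos hp2]
    exact h.1.join hp2 hpn c P P' hp
  · rw [ncl_add_edge E S (c = true) P P' hP hP', h.2]
    have hrel : EqvGen E P P' ↔ s.1.rel p (p+2) := by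
      rw [h.1 p (p+2) hp2 (by omega) (by omega) hpn]
      rcases hp with ⟨rfl, rfl⟩ | ⟨rfl, rfl⟩
      · rfl
      · exact ⟨fun h => h.symm _ _, fun h => h.symm _ _⟩
    unfold stepT
    rw [if_pos hp2]
    cases c with
    | false => simp
    | true =>
      by_cases hr : s.1.rel p (p+2)
      · simp [hrel, hr]
      · simp [hrel, hr]

theorem RC.move {n p : ℕ} {s : St × ℤ} {E : ℕ × ℕ → ℕ × ℕ → Prop} {α α' : ℕ → ℕ × ℕ}
    {S : Finset (ℕ × ℕ)} (h : RC n s E α S) (hp2 : p % 2 = 0) (c : Bool) (v : ℕ × ℕ)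
    (h1 : ∀ a, ¬ E v a) (h2 : ∀ a, ¬ E a v)
    (hv : α' (p+1) = v) (hα : ∀ a, a % 2 = 1 → a ≤ n → a ≠ p+1 → α' a = α a)
    (hne : ∀ a, a % 2 = 1 → a ≤ n → α a ≠ v) (hvS : v ∉ S) (hpS : α (p+1) ∈ S) :
    RC n (stepT p c s) (fun a b => E a b ∨ (c = true ∧ a = α (p+1) ∧ b = v)) α' (insert v S) := by
  classical
  constructor
  · rw [stepT_fst, if_neg (show ¬ (p % 2 = 1) by omega)]
    exact h.1.move hp2 c v h1 h2 hv hα hne
  · rw [ncl_add_edge E (insert v S) (c = true) (α (p+1)) v (Finset.mem_insert_of_mem hpS)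
      (Finset.mem_insert_self _ _), add_vertex E S v h1 h2 hvS]
    push_cast
    rw [h.2]
    have hne' : α (p+1) ≠ v := fun e => hvS (e ▸ hpS)
    have hrel : ¬ EqvGen E (α (p+1)) v := by
      intro hh
      rcases eqvGen_iso E v h1 h2 hh with h | ⟨_, h⟩
      · exact hne' h
      · exact h rfl
    unfold stepT
    rw [if_neg (show ¬ (p % 2 = 1) by omega)]
    cases c with
    | false => simp
    | true => simp [hrel]

/-- vertices present at stage `i` of the forward sweep -/
def PF (N t i : ℕ) : Finset (ℕ × ℕ) :=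
  ((range (N+1)) ×ˢ (range (t+3))).filter
    (fun p => (p.1 + p.2) % 2 = 1 ∧ (p.2 ≤ t ∨ (p.2 = t+1 ∧ p.1 ≤ i)))

/-- vertices present at stage `i` of the backward sweep -/
def PB (N t i : ℕ) : Finset (ℕ × ℕ) :=
  ((range (N+1)) ×ˢ (range (t+3))).filter
    (fun p => (p.1 + p.2) % 2 = 1 ∧ (p.2 ≤ t+1 ∨ (p.2 = t+2 ∧ i ≤ p.1)))

theorem mem_PF {N t i a b : ℕ} : (a, b) ∈ PF N t i ↔
    a ≤ N ∧ (a + b) % 2 = 1 ∧ (b ≤ t ∨ (b = t+1 ∧ a ≤ i)) := by
  unfold PF
  simp only [Finset.mem_filter, Finset.mem_product, Finset.mem_range]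
  omega

theorem mem_PB {N t i a b : ℕ} : (a, b) ∈ PB N t i ↔
    a ≤ N ∧ (a + b) % 2 = 1 ∧ (b ≤ t+1 ∨ (b = t+2 ∧ i ≤ a)) := by
  unfold PB
  simp only [Finset.mem_filter, Finset.mem_product, Finset.mem_range]
  omega

theorem mem_VV {N K a b : ℕ} : (a, b) ∈ VV 1 N K ↔ a ≤ N ∧ b ≤ K ∧ (a + b) % 2 = 1 := by
  unfold VV
  simp only [Finset.mem_filter, Finset.mem_product, Finset.mem_range]
  omega

theorem rc_ins {L t : ℕ} (ht : t % 2 = 0) (hL : L % 2 = 1) {o : ℕ → ℕ → Bool} {s : St × ℤ}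
    (h : RC L s (SA L o (fun j k => 1 ≤ j ∧ j ≤ L ∧ k < t)) (fun a => (a, t)) (VV 1 L t)) :
    RC (L+2) (St.ins 0 s.1, s.2 + 1) (SA L o (SF L t 0)) (fF t 0) (PF L t 0) := by
  classical
  refine ⟨rep_ins ht hL h.1, ?_⟩
  have hE : (fun j k => 1 ≤ j ∧ j ≤ L ∧ k < t) = SF L t 0 := by
    funext j k
    apply propext
    unfold SF
    constructor
    · rintro ⟨h1, h2, h3⟩; exact ⟨h1, h2, Or.inl h3⟩
    · rintro ⟨h1, h2, h3 | ⟨_, h3⟩⟩
      · exact ⟨h1, h2, h3⟩
      · omega
  have h2 := h.2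
  rw [hE] at h2
  have hv := SA_iso L o (SF L t 0) (0, t+1) (by simp only; omega)
    (by
      rintro i k hi ⟨h1, h2, h3⟩
      refine ⟨fun _ => ⟨?_, ?_⟩, fun _ => ⟨?_, ?_⟩⟩ <;>
      · intro h
        simp only [Prod.mk.injEq] at h
        omega)
    (by rintro i k ⟨h, _⟩; exact h)
  have hS : PF L t 0 = insert (0, t+1) (VV 1 L t) := by
    ext ⟨a, b⟩
    rw [Finset.mem_insert, mem_PF, mem_VV, Prod.mk.injEq]
    omega
  rw [hS, add_vertex _ _ _ hv.1 hv.2 (by rw [mem_VV]; omega)]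
  push_cast
  rw [h2]

theorem rc_fwd {L t : ℕ} (ht : t % 2 = 0) (hL : L % 2 = 1) {o : ℕ → ℕ → Bool} {s : St × ℤ}
    (h : RC (L+2) s (SA L o (SF L t 0)) (fF t 0) (PF L t 0)) (i : ℕ) (hi : i ≤ L) :
    RC (L+2) (fwK 1 i (o t) s) (SA L o (SF L t i)) (fF t i) (PF L t i) := by
  induction i with
  | zero => simpa [fwK] using h
  | succ i ih =>
    have ih := ih (by omega)
    simp only [fwK]
    have hSadd : ∀ i' k', SF L t (i+1) i' k' ↔ (SF L t i i' k' ∨ (i' = i+1 ∧ k' = t)) := by
      intro i' k'; unfold SF; omega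
    by_cases hodd : (i+1) % 2 = 1
    · have key := ih.join (p := i+1) hodd (by omega) (o t (i+1)) (i+1, t) (i+1-1, t+1)
        (by
          right
          constructor
          · unfold fF; rw [if_neg (by omega)]; simp
          · unfold fF; rw [if_pos (by omega)])
        (by rw [mem_PF]; omega) (by rw [mem_PF]; omega)
      refine key.congr ?_ ?_ ?_
      · intro a b
        exact SA_add L o (SF L t i) (SF L t (i+1)) (i+1) t _ _ hSadd
          (Or.inl ⟨by omega, rfl, rfl⟩) a b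
      · intro a ha haL
        unfold fF
        by_cases h1 : a ≤ i + 1
        · rw [if_pos h1, if_pos (by omega)]
        · rw [if_neg h1, if_neg (by omega)]
      · ext ⟨a, b⟩
        rw [mem_PF, mem_PF]
        omega
    · have hv := SA_iso L o (SF L t i) (i+1, t+1) (by simp only; omega)
        (by
          rintro i' k hi ⟨h1, h2, h3⟩
          refine ⟨fun _ => ⟨?_, ?_⟩, fun _ => ⟨?_, ?_⟩⟩ <;>
          · intro h
            simp only [Prod.mk.injEq] at h
            omega)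
        (by rintro i k ⟨h, _⟩; exact h)
      have e : fF t i (i+1+1) = (i+1-1, t) := by
        unfold fF; rw [if_neg (by omega)]; simp
      have key := ih.move (p := i+1) (α' := fF t (i+1)) (by omega) (o t (i+1))
        (i+1, t+1) hv.1 hv.2
        (by unfold fF; rw [if_pos (by omega)]; simp)
        (by
          intro a ha haL hai
          unfold fF
          by_cases h1 : a ≤ i + 1
          · rw [if_pos h1, if_pos (by omega)]
          · rw [if_neg h1, if_neg (by omega)])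
        (by
          intro a ha haL h
          unfold fF at h
          split_ifs at h <;> simp only [Prod.mk.injEq] at h <;> omega)
        (by rw [mem_PF]; omega) (by rw [e, mem_PF]; omega)
      refine key.congr ?_ ?_ ?_
      · intro a b
        rw [e]
        exact SA_add L o (SF L t i) (SF L t (i+1)) (i+1) t _ _ hSadd
          (Or.inr ⟨by omega, rfl, rfl⟩) a b
      · intro a ha haL; rfl
      · ext ⟨a, b⟩
        rw [Finset.mem_insert, mem_PF, mem_PF, Prod.mk.injEq]
        omega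

theorem rc_turn {L t : ℕ} (ht : t % 2 = 0) (hL : L % 2 = 1) {o : ℕ → ℕ → Bool} {s : St × ℤ}
    (h : RC (L+2) s (SA L o (SF L t L)) (fF t L) (PF L t L)) :
    RC (L+2) s (SA L o (SB L t L)) (fB t L) (PB L t L) := by
  classical
  refine ⟨rep_turn ht hL h.1, ?_⟩
  have hE : SF L t L = SB L t L := by
    funext j k
    apply propext
    unfold SF SB
    omega
  have h2 := h.2
  rw [hE] at h2
  have hS : PB L t L = insert (L, t+2) (PF L t L) := by
    ext ⟨a, b⟩
    rw [Finset.mem_insert, mem_PB, mem_PF, Prod.mk.injEq]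
    omega
  rw [hS, add_old, h2]
  refine ⟨(L, t), by rw [mem_PF]; omega, ?_⟩
  apply EqvGen.rel
  right
  simp

theorem rc_bwd {L t : ℕ} (ht : t % 2 = 0) (hL : L % 2 = 1) {o : ℕ → ℕ → Bool} (i : ℕ)
    (hi : i ≤ L) : ∀ {s : St × ℤ}
    (_ : RC (L+2) s (SA L o (SB L t i)) (fB t i) (PB L t i)),
    RC (L+2) (bwK 1 i (o (t+1)) s) (SA L o (SB L t 0)) (fB t 0) (PB L t 0) := by
  induction i with
  | zero => intro s h; simpa [bwK] using h
  | succ i ih =>
    intro s h
    simp only [bwK]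
    apply ih (by omega)
    have hSadd : ∀ i' k', SB L t i i' k' ↔ (SB L t (i+1) i' k' ∨ (i' = i+1 ∧ k' = t+1)) := by
      intro i' k'; unfold SB; omega
    by_cases hodd : (i+1) % 2 = 1
    · have key := h.join (p := i+1) hodd (by omega) (o (t+1) (i+1)) (i+1-1, t+1) (i+1, t+1+1)
        (by
          left
          constructor
          · unfold fB; rw [if_pos (by omega)]
          · unfold fB; rw [if_neg (by omega)]; simp)
        (by rw [mem_PB]; omega) (by rw [mem_PB]; omega)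
      refine key.congr ?_ ?_ ?_
      · intro a b
        exact SA_add L o (SB L t (i+1)) (SB L t i) (i+1) (t+1) _ _ hSadd
          (Or.inr ⟨by omega, rfl, rfl⟩) a b
      · intro a ha haL
        unfold fB
        by_cases h1 : a ≤ i + 1
        · rw [if_pos (by omega), if_pos (by omega)]
        · rw [if_neg (by omega), if_neg (by omega)]
      · ext ⟨a, b⟩
        rw [mem_PB, mem_PB]
        omega
    · have hv := SA_iso L o (SB L t (i+1)) (i, t+2) (by simp only; omega)
        (by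
          rintro i' k hi ⟨h1, h2, h3⟩
          refine ⟨fun _ => ⟨?_, ?_⟩, fun _ => ⟨?_, ?_⟩⟩ <;>
          · intro h
            simp only [Prod.mk.injEq] at h
            omega)
        (by rintro i k ⟨h, _⟩; exact h)
      have e : fB t (i+1) (i+1+1) = (i+1, t+1) := by
        unfold fB; rw [if_pos (by omega)]; simp
      have key := h.move (p := i+1) (α' := fB t i) (by omega) (o (t+1) (i+1))
        (i, t+2) hv.1 hv.2
        (by unfold fB; rw [if_neg (by omega)]; simp)
        (by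
          intro a ha haL hai
          unfold fB
          by_cases h1 : a ≤ i + 1
          · rw [if_pos h1, if_pos (by omega)]
          · rw [if_neg h1, if_neg (by omega)])
        (by
          intro a ha haL h
          unfold fB at h
          split_ifs at h <;> simp only [Prod.mk.injEq] at h <;> omega)
        (by rw [mem_PB]; omega) (by rw [e, mem_PB]; omega)
      refine key.congr ?_ ?_ ?_
      · intro a b
        rw [e]
        exact SA_add L o (SB L t (i+1)) (SB L t i) (i+1) (t+1) _ _ hSadd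
          (Or.inl ⟨by omega, rfl, by simp⟩) a b
      · intro a ha haL; rfl
      · ext ⟨a, b⟩
        rw [Finset.mem_insert, mem_PB, mem_PB, Prod.mk.injEq]
        omega

theorem rc_cap {L t : ℕ} {o : ℕ → ℕ → Bool} {s : St × ℤ}
    (h : RC (L+2) s (SA L o (SB L t 0)) (fB t 0) (PB L t 0)) :
    RC L (St.cap 0 s.1, s.2) (SA L o (fun j k => 1 ≤ j ∧ j ≤ L ∧ k < t+2)) (fun a => (a, t+2))
      (VV 1 L (t+2)) := by
  refine ⟨rep_cap h.1, ?_⟩
  have hE : SB L t 0 = (fun j k => 1 ≤ j ∧ j ≤ L ∧ k < t+2) := by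
    funext j k
    apply propext
    unfold SB
    omega
  have hS : PB L t 0 = VV 1 L (t+2) := by
    ext ⟨a, b⟩
    rw [mem_PB, mem_VV]
    omega
  rw [← hE, ← hS]
  exact h.2

theorem eqv0 {L : ℕ} {o : ℕ → ℕ → Bool} (x y : ℕ × ℕ)
    (h : EqvGen (SA L o (fun j k => 1 ≤ j ∧ j ≤ L ∧ k < 0)) x y) :
    x = y ∨ (x.1 = L ∧ y.1 = L) := by
  induction h with
  | rel a b h =>
    rcases h with ⟨i, k, ⟨_, _, h⟩, _⟩ | h
    · omega
    · exact Or.inr h
  | refl a => exact Or.inl rfl
  | symm a b _ ih =>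
    rcases ih with h | ⟨h, h'⟩
    · exact Or.inl h.symm
    · exact Or.inr ⟨h', h⟩
  | trans a b d _ _ ih1 ih2 =>
    rcases ih1 with h | ⟨h, h'⟩ <;> rcases ih2 with k | ⟨k, k'⟩
    · exact Or.inl (h.trans k)
    · subst h; exact Or.inr ⟨k, k'⟩
    · subst k; exact Or.inr ⟨h, h'⟩
    · exact Or.inr ⟨h, k'⟩

theorem card_VV0 (L : ℕ) (hL : L % 2 = 1) : (VV 1 L 0).card = (L+1)/2 := by
  have : VV 1 L 0 = (range ((L+1)/2)).image (fun j => (2*j+1, 0)) := by
    ext ⟨a, b⟩
    rw [mem_VV]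
    simp only [Finset.mem_image, Finset.mem_range, Prod.mk.injEq]
    constructor
    · rintro ⟨h1, h2, h3⟩
      exact ⟨a/2, by omega, by omega, by omega⟩
    · rintro ⟨j, h1, h2, h3⟩
      omega
  rw [this, Finset.card_image_of_injective, Finset.card_range]
  intro a b h
  simp only [Prod.mk.injEq, and_true] at h
  omega

theorem rc_zero {L : ℕ} (hL : L % 2 = 1) (o : ℕ → ℕ → Bool) :
    RC L (St.bot, (((L+1)/2 : ℕ) : ℤ)) (SA L o (fun j k => 1 ≤ j ∧ j ≤ L ∧ k < 0))
      (fun a => (a, 0)) (VV 1 L 0) := by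
  classical
  refine ⟨rep_X L hL o 0, ?_⟩
  simp only
  rw [← card_VV0 L hL]
  unfold ncl
  rw [Finset.card_image_of_injOn]
  intro a ha b hb hab
  simp only at hab
  have h1 : b ∈ {b | EqvGen (SA L o (fun j k => 1 ≤ j ∧ j ≤ L ∧ k < 0)) b b} := EqvGen.refl b
  have h2 : EqvGen (SA L o (fun j k => 1 ≤ j ∧ j ≤ L ∧ k < 0)) a b := by
    have : b ∈ {c | EqvGen (SA L o (fun j k => 1 ≤ j ∧ j ≤ L ∧ k < 0)) a c} := by
      rw [hab]; exact EqvGen.refl b
    exact this
  obtain ⟨a1, a2⟩ := a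
  obtain ⟨b1, b2⟩ := b
  rw [Finset.mem_coe, mem_VV] at ha hb
  rcases eqv0 _ _ h2 with h | ⟨h, h'⟩
  · exact h
  · simp only at h h'
    rw [Prod.mk.injEq]
    omega

theorem rc_TK (L : ℕ) (hL : L % 2 = 1) (o : ℕ → ℕ → Bool) (M : ℕ) :
    RC L (TK L o M) (SA L o (fun j k => 1 ≤ j ∧ j ≤ L ∧ k < 2*M)) (fun a => (a, 2*M))
      (VV 1 L (2*M)) := by
  induction M with
  | zero => exact rc_zero hL o
  | succ M ih =>
    have h1 := rc_ins (t := 2*M) (by omega) hL ih
    have h2 := rc_fwd (t := 2*M) (by omega) hL h1 L le_rfl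
    have h3 := rc_turn (t := 2*M) (by omega) hL h2
    have h4 := rc_bwd (t := 2*M) (by omega) hL L le_rfl h3
    exact rc_cap h4

end T25

theorem TK_fst (N : ℕ) (o : ℕ → ℕ → Bool) (M : ℕ) : (TK N o M).1 = X N (actBit o) M := by
  induction M with
  | zero => rfl
  | succ M ih =>
    simp only [TK, X]
    rw [T25.bwK_fst, T25.fwK_fst, ih]

theorem TK_count (N : ℕ) (hN : Odd N) (o : ℕ → ℕ → Bool) (M : ℕ) :
    (kk 1 N (2*M) {N} o : ℤ) = (TK N o M).2 := by
  have h := (T25.rc_TK N (Nat.odd_iff.mp hN) o M).2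
  rw [← h]
  unfold kk
  have hE : (fun a b : ℕ × ℕ => TE 1 N (2*M) o a b ∨ (a.1 ∈ ({N} : Finset ℕ) ∧
      b.1 ∈ ({N} : Finset ℕ))) = T21.SA N o (fun j k => 1 ≤ j ∧ j ≤ N ∧ k < 2*M) := by
    funext a b
    apply propext
    unfold TE T21.SA
    simp only [Finset.mem_singleton]
    constructor
    · rintro (⟨i, k, h1, h2, h3, h4, h5⟩ | h)
      · refine Or.inl ⟨i, k, ⟨h1, h2, h3⟩, h4, ?_⟩
        rcases h5 with h5 | ⟨h5, h6⟩
        · exact Or.inl h5
        · exact Or.inr ⟨by omega, h6⟩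
      · exact Or.inr h
    · rintro (⟨i, k, ⟨h1, h2, h3⟩, h4, h5⟩ | h)
      · refine Or.inl ⟨i, k, h1, h2, h3, h4, ?_⟩
        rcases h5 with h5 | ⟨h5, h6⟩
        · exact Or.inl h5
        · exact Or.inr ⟨by omega, h6⟩
      · exact Or.inr h
  rw [hE]

end Pool.Agent.H980R2.Cross
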