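import Pool.Agent.H980R2.Cross.T23

/-! T26: deterministic count for the free strip (`d = 0`, lattice `lam = 0`, no wiring) and for the
strip with both sides wired together (`d = 1`, lattice `lam = 1`, wiring `{0, N}`); `N` odd.

Same proof as T25 / `H988R2.Perc.T21`, simpler (no insertion, no cap).  Frontier at stage `i` of the
forward sweep of row `t` (even): the face `j` is the vertex `(j-d, t+1)` if `j ≤ i + d`, else
`(j-d-1, t)`; stage `i` of the backward sweep of the row `t+1` (tiles `N..i+1` done): `(j-d, t+1)` if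
`j ≤ i+d`, else `(j-d-1, t+2)`; only odd faces `j ≤ N+1+d`.  The tile `i` (column `i`, `1 ≤ i ≤ N`) acts at the position
`p = i-1+d`, i.e. on the faces `p, p+1, p+2`.  `p` odd: it joins the vertices of the faces `p`, `p+2`:
forward `(i-1,t+1)` and `(i,t)`, backward `(i-1,t+1)` and `(i,t+2)`.  `p` even: it replaces the vertex of the
face `p+1`: forward `(i-1,t)` by the fresh `(i,t+1)`, backward `(i,t+1)` by the fresh `(i-1,t+2)`.
For `d = 1` the faces `1` (column `0`) and `N+2` (column `N`) are always in the wired class (the turn at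
the right: `(N,t)` and `(N,t+2)` are both wired; at the left `(0,t+1)`, `(0,t+3)`), the fresh vertices
lie in the columns `1,…,N-1`; initially `RW N`.  For `d = 0`, `N` odd, there is no turn problem (the last odd
face is `N`). -/

namespace Pool.Agent.H980R2.Cross

open Pool.Agent.H988R2.Perc Finset

namespace T26

open Relation
open Pool.Agent.H988R2.Perc.T21 (Rep Rep.congr Rep.join Rep.move SF SB eqvGen_congr eqvGen_iso
  rel_refl)

/-- adjacency by the open tiles of a set `S` of tiles, plus the wiring `W` -/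
def SE (d : ℕ) (W : Finset ℕ) (o : ℕ → ℕ → Bool) (S : ℕ → ℕ → Prop) (a b : ℕ × ℕ) : Prop :=
  (∃ i k, S i k ∧ o k i = true ∧
    (((i + k) % 2 = d ∧ a = (i, k) ∧ b = (i-1, k+1)) ∨
     ((i + k) % 2 ≠ d ∧ a = (i-1, k) ∧ b = (i, k+1)))) ∨ (a.1 ∈ W ∧ b.1 ∈ W)

theorem SE_add (d : ℕ) (W : Finset ℕ) (o : ℕ → ℕ → Bool) (S S' : ℕ → ℕ → Prop) (i k : ℕ)
    (p p' : ℕ × ℕ)
    (hS : ∀ i' k', S' i' k' ↔ (S i' k' ∨ (i' = i ∧ k' = k)))
    (hp : ((i + k) % 2 = d ∧ p = (i, k) ∧ p' = (i-1, k+1)) ∨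
      ((i + k) % 2 ≠ d ∧ p = (i-1, k) ∧ p' = (i, k+1))) (a b : ℕ × ℕ) :
    (SE d W o S a b ∨ (o k i = true ∧ a = p ∧ b = p')) ↔ SE d W o S' a b := by
  unfold SE
  constructor
  · rintro ((⟨i', k', h1, h2, h3⟩ | h) | ⟨h1, h2, h3⟩)
    · exact Or.inl ⟨i', k', (hS _ _).2 (Or.inl h1), h2, h3⟩
    · exact Or.inr h
    · refine Or.inl ⟨i, k, (hS _ _).2 (Or.inr ⟨rfl, rfl⟩), h1, ?_⟩
      subst h2; subst h3; exact hp
  · rintro (⟨i', k', h1, h2, h3⟩ | h)
    · rcases (hS _ _).1 h1 with h1 | ⟨rfl, rfl⟩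
      · exact Or.inl (Or.inl ⟨i', k', h1, h2, h3⟩)
      · refine Or.inr ⟨h2, ?_⟩
        rcases hp with ⟨hp, rfl, rfl⟩ | ⟨hp, rfl, rfl⟩ <;>
          rcases h3 with ⟨h3, h4, h5⟩ | ⟨h3, h4, h5⟩ <;>
          first
          | exact ⟨h4, h5⟩
          | (exfalso; omega)
    · exact Or.inl (Or.inr h)

/-- a vertex outside the wired columns without tile in `S` is isolated -/
theorem SE_iso (d : ℕ) (W : Finset ℕ) (o : ℕ → ℕ → Bool) (S : ℕ → ℕ → Prop) (v : ℕ × ℕ)
    (hv : v.1 ∉ W)
    (hS : ∀ i k, S i k →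
      ((i + k) % 2 = d → v ≠ (i, k) ∧ v ≠ (i-1, k+1)) ∧
      ((i + k) % 2 ≠ d → v ≠ (i-1, k) ∧ v ≠ (i, k+1))) :
    (∀ a, ¬ SE d W o S v a) ∧ (∀ a, ¬ SE d W o S a v) := by
  constructor
  · rintro a (⟨i, k, h1, _, ⟨h3, h4, h5⟩ | ⟨h3, h4, h5⟩⟩ | ⟨h, _⟩)
    · exact ((hS i k h1).1 h3).1 h4
    · exact ((hS i k h1).2 h3).1 h4
    · exact hv h
  · rintro a (⟨i, k, h1, _, ⟨h3, h4, h5⟩ | ⟨h3, h4, h5⟩⟩ | ⟨_, h⟩)
    · exact ((hS i k h1).1 h3).2 h5
    · exact ((hS i k h1).2 h3).2 h5
    · exact hv h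

/-- frontier of the forward sweep -/
def gF (d t i j : ℕ) : ℕ × ℕ := if j ≤ i + d then (j-d, t+1) else (j-d-1, t)

/-- frontier of the backward sweep -/
def gB (d t i j : ℕ) : ℕ × ℕ := if j ≤ i + d then (j-d, t+1) else (j-d-1, t+2)

/-- vertices present in the forward sweep -/
def PF (d N t i : ℕ) : Finset (ℕ × ℕ) := (VV d N (t+1)).filter (fun v => v.2 ≤ t ∨ v.1 ≤ i)

/-- vertices present in the backward sweep -/
def PB (d N t i : ℕ) : Finset (ℕ × ℕ) := (VV d N (t+2)).filter (fun v => v.2 ≤ t+1 ∨ i ≤ v.1)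

theorem mem_VV {d N K : ℕ} {v : ℕ × ℕ} :
    v ∈ VV d N K ↔ v.1 ≤ N ∧ v.2 ≤ K ∧ (v.1 + v.2) % 2 = d := by
  unfold VV
  rw [mem_filter, mem_product, mem_range, mem_range]
  constructor
  · rintro ⟨⟨h1, h2⟩, h3⟩
    exact ⟨by omega, by omega, h3⟩
  · rintro ⟨h1, h2, h3⟩
    exact ⟨⟨by omega, by omega⟩, h3⟩

theorem mem_PF {d N t i : ℕ} {v : ℕ × ℕ} :
    v ∈ PF d N t i ↔ v.1 ≤ N ∧ v.2 ≤ t+1 ∧ (v.1 + v.2) % 2 = d ∧ (v.2 ≤ t ∨ v.1 ≤ i) := by
  unfold PF
  rw [mem_filter, mem_VV]
  tauto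

theorem mem_PB {d N t i : ℕ} {v : ℕ × ℕ} :
    v ∈ PB d N t i ↔ v.1 ≤ N ∧ v.2 ≤ t+2 ∧ (v.1 + v.2) % 2 = d ∧ (v.2 ≤ t+1 ∨ i ≤ v.1) := by
  unfold PB
  rw [mem_filter, mem_VV]
  tauto

theorem ncl_add_vertex' {α : Type*} [inst : DecidableEq α] (E : α → α → Prop) (S : Finset α) (v : α)
    (h1 : ∀ a, ¬ E v a) (h2 : ∀ a, ¬ E a v) (hv : v ∉ S) :
    ncl E (insert v S) = ncl E S + 1 := by
  have hi : inst = fun a b => Classical.propDecidable (a = b) := Subsingleton.elim _ _
  subst hi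
  exact ncl_add_vertex E S v h1 h2 hv

theorem ncl_add_old' {α : Type*} [inst : DecidableEq α] (E : α → α → Prop) (S : Finset α) (v : α)
    (h : ∃ s ∈ S, EqvGen E v s) : ncl E (insert v S) = ncl E S := by
  have hi : inst = fun a b => Classical.propDecidable (a = b) := Subsingleton.elim _ _
  subst hi
  exact ncl_add_old E S v h

theorem ncl_add_edge' {α : Type*} (E : α → α → Prop) (S : Finset α) (c : Prop) (p p' : α)
    (hp : p ∈ S) (hp' : p' ∈ S) :
    ((c ∧ ¬ EqvGen E p p') → (ncl (fun a b => E a b ∨ (c ∧ a = p ∧ b = p')) S : ℤ) =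
      ncl E S - 1) ∧ (¬ (c ∧ ¬ EqvGen E p p') →
      (ncl (fun a b => E a b ∨ (c ∧ a = p ∧ b = p')) S : ℤ) = ncl E S) := by
  have h := ncl_add_edge E S c p p' hp hp'
  refine ⟨fun hh => ?_, fun hh => ?_⟩
  · rw [h, if_pos hh]
  · rw [h, if_neg hh, sub_zero]

/-- the invariant: the state describes the connectivity of the frontier and the counter is the
number of clusters -/
def Inv (n : ℕ) (s : St × ℤ) (E : ℕ × ℕ → ℕ × ℕ → Prop) (α : ℕ → ℕ × ℕ)
    (P : Finset (ℕ × ℕ)) : Prop := Rep n s.1 E α ∧ s.2 = ncl E P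

/-- a tile at an odd position -/
theorem Inv.join {n i : ℕ} {s : St × ℤ} {E E' : ℕ × ℕ → ℕ × ℕ → Prop} {α α' : ℕ → ℕ × ℕ}
    {P P' : Finset (ℕ × ℕ)} (h : Inv n s E α P) (hi : i % 2 = 1) (hin : i + 2 ≤ n) (c : Bool)
    (p p' : ℕ × ℕ) (hp : (p = α i ∧ p' = α (i+2)) ∨ (p = α (i+2) ∧ p' = α i))
    (hpP : p ∈ P) (hpP' : p' ∈ P)
    (hE : ∀ a b, (E a b ∨ (c = true ∧ a = p ∧ b = p')) ↔ E' a b)
    (hα : ∀ a, a % 2 = 1 → a ≤ n → α a = α' a) (hP : P' = P) :
    Inv n (stepT i c s) E' α' P' := by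
  obtain ⟨hR, hc⟩ := h
  have hE' : E' = fun a b => E a b ∨ (c = true ∧ a = p ∧ b = p') := by
    funext a b; exact (propext (hE a b)).symm
  have hrel : s.1.rel i (i+2) ↔ EqvGen E p p' := by
    rw [hR i (i+2) hi (by omega) (by omega) hin]
    rcases hp with ⟨rfl, rfl⟩ | ⟨rfl, rfl⟩
    · rfl
    · exact ⟨fun h => h.symm _ _, fun h => h.symm _ _⟩
  have hst : (stepT i c s).1 = if c then s.1.act i else s.1 := by
    unfold stepT
    rw [if_pos hi]
    cases c <;> rfl
  constructor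
  · rw [hst]
    exact (hR.join hi hin c p p' hp).congr hE hα
  · rw [hP, hE']
    obtain ⟨k1, k2⟩ := ncl_add_edge' E P (c = true) p p' hpP hpP'
    unfold stepT
    rw [if_pos hi]
    cases c with
    | false =>
      rw [k2 (fun h => Bool.false_ne_true h.1)]
      exact hc
    | true =>
      rw [if_pos rfl]
      by_cases hr : s.1.rel i (i+2)
      · rw [k2 (fun h => h.2 (hrel.1 hr)), if_pos hr, hc, sub_zero]
      · rw [k1 ⟨rfl, fun h => hr (hrel.2 h)⟩, if_neg hr, hc]

/-- a tile at an even position -/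
theorem Inv.move {n i : ℕ} {s : St × ℤ} {E E' : ℕ × ℕ → ℕ × ℕ → Prop} {α α' : ℕ → ℕ × ℕ}
    {P P' : Finset (ℕ × ℕ)} (h : Inv n s E α P) (hi : i % 2 = 0) (c : Bool) (v : ℕ × ℕ)
    (h1 : ∀ a, ¬ E v a) (h2 : ∀ a, ¬ E a v)
    (hv : α' (i+1) = v) (hα : ∀ a, a % 2 = 1 → a ≤ n → a ≠ i+1 → α' a = α a)
    (hne : ∀ a, a % 2 = 1 → a ≤ n → α a ≠ v) (hin : i + 1 ≤ n)
    (hold : α (i+1) ∈ P) (hvP : v ∉ P)
    (hE : ∀ a b, (E a b ∨ (c = true ∧ a = α (i+1) ∧ b = v)) ↔ E' a b) (hP : P' = insert v P) :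
    Inv n (stepT i c s) E' α' P' := by
  classical
  obtain ⟨hR, hc⟩ := h
  have hE' : E' = fun a b => E a b ∨ (c = true ∧ a = α (i+1) ∧ b = v) := by
    funext a b; exact (propext (hE a b)).symm
  have hst : (stepT i c s).1 = if !c then s.1.act i else s.1 := by
    unfold stepT
    rw [if_neg (by omega)]
    cases c <;> rfl
  constructor
  · rw [hst]
    exact (hR.move hi c v h1 h2 hv hα hne).congr hE (fun _ _ _ => rfl)
  · have hins := ncl_add_vertex' E P v h1 h2 hvP
    obtain ⟨k1, k2⟩ := ncl_add_edge' E (insert v P) (c = true) (α (i+1)) v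
      (mem_insert_of_mem hold) (mem_insert_self _ _)
    have hneq : α (i+1) ≠ v := hne (i+1) (by omega) hin
    have hnot : ¬ EqvGen E (α (i+1)) v := by
      intro hh
      rcases eqvGen_iso E v h1 h2 hh with hh | ⟨_, hh⟩
      · exact hneq hh
      · exact hh rfl
    rw [hP, hE']
    unfold stepT
    rw [if_neg (by omega)]
    cases c with
    | false =>
      rw [k2 (fun h => Bool.false_ne_true h.1), hins, if_neg Bool.false_ne_true, hc]
      push_cast
      rfl
    | true =>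
      rw [k1 ⟨rfl, hnot⟩, hins, if_pos rfl, hc]
      push_cast
      ring

theorem inv_fwd {N d t : ℕ} {W : Finset ℕ} (hN : N % 2 = 1) (hd : d ≤ 1)
    (hW : ∀ c, c ∈ W → d = 1 ∧ (c = 0 ∨ c = N)) (ht : t % 2 = 0) {o : ℕ → ℕ → Bool}
    {s : St × ℤ} (h : Inv (N+1+d) s (SE d W o (SF N t 0)) (gF d t 0) (PF d N t 0)) (i : ℕ)
    (hi : i ≤ N) :
    Inv (N+1+d) (fwK d i (o t) s) (SE d W o (SF N t i)) (gF d t i) (PF d N t i) := by
  classical
  induction i with
  | zero => simpa [fwK] using h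
  | succ i ih =>
    have ih := ih (by omega)
    simp only [fwK]
    have hSadd : ∀ i' k', SF N t (i+1) i' k' ↔ (SF N t i i' k' ∨ (i' = i+1 ∧ k' = t)) := by
      intro i' k'; unfold SF; omega
    by_cases hodd : (i + d) % 2 = 1
    · refine ih.join hodd (by omega) (o t (i+1)) (i+1, t) (i+1-1, t+1) ?_ ?_ ?_ ?_ ?_ ?_
      · right
        constructor
        · unfold gF; rw [if_neg (by omega)]; simp only [Prod.mk.injEq, and_true]; omega
        · unfold gF; rw [if_pos (by omega)]; simp only [Prod.mk.injEq, and_true]; omega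
      · rw [mem_PF]; simp only; omega
      · rw [mem_PF]; simp only; omega
      · intro a b
        exact SE_add d W o (SF N t i) (SF N t (i+1)) (i+1) t _ _ hSadd
          (Or.inl ⟨by omega, rfl, rfl⟩) a b
      · intro a ha haL
        unfold gF
        by_cases h1 : a ≤ i + d
        · rw [if_pos h1, if_pos (by omega)]
        · rw [if_neg h1, if_neg (by omega)]
      · ext v
        rw [mem_PF, mem_PF]
        omega
    · have hv := SE_iso d W o (SF N t i) (i+1, t+1)
        (by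
          intro hw
          have := hW _ hw
          simp only at this
          omega)
        (by
          rintro i' k ⟨h1, h2, h3⟩
          refine ⟨fun _ => ⟨?_, ?_⟩, fun _ => ⟨?_, ?_⟩⟩ <;>
          · intro h
            simp only [Prod.mk.injEq] at h
            omega)
      refine ih.move (i := i+d) (α' := gF d t (i+1)) (by omega) (o t (i+1))
        (i+1, t+1) hv.1 hv.2 ?_ ?_ ?_ (by omega) ?_ ?_ ?_ ?_
      · unfold gF; rw [if_pos (by omega)]; simp only [Prod.mk.injEq, and_true]; omega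
      · intro a ha haL hai
        unfold gF
        by_cases h1 : a ≤ i + d
        · rw [if_pos h1, if_pos (by omega)]
        · rw [if_neg h1, if_neg (by omega)]
      · intro a ha haL h
        unfold gF at h
        split_ifs at h <;> simp only [Prod.mk.injEq] at h <;> omega
      · rw [mem_PF]
        unfold gF
        rw [if_neg (by omega)]
        simp only
        omega
      · rw [mem_PF]; simp only; omega
      · intro a b
        have e : gF d t i (i+d+1) = (i+1-1, t) := by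
          unfold gF; rw [if_neg (by omega)]; simp only [Prod.mk.injEq, and_true]; omega
        rw [e]
        exact SE_add d W o (SF N t i) (SF N t (i+1)) (i+1) t _ _ hSadd
          (Or.inr ⟨by omega, rfl, rfl⟩) a b
      · ext v
        rw [mem_insert, mem_PF, mem_PF, Prod.ext_iff]
        simp only
        omega

theorem inv_bwd {N d t : ℕ} {W : Finset ℕ} (hN : N % 2 = 1) (hd : d ≤ 1)
    (hW : ∀ c, c ∈ W → d = 1 ∧ (c = 0 ∨ c = N)) (ht : t % 2 = 0) {o : ℕ → ℕ → Bool} (i : ℕ)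
    (hi : i ≤ N) : ∀ {s : St × ℤ}
    (_ : Inv (N+1+d) s (SE d W o (SB N t i)) (gB d t i) (PB d N t i)),
    Inv (N+1+d) (bwK d i (o (t+1)) s) (SE d W o (SB N t 0)) (gB d t 0) (PB d N t 0) := by
  classical
  induction i with
  | zero => intro s h; simpa [bwK] using h
  | succ i ih =>
    intro s h
    simp only [bwK]
    apply ih (by omega)
    have hSadd : ∀ i' k', SB N t i i' k' ↔ (SB N t (i+1) i' k' ∨ (i' = i+1 ∧ k' = t+1)) := by
      intro i' k'; unfold SB; omega
    by_cases hodd : (i + d) % 2 = 1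
    · refine h.join hodd (by omega) (o (t+1) (i+1)) (i+1-1, t+1) (i+1, t+1+1) ?_ ?_ ?_ ?_ ?_ ?_
      · left
        constructor
        · unfold gB; rw [if_pos (by omega)]; simp only [Prod.mk.injEq, and_true]; omega
        · unfold gB
          rw [if_neg (by omega), show i + d + 2 - d - 1 = i + 1 by omega]
      · rw [mem_PB]; simp only; omega
      · rw [mem_PB]; simp only; omega
      · intro a b
        exact SE_add d W o (SB N t (i+1)) (SB N t i) (i+1) (t+1) _ _ hSadd
          (Or.inr ⟨by omega, rfl, rfl⟩) a b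
      · intro a ha haL
        unfold gB
        by_cases h1 : a ≤ i + d
        · rw [if_pos (by omega), if_pos (by omega)]
        · rw [if_neg (by omega), if_neg (by omega)]
      · ext v
        rw [mem_PB, mem_PB]
        omega
    · have hv := SE_iso d W o (SB N t (i+1)) (i, t+2)
        (by
          intro hw
          have := hW _ hw
          simp only at this
          omega)
        (by
          rintro i' k ⟨h1, h2, h3⟩
          refine ⟨fun _ => ⟨?_, ?_⟩, fun _ => ⟨?_, ?_⟩⟩ <;>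
          · intro h
            simp only [Prod.mk.injEq] at h
            omega)
      refine h.move (i := i+d) (α' := gB d t i) (by omega) (o (t+1) (i+1))
        (i, t+2) hv.1 hv.2 ?_ ?_ ?_ (by omega) ?_ ?_ ?_ ?_
      · unfold gB; rw [if_neg (by omega)]; simp only [Prod.mk.injEq, and_true]; omega
      · intro a ha haL hai
        unfold gB
        by_cases h1 : a ≤ i + d
        · rw [if_pos h1, if_pos (by omega)]
        · rw [if_neg h1, if_neg (by omega)]
      · intro a ha haL h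
        unfold gB at h
        split_ifs at h <;> simp only [Prod.mk.injEq] at h <;> omega
      · rw [mem_PB]
        unfold gB
        rw [if_pos (by omega)]
        simp only
        omega
      · rw [mem_PB]; simp only; omega
      · intro a b
        have e : gB d t (i+1) (i+d+1) = (i+1, t+1) := by
          unfold gB; rw [if_pos (by omega)]; simp only [Prod.mk.injEq, and_true]; omega
        rw [e]
        exact SE_add d W o (SB N t (i+1)) (SB N t i) (i+1) (t+1) _ _ hSadd
          (Or.inl ⟨by omega, rfl, by simp⟩) a b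
      · ext v
        rw [mem_insert, mem_PB, mem_PB, Prod.ext_iff]
        simp only
        omega

/-- change of the frontier and of the set of vertices inside the classes -/
theorem Inv.change {n : ℕ} {s : St × ℤ} {E : ℕ × ℕ → ℕ × ℕ → Prop} {α α' : ℕ → ℕ × ℕ}
    {P P' : Finset (ℕ × ℕ)} (h : Inv n s E α P)
    (hα : ∀ a, a % 2 = 1 → a ≤ n → EqvGen E (α a) (α' a)) (hP : ncl E P' = ncl E P) :
    Inv n s E α' P' := by
  obtain ⟨hR, hc⟩ := h
  refine ⟨?_, by rw [hc, hP]⟩
  intro a b ha hb han hbn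
  rw [hR a b ha hb han hbn]
  constructor
  · intro h'
    exact (((hα a ha han).symm _ _).trans _ _ _ h').trans _ _ _ (hα b hb hbn)
  · intro h'
    exact ((hα a ha han).trans _ _ _ h').trans _ _ _ ((hα b hb hbn).symm _ _)

theorem inv_turn {N d t : ℕ} {W : Finset ℕ} (hN : N % 2 = 1) (hd : d ≤ 1)
    (hW1 : d = 1 → 0 ∈ W ∧ N ∈ W) (ht : t % 2 = 0) {o : ℕ → ℕ → Bool} {s : St × ℤ}
    (h : Inv (N+1+d) s (SE d W o (SF N t N)) (gF d t N) (PF d N t N)) :
    Inv (N+1+d) s (SE d W o (SB N t N)) (gB d t N) (PB d N t N) := by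
  classical
  have hE : SF N t N = SB N t N := by
    funext j k
    apply propext
    unfold SF SB
    omega
  rw [hE] at h
  refine h.change ?_ ?_
  · intro a ha haL
    by_cases h1 : a ≤ N + d
    · have : gF d t N a = gB d t N a := by
        unfold gF gB; rw [if_pos h1, if_pos h1]
      rw [this]; exact EqvGen.refl _
    · apply EqvGen.rel
      right
      unfold gF gB
      rw [if_neg h1, if_neg h1]
      have e : a - d - 1 = N := by omega
      have hd1 : d = 1 := by omega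
      simp only [e]
      exact ⟨(hW1 hd1).2, (hW1 hd1).2⟩
  · by_cases hd1 : d = 1
    · have hP : PB d N t N = insert (N, t+2) (PF d N t N) := by
        ext v
        rw [mem_insert, mem_PB, mem_PF, Prod.ext_iff]
        simp only
        omega
      rw [hP]
      refine ncl_add_old' _ _ _ ⟨(N, t), ?_, ?_⟩
      · rw [mem_PF]; simp only; omega
      · exact EqvGen.rel _ _ (Or.inr ⟨(hW1 hd1).2, (hW1 hd1).2⟩)
    · have hP : PB d N t N = PF d N t N := by
        ext v
        rw [mem_PB, mem_PF]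
        omega
      rw [hP]

theorem ncl_start {N d t : ℕ} {W : Finset ℕ} (hN : N % 2 = 1) (hd : d ≤ 1)
    (hW1 : d = 1 → 0 ∈ W ∧ N ∈ W) (ht : t % 2 = 0) {o : ℕ → ℕ → Bool} (S : ℕ → ℕ → Prop) :
    ncl (SE d W o S) (PF d N t 0) = ncl (SE d W o S) (VV d N t) := by
  classical
  by_cases hd1 : d = 1
  · have hP : PF d N t 0 = insert (0, t+1) (VV d N t) := by
      ext v
      rw [mem_insert, mem_PF, mem_VV, Prod.ext_iff]
      simp only
      omega
    rw [hP]
    refine ncl_add_old' _ _ _ ⟨(N, t), ?_, ?_⟩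
    · rw [mem_VV]; simp only; omega
    · exact EqvGen.rel _ _ (Or.inr ⟨(hW1 hd1).1, (hW1 hd1).2⟩)
  · have hP : PF d N t 0 = VV d N t := by
      ext v
      rw [mem_PF, mem_VV]
      omega
    rw [hP]

/-- from the end of a double row to the start of the next one -/
theorem inv_next {N d t : ℕ} {W : Finset ℕ} (hN : N % 2 = 1) (hd : d ≤ 1)
    (hW1 : d = 1 → 0 ∈ W ∧ N ∈ W) (ht : t % 2 = 0) {o : ℕ → ℕ → Bool} {s : St × ℤ}
    (h : Inv (N+1+d) s (SE d W o (SB N t 0)) (gB d t 0) (PB d N t 0)) :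
    Inv (N+1+d) s (SE d W o (SF N (t+2) 0)) (gF d (t+2) 0) (PF d N (t+2) 0) := by
  have hE : SB N t 0 = SF N (t+2) 0 := by
    funext j k
    apply propext
    unfold SF SB
    omega
  rw [hE] at h
  refine h.change ?_ ?_
  · intro a ha haL
    by_cases h1 : a ≤ 0 + d
    · apply EqvGen.rel
      right
      unfold gF gB
      rw [if_pos h1, if_pos h1]
      have e : a - d = 0 := by omega
      have hd1 : d = 1 := by omega
      simp only [e]
      exact ⟨(hW1 hd1).1, (hW1 hd1).1⟩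
    · have : gB d t 0 a = gF d (t+2) 0 a := by
        unfold gF gB; rw [if_neg h1, if_neg h1]
      rw [this]; exact EqvGen.refl _
  · rw [ncl_start hN hd hW1 (by omega)]
    have hP : PB d N t 0 = VV d N (t+2) := by
      ext v
      rw [mem_PB, mem_VV]
      omega
    rw [hP]

theorem card_VV_zero {d m : ℕ} (hd : d ≤ 1) : (VV d (2*m+1) 0).card = m + 1 := by
  have h : VV d (2*m+1) 0 = (range (m+1)).image (fun j => ((2*j+d, 0) : ℕ × ℕ)) := by
    ext v
    rw [mem_VV, mem_image]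
    constructor
    · rintro ⟨h1, h2, h3⟩
      refine ⟨v.1 / 2, mem_range.2 (by omega), ?_⟩
      rw [Prod.ext_iff]
      simp only
      omega
    · rintro ⟨j, hj, rfl⟩
      rw [mem_range] at hj
      simp only
      omega
  rw [h, card_image_of_injective, card_range]
  intro j j' hj
  simp only [Prod.mk.injEq, and_true] at hj
  omega

theorem inv_zero {N d : ℕ} {W : Finset ℕ} (hN : N % 2 = 1) (hd : d ≤ 1)
    (hW : ∀ c, c ∈ W → d = 1 ∧ (c = 0 ∨ c = N)) (hW1 : d = 1 → 0 ∈ W ∧ N ∈ W)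
    (o : ℕ → ℕ → Bool) :
    Inv (N+1+d) (UK d N o 0) (SE d W o (SF N 0 0)) (gF d 0 0) (PF d N 0 0) := by
  classical
  have key : ∀ x y : ℕ × ℕ, EqvGen (SE d W o (SF N 0 0)) x y →
      x = y ∨ (x.1 ∈ W ∧ y.1 ∈ W) := by
    intro x y h
    induction h with
    | rel a b h =>
      rcases h with ⟨i, k, h, _⟩ | h
      · unfold SF at h; omega
      · exact Or.inr h
    | refl a => exact Or.inl rfl
    | symm a b _ ih =>
      rcases ih with h | ⟨h, h'⟩
      · exact Or.inl h.symm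
      · exact Or.inr ⟨h', h⟩
    | trans a b d _ _ ih1 ih2 =>
      rcases ih1 with h | ⟨h, h'⟩ <;> rcases ih2 with k | ⟨k, k'⟩
      · exact Or.inl (h.trans k)
      · subst h; exact Or.inr ⟨k, k'⟩
      · subst k; exact Or.inr ⟨h, h'⟩
      · exact Or.inr ⟨h, k'⟩
  constructor
  · intro a b ha hb haL hbL
    change (st0 d N).rel a b ↔ _
    unfold st0
    by_cases hd0 : d = 0
    · rw [if_pos hd0]
      change a = b ↔ _
      constructor
      · rintro rfl; exact EqvGen.refl _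
      · intro h
        rcases key _ _ h with h | ⟨h, _⟩
        · unfold gF at h
          rw [if_neg (by omega), if_neg (by omega)] at h
          simp only [Prod.mk.injEq, and_true] at h
          omega
        · exact absurd (hW _ h).1 (by omega)
    · have hd1 : d = 1 := by omega
      rw [if_neg hd0]
      subst hd1
      change (a = b ∨ (N % 2 = 1 ∧ (a = 1 ∨ a = N+2) ∧ (b = 1 ∨ b = N+2))) ↔ _
      have hcol : ∀ a, a % 2 = 1 → a ≤ N+1+1 → (gF 1 0 0 a).1 ∈ W → (a = 1 ∨ a = N+2) := by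
        intro a ha haL h
        have := hW _ h
        unfold gF at this
        split_ifs at this <;> simp only at this <;> omega
      have hcol' : ∀ a, (a = 1 ∨ a = N+2) → (gF 1 0 0 a).1 ∈ W := by
        rintro a (rfl | rfl)
        · exact (hW1 rfl).1
        · unfold gF
          rw [if_neg (by omega)]
          exact (hW1 rfl).2
      constructor
      · rintro (rfl | ⟨_, h1, h2⟩)
        · exact EqvGen.refl _
        · exact EqvGen.rel _ _ (Or.inr ⟨hcol' a h1, hcol' b h2⟩)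
      · intro h
        rcases key _ _ h with h | ⟨h, h'⟩
        · left
          unfold gF at h
          split_ifs at h <;> simp only [Prod.mk.injEq] at h <;> omega
        · exact Or.inr ⟨hN, hcol a ha haL h, hcol b hb hbL h'⟩
  · rw [ncl_start hN hd hW1 rfl]
    change (((N+1)/2 : ℕ) : ℤ) = _
    have hcard : ncl (SE d W o (SF N 0 0)) (VV d N 0) = (VV d N 0).card := by
      unfold ncl
      rw [card_image_of_injOn]
      intro a ha b hb hab
      simp only at hab
      have h1 : b ∈ {b | EqvGen (SE d W o (SF N 0 0)) a b} := by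
        rw [hab]; exact EqvGen.refl _
      have ha' := mem_VV.1 (mem_coe.1 ha)
      have hb' := mem_VV.1 (mem_coe.1 hb)
      rcases key _ _ h1 with h | ⟨h, h'⟩
      · exact h
      · have h2 := hW _ h
        have h3 := hW _ h'
        rw [Prod.ext_iff]
        omega
    rw [hcard]
    obtain ⟨m, rfl⟩ : ∃ m, N = 2*m+1 := ⟨N/2, by omega⟩
    rw [card_VV_zero hd]
    congr 1
    omega

theorem inv_UK {N d : ℕ} {W : Finset ℕ} (hN : N % 2 = 1) (hd : d ≤ 1)
    (hW : ∀ c, c ∈ W → d = 1 ∧ (c = 0 ∨ c = N)) (hW1 : d = 1 → 0 ∈ W ∧ N ∈ W)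
    (o : ℕ → ℕ → Bool) (M : ℕ) :
    Inv (N+1+d) (UK d N o M) (SE d W o (SF N (2*M) 0)) (gF d (2*M) 0) (PF d N (2*M) 0) := by
  induction M with
  | zero => exact inv_zero hN hd hW hW1 o
  | succ M ih =>
    have h2 := inv_fwd hN hd hW (t := 2*M) (by omega) ih N le_rfl
    have h3 := inv_turn hN hd hW1 (t := 2*M) (by omega) h2
    have h4 := inv_bwd hN hd hW (t := 2*M) (by omega) N le_rfl h3
    exact inv_next (t := 2*M) hN hd hW1 (by omega) h4

theorem kk_UK {N d : ℕ} {W : Finset ℕ} (hN : N % 2 = 1) (hd : d ≤ 1)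
    (hW : ∀ c, c ∈ W → d = 1 ∧ (c = 0 ∨ c = N)) (hW1 : d = 1 → 0 ∈ W ∧ N ∈ W)
    (o : ℕ → ℕ → Bool) (M : ℕ) : (kk d N (2*M) W o : ℤ) = (UK d N o M).2 := by
  have h := (inv_UK hN hd hW hW1 o M).2
  rw [h, ncl_start (t := 2*M) hN hd hW1 (by omega)]
  have hE : (fun a b : ℕ × ℕ => TE d N (2*M) o a b ∨ (a.1 ∈ W ∧ b.1 ∈ W)) =
      SE d W o (SF N (2*M) 0) := by
    funext a b
    apply propext
    unfold SE TE SF
    constructor
    · rintro (⟨i, k, h1, h2, h3, h4, h5⟩ | h)
      · exact Or.inl ⟨i, k, ⟨h1, h2, Or.inl h3⟩, h4, h5⟩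
      · exact Or.inr h
    · rintro (⟨i, k, ⟨h1, h2, h3 | ⟨_, h3⟩⟩, h4, h5⟩ | h)
      · exact Or.inl ⟨i, k, h1, h2, h3, h4, h5⟩
      · omega
      · exact Or.inr h
  unfold kk
  rw [hE]

end T26

theorem UK_count_free (N : ℕ) (hN : Odd N) (o : ℕ → ℕ → Bool) (M : ℕ) :
    (kk 0 N (2*M) ∅ o : ℤ) = (UK 0 N o M).2 := by
  refine T26.kk_UK (Nat.odd_iff.mp hN) (by omega) ?_ ?_ o M
  · intro c hc
    exact absurd hc (notMem_empty c)
  · intro h
    exact absurd h (by omega)

theorem UK_count_wired (N : ℕ) (hN : Odd N) (o : ℕ → ℕ → Bool) (M : ℕ) :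
    (kk 1 N (2*M) {0, N} o : ℤ) = (UK 1 N o M).2 := by
  refine T26.kk_UK (Nat.odd_iff.mp hN) le_rfl ?_ ?_ o M
  · intro c hc
    rw [mem_insert, mem_singleton] at hc
    exact ⟨rfl, hc⟩
  · intro _
    exact ⟨mem_insert_self _ _, mem_insert_of_mem (mem_singleton_self _)⟩

end Pool.Agent.H980R2.Cross
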