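import Pool.Agent.H980R2.Cross.Defs
import Pool.Agent.H988R2.Perc.T23

/-! T27: averages of the counters.

General fact: for a chain of pairs (state, counter) driven by the bits of a finite set `S` of
coordinates, put `law = 2^{-|S|} ∑_{t ⊆ S} single (state t) 1` and `m = 2^{-|S|} ∑_{t ⊆ S} counter t`.  One more tile
(new coordinate `e ∉ S`, position `p`): the law becomes `tile p law` and
`m` becomes `m - (1/2)(1 - phi p law)` if `p` is odd (the bit `true` acts and the counter
decreases by one unless `p, p+2` are joined), `m + 1/2` if `p` is even (`Finset.sum_powerset_insert`; compare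
`tile_step`, `fwd_step`, `bwd_step`, `law_eq` in `H988R2.Perc.T23`; there the role of the bit is
`actBit`, here `stepT` has it built in).  Insertion: `m + 1`; cap: `m`.  Sum over a double row, `N` odd:
`TK`: `1 + (N-1)/2 - (N+1)/2 + JT/2`; `UK 1`: `(N-1)/2 - (N+1)/2 + JU/2`; `UK 0`: `(N+1)/2 - (N-1)/2 + JU/2`
(each row has `(N-1)/2` even and `(N+1)/2` odd positions among `1..N`, and conversely among `0..N-1`). -/

namespace Pool.Agent.H980R2.Cross

open Pool.Agent.H988R2.Perc Finset

namespace T27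

open Pool.Agent.H988R2.Perc.T23

/-- law of the state -/
noncomputable def LW (S : Finset (ℕ × ℕ)) (s : Finset (ℕ × ℕ) → St × ℤ) : St →₀ ℂ :=
  (1/2 : ℂ)^S.card • ∑ t ∈ S.powerset, Finsupp.single (s t).1 (1:ℂ)

/-- mean of the counter -/
noncomputable def MN (S : Finset (ℕ × ℕ)) (s : Finset (ℕ × ℕ) → St × ℤ) : ℂ :=
  (1/2 : ℂ)^S.card * ∑ t ∈ S.powerset, ((s t).2 : ℂ)

open Classical in
theorem phi_eq (p : ℕ) (f : St →₀ ℂ) : phi p f =
    Finsupp.linearCombination ℂ (fun R : St => if R.rel p (p+2) then (1:ℂ) else 0) f := by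
  unfold phi
  rw [Finsupp.linearCombination_apply]
  apply Finsupp.sum_congr
  intro R _
  simp only [smul_eq_mul, mul_ite, mul_one, mul_zero]

open Classical in
theorem phi_LW (p : ℕ) (S : Finset (ℕ × ℕ)) (s : Finset (ℕ × ℕ) → St × ℤ) :
    phi p (LW S s) = (1/2 : ℂ)^S.card *
      ∑ t ∈ S.powerset, (if (s t).1.rel p (p+2) then (1:ℂ) else 0) := by
  rw [phi_eq, LW, map_smul, map_sum]
  simp only [Finsupp.linearCombination_single, smul_eq_mul, one_mul]

theorem sum_one (S : Finset (ℕ × ℕ)) :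
    (1/2 : ℂ)^S.card * ∑ _t ∈ S.powerset, (1:ℂ) = 1 := by
  rw [Finset.sum_const, Finset.card_powerset, nsmul_eq_mul]
  push_cast
  rw [mul_one, ← mul_pow]
  norm_num

theorem step_LW (S : Finset (ℕ × ℕ)) (k i p : ℕ) (hS : (k, i) ∉ S)
    (s : Finset (ℕ × ℕ) → St × ℤ) (hs : ∀ t, s (insert (k, i) t) = s t) :
    LW (insert (k, i) S) (fun t => stepT p (bits t k i) (s t)) = tile p (LW S s) := by
  unfold LW
  rw [tile_smul, tile_single_sum, Finset.sum_powerset_insert hS, ← Finset.sum_add_distrib,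
    Finset.card_insert_of_notMem hS, pow_succ, smul_smul]
  congr 1
  apply Finset.sum_congr rfl
  intro t ht
  have hnt : (k, i) ∉ t := fun h => hS (Finset.mem_powerset.mp ht h)
  beta_reduce
  rw [hs, bits_not_mem t k i hnt, bits_insert_self t k i]
  unfold stepT
  by_cases h : p % 2 = 1
  · simp only [h, if_true, Bool.false_eq_true, if_false]
  · simp only [h, if_true, Bool.false_eq_true, if_false]
    rw [add_comm]

theorem step_MN (S : Finset (ℕ × ℕ)) (k i p : ℕ) (hS : (k, i) ∉ S)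
    (s : Finset (ℕ × ℕ) → St × ℤ) (hs : ∀ t, s (insert (k, i) t) = s t) :
    MN (insert (k, i) S) (fun t => stepT p (bits t k i) (s t)) =
      MN S s + (if p % 2 = 1 then -(1/2) + (1/2) * phi p (LW S s) else 1/2) := by
  classical
  rw [phi_LW]
  have h1 := sum_one S
  unfold MN
  rw [Finset.sum_powerset_insert hS, ← Finset.sum_add_distrib,
    Finset.card_insert_of_notMem hS, pow_succ]
  by_cases h : p % 2 = 1
  · rw [if_pos h]
    have h2 : ∑ t ∈ S.powerset, (((stepT p (bits t k i) (s t)).2 : ℂ) +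
        ((stepT p (bits (insert (k, i) t) k i) (s (insert (k, i) t))).2 : ℂ)) =
        2 * ∑ t ∈ S.powerset, ((s t).2 : ℂ) - ∑ t ∈ S.powerset, (1:ℂ) +
          ∑ t ∈ S.powerset, (if (s t).1.rel p (p+2) then (1:ℂ) else 0) := by
      rw [Finset.mul_sum, ← Finset.sum_sub_distrib, ← Finset.sum_add_distrib]
      apply Finset.sum_congr rfl
      intro t ht
      have hnt : (k, i) ∉ t := fun h => hS (Finset.mem_powerset.mp ht h)
      rw [hs, bits_not_mem t k i hnt, bits_insert_self t k i]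
      unfold stepT
      simp only [h, if_true, Bool.false_eq_true, if_false]
      by_cases hr : (s t).1.rel p (p+2)
      · simp only [hr, if_true]
        push_cast
        ring
      · simp only [hr, if_false]
        push_cast
        ring
    rw [h2]
    linear_combination (-(1/2) : ℂ) * h1
  · rw [if_neg h]
    have h2 : ∑ t ∈ S.powerset, (((stepT p (bits t k i) (s t)).2 : ℂ) +
        ((stepT p (bits (insert (k, i) t) k i) (s (insert (k, i) t))).2 : ℂ)) =
        2 * ∑ t ∈ S.powerset, ((s t).2 : ℂ) + ∑ t ∈ S.powerset, (1:ℂ) := by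
      rw [Finset.mul_sum, ← Finset.sum_add_distrib]
      apply Finset.sum_congr rfl
      intro t ht
      have hnt : (k, i) ∉ t := fun h => hS (Finset.mem_powerset.mp ht h)
      rw [hs, bits_not_mem t k i hnt, bits_insert_self t k i]
      unfold stepT
      simp only [h, if_true, Bool.false_eq_true, if_false]
      push_cast
      ring
    rw [h2]
    linear_combination (1/2 : ℂ) * h1

theorem fwK_congr (d n : ℕ) (c c' : ℕ → Bool) (s : St × ℤ)
    (h : ∀ i, 1 ≤ i → i ≤ n → c i = c' i) : fwK d n c s = fwK d n c' s := by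
  induction n with
  | zero => rfl
  | succ n ih =>
    simp only [fwK]
    rw [ih (fun i h1 h2 => h i h1 (by omega)), h (n+1) (by omega) le_rfl]

theorem bwK_congr (d n : ℕ) (c c' : ℕ → Bool) (s : St × ℤ)
    (h : ∀ i, 1 ≤ i → i ≤ n → c i = c' i) : bwK d n c s = bwK d n c' s := by
  induction n generalizing s with
  | zero => rfl
  | succ n ih =>
    simp only [bwK]
    rw [h (n+1) (by omega) le_rfl, ih _ (fun i h1 h2 => h i h1 (by omega))]

theorem row_zero (S : Finset (ℕ × ℕ)) (k : ℕ) : S ∪ row k 0 = S := by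
  ext j
  simp only [mem_union, mem_row]
  constructor
  · rintro (h | h)
    · exact h
    · omega
  · exact Or.inl

/-- contribution of the parities -/
noncomputable def cnt (d n : ℕ) : ℂ := ∑ j ∈ range n, (if (j + d) % 2 = 1 then -(1/2) else 1/2)

theorem cnt_odd (N : ℕ) (hN : Odd N) (d : ℕ) (hd : d < 2) : cnt d N = 1/2 - (d : ℂ) := by
  obtain ⟨m, rfl⟩ := hN
  induction m with
  | zero =>
    have h : d = 0 ∨ d = 1 := by omega
    rcases h with rfl | rfl
    · simp [cnt]
    · simp [cnt]; norm_num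
  | succ m ih =>
    have h1 : cnt d (2 * (m + 1) + 1) = cnt d (2 * m + 1) +
        (if (2 * m + 1 + d) % 2 = 1 then -(1/2) else 1/2) +
        (if (2 * m + 2 + d) % 2 = 1 then -(1/2) else 1/2) := by
      unfold cnt
      rw [show 2 * (m + 1) + 1 = 2 * m + 1 + 1 + 1 by ring, Finset.sum_range_succ,
        Finset.sum_range_succ]
    rw [h1, ih]
    have h : d = 0 ∨ d = 1 := by omega
    rcases h with rfl | rfl
    · have e1 : (2 * m + 1 + 0) % 2 = 1 := by omega
      have e2 : ¬ (2 * m + 2 + 0) % 2 = 1 := by omega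
      rw [if_pos e1, if_neg e2]
      ring
    · have e1 : ¬ (2 * m + 1 + 1) % 2 = 1 := by omega
      have e2 : (2 * m + 2 + 1) % 2 = 1 := by omega
      rw [if_neg e1, if_pos e2]
      ring

theorem fw_inv (d n k : ℕ) (s : Finset (ℕ × ℕ) → St × ℤ)
    (hs : ∀ t, s (insert (k, n+1) t) = s t) (t : Finset (ℕ × ℕ)) :
    fwK d n (bits (insert (k, n+1) t) k) (s (insert (k, n+1) t)) = fwK d n (bits t k) (s t) := by
  rw [hs]
  exact fwK_congr d n _ _ _ (fun i _ h2 => bits_insert t k i (n+1) (by omega))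

theorem fw_LW (d n : ℕ) (S : Finset (ℕ × ℕ)) (k : ℕ) (hS : ∀ i, 1 ≤ i → i ≤ n → (k, i) ∉ S)
    (s : Finset (ℕ × ℕ) → St × ℤ) (hs : ∀ i t, 1 ≤ i → i ≤ n → s (insert (k, i) t) = s t) :
    LW (S ∪ row k n) (fun t => fwK d n (bits t k) (s t)) = fwV d n (LW S s) := by
  induction n with
  | zero =>
    rw [row_zero]
    rfl
  | succ n ih =>
    have hn : (k, n+1) ∉ S ∪ row k n := by
      simp only [mem_union, mem_row, not_or]
      exact ⟨hS (n+1) (by omega) le_rfl, by omega⟩
    have h1 := step_LW (S ∪ row k n) k (n+1) (n+d) hn (fun t => fwK d n (bits t k) (s t))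
      (fw_inv d n k s fun t => hs (n+1) t (by omega) le_rfl)
    rw [← row_succ] at h1
    simp only [fwK, fwV]
    rw [h1, ih (fun i h1 h2 => hS i h1 (by omega)) (fun i t h1 h2 => hs i t h1 (by omega))]

theorem fw_MN (d n : ℕ) (S : Finset (ℕ × ℕ)) (k : ℕ) (hS : ∀ i, 1 ≤ i → i ≤ n → (k, i) ∉ S)
    (s : Finset (ℕ × ℕ) → St × ℤ) (hs : ∀ i t, 1 ≤ i → i ≤ n → s (insert (k, i) t) = s t) :
    MN (S ∪ row k n) (fun t => fwK d n (bits t k) (s t)) =
      MN S s + cnt d n + (1/2) * JF d n (LW S s) := by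
  induction n with
  | zero =>
    rw [row_zero]
    simp only [fwK, JF, cnt, Finset.range_zero, Finset.sum_empty, mul_zero, add_zero]
  | succ n ih =>
    have hn : (k, n+1) ∉ S ∪ row k n := by
      simp only [mem_union, mem_row, not_or]
      exact ⟨hS (n+1) (by omega) le_rfl, by omega⟩
    have h1 := step_MN (S ∪ row k n) k (n+1) (n+d) hn (fun t => fwK d n (bits t k) (s t))
      (fw_inv d n k s fun t => hs (n+1) t (by omega) le_rfl)
    rw [← row_succ] at h1
    simp only [fwK, JF]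
    rw [h1, ih (fun i h1 h2 => hS i h1 (by omega)) (fun i t h1 h2 => hs i t h1 (by omega)),
      fw_LW d n S k (fun i h1 h2 => hS i h1 (by omega)) s (fun i t h1 h2 => hs i t h1 (by omega))]
    have h2 : cnt d (n+1) = cnt d n + (if (n + d) % 2 = 1 then -(1/2) else 1/2) := by
      unfold cnt
      rw [Finset.sum_range_succ]
    rw [h2]
    by_cases hp : (n + d) % 2 = 1
    · simp only [hp, if_true]
      ring
    · simp only [hp, if_false]
      ring

theorem bw_inv (d n k : ℕ) (s : Finset (ℕ × ℕ) → St × ℤ)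
    (hs : ∀ i t, 1 ≤ i → i ≤ n+1 → s (insert (k, i) t) = s t) (i : ℕ) (t : Finset (ℕ × ℕ))
    (h1 : 1 ≤ i) (h2 : i ≤ n) :
    stepT (n+d) (bits (insert (k, i) t) k (n+1)) (s (insert (k, i) t)) =
      stepT (n+d) (bits t k (n+1)) (s t) := by
  rw [hs i t h1 (by omega), bits_insert t k (n+1) i (by omega)]

theorem notMem_insert_row {S : Finset (ℕ × ℕ)} {k n : ℕ}
    (hS : ∀ i, 1 ≤ i → i ≤ n+1 → (k, i) ∉ S) (i : ℕ) (h1 : 1 ≤ i) (h2 : i ≤ n) :
    (k, i) ∉ insert (k, n+1) S := by
  intro h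
  rw [mem_insert] at h
  rcases h with h | h
  · simp only [Prod.mk.injEq] at h; omega
  · exact hS i h1 (by omega) h

theorem bw_LW (d n : ℕ) (S : Finset (ℕ × ℕ)) (k : ℕ) (hS : ∀ i, 1 ≤ i → i ≤ n → (k, i) ∉ S)
    (s : Finset (ℕ × ℕ) → St × ℤ) (hs : ∀ i t, 1 ≤ i → i ≤ n → s (insert (k, i) t) = s t) :
    LW (S ∪ row k n) (fun t => bwK d n (bits t k) (s t)) = bwV d n (LW S s) := by
  induction n generalizing S s with
  | zero =>
    rw [row_zero]
    rfl
  | succ n ih =>
    have h1 := step_LW S k (n+1) (n+d) (hS (n+1) (by omega) le_rfl) s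
      (fun t => hs (n+1) t (by omega) le_rfl)
    have h2 := ih (insert (k, n+1) S) (notMem_insert_row hS)
      (fun t => stepT (n+d) (bits t k (n+1)) (s t)) (bw_inv d n k s hs)
    rw [h1, ← row_succ'] at h2
    exact h2

theorem bw_MN (d n : ℕ) (S : Finset (ℕ × ℕ)) (k : ℕ) (hS : ∀ i, 1 ≤ i → i ≤ n → (k, i) ∉ S)
    (s : Finset (ℕ × ℕ) → St × ℤ) (hs : ∀ i t, 1 ≤ i → i ≤ n → s (insert (k, i) t) = s t) :
    MN (S ∪ row k n) (fun t => bwK d n (bits t k) (s t)) =
      MN S s + cnt d n + (1/2) * JB d n (LW S s) := by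
  induction n generalizing S s with
  | zero =>
    rw [row_zero]
    simp only [bwK, JB, cnt, Finset.range_zero, Finset.sum_empty, mul_zero, add_zero]
  | succ n ih =>
    have h1 := step_LW S k (n+1) (n+d) (hS (n+1) (by omega) le_rfl) s
      (fun t => hs (n+1) t (by omega) le_rfl)
    have h1' := step_MN S k (n+1) (n+d) (hS (n+1) (by omega) le_rfl) s
      (fun t => hs (n+1) t (by omega) le_rfl)
    have h2 := ih (insert (k, n+1) S) (notMem_insert_row hS)
      (fun t => stepT (n+d) (bits t k (n+1)) (s t)) (bw_inv d n k s hs)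
    rw [h1, h1', ← row_succ'] at h2
    simp only [bwK, JB]
    rw [h2]
    have h3 : cnt d (n+1) = cnt d n + (if (n + d) % 2 = 1 then -(1/2) else 1/2) := by
      unfold cnt
      rw [Finset.sum_range_succ]
    rw [h3]
    by_cases hp : (n + d) % 2 = 1
    · simp only [hp, if_true]
      ring
    · simp only [hp, if_false]
      ring

/-- a map of the state -/
theorem map_LW (S : Finset (ℕ × ℕ)) (s : Finset (ℕ × ℕ) → St × ℤ) (g : St → St)
    (s' : Finset (ℕ × ℕ) → St × ℤ) (h : ∀ t, (s' t).1 = g (s t).1) :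
    LW S s' = Finsupp.mapDomain g (LW S s) := by
  unfold LW
  rw [Finsupp.mapDomain_smul, mapDomain_sum_single]
  simp only [h]

theorem fwV_one (L : ℕ) (f : St →₀ ℂ) : fwV 1 L f = fwd L f := by
  induction L with
  | zero => rfl
  | succ L ih => simp only [fwV, fwd]; rw [ih]

theorem bwV_one (L : ℕ) (f : St →₀ ℂ) : bwV 1 L f = bwd L f := by
  induction L generalizing f with
  | zero => rfl
  | succ L ih => simp only [bwV, bwd]; rw [ih]

theorem card_SS (N M : ℕ) : (SS N M).card = 2 * M * N := by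
  rw [SS, Finset.card_product, Finset.card_range, Nat.card_Icc, Nat.add_sub_cancel]

theorem avg_eq (N M : ℕ) (s : (ℕ → ℕ → Bool) → St × ℤ) :
    ((avg N (2*M) (fun o => ((s o).2 : ℝ)) : ℝ) : ℂ) = MN (SS N M) (fun t => s (bits t)) := by
  unfold avg MN
  rw [card_SS]
  push_cast
  rw [one_div, inv_pow, inv_mul_eq_div]
  rfl

theorem TK_congr (N : ℕ) (o o' : ℕ → ℕ → Bool) (M : ℕ)
    (h : ∀ k i, k < 2*M → o k i = o' k i) : TK N o M = TK N o' M := by
  induction M with
  | zero => rfl
  | succ M ih =>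
    simp only [TK]
    rw [ih (fun k i hk => h k i (by omega)),
      fwK_congr 1 N (o (2*M)) (o' (2*M)) _ (fun i _ _ => h _ i (by omega)),
      bwK_congr 1 N (o (2*M+1)) (o' (2*M+1)) _ (fun i _ _ => h _ i (by omega))]

theorem UK_congr (d N : ℕ) (o o' : ℕ → ℕ → Bool) (M : ℕ)
    (h : ∀ k i, k < 2*M → o k i = o' k i) : UK d N o M = UK d N o' M := by
  induction M with
  | zero => rfl
  | succ M ih =>
    simp only [UK]
    rw [ih (fun k i hk => h k i (by omega)),
      fwK_congr d N (o (2*M)) (o' (2*M)) _ (fun i _ _ => h _ i (by omega)),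
      bwK_congr d N (o (2*M+1)) (o' (2*M+1)) _ (fun i _ _ => h _ i (by omega))]

theorem bits_other (t : Finset (ℕ × ℕ)) (k i k' i' : ℕ) (h : k' ≠ k) :
    bits (insert (k, i) t) k' i' = bits t k' i' := by
  simp [bits, h]

/-- a double row -/
theorem double (d N M : ℕ) (s : Finset (ℕ × ℕ) → St × ℤ)
    (hs : ∀ k i t, 2*M ≤ k → s (insert (k, i) t) = s t) :
    LW (SS N (M+1)) (fun t => bwK d N (bits t (2*M+1)) (fwK d N (bits t (2*M)) (s t))) =
      bwV d N (fwV d N (LW (SS N M) s)) ∧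
    MN (SS N (M+1)) (fun t => bwK d N (bits t (2*M+1)) (fwK d N (bits t (2*M)) (s t))) =
      MN (SS N M) s + 2 * cnt d N + (1/2) * JU d N (LW (SS N M) s) := by
  have hA : ∀ i, 1 ≤ i → i ≤ N → (2*M, i) ∉ SS N M := fun i _ _ h => by
    rw [mem_SS] at h
    simp at h
  have hB : ∀ i, 1 ≤ i → i ≤ N → (2*M+1, i) ∉ SS N M ∪ row (2*M) N := fun i _ _ h => by
    rw [mem_union, mem_SS, mem_row] at h
    simp only at h
    omega
  have hsA : ∀ i t, 1 ≤ i → i ≤ N → s (insert (2*M, i) t) = s t := fun i t _ _ =>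
    hs (2*M) i t le_rfl
  have hsB : ∀ i t, 1 ≤ i → i ≤ N →
      fwK d N (bits (insert (2*M+1, i) t) (2*M)) (s (insert (2*M+1, i) t)) =
        fwK d N (bits t (2*M)) (s t) := by
    intro i t _ _
    rw [hs (2*M+1) i t (by omega)]
    exact fwK_congr d N _ _ _ (fun i' _ _ => bits_other t (2*M+1) i (2*M) i' (by omega))
  have f1 := fw_LW d N (SS N M) (2*M) hA s hsA
  have f2 := fw_MN d N (SS N M) (2*M) hA s hsA
  have b1 := bw_LW d N (SS N M ∪ row (2*M) N) (2*M+1) hB
    (fun t => fwK d N (bits t (2*M)) (s t)) hsB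
  have b2 := bw_MN d N (SS N M ∪ row (2*M) N) (2*M+1) hB
    (fun t => fwK d N (bits t (2*M)) (s t)) hsB
  rw [f1, ← SS_succ] at b1
  rw [f1, f2, ← SS_succ] at b2
  refine ⟨b1, ?_⟩
  rw [b2]
  unfold JU
  ring

theorem LW_zero (N : ℕ) (s : Finset (ℕ × ℕ) → St × ℤ) :
    LW (SS N 0) s = Finsupp.single (s ∅).1 1 := by
  have : SS N 0 = ∅ := by simp [SS]
  rw [this]
  unfold LW
  simp

theorem MN_zero (N : ℕ) (s : Finset (ℕ × ℕ) → St × ℤ) : MN (SS N 0) s = ((s ∅).2 : ℂ) := by
  have : SS N 0 = ∅ := by simp [SS]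
  rw [this]
  unfold MN
  simp

theorem TK_main (N : ℕ) (hN : Odd N) (M : ℕ) :
    LW (SS N M) (fun t => TK N (bits t) M) = law N M ∧
    MN (SS N M) (fun t => TK N (bits t) M) =
      (((N+1)/2 : ℕ) : ℂ) + (1/2) * ∑ m ∈ range M, JT N (law N m) := by
  induction M with
  | zero =>
    rw [LW_zero, MN_zero]
    refine ⟨rfl, ?_⟩
    simp only [TK, Finset.range_zero, Finset.sum_empty, mul_zero, add_zero, Int.cast_natCast]
  | succ M ih =>
    obtain ⟨ih1, ih2⟩ := ih
    -- after the insertion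
    have hinv : ∀ k i t, 2*M ≤ k →
        ((St.ins 0 (TK N (bits (insert (k, i) t)) M).1, (TK N (bits (insert (k, i) t)) M).2 + 1) :
          St × ℤ) = (St.ins 0 (TK N (bits t) M).1, (TK N (bits t) M).2 + 1) := by
      intro k i t hk
      rw [TK_congr N (bits (insert (k, i) t)) (bits t) M
        (fun k' i' hk' => bits_other t k i k' i' (by omega))]
    have h1 : LW (SS N M) (fun t => ((St.ins 0 (TK N (bits t) M).1, (TK N (bits t) M).2 + 1) :
        St × ℤ)) = ins0 (law N M) := by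
      rw [map_LW (SS N M) (fun t => TK N (bits t) M) (St.ins 0) _ (fun t => rfl), ih1]
      rfl
    have h2 : MN (SS N M) (fun t => ((St.ins 0 (TK N (bits t) M).1, (TK N (bits t) M).2 + 1) :
        St × ℤ)) = MN (SS N M) (fun t => TK N (bits t) M) + 1 := by
      have h3 := sum_one (SS N M)
      unfold MN
      push_cast
      rw [Finset.sum_add_distrib, mul_add, h3]
    obtain ⟨d1, d2⟩ := double 1 N M
      (fun t => ((St.ins 0 (TK N (bits t) M).1, (TK N (bits t) M).2 + 1) : St × ℤ)) hinv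
    rw [h1] at d1
    rw [h1, h2, ih2, cnt_odd N hN 1 (by norm_num)] at d2
    constructor
    · have h4 : LW (SS N (M+1)) (fun t => TK N (bits t) (M+1)) = Finsupp.mapDomain (St.cap 0)
          (LW (SS N (M+1)) (fun t => bwK 1 N (bits t (2*M+1)) (fwK 1 N (bits t (2*M))
            (St.ins 0 (TK N (bits t) M).1, (TK N (bits t) M).2 + 1)))) :=
        map_LW _ _ (St.cap 0) _ (fun t => rfl)
      rw [h4, d1, bwV_one, fwV_one]
      have h5 : law N (M+1) = Tvec N (law N M) := by
        unfold law; rw [Function.iterate_succ_apply']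
      rw [h5]
      rfl
    · have h4 : MN (SS N (M+1)) (fun t => TK N (bits t) (M+1)) =
          MN (SS N (M+1)) (fun t => bwK 1 N (bits t (2*M+1)) (fwK 1 N (bits t (2*M))
            (St.ins 0 (TK N (bits t) M).1, (TK N (bits t) M).2 + 1))) := rfl
      rw [h4, d2, Finset.sum_range_succ]
      unfold JU JT
      push_cast
      ring

theorem UK_main (N : ℕ) (hN : Odd N) (d : ℕ) (hd : d < 2) (M : ℕ) :
    LW (SS N M) (fun t => UK d N (bits t) M) = (UV d N)^[M] (Finsupp.single (st0 d N) 1) ∧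
    MN (SS N M) (fun t => UK d N (bits t) M) =
      (((N+1)/2 : ℕ) : ℂ) + (1 - 2 * (d : ℂ)) * M +
        (1/2) * ∑ m ∈ range M, JU d N ((UV d N)^[m] (Finsupp.single (st0 d N) 1)) := by
  induction M with
  | zero =>
    rw [LW_zero, MN_zero]
    refine ⟨rfl, ?_⟩
    simp only [UK, Finset.range_zero, Finset.sum_empty, mul_zero, add_zero, Int.cast_natCast,
      Nat.cast_zero]
  | succ M ih =>
    obtain ⟨ih1, ih2⟩ := ih
    have hinv : ∀ k i t, 2*M ≤ k → UK d N (bits (insert (k, i) t)) M = UK d N (bits t) M := by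
      intro k i t hk
      exact UK_congr d N (bits (insert (k, i) t)) (bits t) M
        (fun k' i' hk' => bits_other t k i k' i' (by omega))
    obtain ⟨d1, d2⟩ := double d N M (fun t => UK d N (bits t) M) hinv
    rw [ih1] at d1
    rw [ih1, ih2, cnt_odd N hN d hd] at d2
    constructor
    · rw [Function.iterate_succ_apply']
      exact d1
    · have h4 : MN (SS N (M+1)) (fun t => UK d N (bits t) (M+1)) =
          MN (SS N (M+1)) (fun t => bwK d N (bits t (2*M+1)) (fwK d N (bits t (2*M))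
            (UK d N (bits t) M))) := rfl
      rw [h4, d2, Finset.sum_range_succ]
      push_cast
      ring

end T27

open T27

theorem avg_TK (N : ℕ) (hN : Odd N) (M : ℕ) :
    avg N (2*M) (fun o => ((TK N o M).2 : ℝ)) =
      (((N+1)/2 : ℕ) : ℝ) + (1/2) * ∑ m ∈ range M, (JT N (law N m)).re := by
  have h1 := avg_eq N M (fun o => TK N o M)
  rw [(TK_main N hN M).2] at h1
  have h2 := congrArg Complex.re h1
  rw [Complex.ofReal_re] at h2
  rw [h2]
  simp only [Complex.add_re, Complex.mul_re, Complex.re_sum, Complex.natCast_re]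
  norm_num

theorem avg_UK (N : ℕ) (hN : Odd N) (d : ℕ) (hd : d < 2) (M : ℕ) :
    avg N (2*M) (fun o => ((UK d N o M).2 : ℝ)) =
      (((N+1)/2 : ℕ) : ℝ) + (1 - 2 * (d : ℝ)) * M +
        (1/2) * ∑ m ∈ range M, (JU d N ((UV d N)^[m] (Finsupp.single (st0 d N) 1))).re := by
  have h1 := avg_eq N M (fun o => UK d N o M)
  rw [(UK_main N hN d hd M).2] at h1
  have h2 := congrArg Complex.re h1
  rw [Complex.ofReal_re] at h2
  rw [h2]
  simp only [Complex.add_re, Complex.mul_re, Complex.re_sum, Complex.natCast_re]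
  norm_num

end Pool.Agent.H980R2.Cross
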