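import Pool.Agent.H980R2.Cross.T23

/-! T28: symmetries.

`avg_refl_*` (`N` odd): the reflection `x ↦ N - x` maps the lattice `lam = 1` to `lam = 0`, tile `(i,k)` to
`(N+1-i, k)`; it is a bijection of the bits; `kk 1 N K W o = kk 0 N K (N - W) o'`, `o' k i = o k (N+1-i)`.
`avg_time` (`K` odd): the reflection `k ↦ K - k` of the time maps `lam = 0` to `lam = 1`, tile `(i,k)` to
`(i, K-1-k)`.
`kk_top`: adding the row `K` adds at most `N+1` vertices and at most `N` edges (`ncl_add_edge`,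
`ncl_add_vertex`, `ncl_add_old`, or directly).
`avg_drop`: a function of the first `K` rows has the same average over `K+1` rows.
`avg_shift`: `kk 0 N (2M) ~ kk 0 N (2M+1)` (average) `= kk 1 N (2M+1) ~ kk 1 N (2M)`. -/

namespace Pool.Agent.H980R2.Cross

open Pool.Agent.H988R2.Perc Finset

theorem avg_mono (N K : ℕ) (F G : (ℕ → ℕ → Bool) → ℝ) (h : ∀ o, F o ≤ G o) :
    avg N K F ≤ avg N K G := by
  unfold avg
  apply div_le_div_of_nonneg_right _ (by positivity)
  exact Finset.sum_le_sum fun t _ => h _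

theorem avg_add (N K : ℕ) (F G : (ℕ → ℕ → Bool) → ℝ) :
    avg N K (fun o => F o + G o) = avg N K F + avg N K G := by
  unfold avg
  rw [Finset.sum_add_distrib, add_div]

theorem avg_const (N K : ℕ) (c : ℝ) : avg N K (fun _ => c) = c := by
  unfold avg
  rw [Finset.sum_const, Finset.card_powerset, Finset.card_product, Finset.card_range,
    Nat.card_Icc, nsmul_eq_mul]
  simp

/-- bits of the box -/
def T28_dep (N K : ℕ) (F : (ℕ → ℕ → Bool) → ℝ) : Prop :=
  ∀ o o' : ℕ → ℕ → Bool, (∀ k i, k < K → 1 ≤ i → i ≤ N → o k i = o' k i) → F o = F o'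

theorem T28_bij (N K : ℕ) (σ : ℕ × ℕ → ℕ × ℕ)
    (hσ : ∀ p ∈ (range K) ×ˢ (Icc 1 N), σ p ∈ (range K) ×ˢ (Icc 1 N))
    (hinv : ∀ p ∈ (range K) ×ˢ (Icc 1 N), σ (σ p) = p) (F : (ℕ → ℕ → Bool) → ℝ)
    (hF : T28_dep N K F) :
    avg N K (fun o => F (fun k i => o (σ (k, i)).1 (σ (k, i)).2)) = avg N K F := by
  classical
  unfold avg
  congr 1
  have key : ∀ t ∈ ((range K) ×ˢ (Icc 1 N)).powerset, (t.image σ).image σ = t := by
    intro t ht
    rw [Finset.mem_powerset] at ht
    rw [Finset.image_image]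
    ext p
    simp only [Finset.mem_image, Function.comp]
    constructor
    · rintro ⟨a, ha, rfl⟩
      rw [hinv a (ht ha)]; exact ha
    · intro hp
      exact ⟨p, hp, hinv p (ht hp)⟩
  have hmem : ∀ t ∈ ((range K) ×ˢ (Icc 1 N)).powerset,
      t.image σ ∈ ((range K) ×ˢ (Icc 1 N)).powerset := by
    intro t ht
    rw [Finset.mem_powerset] at ht ⊢
    intro p hp
    obtain ⟨a, ha, rfl⟩ := Finset.mem_image.1 hp
    exact hσ a (ht ha)
  refine Finset.sum_bij' (fun t _ => t.image σ) (fun t _ => t.image σ) hmem hmem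
    (fun t ht => key t ht) (fun t ht => key t ht) ?_
  intro t ht
  apply hF
  intro k i hk hi1 hi2
  have hbox : ((k, i) : ℕ × ℕ) ∈ (range K) ×ˢ (Icc 1 N) := by
    simp [hk, hi1, hi2]
  rw [Finset.mem_powerset] at ht
  have h9 : (σ (k, i) ∈ t) ↔ ((k, i) ∈ t.image σ) := by
    rw [Finset.mem_image]
    constructor
    · intro h
      exact ⟨_, h, hinv _ hbox⟩
    · rintro ⟨a, ha, h⟩
      have : σ (k, i) = a := by rw [← h, hinv a (ht ha)]
      rw [this]; exact ha
  exact decide_eq_decide.2 h9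

theorem T28_class {α : Type*} (E : α → α → Prop) (a b : α) :
    ({c | Relation.EqvGen E a c} = {c | Relation.EqvGen E b c}) ↔ Relation.EqvGen E a b := by
  constructor
  · intro h
    have : b ∈ {c | Relation.EqvGen E a c} := by
      rw [h]; exact Relation.EqvGen.refl b
    exact this
  · intro h
    ext c
    exact ⟨fun hc => (h.symm).trans _ _ _ hc, fun hc => h.trans _ _ _ hc⟩

theorem T28_iso {α β : Type*} (E : α → α → Prop) (E' : β → β → Prop) (S : Finset α)
    (S' : Finset β) (f : α → β) (hf : ∀ a ∈ S, f a ∈ S') (hs : ∀ b ∈ S', ∃ a ∈ S, f a = b)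
    (h : ∀ a ∈ S, ∀ b ∈ S, Relation.EqvGen E a b ↔ Relation.EqvGen E' (f a) (f b)) :
    ncl E S = ncl E' S' := by
  classical
  unfold ncl
  have h1 : S'.image (fun a => {b | Relation.EqvGen E' a b}) =
      S.image (fun a => {b | Relation.EqvGen E' (f a) b}) := by
    ext s
    simp only [Finset.mem_image]
    constructor
    · rintro ⟨b, hb, rfl⟩
      obtain ⟨a, ha, rfl⟩ := hs b hb
      exact ⟨a, ha, rfl⟩
    · rintro ⟨a, ha, rfl⟩
      exact ⟨f a, hf a ha, rfl⟩
  rw [h1]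
  apply Finset.card_bij (fun s _ => if hs : ∃ a ∈ S, {b | Relation.EqvGen E a b} = s then
    {b | Relation.EqvGen E' (f hs.choose) b} else ∅)
  · intro s hs
    obtain ⟨a, ha, h2⟩ := Finset.mem_image.1 hs
    have h3 : ∃ a ∈ S, {b | Relation.EqvGen E a b} = s := ⟨a, ha, h2⟩
    rw [dif_pos h3]
    exact Finset.mem_image.2 ⟨h3.choose, h3.choose_spec.1, rfl⟩
  · intro s hs s' hs' he
    obtain ⟨a, ha, h2⟩ := Finset.mem_image.1 hs
    obtain ⟨a', ha', h2'⟩ := Finset.mem_image.1 hs'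
    have h3 : ∃ a ∈ S, {b | Relation.EqvGen E a b} = s := ⟨a, ha, h2⟩
    have h3' : ∃ a ∈ S, {b | Relation.EqvGen E a b} = s' := ⟨a', ha', h2'⟩
    rw [dif_pos h3, dif_pos h3', T28_class] at he
    have h4 := (h _ h3.choose_spec.1 _ h3'.choose_spec.1).2 he
    rw [← T28_class, h3.choose_spec.2, h3'.choose_spec.2] at h4
    exact h4
  · intro s hs
    obtain ⟨a, ha, rfl⟩ := Finset.mem_image.1 hs
    refine ⟨{b | Relation.EqvGen E a b}, Finset.mem_image.2 ⟨a, ha, rfl⟩, ?_⟩
    have h3 : ∃ a' ∈ S, {b | Relation.EqvGen E a' b} = {b | Relation.EqvGen E a b} := ⟨a, ha, rfl⟩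
    rw [dif_pos h3, T28_class]
    rw [← h _ h3.choose_spec.1 _ ha, ← T28_class]
    exact h3.choose_spec.2

theorem T28_transport {α β : Type*} (E : α → α → Prop) (E' : β → β → Prop) (f : α → β)
    (h : ∀ a b, E a b → Relation.EqvGen E' (f a) (f b)) (a b : α) (hab : Relation.EqvGen E a b) :
    Relation.EqvGen E' (f a) (f b) := by
  induction hab with
  | rel x y hxy => exact h x y hxy
  | refl x => exact Relation.EqvGen.refl _
  | symm x y _ ih => exact ih.symm
  | trans x y z _ _ ih1 ih2 => exact ih1.trans _ _ _ ih2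

theorem T28_TE_dep {lam N K : ℕ} {o o' : ℕ → ℕ → Bool}
    (h : ∀ k i, k < K → 1 ≤ i → i ≤ N → o k i = o' k i) (a b : ℕ × ℕ) :
    TE lam N K o a b ↔ TE lam N K o' a b := by
  unfold TE
  constructor
  · rintro ⟨i, k, h1, h2, h3, h4, h5⟩
    exact ⟨i, k, h1, h2, h3, by rw [← h k i h3 h1 h2]; exact h4, h5⟩
  · rintro ⟨i, k, h1, h2, h3, h4, h5⟩
    exact ⟨i, k, h1, h2, h3, by rw [h k i h3 h1 h2]; exact h4, h5⟩

theorem T28_kk_dep (lam N K K' : ℕ) (hK : K ≤ K') (W : Finset ℕ) :
    T28_dep N K' (fun o => (kk lam N K W o : ℝ)) := by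
  intro o o' h
  have : TE lam N K o = TE lam N K o' := by
    funext a b
    exact propext (T28_TE_dep (fun k i h1 h2 h3 => h k i (by omega) h2 h3) a b)
  simp only [kk, this]

theorem T28_refl (N K : ℕ) (hN : Odd N) (W W' : Finset ℕ) (hW : ∀ c ∈ W, N - c ∈ W' )
    (hW' : ∀ c ∈ W', N - c ∈ W) (o : ℕ → ℕ → Bool) :
    kk 1 N K W (fun k i => o k (N + 1 - i)) = kk 0 N K W' o := by
  obtain ⟨n, rfl⟩ := hN
  have h1 : ∀ a b : ℕ × ℕ, (TE 1 (2*n+1) K (fun k i => o k (2*n+1 + 1 - i)) a b ∨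
      (a.1 ∈ W ∧ b.1 ∈ W)) → Relation.EqvGen (fun a b => TE 0 (2*n+1) K o a b ∨
        (a.1 ∈ W' ∧ b.1 ∈ W')) (2*n+1 - a.1, a.2) (2*n+1 - b.1, b.2) := by
    rintro a b (⟨i, k, hi1, hi2, hk, ho, h | h⟩ | h)
    · obtain ⟨hp, rfl, rfl⟩ := h
      apply Relation.EqvGen.rel
      refine Or.inl ⟨2*n+1 + 1 - i, k, by omega, by omega, hk, ho, Or.inr ⟨by omega, ?_, ?_⟩⟩
      · exact Prod.ext (by simp only; omega) rfl
      · exact Prod.ext (by simp only; omega) rfl
    · obtain ⟨hp, rfl, rfl⟩ := h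
      apply Relation.EqvGen.rel
      refine Or.inl ⟨2*n+1 + 1 - i, k, by omega, by omega, hk, ho, Or.inl ⟨by omega, ?_, ?_⟩⟩
      · exact Prod.ext (by simp only; omega) rfl
      · exact Prod.ext (by simp only; omega) rfl
    · exact Relation.EqvGen.rel _ _ (Or.inr ⟨hW _ h.1, hW _ h.2⟩)
  have h2 : ∀ a b : ℕ × ℕ, (TE 0 (2*n+1) K o a b ∨
      (a.1 ∈ W' ∧ b.1 ∈ W')) → Relation.EqvGen (fun a b =>
        TE 1 (2*n+1) K (fun k i => o k (2*n+1 + 1 - i)) a b ∨
        (a.1 ∈ W ∧ b.1 ∈ W)) (2*n+1 - a.1, a.2) (2*n+1 - b.1, b.2) := by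
    rintro a b (⟨i, k, hi1, hi2, hk, ho, h | h⟩ | h)
    · obtain ⟨hp, rfl, rfl⟩ := h
      apply Relation.EqvGen.rel
      refine Or.inl ⟨2*n+1 + 1 - i, k, by omega, by omega, hk, ?_, Or.inr ⟨by omega, ?_, ?_⟩⟩
      · have : 2*n+1 + 1 - (2*n+1 + 1 - i) = i := by omega
        simp only [this]; exact ho
      · exact Prod.ext (by simp only; omega) rfl
      · exact Prod.ext (by simp only; omega) rfl
    · obtain ⟨hp, rfl, rfl⟩ := h
      apply Relation.EqvGen.rel
      refine Or.inl ⟨2*n+1 + 1 - i, k, by omega, by omega, hk, ?_, Or.inl ⟨by omega, ?_, ?_⟩⟩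
      · have : 2*n+1 + 1 - (2*n+1 + 1 - i) = i := by omega
        simp only [this]; exact ho
      · exact Prod.ext (by simp only; omega) rfl
      · exact Prod.ext (by simp only; omega) rfl
    · exact Relation.EqvGen.rel _ _ (Or.inr ⟨hW' _ h.1, hW' _ h.2⟩)
  unfold kk
  apply T28_iso _ _ _ _ (fun a : ℕ × ℕ => (2*n+1 - a.1, a.2))
  · rintro ⟨c, t⟩ h
    simp only [VV, mem_filter, mem_product, mem_range] at h ⊢
    omega
  · rintro ⟨c, t⟩ h
    simp only [VV, mem_filter, mem_product, mem_range] at h ⊢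
    exact ⟨(2*n+1 - c, t), by simp only; omega, Prod.ext (by simp only; omega) rfl⟩
  · rintro ⟨a, s⟩ ha ⟨b, t⟩ hb
    simp only [VV, mem_filter, mem_product, mem_range] at ha hb
    constructor
    · intro h
      exact T28_transport _ _ (fun a : ℕ × ℕ => (2*n+1 - a.1, a.2)) h1 _ _ h
    · intro h
      have h3 := T28_transport _ _ (fun a : ℕ × ℕ => (2*n+1 - a.1, a.2)) h2 _ _ h
      simp only at h3
      have e1 : 2*n+1 - (2*n+1 - a) = a := by omega
      have e2 : 2*n+1 - (2*n+1 - b) = b := by omega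
      rw [e1, e2] at h3
      exact h3

theorem T28_avg_refl (N K : ℕ) (hN : Odd N) (W W' : Finset ℕ) (hW : ∀ c ∈ W, N - c ∈ W' )
    (hW' : ∀ c ∈ W', N - c ∈ W) :
    avg N K (fun o => (kk 1 N K W o : ℝ)) = avg N K (fun o => (kk 0 N K W' o : ℝ)) := by
  rw [← T28_bij N K (fun p => (p.1, N + 1 - p.2)) _ _ (fun o => (kk 1 N K W o : ℝ))
    (T28_kk_dep 1 N K K le_rfl W)]
  · congr 1
    funext o
    rw [T28_refl N K hN W W' hW hW' o]
  · intro p hp
    simp only [mem_product, mem_range, mem_Icc] at hp ⊢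
    omega
  · intro p hp
    simp only [mem_product, mem_range, mem_Icc] at hp
    exact Prod.ext rfl (by simp only; omega)

theorem avg_refl_free (N K : ℕ) (hN : Odd N) :
    avg N K (fun o => (kk 1 N K ∅ o : ℝ)) = avg N K (fun o => (kk 0 N K ∅ o : ℝ)) :=
  T28_avg_refl N K hN ∅ ∅ (by simp) (by simp)

theorem avg_refl_wired (N K : ℕ) (hN : Odd N) :
    avg N K (fun o => (kk 1 N K {0} o : ℝ)) = avg N K (fun o => (kk 0 N K {N} o : ℝ)) :=
  T28_avg_refl N K hN {0} {N} (by simp) (by simp)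

theorem T28_time (N K : ℕ) (hK : Odd K) (W : Finset ℕ) (o : ℕ → ℕ → Bool) :
    kk 0 N K W (fun k i => o (K - 1 - k) i) = kk 1 N K W o := by
  obtain ⟨n, rfl⟩ := hK
  have h1 : ∀ a b : ℕ × ℕ, (TE 0 N (2*n+1) (fun k i => o (2*n+1 - 1 - k) i) a b ∨
      (a.1 ∈ W ∧ b.1 ∈ W)) → Relation.EqvGen (fun a b => TE 1 N (2*n+1) o a b ∨
        (a.1 ∈ W ∧ b.1 ∈ W)) (a.1, 2*n+1 - a.2) (b.1, 2*n+1 - b.2) := by
    rintro a b (⟨i, k, hi1, hi2, hk, ho, h | h⟩ | h)
    · obtain ⟨hp, rfl, rfl⟩ := h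
      apply Relation.EqvGen.symm
      apply Relation.EqvGen.rel
      refine Or.inl ⟨i, 2*n+1 - 1 - k, by omega, by omega, by omega, ho, Or.inr ⟨by omega, ?_, ?_⟩⟩
      · exact Prod.ext rfl (by simp only; omega)
      · exact Prod.ext rfl (by simp only; omega)
    · obtain ⟨hp, rfl, rfl⟩ := h
      apply Relation.EqvGen.symm
      apply Relation.EqvGen.rel
      refine Or.inl ⟨i, 2*n+1 - 1 - k, by omega, by omega, by omega, ho, Or.inl ⟨by omega, ?_, ?_⟩⟩
      · exact Prod.ext rfl (by simp only; omega)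
      · exact Prod.ext rfl (by simp only; omega)
    · exact Relation.EqvGen.rel _ _ (Or.inr h)
  have h2 : ∀ a b : ℕ × ℕ, (TE 1 N (2*n+1) o a b ∨
      (a.1 ∈ W ∧ b.1 ∈ W)) → Relation.EqvGen (fun a b =>
        TE 0 N (2*n+1) (fun k i => o (2*n+1 - 1 - k) i) a b ∨
        (a.1 ∈ W ∧ b.1 ∈ W)) (a.1, 2*n+1 - a.2) (b.1, 2*n+1 - b.2) := by
    rintro a b (⟨i, k, hi1, hi2, hk, ho, h | h⟩ | h)
    · obtain ⟨hp, rfl, rfl⟩ := h
      apply Relation.EqvGen.symm
      apply Relation.EqvGen.rel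
      refine Or.inl ⟨i, 2*n+1 - 1 - k, by omega, by omega, by omega, ?_, Or.inr ⟨by omega, ?_, ?_⟩⟩
      · have : 2*n+1 - 1 - (2*n+1 - 1 - k) = k := by omega
        simp only [this]; exact ho
      · exact Prod.ext rfl (by simp only; omega)
      · exact Prod.ext rfl (by simp only; omega)
    · obtain ⟨hp, rfl, rfl⟩ := h
      apply Relation.EqvGen.symm
      apply Relation.EqvGen.rel
      refine Or.inl ⟨i, 2*n+1 - 1 - k, by omega, by omega, by omega, ?_, Or.inl ⟨by omega, ?_, ?_⟩⟩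
      · have : 2*n+1 - 1 - (2*n+1 - 1 - k) = k := by omega
        simp only [this]; exact ho
      · exact Prod.ext rfl (by simp only; omega)
      · exact Prod.ext rfl (by simp only; omega)
    · exact Relation.EqvGen.rel _ _ (Or.inr h)
  unfold kk
  apply T28_iso _ _ _ _ (fun a : ℕ × ℕ => (a.1, 2*n+1 - a.2))
  · rintro ⟨c, t⟩ h
    simp only [VV, mem_filter, mem_product, mem_range] at h ⊢
    omega
  · rintro ⟨c, t⟩ h
    simp only [VV, mem_filter, mem_product, mem_range] at h ⊢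
    exact ⟨(c, 2*n+1 - t), by simp only; omega, Prod.ext rfl (by simp only; omega)⟩
  · rintro ⟨a, s⟩ ha ⟨b, t⟩ hb
    simp only [VV, mem_filter, mem_product, mem_range] at ha hb
    constructor
    · intro h
      exact T28_transport _ _ (fun a : ℕ × ℕ => (a.1, 2*n+1 - a.2)) h1 _ _ h
    · intro h
      have h3 := T28_transport _ _ (fun a : ℕ × ℕ => (a.1, 2*n+1 - a.2)) h2 _ _ h
      simp only at h3
      have e1 : 2*n+1 - (2*n+1 - s) = s := by omega
      have e2 : 2*n+1 - (2*n+1 - t) = t := by omega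
      rw [e1, e2] at h3
      exact h3

theorem avg_time (N K : ℕ) (hK : Odd K) (W : Finset ℕ) :
    avg N K (fun o => (kk 0 N K W o : ℝ)) = avg N K (fun o => (kk 1 N K W o : ℝ)) := by
  rw [← T28_bij N K (fun p => (K - 1 - p.1, p.2)) _ _ (fun o => (kk 0 N K W o : ℝ))
    (T28_kk_dep 0 N K K le_rfl W)]
  · congr 1
    funext o
    rw [T28_time N K hK W o]
  · intro p hp
    simp only [mem_product, mem_range, mem_Icc] at hp ⊢
    omega
  · intro p hp
    simp only [mem_product, mem_range, mem_Icc] at hp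
    exact Prod.ext (by simp only; omega) rfl

theorem T28_ncl_sub {α : Type*} (E : α → α → Prop) (S S' : Finset α) (h : S ⊆ S') :
    ncl E S ≤ ncl E S' := by
  classical
  exact Finset.card_le_card (Finset.image_subset_image h)

open Classical in
theorem T28_ncl_sup {α : Type*} (E : α → α → Prop) (S S' T : Finset α) (h : S' ⊆ S ∪ T) :
    ncl E S' ≤ ncl E S + T.card := by
  unfold ncl
  refine (Finset.card_le_card (Finset.image_subset_image h)).trans ?_
  rw [Finset.image_union]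
  exact (Finset.card_union_le _ _).trans (Nat.add_le_add_left Finset.card_image_le _)

/-- relation with the edges of the row `K` at the positions at most `j` -/
def T28_E (lam N K : ℕ) (W : Finset ℕ) (o : ℕ → ℕ → Bool) (j : ℕ) (a b : ℕ × ℕ) : Prop :=
  (TE lam N K o a b ∨ (a.1 ∈ W ∧ b.1 ∈ W)) ∨ ∃ i, 1 ≤ i ∧ i ≤ j ∧ o K i = true ∧
    (((i + K) % 2 = lam ∧ a = (i, K) ∧ b = (i-1, K+1)) ∨
     ((i + K) % 2 ≠ lam ∧ a = (i-1, K) ∧ b = (i, K+1)))

theorem T28_E_step (lam N K : ℕ) (hlam : lam < 2) (W : Finset ℕ) (o : ℕ → ℕ → Bool) (j : ℕ)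
    (hj : j < N) :
    (ncl (T28_E lam N K W o (j+1)) (VV lam N (K+1)) : ℤ) ≤
      ncl (T28_E lam N K W o j) (VV lam N (K+1)) ∧
    (ncl (T28_E lam N K W o j) (VV lam N (K+1)) : ℤ) ≤
      ncl (T28_E lam N K W o (j+1)) (VV lam N (K+1)) + 1 := by
  classical
  by_cases hp : (j + 1 + K) % 2 = lam
  · have e : T28_E lam N K W o (j+1) = fun a b => T28_E lam N K W o j a b ∨
        (o K (j+1) = true ∧ a = (j+1, K) ∧ b = (j, K+1)) := by
      funext a b
      apply propext
      unfold T28_E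
      constructor
      · rintro (h | ⟨i, h1, h2, h3, h4⟩)
        · exact Or.inl (Or.inl h)
        · by_cases hi : i = j + 1
          · subst hi
            rcases h4 with h4 | h4
            · exact Or.inr ⟨h3, h4.2.1, by simpa using h4.2.2⟩
            · exact absurd hp h4.1
          · exact Or.inl (Or.inr ⟨i, h1, by omega, h3, h4⟩)
      · rintro ((h | ⟨i, h1, h2, h3, h4⟩) | ⟨h1, h2, h3⟩)
        · exact Or.inl h
        · exact Or.inr ⟨i, h1, by omega, h3, h4⟩
        · exact Or.inr ⟨j+1, by omega, le_rfl, h1, Or.inl ⟨hp, h2, by simpa using h3⟩⟩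
    have h5 := ncl_add_edge (T28_E lam N K W o j) (VV lam N (K+1)) (o K (j+1) = true)
      (j+1, K) (j, K+1) (by
        simp only [VV, mem_filter, mem_product, mem_range]; omega) (by
        simp only [VV, mem_filter, mem_product, mem_range]; omega)
    rw [e, h5]
    split_ifs <;> constructor <;> omega
  · have e : T28_E lam N K W o (j+1) = fun a b => T28_E lam N K W o j a b ∨
        (o K (j+1) = true ∧ a = (j, K) ∧ b = (j+1, K+1)) := by
      funext a b
      apply propext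
      unfold T28_E
      constructor
      · rintro (h | ⟨i, h1, h2, h3, h4⟩)
        · exact Or.inl (Or.inl h)
        · by_cases hi : i = j + 1
          · subst hi
            rcases h4 with h4 | h4
            · exact absurd h4.1 hp
            · exact Or.inr ⟨h3, by simpa using h4.2.1, h4.2.2⟩
          · exact Or.inl (Or.inr ⟨i, h1, by omega, h3, h4⟩)
      · rintro ((h | ⟨i, h1, h2, h3, h4⟩) | ⟨h1, h2, h3⟩)
        · exact Or.inl h
        · exact Or.inr ⟨i, h1, by omega, h3, h4⟩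
        · exact Or.inr ⟨j+1, by omega, le_rfl, h1, Or.inr ⟨hp, by simpa using h2, h3⟩⟩
    have h5 := ncl_add_edge (T28_E lam N K W o j) (VV lam N (K+1)) (o K (j+1) = true)
      (j, K) (j+1, K+1) (by
        simp only [VV, mem_filter, mem_product, mem_range]; omega) (by
        simp only [VV, mem_filter, mem_product, mem_range]; omega)
    rw [e, h5]
    split_ifs <;> constructor <;> omega

theorem T28_E_zero (lam N K : ℕ) (W : Finset ℕ) (o : ℕ → ℕ → Bool) :
    T28_E lam N K W o 0 = fun a b => (TE lam N K o a b ∨ (a.1 ∈ W ∧ b.1 ∈ W)) := by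
  funext a b
  apply propext
  unfold T28_E
  constructor
  · rintro (h | ⟨i, h1, h2, _⟩)
    · exact h
    · omega
  · exact Or.inl

theorem T28_E_last (lam N K : ℕ) (W : Finset ℕ) (o : ℕ → ℕ → Bool) :
    T28_E lam N K W o N = fun a b => (TE lam N (K+1) o a b ∨ (a.1 ∈ W ∧ b.1 ∈ W)) := by
  funext a b
  apply propext
  unfold T28_E TE
  constructor
  · rintro ((⟨i, k, h1, h2, h3, h4⟩ | h) | ⟨i, h1, h2, h3, h4⟩)
    · exact Or.inl ⟨i, k, h1, h2, by omega, h4⟩
    · exact Or.inr h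
    · exact Or.inl ⟨i, K, h1, h2, by omega, h3, h4⟩
  · rintro (⟨i, k, h1, h2, h3, h4, h5⟩ | h)
    · by_cases hk : k = K
      · subst hk
        exact Or.inr ⟨i, h1, h2, h4, h5⟩
      · exact Or.inl (Or.inl ⟨i, k, h1, h2, by omega, h4, h5⟩)
    · exact Or.inl (Or.inr h)

theorem kk_top (lam N K : ℕ) (hlam : lam < 2) (W : Finset ℕ) (o : ℕ → ℕ → Bool) :
    |(kk lam N (K+1) W o : ℝ) - kk lam N K W o| ≤ N + 1 := by
  have h1 : ∀ j, j ≤ N → (ncl (T28_E lam N K W o j) (VV lam N (K+1)) : ℤ) ≤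
      ncl (T28_E lam N K W o 0) (VV lam N (K+1)) ∧
    (ncl (T28_E lam N K W o 0) (VV lam N (K+1)) : ℤ) ≤
      ncl (T28_E lam N K W o j) (VV lam N (K+1)) + j := by
    intro j
    induction j with
    | zero => intro _; simp
    | succ j ih =>
        intro hj
        have h2 := ih (by omega)
        have h3 := T28_E_step lam N K hlam W o j (by omega)
        push_cast
        constructor <;> omega
  have h2 := h1 N le_rfl
  have h3 : ncl (T28_E lam N K W o 0) (VV lam N K) ≤
      ncl (T28_E lam N K W o 0) (VV lam N (K+1)) := by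
    apply T28_ncl_sub
    rintro ⟨a, b⟩ h
    simp only [VV, mem_filter, mem_product, mem_range] at h ⊢
    omega
  have h4 : ncl (T28_E lam N K W o 0) (VV lam N (K+1)) ≤
      ncl (T28_E lam N K W o 0) (VV lam N K) + (N + 1) := by
    have := T28_ncl_sup (T28_E lam N K W o 0) (VV lam N K) (VV lam N (K+1))
      ((range (N+1)).image fun c => (c, K+1)) (by
        rintro ⟨a, b⟩ h
        simp only [VV, mem_filter, mem_product, mem_range, mem_union, mem_image] at h ⊢
        by_cases hb : b = K + 1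
        · right
          exact ⟨a, h.1.1, by rw [hb]⟩
        · left
          omega)
    refine this.trans (Nat.add_le_add_left ?_ _)
    exact Finset.card_image_le.trans (by simp)
  have e1 : kk lam N (K+1) W o = ncl (T28_E lam N K W o N) (VV lam N (K+1)) := by
    rw [T28_E_last]; rfl
  have e2 : kk lam N K W o = ncl (T28_E lam N K W o 0) (VV lam N K) := by
    rw [T28_E_zero]; rfl
  rw [e1, e2, abs_le]
  have h5 : -((N : ℤ) + 1) ≤ (ncl (T28_E lam N K W o N) (VV lam N (K+1)) : ℤ) -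
      ncl (T28_E lam N K W o 0) (VV lam N K) := by omega
  have h6 : (ncl (T28_E lam N K W o N) (VV lam N (K+1)) : ℤ) -
      ncl (T28_E lam N K W o 0) (VV lam N K) ≤ (N : ℤ) + 1 := by omega
  exact ⟨by exact_mod_cast h5, by exact_mod_cast h6⟩

theorem T28_powerset {α : Type*} [DecidableEq α] (A B : Finset α) (hAB : Disjoint A B)
    (G : Finset α → ℝ) (hG : ∀ b ∈ B, ∀ t, G (insert b t) = G t) :
    ∑ t ∈ (A ∪ B).powerset, G t = 2 ^ B.card * ∑ t ∈ A.powerset, G t := by
  induction B using Finset.induction_on with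
  | empty => simp
  | insert b B hb ih =>
      rw [Finset.disjoint_insert_right] at hAB
      rw [Finset.union_insert, Finset.sum_powerset_insert (by
        simp only [Finset.mem_union, not_or]; exact ⟨hAB.1, hb⟩)]
      have h1 : ∑ t ∈ (A ∪ B).powerset, G (insert b t) = ∑ t ∈ (A ∪ B).powerset, G t :=
        Finset.sum_congr rfl fun t _ => hG b (Finset.mem_insert_self _ _) t
      rw [h1, ih hAB.2 (fun c hc => hG c (Finset.mem_insert_of_mem hc)),
        Finset.card_insert_of_notMem hb, pow_succ]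
      ring

theorem T28_avg_drop (N K : ℕ) (F : (ℕ → ℕ → Bool) → ℝ) (hF : T28_dep N K F) :
    avg N (K+1) F = avg N K F := by
  classical
  unfold avg
  have h1 : (range (K+1)) ×ˢ (Icc 1 N) = (range K) ×ˢ (Icc 1 N) ∪ {K} ×ˢ (Icc 1 N) := by
    rw [Finset.range_add_one, Finset.insert_eq, Finset.union_comm, Finset.union_product]
  have h2 : Disjoint ((range K) ×ˢ (Icc 1 N)) (({K} : Finset ℕ) ×ˢ (Icc 1 N)) := by
    rw [Finset.disjoint_left]
    rintro ⟨a, b⟩ h h'
    simp only [mem_product, mem_range, mem_singleton] at h h'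
    omega
  rw [h1, T28_powerset _ _ h2]
  · rw [Finset.card_product, Finset.card_singleton, Nat.card_Icc]
    have e : (K + 1) * N = K * N + 1 * (N + 1 - 1) := by
      rw [Nat.add_sub_cancel]; ring
    rw [e, pow_add]
    have h3 : (2 : ℝ) ^ (1 * (N + 1 - 1)) ≠ 0 := by positivity
    field_simp
  · rintro ⟨a, b⟩ hb t
    apply hF
    intro k i hk _ _
    simp only [mem_product, mem_singleton] at hb
    congr 1
    rw [eq_iff_iff, Finset.mem_insert]
    constructor
    · rintro (h | h)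
      · simp only [Prod.mk.injEq] at h
        omega
      · exact h
    · exact Or.inr

theorem T28_avg_close (N K : ℕ) (F G : (ℕ → ℕ → Bool) → ℝ) (c : ℝ) (h : ∀ o, |F o - G o| ≤ c) :
    |avg N K F - avg N K G| ≤ c := by
  have h1 : avg N K F ≤ avg N K G + c := by
    rw [← avg_const N K c, ← avg_add]
    apply avg_mono
    intro o
    have := (abs_le.1 (h o)).2
    linarith
  have h2 : avg N K G ≤ avg N K F + c := by
    rw [← avg_const N K c, ← avg_add]
    apply avg_mono
    intro o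
    have := (abs_le.1 (h o)).1
    linarith
  rw [abs_le]
  constructor <;> linarith

theorem avg_shift (N M : ℕ) (W : Finset ℕ) :
    |avg N (2*M) (fun o => (kk 0 N (2*M) W o : ℝ)) - avg N (2*M) (fun o => (kk 1 N (2*M) W o : ℝ))|
      ≤ 2 * (N + 1) := by
  rw [← T28_avg_drop N (2*M) _ (T28_kk_dep 0 N (2*M) (2*M) le_rfl W),
    ← T28_avg_drop N (2*M) _ (T28_kk_dep 1 N (2*M) (2*M) le_rfl W)]
  have h1 := T28_avg_close N (2*M+1) (fun o => (kk 0 N (2*M+1) W o : ℝ))
    (fun o => (kk 0 N (2*M) W o : ℝ)) (N + 1) (fun o => kk_top 0 N (2*M) (by norm_num) W o)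
  have h2 := T28_avg_close N (2*M+1) (fun o => (kk 1 N (2*M+1) W o : ℝ))
    (fun o => (kk 1 N (2*M) W o : ℝ)) (N + 1) (fun o => kk_top 1 N (2*M) (by norm_num) W o)
  have h3 := avg_time N (2*M+1) (by exact ⟨M, rfl⟩) W
  rw [abs_le] at h1 h2 ⊢
  constructor <;> linarith [h1.1, h1.2, h2.1, h2.2]

end Pool.Agent.H980R2.Cross
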