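import Pool.Agent.H980R2.Cross.T14
import Pool.Agent.H980R2.Cross.T15
import Pool.Agent.H980R2.Cross.T21
import Pool.Agent.H980R2.Cross.T22
import Pool.Agent.H980R2.Cross.T24
import Pool.Agent.H980R2.Cross.T25
import Pool.Agent.H980R2.Cross.T26
import Pool.Agent.H980R2.Cross.T27
import Pool.Agent.H980R2.Cross.T28

/-! T29: the limit in the strip.

`CC 1 N (2M) = 1 + kk ∅ + kk {0,N} - kk {0} - kk {N}` (T24, `M ≥ 1`).  Averages: `kk 1 ∅ = kk 0 ∅`
(`avg_refl_free`), `kk 1 {0} = kk 0 {N}` (`avg_refl_wired`) `= kk 1 {N} + O(1)` (`avg_shift`).  By T25-T27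
`avg (CC)/M = O(1/M) + (1/2)(1/M)∑(JU 0 + JU 1).re - (1/M)∑ (JT).re` (the terms `±M` cancel), and Cesàro
(`Filter.Tendsto.cesaro`) with T21, T22 gives the limit
`N + LD(-q)(1^N) - (N+1) - LD(-q)(-q²::1^N++[0]) = RR N - 6N - 2 - 1 - (3(3N+1)(3N+2)/RR N - 6N - 3)`
`= rho N` (T14, T15). -/

namespace Pool.Agent.H980R2.Cross

open Pool.Agent.H988R2.Perc Finset Filter Topology

theorem T29_avg_eq (N : ℕ) (hN : Odd N) (M : ℕ) (hM : 1 ≤ M) :
    avg N (2*M) (fun o => (CC 1 N (2*M) o : ℝ)) =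
      (1 - (avg N (2*M) (fun o => (kk 0 N (2*M) {N} o : ℝ)) -
        avg N (2*M) (fun o => (kk 1 N (2*M) {N} o : ℝ)))) +
      (1/2) * ∑ m ∈ range M, ((JU 0 N ((UV 0 N)^[m] (Finsupp.single (st0 0 N) 1))) +
        (JU 1 N ((UV 1 N)^[m] (Finsupp.single (st0 1 N) 1)))).re -
      ∑ m ∈ range M, (JT N (law N m)).re := by
  have hN1 : 1 ≤ N := hN.pos
  -- the identity
  have h1 : avg N (2*M) (fun o => (CC 1 N (2*M) o : ℝ)) +
      avg N (2*M) (fun o => (kk 1 N (2*M) {0} o : ℝ)) +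
      avg N (2*M) (fun o => (kk 1 N (2*M) {N} o : ℝ)) =
      avg N (2*M) (fun o => (kk 1 N (2*M) ∅ o : ℝ)) +
      avg N (2*M) (fun o => (kk 1 N (2*M) {0, N} o : ℝ)) + 1 := by
    rw [← avg_add, ← avg_add, ← avg_add]
    have h2 : avg N (2*M) (fun o => (kk 1 N (2*M) ∅ o : ℝ) + (kk 1 N (2*M) {0, N} o : ℝ)) + 1 =
        avg N (2*M) (fun o => ((kk 1 N (2*M) ∅ o : ℝ) + (kk 1 N (2*M) {0, N} o : ℝ)) + 1) := by
      rw [avg_add N (2*M) (fun o => (kk 1 N (2*M) ∅ o : ℝ) + (kk 1 N (2*M) {0, N} o : ℝ))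
        (fun _ => 1), avg_const]
    rw [h2]
    congr 1
    funext o
    have := crossing_identity 1 N (2*M) (by norm_num) hN1 (by omega) o
    exact_mod_cast this
  have hfree : avg N (2*M) (fun o => (kk 1 N (2*M) ∅ o : ℝ)) =
      (((N+1)/2 : ℕ) : ℝ) + M +
        (1/2) * ∑ m ∈ range M, (JU 0 N ((UV 0 N)^[m] (Finsupp.single (st0 0 N) 1))).re := by
    rw [avg_refl_free N (2*M) hN]
    have := avg_UK N hN 0 (by norm_num) M
    rw [Nat.cast_zero, mul_zero, sub_zero, one_mul] at this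
    rw [← this]
    congr 1
    funext o
    have h3 := UK_count_free N hN o M
    rw [← h3]
    simp
  have hwired : avg N (2*M) (fun o => (kk 1 N (2*M) {0, N} o : ℝ)) =
      (((N+1)/2 : ℕ) : ℝ) - M +
        (1/2) * ∑ m ∈ range M, (JU 1 N ((UV 1 N)^[m] (Finsupp.single (st0 1 N) 1))).re := by
    have := avg_UK N hN 1 (by norm_num) M
    have e : (((N+1)/2 : ℕ) : ℝ) + (1 - 2 * ((1 : ℕ) : ℝ)) * M =
      (((N+1)/2 : ℕ) : ℝ) - M := by push_cast; ring
    rw [e] at this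
    rw [← this]
    congr 1
    funext o
    have h3 := UK_count_wired N hN o M
    rw [← h3]
    simp
  have hT : avg N (2*M) (fun o => (kk 1 N (2*M) {N} o : ℝ)) =
      (((N+1)/2 : ℕ) : ℝ) + (1/2) * ∑ m ∈ range M, (JT N (law N m)).re := by
    rw [← avg_TK N hN M]
    congr 1
    funext o
    have h3 := TK_count N hN o M
    rw [← h3]
    simp
  have hr := avg_refl_wired N (2*M) hN
  have hsum : ∑ m ∈ range M, ((JU 0 N ((UV 0 N)^[m] (Finsupp.single (st0 0 N) 1))) +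
        (JU 1 N ((UV 1 N)^[m] (Finsupp.single (st0 1 N) 1)))).re =
      ∑ m ∈ range M, (JU 0 N ((UV 0 N)^[m] (Finsupp.single (st0 0 N) 1))).re +
      ∑ m ∈ range M, (JU 1 N ((UV 1 N)^[m] (Finsupp.single (st0 1 N) 1))).re := by
    rw [← Finset.sum_add_distrib]
    exact Finset.sum_congr rfl fun m _ => Complex.add_re _ _
  rw [hsum]
  linarith

theorem strip_limit (N : ℕ) (hN : Odd N) :
    Tendsto (fun M : ℕ => avg N (2*M) (fun o => (CC 1 N (2*M) o : ℝ)) / M) atTop (𝓝 (rho N)) := by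
  have hJT := (Complex.continuous_re.tendsto _).comp (JT_law_tendsto N hN)
  have hJU := (Complex.continuous_re.tendsto _).comp (JU_tendsto N hN)
  have c1 := hJU.cesaro
  have c2 := hJT.cesaro
  -- the bounded part
  have c0 : Tendsto (fun M : ℕ => (1 - (avg N (2*M) (fun o => (kk 0 N (2*M) {N} o : ℝ)) -
        avg N (2*M) (fun o => (kk 1 N (2*M) {N} o : ℝ)))) / (M : ℝ)) atTop (𝓝 0) := by
    have hb : Tendsto (fun M : ℕ => (1 + 2 * ((N : ℝ) + 1)) / (M : ℝ)) atTop (𝓝 0) :=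
      tendsto_const_div_atTop_nhds_zero_nat _
    refine squeeze_zero_norm (fun M => ?_) hb
    rw [Real.norm_eq_abs, abs_div, abs_of_nonneg (Nat.cast_nonneg M : (0 : ℝ) ≤ M)]
    refine div_le_div_of_nonneg_right ?_ (Nat.cast_nonneg M)
    refine (abs_sub _ _).trans ?_
    rw [abs_one]
    have := avg_shift N M {N}
    linarith
  have hlim := (c0.add (c1.const_mul (1/2))).sub c2
  have hval : (0 + 1 / 2 * (2 * (N : ℂ) + 2 * LD (-q) (List.replicate N 1)).re -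
      ((N : ℂ) + 1 + LD (-q) ((-q^2) :: (List.replicate N 1 ++ [0]))).re) = rho N := by
    rw [(LD_Z N hN).2, (LD_T N hN).2]
    have e1 : (2 * (N : ℂ) + 2 * ((RR N - 6 * N - 2 : ℝ) : ℂ)) =
        ((2 * N + 2 * (RR N - 6 * N - 2) : ℝ) : ℂ) := by push_cast; ring
    have e2 : ((N : ℂ) + 1 + ((3 * (3 * N + 1) * (3 * N + 2) / RR N - 6 * N - 3 : ℝ) : ℂ)) =
        ((N + 1 + (3 * (3 * N + 1) * (3 * N + 2) / RR N - 6 * N - 3) : ℝ) : ℂ) := by
      push_cast; ring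
    rw [e1, e2, Complex.ofReal_re, Complex.ofReal_re]
    unfold rho
    ring
  rw [hval] at hlim
  refine hlim.congr' ?_
  filter_upwards [eventually_ge_atTop 1] with M hM
  rw [T29_avg_eq N hN M hM]
  simp only [Function.comp_apply]
  have hM0 : (M : ℝ) ≠ 0 := by
    have : 0 < M := hM
    positivity
  field_simp
  try ring

end Pool.Agent.H980R2.Cross
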