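import Pool.Agent.H980R2.Cross.Final
import Pool.Agent.H980R2.Cross.T24
import Pool.Agent.H988R2.Perc.T22
import Pool.Agent.H988R2.Perc.T23

/-! T30: from `ℤ²` to the strip coordinates.

`(u,v) ↔ (column, time) = (u-v, u+v-1)`, i.e. `T22.toZ p = ((x+y+1)/2, (y+1-x)/2)` (`H988R2.Perc.T22`).
The tile `(i,k)` is the edge `edgeOf i k` (`H988R2.Perc.Defs`): it joins the same two vertices as in `TE 1`.
So with `o k i = ω (edgeOf i k)` the clusters of the box correspond to the classes of `TE 1 N K o` in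
`VV 1 N K`, and `(crossingClusters N K ω).ncard = CC 1 N K o`.
The expectation: the edges `edgeOf i k` (`k < K`, `1 ≤ i ≤ N`) are distinct (`T23.edgeOf_inj`), so the law
of their bits under `perc` is uniform (compare `perc_cell` in T23), hence the integral is `avg`. -/

namespace Pool.Agent.H980R2.Cross

open Pool.Agent.H988R2.Perc MeasureTheory

namespace T30

/-- from (column, time) in `ℕ²` to `ℤ²` -/
def f (p : ℕ × ℕ) : ℤ × ℤ := (((p.1 : ℤ) + p.2 + 1) / 2, ((p.2 : ℤ) + 1 - p.1) / 2)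

/-- back -/
def g (x : ℤ × ℤ) : ℕ × ℕ := ((x.1 - x.2).toNat, (x.1 + x.2 - 1).toNat)

theorem mem_VV {N K : ℕ} {p : ℕ × ℕ} :
    p ∈ VV 1 N K ↔ p.1 ≤ N ∧ p.2 ≤ K ∧ (p.1 + p.2) % 2 = 1 := by
  unfold VV
  simp only [Finset.mem_filter, Finset.mem_product, Finset.mem_range]
  omega

theorem mem_Box {N K : ℕ} {p : ℤ × ℤ} :
    p ∈ Box N K ↔ 0 ≤ p.1 - p.2 ∧ p.1 - p.2 ≤ N ∧ 1 ≤ p.1 + p.2 ∧ p.1 + p.2 ≤ K + 1 := Iff.rfl

theorem f_mem {N K : ℕ} {p : ℕ × ℕ} (h : p ∈ VV 1 N K) : f p ∈ Box N K := by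
  rw [mem_VV] at h
  rw [mem_Box]
  unfold f
  dsimp only
  omega

theorem f_diff {N K : ℕ} {p : ℕ × ℕ} (h : p ∈ VV 1 N K) : (f p).1 - (f p).2 = p.1 := by
  rw [mem_VV] at h
  unfold f
  dsimp only
  omega

theorem g_mem {N K : ℕ} {x : ℤ × ℤ} (h : x ∈ Box N K) : g x ∈ VV 1 N K := by
  rw [mem_Box] at h
  rw [mem_VV]
  unfold g
  dsimp only
  omega

theorem gf {N K : ℕ} {p : ℕ × ℕ} (h : p ∈ VV 1 N K) : g (f p) = p := by
  rw [mem_VV] at h
  unfold g f
  apply Prod.ext <;> dsimp only <;> omega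

theorem fg {N K : ℕ} {x : ℤ × ℤ} (h : x ∈ Box N K) : f (g x) = x := by
  rw [mem_Box] at h
  unfold g f
  apply Prod.ext <;> dsimp only <;> omega

theorem te_adj {N K : ℕ} {ω : Conf} {a b : ℕ × ℕ}
    (h : TE 1 N K (fun k i => ω (edgeOf i k)) a b) : OpenAdj ω (f a) (f b) := by
  obtain ⟨i, k, h1, h2, h3, h4, ⟨h5, rfl, rfl⟩ | ⟨h5, rfl, rfl⟩⟩ := h
  · right; right; left
    simp only at h4
    unfold edgeOf at h4
    rw [if_pos (by omega)] at h4
    unfold f
    constructor
    · apply Prod.ext <;> dsimp only <;> omega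
    · exact h4
  · left
    simp only at h4
    unfold edgeOf at h4
    rw [if_neg (by omega)] at h4
    unfold f
    have e1 : (((i - 1 : ℕ) : ℤ) + k + 1) / 2 = ((i : ℤ) + k) / 2 := by omega
    have e2 : ((k : ℤ) + 1 - ((i - 1 : ℕ) : ℤ)) / 2 = ((k : ℤ) + 2 - i) / 2 := by omega
    constructor
    · apply Prod.ext <;> dsimp only <;> omega
    · dsimp only
      rw [e1, e2]; exact h4

theorem adj_h {N K : ℕ} {ω : Conf} {u v : ℤ} (h : ω (u, v, false) = true)
    (h0 : (u, v) ∈ Box N K) (h1 : (u + 1, v) ∈ Box N K) :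
    TE 1 N K (fun k i => ω (edgeOf i k)) (g (u, v)) (g (u + 1, v)) := by
  rw [mem_Box] at h0 h1
  dsimp only at h0 h1
  refine ⟨(u - v + 1).toNat, (u + v - 1).toNat, by omega, by omega, by omega, ?_,
    Or.inr ⟨by omega, ?_, ?_⟩⟩
  · dsimp only
    unfold edgeOf
    rw [if_neg (by omega)]
    have e1 : (((u - v + 1).toNat : ℤ) + ((u + v - 1).toNat : ℤ)) / 2 = u := by omega
    have e2 : (((u + v - 1).toNat : ℤ) + 2 - ((u - v + 1).toNat : ℤ)) / 2 = v := by omega
    rw [e1, e2]; exact h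
  · unfold g
    apply Prod.ext <;> dsimp only; omega
  · unfold g
    apply Prod.ext <;> dsimp only <;> omega

theorem adj_v {N K : ℕ} {ω : Conf} {u v : ℤ} (h : ω (u, v, true) = true)
    (h0 : (u, v) ∈ Box N K) (h1 : (u, v + 1) ∈ Box N K) :
    TE 1 N K (fun k i => ω (edgeOf i k)) (g (u, v)) (g (u, v + 1)) := by
  rw [mem_Box] at h0 h1
  dsimp only at h0 h1
  refine ⟨(u - v).toNat, (u + v - 1).toNat, by omega, by omega, by omega, ?_,
    Or.inl ⟨by omega, ?_, ?_⟩⟩
  · dsimp only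
    unfold edgeOf
    rw [if_pos (by omega)]
    have e1 : (((u - v).toNat : ℤ) + ((u + v - 1).toNat : ℤ) + 1) / 2 = u := by omega
    have e2 : (((u + v - 1).toNat : ℤ) + 1 - ((u - v).toNat : ℤ)) / 2 = v := by omega
    rw [e1, e2]; exact h
  · rfl
  · unfold g
    apply Prod.ext <;> dsimp only <;> omega

theorem adj_te {N K : ℕ} {ω : Conf} {x y : ℤ × ℤ} (h : OpenAdj ω x y)
    (hx : x ∈ Box N K) (hy : y ∈ Box N K) :
    Relation.EqvGen (TE 1 N K (fun k i => ω (edgeOf i k))) (g x) (g y) := by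
  obtain ⟨x1, x2⟩ := x
  obtain ⟨y1, y2⟩ := y
  rcases h with ⟨e, h⟩ | ⟨e, h⟩ | ⟨e, h⟩ | ⟨e, h⟩
  · simp only [Prod.mk.injEq] at e
    obtain ⟨rfl, rfl⟩ := e
    exact Relation.EqvGen.rel _ _ (adj_h h hx hy)
  · simp only [Prod.mk.injEq] at e
    obtain ⟨rfl, rfl⟩ := e
    exact Relation.EqvGen.symm _ _ (Relation.EqvGen.rel _ _ (adj_h h hy hx))
  · simp only [Prod.mk.injEq] at e
    obtain ⟨rfl, rfl⟩ := e
    exact Relation.EqvGen.rel _ _ (adj_v h hx hy)
  · simp only [Prod.mk.injEq] at e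
    obtain ⟨rfl, rfl⟩ := e
    exact Relation.EqvGen.symm _ _ (Relation.EqvGen.rel _ _ (adj_v h hy hx))

theorem eqv_mem {N K : ℕ} {o : ℕ → ℕ → Bool} {a b : ℕ × ℕ}
    (h : Relation.EqvGen (TE 1 N K o) a b) : a ∈ VV 1 N K ↔ b ∈ VV 1 N K := by
  refine T22.eqvGen_iff (fun p => p ∈ VV 1 N K) ?_ h
  intro a b hab
  have := TE_mem (by norm_num) hab
  exact ⟨fun _ => this.2, fun _ => this.1⟩

theorem image_class {N K : ℕ} {ω : Conf} {a : ℕ × ℕ} (ha : a ∈ VV 1 N K) :
    f '' {b | Relation.EqvGen (TE 1 N K (fun k i => ω (edgeOf i k))) a b} =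
      boxCluster N K ω (f a) := by
  ext c
  constructor
  · rintro ⟨b, hb, rfl⟩
    have hsymm : ∀ x y : ℤ × ℤ, Relation.ReflTransGen
        (fun x y => OpenAdj ω x y ∧ x ∈ Box N K ∧ y ∈ Box N K) x y →
        Relation.ReflTransGen (fun x y => OpenAdj ω x y ∧ x ∈ Box N K ∧ y ∈ Box N K) y x := by
      intro x y h
      induction h with
      | refl => exact Relation.ReflTransGen.refl
      | tail _ h ih =>
        exact Relation.ReflTransGen.head ⟨T22.openAdj_symm h.1, h.2.2, h.2.1⟩ ih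
    change Relation.ReflTransGen (fun x y => OpenAdj ω x y ∧ x ∈ Box N K ∧ y ∈ Box N K) (f a) (f b)
    change Relation.EqvGen (TE 1 N K (fun k i => ω (edgeOf i k))) a b at hb
    clear ha
    induction hb with
    | rel a b h1 =>
      have hm := TE_mem (by norm_num) h1
      exact Relation.ReflTransGen.single ⟨te_adj h1, f_mem hm.1, f_mem hm.2⟩
    | refl a => exact Relation.ReflTransGen.refl
    | symm a b _ ih => exact hsymm _ _ ih
    | trans a b c _ _ i1 i2 => exact i1.trans i2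
  · intro hc
    change Relation.ReflTransGen (fun x y => OpenAdj ω x y ∧ x ∈ Box N K ∧ y ∈ Box N K) (f a) c at hc
    have key : c ∈ Box N K ∧
        Relation.EqvGen (TE 1 N K (fun k i => ω (edgeOf i k))) a (g c) := by
      induction hc with
      | refl => exact ⟨f_mem ha, by rw [gf ha]; exact Relation.EqvGen.refl _⟩
      | tail _ h ih => exact ⟨h.2.2, ih.2.trans _ _ _ (adj_te h.1 h.2.1 h.2.2)⟩
    exact ⟨g c, key.2, fg key.1⟩

end T30

open T30

theorem ncard_crossing (N K : ℕ) (ω : Conf) :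
    (crossingClusters N K ω).ncard = CC 1 N K (fun k i => ω (edgeOf i k)) := by
  classical
  set o : ℕ → ℕ → Bool := fun k i => ω (edgeOf i k) with ho
  set S : Finset (Set (ℕ × ℕ)) :=
    ((((VV 1 N K).filter (fun p => p.1 = 0)).image
        (fun a => {b | Relation.EqvGen (TE 1 N K o) a b}))
      ∩ (((VV 1 N K).filter (fun p => p.1 = N)).image
        (fun a => {b | Relation.EqvGen (TE 1 N K o) a b}))) with hS
  have hCC : CC 1 N K o = S.card := by
    unfold CC
    convert rfl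
  have hmem : ∀ C, C ∈ S ↔ (∃ a ∈ VV 1 N K, a.1 = 0 ∧
      {b | Relation.EqvGen (TE 1 N K o) a b} = C) ∧
      (∃ a ∈ VV 1 N K, a.1 = N ∧ {b | Relation.EqvGen (TE 1 N K o) a b} = C) := by
    intro C
    rw [hS, Finset.mem_inter, Finset.mem_image, Finset.mem_image]
    simp only [Finset.mem_filter, and_assoc]
  have hsub : ∀ C, C ∈ S → ∀ b ∈ C, b ∈ VV 1 N K := by
    intro C hC b hb
    obtain ⟨⟨a, ha, _, rfl⟩, _⟩ := (hmem C).1 hC
    exact (eqv_mem hb).1 ha
  have himg : crossingClusters N K ω = (fun C => f '' C) '' (S : Set (Set (ℕ × ℕ))) := by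
    ext D
    constructor
    · rintro ⟨x, hx, hx0, rfl, y, hy, hyN⟩
      have hgx := g_mem hx
      have e := image_class (ω := ω) hgx
      rw [fg hx] at e
      rw [← e] at hy
      obtain ⟨b, hb, rfl⟩ := hy
      refine ⟨{b | Relation.EqvGen (TE 1 N K o) (g x) b}, ?_, e⟩
      rw [Finset.mem_coe, hmem]
      refine ⟨⟨g x, hgx, ?_, rfl⟩, ⟨b, (eqv_mem hb).1 hgx, ?_, ?_⟩⟩
      · unfold g; dsimp only; omega
      · have hbV : b ∈ VV 1 N K := (eqv_mem hb).1 hgx
        rw [f_diff hbV] at hyN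
        exact_mod_cast hyN
      · ext c
        exact ⟨fun h => Relation.EqvGen.trans _ _ _ hb h,
          fun h => Relation.EqvGen.trans _ _ _ (Relation.EqvGen.symm _ _ hb) h⟩
    · rintro ⟨C, hC, rfl⟩
      rw [Finset.mem_coe, hmem] at hC
      obtain ⟨⟨a, ha, ha0, rfl⟩, ⟨b, hb, hbN, e⟩⟩ := hC
      refine ⟨f a, f_mem ha, by rw [f_diff ha, ha0]; rfl, image_class ha, f b, ?_, ?_⟩
      · refine ⟨b, ?_, rfl⟩
        have : b ∈ {c | Relation.EqvGen (TE 1 N K o) b c} := Relation.EqvGen.refl _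
        rw [e] at this
        exact this
      · rw [f_diff hb, hbN]
  rw [himg, hCC, Set.InjOn.ncard_image, Set.ncard_coe_finset]
  intro C hC C' hC' h
  have hinj : ∀ C, C ∈ S → g '' (f '' C) = C := by
    intro C hC
    ext p
    constructor
    · rintro ⟨_, ⟨q, hq, rfl⟩, rfl⟩
      rw [gf (hsub C hC q hq)]
      exact hq
    · intro hp
      exact ⟨f p, ⟨p, hp, rfl⟩, gf (hsub C hC p hp)⟩
  rw [← hinj C hC, ← hinj C' hC']
  exact congrArg (fun s => g '' s) h

/-- a function of the bits of the tiles depends only on the tiles of the box -/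
theorem CC_congr (lam N K : ℕ) (o o' : ℕ → ℕ → Bool)
    (h : ∀ k i, k < K → 1 ≤ i → i ≤ N → o k i = o' k i) : CC lam N K o = CC lam N K o' := by
  have : TE lam N K o = TE lam N K o' := by
    funext a b
    apply propext
    constructor
    · rintro ⟨i, k, h1, h2, h3, h4, h5⟩
      exact ⟨i, k, h1, h2, h3, by rw [← h k i h3 h1 h2]; exact h4, h5⟩
    · rintro ⟨i, k, h1, h2, h3, h4, h5⟩
      exact ⟨i, k, h1, h2, h3, by rw [h k i h3 h1 h2]; exact h4, h5⟩
  unfold CC
  rw [this]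

namespace T30

/-- the coordinates of the box -/
def SB (N K : ℕ) : Finset (ℕ × ℕ) := (Finset.range K) ×ˢ (Finset.Icc 1 N)

theorem mem_SB {N K : ℕ} {j : ℕ × ℕ} : j ∈ SB N K ↔ j.1 < K ∧ 1 ≤ j.2 ∧ j.2 ≤ N := by
  rw [SB, Finset.mem_product, Finset.mem_range, Finset.mem_Icc]

/-- the edge of a coordinate -/
def eB (j : ℕ × ℕ) : Edge := edgeOf j.2 j.1

/-- bits as a set -/
def tB (N K : ℕ) (ω : Conf) : Finset (ℕ × ℕ) := (SB N K).filter (fun j => ω (eB j) = true)

theorem cell_eq {N K : ℕ} {t : Finset (ℕ × ℕ)} (ht : t ⊆ SB N K) :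
    {ω : Conf | tB N K ω = t} =
      ⋂ j : ↥(SB N K), (fun ω : Conf => ω (eB j.1)) ⁻¹' {decide (j.1 ∈ t)} := by
  ext ω
  simp only [Set.mem_ofPred_eq, Set.mem_iInter, Set.mem_preimage, Set.mem_singleton_iff]
  constructor
  · rintro e ⟨j, hj⟩
    rw [← e]
    simp only [tB, Finset.mem_filter, hj, true_and]
    cases ω (eB j) <;> simp
  · intro h
    ext j
    simp only [tB, Finset.mem_filter]
    constructor
    · rintro ⟨hj, ho⟩
      have := h ⟨j, hj⟩
      simp only [ho] at this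
      simpa using this.symm
    · intro hj
      refine ⟨ht hj, ?_⟩
      have := h ⟨j, ht hj⟩
      simp only [hj, decide_true] at this
      exact this

theorem measurableSet_cell {N K : ℕ} {t : Finset (ℕ × ℕ)} (ht : t ⊆ SB N K) :
    MeasurableSet {ω : Conf | tB N K ω = t} := by
  rw [cell_eq ht]
  exact MeasurableSet.iInter (fun j => (measurable_pi_apply (eB j.1)) (measurableSet_singleton _))

theorem perc_cell {N K : ℕ} {t : Finset (ℕ × ℕ)} (ht : t ⊆ SB N K) :
    perc {ω : Conf | tB N K ω = t} = (1/2) ^ (K * N) := by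
  rw [cell_eq ht]
  have hind : ProbabilityTheory.iIndepFun (fun (e : Edge) (ω : Conf) => ω e) perc := by
    unfold perc
    exact ProbabilityTheory.iIndepFun_infinitePi (X := fun _ b => b) (fun _ => measurable_id)
  have hinj : Function.Injective (fun j : ↥(SB N K) => eB j.1) := by
    rintro ⟨⟨k, i⟩, h⟩ ⟨⟨k', i'⟩, h'⟩ hh
    simp only [eB] at hh
    have := T23.edgeOf_inj hh
    simp only [Subtype.mk.injEq, Prod.mk.injEq]
    omega
  have hind2 := hind.precomp hinj
  have h3 := hind2.measure_inter_preimage_eq_mul (Finset.univ : Finset ↥(SB N K))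
    (sets := fun j => {decide (j.1 ∈ t)}) (fun j _ => measurableSet_singleton _)
  simp only [Finset.mem_univ, Set.iInter_true] at h3
  have h4 : ∀ j : ↥(SB N K), perc ((fun ω : Conf => ω (eB j.1)) ⁻¹' {decide (j.1 ∈ t)}) = 1/2 := by
    intro j
    have := (measurePreserving_eval_infinitePi (fun _ : Edge => coin) (eB j.1)).measure_preimage
      (measurableSet_singleton (decide (j.1 ∈ t))).nullMeasurableSet
    unfold perc
    rw [← T23.coin_singleton (decide (j.1 ∈ t)), ← this]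
  rw [h3]
  simp only [h4]
  rw [Finset.prod_const, Finset.card_univ]
  congr 1
  simp only [Fintype.card_coe, SB, Finset.card_product, Finset.card_range, Nat.card_Icc]
  simp only [Nat.add_sub_cancel]

end T30

theorem integral_eq_avg (N K : ℕ) (F : (ℕ → ℕ → Bool) → ℝ)
    (hF : ∀ o o' : ℕ → ℕ → Bool, (∀ k i, k < K → 1 ≤ i → i ≤ N → o k i = o' k i) → F o = F o') :
    ∫ ω, F (fun k i => ω (edgeOf i k)) ∂perc = avg N K F := by
  classical
  set G : Finset (ℕ × ℕ) → ℝ := fun t => F (fun k i => decide ((k, i) ∈ t)) with hG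
  have h1 : ∀ ω : Conf, F (fun k i => ω (edgeOf i k)) =
      ∑ t ∈ (SB N K).powerset, Set.indicator {ω : Conf | tB N K ω = t} (fun _ => G t) ω := by
    intro ω
    have e1 : F (fun k i => ω (edgeOf i k)) = G (tB N K ω) := by
      apply hF
      intro k i hk h1 h2
      have hm : (k, i) ∈ SB N K := by rw [mem_SB]; exact ⟨hk, h1, h2⟩
      simp only [tB, Finset.mem_filter, hm, true_and, eB]
      cases ω (edgeOf i k) <;> simp
    rw [e1, Finset.sum_eq_single (tB N K ω)]
    · rw [Set.indicator_of_mem]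
      rfl
    · intro t _ hne
      rw [Set.indicator_of_notMem]
      intro h
      exact hne h.symm
    · intro h
      exact absurd (Finset.mem_powerset.mpr (Finset.filter_subset _ _)) h
  simp only [h1]
  rw [integral_finsetSum]
  · unfold avg
    rw [Finset.sum_div]
    apply Finset.sum_congr rfl
    intro t ht
    have ht' : t ⊆ SB N K := Finset.mem_powerset.mp ht
    rw [integral_indicator_const _ (measurableSet_cell ht'), measureReal_def, perc_cell ht']
    simp only [hG, smul_eq_mul]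
    rw [ENNReal.toReal_pow]
    simp
    ring
  · intro t ht
    have ht' : t ⊆ SB N K := Finset.mem_powerset.mp ht
    exact (integrable_const _).indicator (measurableSet_cell ht')

theorem expected_crossing (N K : ℕ) :
    ∫ ω, ((crossingClusters N K ω).ncard : ℝ) ∂perc = avg N K (fun o => (CC 1 N K o : ℝ)) := by
  simp only [ncard_crossing]
  exact integral_eq_avg N K (fun o => (CC 1 N K o : ℝ)) (fun o o' h => by
    rw [CC_congr 1 N K o o' h])

end Pool.Agent.H980R2.Cross
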