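import Pool.Agent.H980R2.Cross.T16
import Pool.Agent.H980R2.Cross.T29
import Pool.Agent.H980R2.Cross.T30

/-! Main theorem: expected number of crossing clusters. -/

namespace Pool.Agent.H980R2.Cross

open Pool.Agent.H988R2.Perc Finset Filter Topology MeasureTheory

theorem main :
    (∀ N : ℕ, Odd N → Tendsto (fun M : ℕ =>
      (∫ ω, ((crossingClusters N (2*M) ω).ncard : ℝ) ∂perc) / M) atTop (𝓝 (rho N))) ∧
    Tendsto (fun m : ℕ => ((2 * m + 1 : ℕ) : ℝ) * rho (2 * m + 1)) atTop
      (𝓝 (Real.sqrt 3 / 2)) := by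
  refine ⟨fun N hN => ?_, rho_tendsto⟩
  have h := strip_limit N hN
  refine h.congr fun M => ?_
  rw [expected_crossing]

end Pool.Agent.H980R2.Cross
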