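import Pool.Agent.H980R2.Cross.Defs
import Pool.Agent.H988R2.Perc.T01

/-! T01: small arcs and openings at even positions, under `ins`.
`ins i w = w.take i ++ true :: false :: w.drop i`; everything is elementary (getElem? of appends). -/

namespace Pool.Agent.H980R2.Cross

open Pool.Agent.H988R2.Perc

theorem t01_lt {i j : ℕ} {w : Word} (h : i ≤ w.length) (hj : j < i) : (ins i w)[j]? = w[j]? := by
  unfold ins
  rw [List.getElem?_append_left (by rw [List.length_take]; omega), List.getElem?_take_of_lt hj]

theorem t01_eq {i : ℕ} {w : Word} (h : i ≤ w.length) : (ins i w)[i]? = some true := by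
  unfold ins
  rw [List.getElem?_append_right (by rw [List.length_take]; omega), List.length_take,
    min_eq_left h, Nat.sub_self]
  rfl

theorem t01_succ {i : ℕ} {w : Word} (h : i ≤ w.length) : (ins i w)[i + 1]? = some false := by
  unfold ins
  rw [List.getElem?_append_right (by rw [List.length_take]; omega), List.length_take,
    min_eq_left h, Nat.add_sub_cancel_left]
  rfl

theorem t01_ge {i j : ℕ} {w : Word} (h : i ≤ w.length) : (ins i w)[i + 2 + j]? = w[i + j]? := by
  unfold ins
  rw [List.getElem?_append_right (by rw [List.length_take]; omega), List.length_take,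
    min_eq_left h]
  have : i + 2 + j - i = j + 2 := by omega
  rw [this, List.getElem?_cons_succ, List.getElem?_cons_succ, List.getElem?_drop]

theorem arc_ins_self {i : ℕ} {w : Word} (h : i ≤ w.length) : arc i (ins i w) :=
  ⟨t01_eq h, t01_succ h⟩

theorem not_arc_succ_ins {i : ℕ} {w : Word} (h : i ≤ w.length) : ¬ arc (i+1) (ins i w) := by
  rintro ⟨h1, -⟩
  rw [t01_succ h] at h1
  simp at h1

theorem not_arc_ins_succ {i : ℕ} {w : Word} (h : i + 1 ≤ w.length) : ¬ arc i (ins (i+1) w) := by
  rintro ⟨-, h1⟩
  rw [t01_eq h] at h1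
  simp at h1

theorem arc_ins_right {i j : ℕ} {w : Word} (h : i + 2 ≤ j) (hi : i ≤ w.length) :
    arc j (ins i w) ↔ arc (j-2) w := by
  obtain ⟨m, rfl⟩ := Nat.exists_eq_add_of_le h
  unfold arc
  have e1 : i + 2 + m + 1 = i + 2 + (m + 1) := by ring
  have e2 : i + 2 + m - 2 = i + m := by omega
  have e3 : i + m + 1 = i + (m + 1) := by ring
  rw [e1, e2, e3, t01_ge hi, t01_ge hi]

theorem arc_ins_left {i j : ℕ} {w : Word} (h : j + 2 ≤ i) (hi : i ≤ w.length) :
    arc j (ins i w) ↔ arc j w := by
  unfold arc
  rw [t01_lt hi (by omega), t01_lt hi (by omega)]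

theorem t01_nn (w : Word) :
    nn w = ∑ p ∈ Finset.range w.length, if (p % 2 = 0 ∧ w[p]? = some true) then 1 else 0 := by
  rw [← Finset.card_filter]
  rfl

theorem nn_ins {i : ℕ} {w : Word} (h : i ≤ w.length) :
    nn (ins i w) = nn w + (if i % 2 = 0 then 1 else 0) := by
  rw [t01_nn, t01_nn]
  have hl : (ins i w).length = i + 2 + (w.length - i) := by
    unfold ins
    rw [List.length_append, List.length_take, List.length_cons, List.length_cons,
      List.length_drop]
    omega
  have hl2 : w.length = i + (w.length - i) := by omega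
  rw [hl]
  conv_rhs => rw [hl2]
  rw [Finset.sum_range_add _ (i + 2) (w.length - i), Finset.sum_range_add _ i (w.length - i),
    Finset.sum_range_succ, Finset.sum_range_succ]
  have h1 : ∑ p ∈ Finset.range i, (if (p % 2 = 0 ∧ (ins i w)[p]? = some true) then 1 else 0) =
      ∑ p ∈ Finset.range i, (if (p % 2 = 0 ∧ w[p]? = some true) then 1 else 0) := by
    refine Finset.sum_congr rfl fun p hp => ?_
    rw [t01_lt h (Finset.mem_range.1 hp)]
  have h2 : ∑ p ∈ Finset.range (w.length - i),
      (if ((i + 2 + p) % 2 = 0 ∧ (ins i w)[i + 2 + p]? = some true) then 1 else 0) =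
      ∑ p ∈ Finset.range (w.length - i),
        (if ((i + p) % 2 = 0 ∧ w[i + p]? = some true) then 1 else 0) := by
    refine Finset.sum_congr rfl fun p _ => ?_
    rw [t01_ge h]
    have : (i + 2 + p) % 2 = (i + p) % 2 := by omega
    rw [this]
  rw [h1, h2, t01_eq h, t01_succ h]
  simp only [and_true, reduceCtorEq, and_false, if_false, Option.some.injEq]
  simp
  ring

end Pool.Agent.H980R2.Cross
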