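import Pool.Agent.H980R2.Cross.T05

/-! T06: the closed path sum `Mt x l` is symmetric in `l`.

`Fr_swap`: induction on `m`.
* `m = c :: m'`: the first step of `Fr u x (m ++ ..)` is `ph |u|` at `x, c`; by `A_comm` (prefix `u`,
  pair `x,c`, middle `m'`, pair `y,z`) the difference of the first steps is
  `[A_{|u|+|m|+1}(u,x,c,m',y,z,v) - (y,z exchanged)] - [A_{|u|+|m|+1}(u,c,x,m',y,z,v) - (y,z exchanged)]`
  which telescopes with the induction hypothesis for the prefix `u ++ [c]`.
* `m = []`: the first two steps (x passes y, then z) against (x passes z, then y): `A_braid`; the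
  remaining steps are `Fr (u++[y,z]) x v - Fr (u++[z,y]) x v`, for which one proves by induction on
  `v` (with `A_comm`, pair `y,z` first, then the pair `x,c`) the auxiliary formula
  `Fr (u++y::z::u') x v - Fr (u++z::y::u') x v
    = (A |u| (u++y::z::(u'++x::v)) - A |u| (u++z::y::(u'++x::v)))
      - (A |u| (u++y::z::(u'++v++[x])) - A |u| (u++z::y::(u'++v++[x])))`.
`Mt_swap`: `Fr_swap` with `u = []` for `x` and for `x⁻¹`; the boundary terms cancel by
`lin_inv1` (variable `x` in front) and `lin_invN` (variable `x` at the end). -/

namespace Pool.Agent.H980R2.Cross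

open Pool.Agent.H988R2.Perc Finset

theorem Fr_swap_aux (u : List ℂ) (x y z : ℂ) : ∀ (v u' : List ℂ),
    Odd (u.length + u'.length + v.length) →
    Fr (u ++ y :: z :: u') x v - Fr (u ++ z :: y :: u') x v =
      (A u.length (u ++ y :: z :: (u' ++ x :: v)) - A u.length (u ++ z :: y :: (u' ++ x :: v)))
      - (A u.length (u ++ y :: z :: (u' ++ v ++ [x]))
        - A u.length (u ++ z :: y :: (u' ++ v ++ [x]))) := by
  intro v
  induction v with
  | nil =>
    intro u' _
    simp [Fr]
  | cons c v ih =>
    intro u' h
    have hlen : (u ++ y :: z :: u').length = u.length + 2 + u'.length := by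
      simp; omega
    have hlen' : (u ++ z :: y :: u').length = u.length + 2 + u'.length := by
      simp; omega
    have hE : Even (u.length + u'.length + v.length) := by
      have : u.length + u'.length + (c :: v).length = (u.length + u'.length + v.length) + 1 := by
        simp; omega
      rw [this] at h
      rcases h with ⟨k, hk⟩
      exact ⟨k, by omega⟩
    have hO : Odd (u.length + (u' ++ [c]).length + v.length) := by
      rcases hE with ⟨k, hk⟩
      exact ⟨k, by simp; omega⟩
    have h1 := ih (u' ++ [c]) hO
    have h2 := A_comm u u' v y z x c hE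
    have e1 : (u ++ y :: z :: u') ++ [c] = u ++ y :: z :: (u' ++ [c]) := by simp
    have e2 : (u ++ z :: y :: u') ++ [c] = u ++ z :: y :: (u' ++ [c]) := by simp
    rw [Fr, Fr, hlen, hlen', e1, e2]
    simp only [List.append_assoc, List.cons_append, List.nil_append] at h1 h2 ⊢
    linear_combination h1 - h2

theorem Fr_swap (u m v : List ℂ) (x y z : ℂ) (h : Odd (u.length + m.length + v.length)) :
    Fr u x (m ++ y :: z :: v) - Fr u x (m ++ z :: y :: v) =
      (A (u.length + m.length + 1) (u ++ x :: (m ++ y :: z :: v))
        - A (u.length + m.length + 1) (u ++ x :: (m ++ z :: y :: v)))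
      - (A (u.length + m.length) (u ++ (m ++ y :: z :: v) ++ [x])
        - A (u.length + m.length) (u ++ (m ++ z :: y :: v) ++ [x])) := by
  induction m generalizing u with
  | nil =>
    have hO : Odd (u.length + v.length) := by simpa using h
    have hO' : Odd (u.length + ([] : List ℂ).length + v.length) := by simpa using h
    have h1 := Fr_swap_aux u x y z v [] hO'
    have h2 := A_braid u v x y z hO
    have l1 : ∀ a : ℂ, (u ++ [a]).length = u.length + 1 := by intro a; simp
    simp only [List.nil_append, Fr, l1, List.append_assoc, List.cons_append, List.length_nil,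
      Nat.add_zero] at h1 h2 ⊢
    linear_combination h1 + h2
  | cons c m ih =>
    have hE : Even (u.length + m.length + v.length) := by
      have : u.length + (c :: m).length + v.length = (u.length + m.length + v.length) + 1 := by
        simp; omega
      rw [this] at h
      rcases h with ⟨k, hk⟩
      exact ⟨k, by omega⟩
    have hO : Odd ((u ++ [c]).length + m.length + v.length) := by
      rcases hE with ⟨k, hk⟩
      exact ⟨k, by simp; omega⟩
    have h1 := ih (u ++ [c]) hO
    have h2 := A_comm u m v x c y z hE
    have l1 : (u ++ [c]).length + m.length + 1 = u.length + 2 + m.length := by simp; omega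
    have l2 : (u ++ [c]).length + m.length = u.length + 1 + m.length := by simp
    have l3 : u.length + (c :: m).length + 1 = u.length + 2 + m.length := by simp; omega
    have l4 : u.length + (c :: m).length = u.length + 1 + m.length := by simp; omega
    rw [l1, l2] at h1
    rw [l3, l4]
    simp only [Fr, List.append_assoc, List.cons_append, List.nil_append] at h1 h2 ⊢
    linear_combination h1 + h2

theorem Mt_swap (m v : List ℂ) (x y z : ℂ) (hx : x ≠ 0) (h : Odd (m.length + v.length)) :
    Mt x (m ++ y :: z :: v) = Mt x (m ++ z :: y :: v) := by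
  have hO : Odd (([] : List ℂ).length + m.length + v.length) := by simpa using h
  have h1 := Fr_swap [] m v x y z hO
  have h2 := Fr_swap [] m v x⁻¹ y z hO
  have hl : (m ++ y :: z :: v).length = m.length + v.length + 2 := by simp; omega
  have hl' : (m ++ z :: y :: v).length = m.length + v.length + 2 := by simp; omega
  have ho1 : Odd (m ++ y :: z :: v).length := by
    rw [hl]; rcases h with ⟨k, hk⟩; exact ⟨k+1, by omega⟩
  have ho2 : Odd (m ++ z :: y :: v).length := by
    rw [hl']; rcases h with ⟨k, hk⟩; exact ⟨k+1, by omega⟩
  have a1 := lin_inv1 (fun w => if arc (m.length + 1) w then 1 else 0) x (m ++ y :: z :: v) hx ho1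
  have a2 := lin_inv1 (fun w => if arc (m.length + 1) w then 1 else 0) x (m ++ z :: y :: v) hx ho2
  have a3 := lin_invN (fun w => if arc m.length w then 1 else 0) x (m ++ y :: z :: v) hx ho1
  have a4 := lin_invN (fun w => if arc m.length w then 1 else 0) x (m ++ z :: y :: v) hx ho2
  unfold Mt
  simp only [List.nil_append, List.length_nil, Nat.zero_add] at h1 h2
  rw [hl] at a1 a3 ⊢
  rw [hl'] at a2 a4 ⊢
  unfold A at h1 h2
  linear_combination h1 - x^(m.length + v.length + 2 - 1) * h2 + a1 - a2 - a3 + a4

theorem Mt_perm_aux {l l' : List ℂ} (x : ℂ) (hx : x ≠ 0) (hp : l.Perm l') :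
    ∀ m : List ℂ, Odd (m.length + l.length) → Mt x (m ++ l) = Mt x (m ++ l') := by
  induction hp with
  | nil => intro m _; rfl
  | cons a _ ih =>
    intro m h
    have := ih (m ++ [a]) (by simpa [Nat.add_assoc, Nat.add_comm, Nat.add_left_comm] using h)
    simpa using this
  | swap a b l =>
    intro m h
    refine Mt_swap m l x b a hx ?_
    rcases h with ⟨k, hk⟩
    simp only [List.length_cons] at hk
    exact ⟨k - 1, by omega⟩
  | trans p1 _ ih1 ih2 =>
    intro m h
    rw [ih1 m h]
    exact ih2 m (by rw [← p1.length_eq]; exact h)

theorem Mt_perm {l l' : List ℂ} (x : ℂ) (hx : x ≠ 0) (h : Odd l.length) (hp : l.Perm l') :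
    Mt x l = Mt x l' := by
  simpa using Mt_perm_aux x hx hp [] (by simpa using h)

end Pool.Agent.H980R2.Cross
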