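import Pool.Agent.H980R2.Cross.T06

/-! T07: recursion, inversion and degree of `Mt`.

`Mt_rec`.  `Fr [] x (y::(q²y)::v)`: first two steps
`A_0(x,y,q²y,v) - A_0(y,x,q²y,v) + A_1(y,x,q²y,v) - A_1(y,q²y,x,v)`, where `A_0(x,y,q²y,v) = 0`
(`A_rec_pred`), `A_1(y,q²y,x,v) = 0` (`A_rec_succ`), and the two others follow from `A_exch`. -/

namespace Pool.Agent.H980R2.Cross

open Pool.Agent.H988R2.Perc Finset

namespace T07

theorem Fr_eq_sum_gen (x : ℂ) (l : List ℂ) : ∀ u : List ℂ, Fr u x l =
    ∑ i ∈ range l.length, (A (u.length + i) (u ++ (l.take i ++ x :: l.drop i))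
      - A (u.length + i) (u ++ (l.take (i+1) ++ x :: l.drop (i+1)))) := by
  induction l with
  | nil => intro u; simp [Fr]
  | cons y v ih =>
    intro u
    rw [Fr, ih (u ++ [y]), List.length_cons, Finset.sum_range_succ']
    rw [add_comm]
    congr 1
    · apply Finset.sum_congr rfl
      intro i _
      have e1 : (u ++ [y]).length + i = u.length + (i + 1) := by
        rw [List.length_append, List.length_singleton]; omega
      rw [e1]
      simp

/-- two functions which are polynomial in one variable and agree outside of one point agree -/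
theorem poly_ext {f g : ℂ → ℂ} (hf : ∃ P : Polynomial ℂ, ∀ x, f x = P.eval x)
    (hg : ∃ P : Polynomial ℂ, ∀ x, g x = P.eval x) (c : ℂ) (h : ∀ x, x ≠ c → f x = g x) (x : ℂ) :
    f x = g x := by
  obtain ⟨P, hP⟩ := hf
  obtain ⟨Q, hQ⟩ := hg
  have hPQ : P = Q := by
    apply Polynomial.eq_of_infinite_eval_eq
    have h1 : ({c} : Set ℂ)ᶜ ⊆ {x | P.eval x = Q.eval x} := by
      intro y hy
      have := h y hy
      rw [hP, hQ] at this
      exact this
    exact (Set.Finite.infinite_compl (Set.finite_singleton c)).mono h1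
  rw [hP, hQ, hPQ]

theorem A0_val (x y : ℂ) (v : List ℂ) (h : Odd v.length) :
    A 0 (y :: x :: (q^2 * y) :: v) = -q * (y - x) * (y * x - q^2) * fac y v * Z (x :: v) := by
  have hq3 := q_cube
  have hev : Even (v.length + 1) := h.add_one
  have hev3 : Even (v.length + 3) := by
    obtain ⟨m, hm⟩ := h
    exact ⟨m + 2, by omega⟩
  refine poly_ext (f := fun x => A 0 (y :: x :: (q^2 * y) :: v))
    (g := fun x => -q * (y - x) * (y * x - q^2) * fac y v * Z (x :: v)) ?_ ?_ (q * y) ?_ x
  · obtain ⟨P, _, hP⟩ := (A_pd 0 (v.length + 3) hev3).univ [y] ((q^2 * y) :: v) (by simp; omega)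
    exact ⟨P, fun x => hP x⟩
  · obtain ⟨P, _, hP⟩ := (Z_pd (v.length + 1) hev).univ [] v (by simp)
    refine ⟨Polynomial.C (-q) * (Polynomial.C y - Polynomial.X) *
      (Polynomial.C y * Polynomial.X - Polynomial.C (q^2)) * Polynomial.C (fac y v) * P, ?_⟩
    intro x
    have := hP x
    rw [List.nil_append] at this
    rw [this]
    simp
  · intro x hx
    have h1 := A_exch [] ((q^2 * y) :: v) x y (by
      obtain ⟨m, hm⟩ := hev
      exact ⟨m, by simp; omega⟩)
    have h2 := A_rec_pred [x] v y (by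
      obtain ⟨m, hm⟩ := hev
      exact ⟨m, by simp; omega⟩) (by simp)
    have h3 := Z_rec [x] v y (by
      obtain ⟨m, hm⟩ := hev
      exact ⟨m, by simp; omega⟩)
    simp only [List.nil_append, List.length_nil, List.length_singleton, Nat.sub_self,
      List.singleton_append] at h1 h2 h3
    rw [h2, h3, mul_zero, zero_add, fac_cons7] at h1
    have hne : q * x - q^2 * y ≠ 0 := by
      intro h0
      apply hx
      have : q * (x - q * y) = 0 := by rw [← h0]; ring
      rcases mul_eq_zero.1 this with h4 | h4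
      · exact absurd h4 q_ne_zero
      · linear_combination h4
    apply mul_left_cancel₀ hne
    show (q * x - q^2 * y) * A 0 (y :: x :: (q^2 * y) :: v) =
      (q * x - q^2 * y) * (-q * (y - x) * (y * x - q^2) * fac y v * Z (x :: v))
    rw [h1]
    linear_combination (-(y - x) * (y * x - q^2) * fac y v * Z (x :: v) * y) * hq3

theorem A1_val (x y : ℂ) (v : List ℂ) (h : Odd v.length) :
    A 1 (y :: x :: (q^2 * y) :: v) = (x - q^2 * y) * (y * x - q^2) * fac y v * Z (x :: v) := by
  have hq3 := q_cube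
  have hev : Even (v.length + 1) := h.add_one
  have hev3 : Even (v.length + 3) := by
    obtain ⟨m, hm⟩ := h
    exact ⟨m + 2, by omega⟩
  refine poly_ext (f := fun x => A 1 (y :: x :: (q^2 * y) :: v))
    (g := fun x => (x - q^2 * y) * (y * x - q^2) * fac y v * Z (x :: v)) ?_ ?_ (q * y) ?_ x
  · obtain ⟨P, _, hP⟩ := (A_pd 1 (v.length + 3) hev3).univ [y] ((q^2 * y) :: v) (by simp; omega)
    exact ⟨P, fun x => hP x⟩
  · obtain ⟨P, _, hP⟩ := (Z_pd (v.length + 1) hev).univ [] v (by simp)
    refine ⟨(Polynomial.X - Polynomial.C (q^2 * y)) *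
      (Polynomial.C y * Polynomial.X - Polynomial.C (q^2)) * Polynomial.C (fac y v) * P, ?_⟩
    intro x
    have := hP x
    rw [List.nil_append] at this
    rw [this]
    simp
  · intro x hx
    have h1 := A_exch [y] v (q^2 * y) x (by
      obtain ⟨m, hm⟩ := hev
      exact ⟨m, by simp; omega⟩)
    have h2 := A_rec_succ [] (x :: v) y (by
      obtain ⟨m, hm⟩ := hev
      exact ⟨m, by simp; omega⟩)
    have h3 := Z_rec [] (x :: v) y (by
      obtain ⟨m, hm⟩ := hev
      exact ⟨m, by simp; omega⟩)
    simp only [List.nil_append, List.length_nil, List.length_singleton, Nat.zero_add,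
      List.singleton_append] at h1 h2 h3
    rw [h2, h3, mul_zero, zero_add, fac_cons7] at h1
    have hne : q * (q^2 * y) - q^2 * x ≠ 0 := by
      intro h0
      apply hx
      have : q^2 * (x - q * y) = 0 := by linear_combination (-1 : ℂ) * h0
      rcases mul_eq_zero.1 this with h4 | h4
      · exact absurd h4 (pow_ne_zero 2 q_ne_zero)
      · linear_combination h4
    apply mul_left_cancel₀ hne
    show (q * (q^2 * y) - q^2 * x) * A 1 (y :: x :: (q^2 * y) :: v) =
      (q * (q^2 * y) - q^2 * x) * ((x - q^2 * y) * (y * x - q^2) * fac y v * Z (x :: v))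
    rw [h1]
    linear_combination (-(x - q^2 * y) * (y * x - q^2) * fac y v * Z (x :: v) * y) * hq3

theorem Fr_rec (x y : ℂ) (v : List ℂ) : ∀ u : List ℂ, Odd (u.length + v.length) →
    Fr (y :: (q^2 * y) :: u) x v = fac y (x :: (u ++ v)) * Fr u x v := by
  induction v with
  | nil => intro u _; simp [Fr]
  | cons z v ih =>
    intro u h
    have e1 := A_rec_right [] (u ++ x :: z :: v) y (by
      obtain ⟨m, hm⟩ := h
      simp only [List.length_cons] at hm
      exact ⟨m + 1, by simp; omega⟩) (u.length + 2) (by simp)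
    have e2 := A_rec_right [] (u ++ z :: x :: v) y (by
      obtain ⟨m, hm⟩ := h
      simp only [List.length_cons] at hm
      exact ⟨m + 1, by simp; omega⟩) (u.length + 2) (by simp)
    simp only [List.nil_append, Nat.add_sub_cancel] at e1 e2
    have e3 := ih (u ++ [z]) (by
      obtain ⟨m, hm⟩ := h
      simp only [List.length_cons] at hm
      exact ⟨m, by simp; omega⟩)
    rw [Fr, Fr]
    have e4 : (y :: (q^2 * y) :: u) ++ [z] = y :: (q^2 * y) :: (u ++ [z]) := by simp
    rw [e4, e3]
    have e5 : (y :: (q^2 * y) :: u).length = u.length + 2 := by simp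
    rw [e5]
    have e6 : (y :: (q^2 * y) :: u) ++ x :: z :: v = y :: (q^2 * y) :: (u ++ x :: z :: v) := by simp
    have e7 : (y :: (q^2 * y) :: u) ++ z :: x :: v = y :: (q^2 * y) :: (u ++ z :: x :: v) := by simp
    rw [e6, e7, e1, e2]
    have e8 : fac y (u ++ z :: x :: v) = fac y (x :: (u ++ z :: v)) := by
      simp only [fac_append, fac_cons7]; ring
    have e9 : fac y (u ++ x :: z :: v) = fac y (x :: (u ++ z :: v)) := by
      simp only [fac_append, fac_cons7]; ring
    have e10 : fac y (x :: (u ++ [z] ++ v)) = fac y (x :: (u ++ z :: v)) := by simp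
    rw [e8, e9, e10]
    ring

theorem Fr_rec0 (x y : ℂ) (v : List ℂ) (h : Odd v.length) :
    Fr [] x (y :: (q^2 * y) :: v) = fac y (x :: v) * Fr [] x v +
      (1 - q) * (x + q * y) * (y * x - q^2) * fac y v * Z (x :: v) := by
  have h2 := A_rec_pred [x] v y (by
    obtain ⟨m, hm⟩ := h
    exact ⟨m + 1, by simp; omega⟩) (by simp)
  have h3 := A_rec_succ [] (x :: v) y (by
    obtain ⟨m, hm⟩ := h
    exact ⟨m + 1, by simp; omega⟩)
  have h4 := Fr_rec x y v [] (by simpa using h)
  have h5 := A0_val x y v h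
  have h6 := A1_val x y v h
  simp only [List.nil_append, List.length_nil, List.length_singleton, Nat.zero_add,
    List.singleton_append, Nat.sub_self] at h2 h3 h4 h5 h6
  rw [Fr, Fr]
  simp only [List.nil_append, List.length_nil, List.length_singleton, List.singleton_append]
  rw [h2, h3, h4, h5, h6]
  ring

end T07

open T07

theorem Fr_eq_sum (x : ℂ) (l : List ℂ) : Fr [] x l =
    ∑ i ∈ range l.length, (A i (l.take i ++ x :: l.drop i)
      - A i (l.take (i+1) ++ x :: l.drop (i+1))) := by
  rw [Fr_eq_sum_gen x l []]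
  simp

theorem Mt_rec (x y : ℂ) (v : List ℂ) (hx : x ≠ 0) (h : Odd v.length) :
    Mt x (y :: (q^2 * y) :: v) = fac y (x :: v) * Mt x v +
      (q^2 - q) * (2 * q^2 * y * (1 - x^2)) * fac y v * Z (x :: v) := by
  have hq3 := q_cube
  obtain ⟨m, hm⟩ := h
  have h : Odd v.length := ⟨m, hm⟩
  have hl : (y :: (q^2 * y) :: v).length - 1 = 2 * m + 2 := by simp; omega
  have hl2 : v.length - 1 = 2 * m := by omega
  unfold Mt
  rw [Fr_rec0 x y v h, Fr_rec0 x⁻¹ y v h, hl, hl2, Z_inv x v hx h, hl2, fac_cons7, fac_cons7]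
  have hp : x^(2*m+2) = x^(2*m) * x * x := by ring
  rw [hp]
  have hxx : x * x⁻¹ = 1 := mul_inv_cancel₀ hx
  generalize x⁻¹ = w at *
  generalize x^(2*m) = X at *
  generalize fac y v = f at *
  generalize Fr [] x v = a at *
  generalize Fr [] w v = b at *
  generalize Z (w :: v) = z at *
  have e1 : x * x * ((y - q^2 * w) * (y * w - q^2)) = (y - q^2 * x) * (y * x - q^2) := by
    have : x * x * ((y - q^2 * w) * (y * w - q^2)) =
      (x * y - q^2 * (x * w)) * (y * (x * w) - q^2 * x) := by ring
    rw [this, hxx]; ring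
  have e2 : x * x * ((w + q * y) * (y * w - q^2)) = (1 + q * x * y) * (y - q^2 * x) := by
    have : x * x * ((w + q * y) * (y * w - q^2)) =
      (x * w + q * (x * y)) * (y * (x * w) - q^2 * x) := by ring
    rw [this, hxx]; ring
  have e3 : X * x * x * ((y - q^2 * w) * (y * w - q^2) * f * b +
      (1 - q) * (w + q * y) * (y * w - q^2) * f * z) =
      X * ((y - q^2 * x) * (y * x - q^2)) * f * b +
      X * (1 - q) * ((1 + q * x * y) * (y - q^2 * x)) * f * z := by
    rw [← e1, ← e2]; ring
  rw [e3]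
  have hq2 := q_spec
  linear_combination (2 * y * (1 - x^2) * f * (X * z) * (1 - q) + (1-q) * f * X * z * (-y + x^2 * y)) * hq3

theorem T07.Fr_last (x y : ℂ) (s : List ℂ) : Fr [] x (s ++ [y]) =
    ∑ i ∈ range s.length, (A i ((s.take i ++ x :: s.drop i) ++ [y])
      - A i ((s.take (i+1) ++ x :: s.drop (i+1)) ++ [y]))
    + (A s.length ((s ++ [x]) ++ [y]) - A s.length ((s ++ [y]) ++ [x])) := by
  rw [Fr_eq_sum, List.length_append, List.length_singleton, Finset.sum_range_succ]
  congr 1
  · apply Finset.sum_congr rfl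
    intro i hi
    have hi' := Finset.mem_range.1 hi
    have e1 : (s ++ [y]).take i = s.take i := List.take_append_of_le_length (by omega)
    have e2 : (s ++ [y]).take (i+1) = s.take (i+1) := List.take_append_of_le_length (by omega)
    have e3 : (s ++ [y]).drop i = s.drop i ++ [y] := List.drop_append_of_le_length (by omega)
    have e4 : (s ++ [y]).drop (i+1) = s.drop (i+1) ++ [y] :=
      List.drop_append_of_le_length (by omega)
    rw [e1, e2, e3, e4]
    simp
  · have e5 : (s ++ [y]).take (s.length + 1) = s ++ [y] := by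
      apply List.take_of_length_le
      simp
    have e6 : (s ++ [y]).drop (s.length + 1) = [] := by
      apply List.drop_of_length_le
      simp
    rw [e5, e6]
    simp

theorem T07.A_invN (i : ℕ) (y : ℂ) (l : List ℂ) (hy : y ≠ 0) (h : Odd l.length) :
    A i (l ++ [y]) = y^(l.length - 1) * A i (l ++ [y⁻¹]) := lin_invN _ y l hy h

theorem T07.Mt_last (x y : ℂ) (s : List ℂ) (hx : x ≠ 0) (h : Even s.length) :
    Mt x (s ++ [y]) = ∑ i ∈ range s.length, (A i ((s.take i ++ x :: s.drop i) ++ [y])
      - A i ((s.take (i+1) ++ x :: s.drop (i+1)) ++ [y]))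
      + A s.length ((s ++ [x]) ++ [y])
      - x^s.length * (∑ i ∈ range s.length, (A i ((s.take i ++ x⁻¹ :: s.drop i) ++ [y])
      - A i ((s.take (i+1) ++ x⁻¹ :: s.drop (i+1)) ++ [y]))
      + A s.length ((s ++ [x⁻¹]) ++ [y])) := by
  have hl : (s ++ [y]).length - 1 = s.length := by simp
  have hodd : Odd (s ++ [y]).length := by
    rw [List.length_append, List.length_singleton]; exact h.add_one
  unfold Mt
  rw [Fr_last, Fr_last, hl, A_invN s.length x (s ++ [y]) hx hodd, hl]
  ring

theorem T07.A_term_inv (i j : ℕ) (x y : ℂ) (s : List ℂ) (hy : y ≠ 0) (h : Even s.length) :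
    A j ((s.take i ++ x :: s.drop i) ++ [y]) =
      y^(s.length) * A j ((s.take i ++ x :: s.drop i) ++ [y⁻¹]) := by
  have hlen : (s.take i ++ x :: s.drop i).length = s.length + 1 := by
    simp only [List.length_append, List.length_cons, List.length_take, List.length_drop]
    omega
  have := A_invN j y (s.take i ++ x :: s.drop i) hy (by rw [hlen]; exact h.add_one)
  rw [hlen, Nat.add_sub_cancel] at this
  exact this

theorem Mt_inv (x y : ℂ) (s : List ℂ) (hx : x ≠ 0) (hy : y ≠ 0) (h : Even s.length) :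
    Mt x (s ++ [y]) = y^(s.length) * Mt x (s ++ [y⁻¹]) := by
  rw [Mt_last x y s hx h, Mt_last x y⁻¹ s hx h]
  have key : ∀ x : ℂ, ∑ i ∈ range s.length, (A i ((s.take i ++ x :: s.drop i) ++ [y])
      - A i ((s.take (i+1) ++ x :: s.drop (i+1)) ++ [y])) =
      y^(s.length) * ∑ i ∈ range s.length, (A i ((s.take i ++ x :: s.drop i) ++ [y⁻¹])
      - A i ((s.take (i+1) ++ x :: s.drop (i+1)) ++ [y⁻¹])) := by
    intro x
    rw [Finset.mul_sum]
    apply Finset.sum_congr rfl
    intro i _
    rw [A_term_inv i i x y s hy h, A_term_inv (i+1) i x y s hy h]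
    ring
  have key2 : ∀ x : ℂ, A s.length ((s ++ [x]) ++ [y]) =
      y^(s.length) * A s.length ((s ++ [x]) ++ [y⁻¹]) := by
    intro x
    have hl : (s ++ [x]).length - 1 = s.length := by simp
    have hodd : Odd (s ++ [x]).length := by
      rw [List.length_append, List.length_singleton]; exact h.add_one
    rw [A_invN s.length y (s ++ [x]) hy hodd, hl]
  rw [key x, key x⁻¹, key2 x, key2 x⁻¹]
  ring

theorem T07.Fr_pd (x : ℂ) (k : ℕ) (hk : Odd k) : PD k (k-1) (Fr [] x) := by
  have hk1 : Even (k + 1) := hk.add_one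
  have h1 : PD k (k-1) (fun l => ∑ i ∈ range k, (A i (l.take i ++ x :: l.drop i)
      + (-1) * A i (l.take (i+1) ++ x :: l.drop (i+1)))) := by
    apply PD.sum
    intro i hi
    have hi' := Finset.mem_range.1 hi
    have h2 := A_pd i (k+1) hk1
    have h3 := (h2.slice i (by omega) x)
    have h4 := (h2.slice (i+1) (by omega) x)
    exact h3.add (h4.smul (-1))
  refine h1.congr fun l hl => ?_
  rw [Fr_eq_sum, hl]
  apply Finset.sum_congr rfl
  intro i _
  ring

theorem Mt_pd (x : ℂ) (k : ℕ) (hk : Odd k) : PD k (k-1) (Mt x) := by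
  refine ((Fr_pd x k hk).add ((Fr_pd x⁻¹ k hk).smul (-x^(k-1)))).congr fun l hl => ?_
  show Fr [] x l - x^(l.length - 1) * Fr [] x⁻¹ l = _
  rw [hl]; ring

theorem T07.pd_two_const {F : List ℂ → ℂ} (hF : PD 2 0 F) (a b c d : ℂ) : F [a, b] = F [c, d] := by
  have h1 : F [a, b] = F [c, b] := by
    obtain ⟨P, hP, hP'⟩ := hF.univ [] [b] (by simp)
    have e := Polynomial.eq_C_of_natDegree_le_zero hP
    have h1 := hP' a
    have h2 := hP' c
    rw [List.nil_append, e, Polynomial.eval_C] at h1 h2
    rw [h1, h2]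
  have h2 : F [c, b] = F [c, d] := by
    obtain ⟨P, hP, hP'⟩ := hF.univ [c] [] (by simp)
    have e := Polynomial.eq_C_of_natDegree_le_zero hP
    have h1 := hP' b
    have h2 := hP' d
    rw [List.singleton_append, e, Polynomial.eval_C] at h1 h2
    rw [h1, h2]
  rw [h1, h2]

theorem Mt_one (x y : ℂ) : Mt x [y] = 0 := by
  have h := A_pd 0 2 (by decide)
  unfold Mt
  simp only [Fr, List.nil_append, List.length_nil, List.length_singleton, Nat.sub_self, pow_zero]
  rw [pd_two_const h x y 0 0, pd_two_const h y x 0 0, pd_two_const h x⁻¹ y 0 0,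
    pd_two_const h y x⁻¹ 0 0]
  ring

end Pool.Agent.H980R2.Cross
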