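import Pool.Agent.H980R2.Cross.Defs
import Pool.Agent.H988R2.Perc.T14

/-! T08: the symmetrised derivative `DZ x l` of `Z`.

`Z` on lists of length `N` (even) is the evaluation of an `MvPolynomial` (`Z_pd`), so
`t ↦ Z (t :: l)` is a polynomial, and `deriv (fun t => Z (t :: l)) x` is the evaluation of
`pderiv 0 p` (degree in the other variables not larger): `DZ_pd`.
`DZ_perm`: `Z_perm`.  `DZ_inv`: `Z` is symmetric, so `Z (t :: s ++ [y]) = Z (y :: t :: s)`, and `Z_inv`.
`DZ_rec`: `Z (t::y::q²y::v) = Z (y::q²y::(t::v)) = fac y (t::v) Z(t::v)` and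
`fac y (t::v) = (y-q²t)(yt-q²) fac y v`; product rule:
`2 x d/dx[(y-q²x)(yx-q²)] - 2 (y-q²x)(yx-q²) = 2 q² y (1 - x²)`. -/

namespace Pool.Agent.H980R2.Cross

open Pool.Agent.H988R2.Perc Finset

theorem Z_univ (l : List ℂ) (h : Odd l.length) :
    ∃ P : Polynomial ℂ, P.natDegree ≤ l.length - 1 ∧ ∀ t, Z (t :: l) = P.eval t := by
  have hN : Even (l.length + 1) := Odd.add_one h
  obtain ⟨P, hP, hP2⟩ := (Z_pd (l.length + 1) hN).univ [] l (by simp)
  refine ⟨P, ?_, fun t => ?_⟩
  · have : l.length + 1 - 2 = l.length - 1 := by omega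
    rw [← this]
    exact hP
  · have := hP2 t
    simpa using this

theorem Z_diff (l : List ℂ) (h : Odd l.length) : Differentiable ℂ (fun t => Z (t :: l)) := by
  obtain ⟨P, -, hP⟩ := Z_univ l h
  have : (fun t => Z (t :: l)) = fun t => P.eval t := funext hP
  rw [this]
  exact P.differentiable

theorem Z_deriv (x : ℂ) (k : ℕ) : ∃ c : ℕ → ℂ, ∀ l : List ℂ, l.length = k → Odd k →
    deriv (fun t => Z (t :: l)) x = ∑ j ∈ Finset.range (k + 1), c j * Z ((j : ℂ) :: l) := by
  refine ⟨fun j => (Polynomial.derivative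
    (Lagrange.basis (Finset.range (k + 1)) (fun i : ℕ => (i : ℂ)) j)).eval x, fun l hl hk => ?_⟩
  obtain ⟨P, hdeg, hP⟩ := Z_univ l (by rw [hl]; exact hk)
  have h1 : (fun t => Z (t :: l)) = fun t => P.eval t := funext hP
  rw [h1, Polynomial.deriv]
  have hinj : Set.InjOn (fun i : ℕ => (i : ℂ)) (Finset.range (k + 1)) :=
    fun a _ b _ hab => Nat.cast_injective (R := ℂ) hab
  have h2 : P = Lagrange.interpolate (Finset.range (k + 1)) (fun i : ℕ => (i : ℂ))
      fun i => P.eval (i : ℂ) := by
    apply Lagrange.eq_interpolate hinj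
    rw [Finset.card_range]
    refine lt_of_le_of_lt Polynomial.degree_le_natDegree ?_
    rw [Nat.cast_lt]
    omega
  conv_lhs => rw [h2]
  rw [Lagrange.interpolate_apply, Polynomial.derivative_sum, Polynomial.eval_finsetSum]
  refine Finset.sum_congr rfl fun j _ => ?_
  rw [Polynomial.derivative_C_mul, Polynomial.eval_mul, Polynomial.eval_C, hP]
  ring

theorem DZ_pd (x : ℂ) (k : ℕ) (hk : Odd k) : PD k (k-1) (DZ x) := by
  have hN : Even (k + 1) := Odd.add_one hk
  have hs : ∀ t : ℂ, PD k (k-1) (fun l => Z (t :: l)) := by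
    intro t
    have h1 := (Z_pd (k + 1) hN).slice 0 (Nat.zero_le _) t
    have h2 : k + 1 - 2 = k - 1 := by omega
    rw [h2] at h1
    refine h1.congr fun l hl => ?_
    simp
  obtain ⟨c, hc⟩ := Z_deriv x k
  have h1 : PD k (k-1) (fun l => 2 * x * (∑ j ∈ Finset.range (k + 1), c j * Z ((j : ℂ) :: l)) +
      (-((k : ℂ) - 1)) * Z (x :: l)) :=
    ((PD.sum _ fun (j : ℕ) _ => (hs (j : ℂ)).smul (c j)).smul (2 * x)).add ((hs x).smul (-((k : ℂ) - 1)))
  refine h1.congr fun l hl => ?_
  unfold DZ
  rw [hc l hl hk, hl]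
  ring

theorem DZ_perm {l l' : List ℂ} (x : ℂ) (h : Odd l.length) (hp : l.Perm l') :
    DZ x l = DZ x l' := by
  have h1 : ∀ t, Z (t :: l) = Z (t :: l') := fun t =>
    Z_perm (by rw [List.length_cons]; exact Odd.add_one h) (hp.cons t)
  unfold DZ
  rw [funext h1, h1, hp.length_eq]

theorem DZ_inv (x y : ℂ) (s : List ℂ) (hy : y ≠ 0) (h : Even s.length) :
    DZ x (s ++ [y]) = y^(s.length) * DZ x (s ++ [y⁻¹]) := by
  have h1 : ∀ t, Z (t :: (s ++ [y])) = y^(s.length) * Z (t :: (s ++ [y⁻¹])) := by
    intro t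
    have hodd : Odd (t :: s).length := by rw [List.length_cons]; exact Even.add_one h
    have h2 : ∀ z : ℂ, Z (t :: (s ++ [z])) = Z (z :: t :: s) := by
      intro z
      refine Z_perm ?_ ?_
      · simp only [List.length_cons, List.length_append, List.length_nil]
        have : s.length + (0 + 1) + 1 = s.length + 2 := by omega
        rw [this, Nat.even_add]
        simp [h]
      · have : (t :: (s ++ [z])).Perm (z :: t :: s) := by
          have := List.perm_append_singleton z (t :: s)
          simpa using this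
        exact this
    rw [h2, h2, Z_inv y (t :: s) hy hodd]
    simp
  unfold DZ
  rw [h1 x]
  have h3 : (fun t => Z (t :: (s ++ [y]))) = fun t => y^(s.length) * Z (t :: (s ++ [y⁻¹])) :=
    funext h1
  rw [h3, deriv_const_mul_field]
  simp only [List.length_append, List.length_cons, List.length_nil]
  ring

theorem DZ_rec (x y : ℂ) (v : List ℂ) (h : Odd v.length) :
    DZ x (y :: (q^2 * y) :: v) = fac y (x :: v) * DZ x v +
      (2 * q^2 * y * (1 - x^2)) * fac y v * Z (x :: v) := by
  have hfac : ∀ t, fac y (t :: v) = ((y - q^2 * t) * (y * t - q^2)) * fac y v := by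
    intro t
    simp [fac]
  have h1 : ∀ t, Z (t :: y :: (q^2 * y) :: v) =
      ((y - q^2 * t) * (y * t - q^2)) * (fac y v * Z (t :: v)) := by
    intro t
    have h2 := Z_rec [t] v y (by
      rw [List.length_singleton, Nat.add_comm]
      exact Odd.add_one h)
    simp only [List.singleton_append] at h2
    rw [h2, hfac]
    ring
  have hd := Z_diff v h
  have h3 : deriv (fun t => Z (t :: y :: (q^2 * y) :: v)) x =
      (-q^2 * (y * x - q^2) + (y - q^2 * x) * y) * (fac y v * Z (x :: v)) +
      ((y - q^2 * x) * (y * x - q^2)) * (fac y v * deriv (fun t => Z (t :: v)) x) := by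
    rw [funext h1]
    have ha : HasDerivAt (fun t : ℂ => (y - q^2 * t) * (y * t - q^2))
        (-q^2 * (y * x - q^2) + (y - q^2 * x) * y) x := by
      have h4 : HasDerivAt (fun t : ℂ => y - q^2 * t) (-q^2) x := by
        have := ((hasDerivAt_id x).const_mul (q^2)).const_sub y
        simpa using this
      have h5 : HasDerivAt (fun t : ℂ => y * t - q^2) y x := by
        have := ((hasDerivAt_id x).const_mul y).sub_const (q^2)
        simpa using this
      exact h4.mul h5
    have hb : HasDerivAt (fun t : ℂ => fac y v * Z (t :: v))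
        (fac y v * deriv (fun t => Z (t :: v)) x) x :=
      (hd x).hasDerivAt.const_mul _
    exact (ha.mul hb).deriv
  unfold DZ
  rw [h3, h1, hfac]
  simp only [List.length_cons]
  push_cast
  ring

theorem DZ_one (x y : ℂ) : DZ x [y] = 0 := by
  have h1 : (fun t => Z (t :: [y])) = fun _ => 1 := funext fun t => Z_two t y
  unfold DZ
  rw [h1, deriv_const]
  simp

end Pool.Agent.H980R2.Cross
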