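import Pool.Agent.H980R2.Cross.T07
import Pool.Agent.H980R2.Cross.T08

/-! T09: THEOREM A, the loop formula.

Let `G l = Mt x l - (q²-q) DZ x l` for `l` of odd length `k`.  Then `G` is symmetric (`Mt_perm`,
`DZ_perm`), `G (y::q²y::s) = fac y (x::s) G s`, `G` is polynomial of degree `≤ k-1` in each variable,
and `G [y] = 0`.  Induction on `k` (step 2): for `k ≥ 3` and generic `s` of length `k-1 ≥ 2` the
polynomial `y ↦ G (y::s)` has the `2(k-1) > k-1` zeros `q z, q² z` (`z ∈ s`), so it vanishes;
`PD.generic` removes the genericity. -/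

namespace Pool.Agent.H980R2.Cross

open Pool.Agent.H988R2.Perc Finset

namespace T09

/-- the difference of the two sides -/
noncomputable def G (x : ℂ) (l : List ℂ) : ℂ := Mt x l - (q^2 - q) * DZ x l

theorem G_pd (x : ℂ) (k : ℕ) (hk : Odd k) : PD k (k-1) (G x) := by
  have h1 := Mt_pd x k hk
  have h2 := (DZ_pd x k hk).smul (-(q^2 - q))
  refine (h1.add h2).congr ?_
  intro l _
  unfold G
  ring

theorem G_perm {l l' : List ℂ} (x : ℂ) (hx : x ≠ 0) (h : Odd l.length) (hp : l.Perm l') :
    G x l = G x l' := by
  unfold G
  rw [Mt_perm x hx h hp, DZ_perm x h hp]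

theorem G_rec (x y : ℂ) (v : List ℂ) (hx : x ≠ 0) (h : Odd v.length) :
    G x (y :: (q^2 * y) :: v) = fac y (x :: v) * G x v := by
  unfold G
  rw [Mt_rec x y v hx h, DZ_rec x y v h]
  ring

/-- the zeros -/
theorem G_zero (x : ℂ) (hx : x ≠ 0) (k : ℕ) (hk : Odd k)
    (ih : ∀ l : List ℂ, l.length = k → G x l = 0) (s : List ℂ) (hs : s.length = k + 1)
    (z : ℂ) (hz : z ∈ s) (y : ℂ) (hy : y = q * z ∨ y = q^2 * z) : G x (y :: s) = 0 := by
  have h3 := q_cube
  have hp : s.Perm (z :: s.erase z) := List.perm_cons_erase hz
  have hlen : (s.erase z).length = k := by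
    rw [List.length_erase_of_mem hz, hs]; omega
  have hodd : Odd (y :: s).length := by
    obtain ⟨m, hm⟩ := hk
    exact ⟨m + 1, by rw [List.length_cons, hs]; omega⟩
  rcases hy with e | e
  · have e2 : z = q^2 * y := by
      rw [e]
      have : q^2 * (q * z) = q^3 * z := by ring
      rw [this, h3, one_mul]
    rw [G_perm x hx hodd (hp.cons y)]
    have := G_rec x y (s.erase z) hx (by rw [hlen]; exact hk)
    rw [← e2, ih _ hlen, mul_zero] at this
    exact this
  · rw [G_perm x hx hodd ((hp.cons y).trans (List.Perm.swap z y _))]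
    have := G_rec x z (s.erase z) hx (by rw [hlen]; exact hk)
    rw [← e, ih _ hlen, mul_zero] at this
    exact this

/-- the zeros attached to an entry -/
noncomputable def pts (z : ℂ) : List ℂ := [q * z, q^2 * z]

/-- genericity -/
def Gn (u : List ℂ) : Prop := (∀ z ∈ u, z ≠ 0) ∧ (u.flatMap pts).Nodup

noncomputable def bad (u : List ℂ) : List ℂ :=
  0 :: (u.flatMap pts).flatMap (fun r => [q^2 * r, q * r])

theorem Gn_ext {u : List ℂ} (hu : Gn u) {y : ℂ} (hy : y ∉ bad u) : Gn (u ++ [y]) := by
  unfold bad at hy
  rw [List.mem_cons, not_or] at hy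
  obtain ⟨hy0, hy2⟩ := hy
  have h3 := q_cube
  refine ⟨?_, ?_⟩
  · intro z hz
    rw [List.mem_append, List.mem_singleton] at hz
    rcases hz with hz | hz
    · exact hu.1 z hz
    · rw [hz]; exact hy0
  · rw [List.flatMap_append, List.nodup_append]
    refine ⟨hu.2, ?_, ?_⟩
    · simp only [List.flatMap_cons, List.flatMap_nil, List.append_nil, pts]
      rw [List.nodup_cons]
      refine ⟨?_, List.nodup_singleton _⟩
      rw [List.mem_singleton]
      intro e
      have : q = q^2 := mul_right_cancel₀ hy0 e
      have h4 : q * 1 = q * q := by rw [mul_one]; exact this.trans (by ring)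
      exact q_ne_one (mul_left_cancel₀ q_ne_zero h4).symm
    · intro r hr r' hr' e
      subst e
      apply hy2
      rw [List.mem_flatMap]
      refine ⟨r, hr, ?_⟩
      simp only [List.flatMap_cons, List.flatMap_nil, List.append_nil, pts, List.mem_cons,
        List.not_mem_nil, or_false] at hr' ⊢
      rcases hr' with e | e
      · left
        rw [e]
        have : q^2 * (q * y) = q^3 * y := by ring
        rw [this, h3, one_mul]
      · right
        rw [e]
        have : q * (q^2 * y) = q^3 * y := by ring
        rw [this, h3, one_mul]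

theorem Gn_of_generic (l : List ℂ) :
    (∀ k < l.length, l.getD k 0 ∉ bad (l.take k)) → Gn l := by
  induction l using List.reverseRecOn with
  | nil =>
    intro _
    exact ⟨by simp, by simp⟩
  | append_singleton u y ih =>
    intro h
    refine Gn_ext (ih ?_) ?_
    · intro k hk
      have := h k (by rw [List.length_append]; omega)
      rwa [List.getD_append _ _ _ _ hk, List.take_append_of_le_length hk.le] at this
    · have := h u.length (by simp)
      simpa using this

theorem length_flatMap_pts (u : List ℂ) : (u.flatMap pts).length = 2 * u.length := by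
  induction u with
  | nil => simp
  | cons a u ih => rw [List.flatMap_cons, List.length_append, ih, List.length_cons]; simp [pts]; ring

theorem G_all (x : ℂ) (hx : x ≠ 0) : ∀ n : ℕ, ∀ l : List ℂ, l.length = 2 * n + 1 → G x l = 0 := by
  intro n
  induction n with
  | zero =>
    intro l hl
    obtain ⟨y, rfl⟩ := List.length_eq_one_iff.1 hl
    unfold G
    rw [Mt_one, DZ_one, mul_zero, sub_zero]
  | succ n ih =>
    have hpd := G_pd x (2 * (n + 1) + 1) ⟨n + 1, rfl⟩
    refine hpd.generic (fun u => (bad u).toFinset) ?_
    intro l hl hgen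
    have hG : Gn l := Gn_of_generic l (by
      intro k hk
      have := hgen k (by omega)
      rwa [List.mem_toFinset] at this)
    obtain ⟨y, s, rfl⟩ : ∃ y s, l = y :: s := by
      cases l with
      | nil => simp at hl
      | cons y s => exact ⟨y, s, rfl⟩
    have hs : s.length = (2 * n + 1) + 1 := by
      rw [List.length_cons] at hl
      omega
    have hGs : (s.flatMap pts).Nodup := by
      have := hG.2
      rw [List.flatMap_cons, List.nodup_append] at this
      exact this.2.1
    have hr := hpd.roots [] s (by simp only [List.length_nil]; omega)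
      (s.flatMap pts).toFinset (by
        rw [List.toFinset_card_of_nodup hGs, length_flatMap_pts, hs]; omega) (by
        intro r hr
        rw [List.mem_toFinset, List.mem_flatMap] at hr
        obtain ⟨z, hz, hr⟩ := hr
        simp only [pts, List.mem_cons, List.not_mem_nil, or_false] at hr
        exact G_zero x hx (2 * n + 1) ⟨n, rfl⟩ ih s hs z hz r hr) y
    simpa using hr

end T09

theorem loop_formula (x : ℂ) (hx : x ≠ 0) (l : List ℂ) (h : Odd l.length) :
    Mt x l = (q^2 - q) * DZ x l := by
  obtain ⟨n, hn⟩ := h
  exact sub_eq_zero.1 (T09.G_all x hx n l hn)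

end Pool.Agent.H980R2.Cross
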