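import Pool.Agent.H980R2.Cross.T04

/-! T10: the steps at odd positions give half of the total.

`NN_step` gives, for each step, `(-1)^{|u|} (A(xy) - A(yx)) = NN(xy) - NN(yx)`; hence by induction on
the list `Fr u x v - 2 Fro u x v = NN (u ++ x :: v) - NN (u ++ v ++ [x])`.  For `u = []` subtract
`x^(|l|-1)` times the same for `x⁻¹`: the right sides cancel by `lin_inv1` and `lin_invN`. -/

namespace Pool.Agent.H980R2.Cross

open Pool.Agent.H988R2.Perc Finset

theorem Fr_sub_Fro (u : List ℂ) (x : ℂ) (v : List ℂ) (h : Odd (u.length + v.length)) :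
    Fr u x v - 2 * Fro u x v = NN (u ++ x :: v) - NN (u ++ v ++ [x]) := by
  induction v generalizing u with
  | nil => simp [Fr, Fro]
  | cons y v ih =>
    have hev : Even (u.length + v.length) := by
      have h1 : u.length + (y :: v).length = (u.length + v.length) + 1 := by
        simp [List.length_cons]; ring
      rw [h1] at h
      by_contra hne
      rw [Nat.not_even_iff_odd] at hne
      have := hne.add_odd (show Odd 1 from odd_one)
      exact (Nat.not_even_iff_odd.mpr h) this
    have hodd : Odd ((u ++ [y]).length + v.length) := by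
      have h1 : (u ++ [y]).length + v.length = (u.length + v.length) + 1 := by
        simp; ring
      rw [h1]
      exact hev.add_odd odd_one
    have hih := ih (u ++ [y]) hodd
    have hstep := NN_step u v x y hev
    have e1 : u ++ [y] ++ x :: v = u ++ y :: x :: v := by simp
    have e2 : u ++ [y] ++ v ++ [x] = u ++ y :: v ++ [x] := by simp
    rw [e1, e2] at hih
    rw [Fr, Fro]
    rcases Nat.even_or_odd u.length with hu | hu
    · have h0 : u.length % 2 = 0 := Nat.even_iff.mp hu
      have h1 : ¬ (u.length % 2 = 1) := by omega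
      rw [if_pos h0] at hstep
      rw [if_neg h1]
      linear_combination hih + hstep
    · have h1 : u.length % 2 = 1 := Nat.odd_iff.mp hu
      have h0 : ¬ (u.length % 2 = 0) := by omega
      rw [if_neg h0] at hstep
      rw [if_pos h1]
      linear_combination hih + hstep

theorem two_Mto (x : ℂ) (l : List ℂ) (hx : x ≠ 0) (h : Odd l.length) : 2 * Mto x l = Mt x l := by
  have h1 := Fr_sub_Fro [] x l (by simpa using h)
  have h2 := Fr_sub_Fro [] x⁻¹ l (by simpa using h)
  simp only [List.nil_append] at h1 h2
  have h3 : NN (x :: l) = x ^ (l.length - 1) * NN (x⁻¹ :: l) := lin_inv1 _ x l hx h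
  have h4 : NN (l ++ [x]) = x ^ (l.length - 1) * NN (l ++ [x⁻¹]) := lin_invN _ x l hx h
  unfold Mto Mt
  linear_combination -h1 + x ^ (l.length - 1) * h2 - h3 + h4

end Pool.Agent.H980R2.Cross
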