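import Pool.Agent.H980R2.Cross.T11

/-! T12: the two-variable version.

Let `k ≥ 2`.  The space `V` of the odd sequences supported by `Lam k` whose moments `r < 2k-1` vanish
(for odd sequences the even moments vanish automatically) is spanned by `Q` (a `Good k` sequence) and
`P = (l² - mu k²) Q` (`Good (k-1)`, `good_down`): for `g ∈ V` subtract the multiple of `Q` which kills
the coefficient at `mu k` (`Q (mu k) ≠ 0`, otherwise `Q`, being odd, would be supported by `Lam (k-1)` with `2k+1` vanishing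
moments), the difference is odd, supported by `Lam (k-1)`, with `2k-1` vanishing moments, so it is `0` or
`Good (k-1)`, hence a multiple of `P` by `good_unique`.  (Existence of a `Good k` sequence `Q`:
`Q l = 1/∏_{l' ∈ Lam k, l' ≠ l} (l - l')`, by Lagrange interpolation; or, if `c = 0` there is nothing
to prove, and otherwise ... the Lagrange form is the simplest:
`∑ l^r/∏(l-l') = 0` for `r < |Lam k| - 1`.)
Hence `c l l' = α l' * Q l + β l' * P l`, and by antisymmetry `c l l' = C (P l Q l' - Q l P l')`.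
With `P_j = Ev (k-1) j P` `= Ev k j P`, `Q_j = Ev k j Q` and `∑ Q l' (-q)^(-l') = -Q_0`
(oddness): `Ev2 k j c = -C (P_j Q_0 - Q_j P_0)`.  `P_2 = -mu(k-1) mu(k-2) P_0`,
`Q_2 = -mu k mu(k-1) Q_0` (`good_second`), `mu k - mu (k-2) = 3`, and `2 s P_1 = RR (k-1) P_0`,
`2 s Q_1 = RR k Q_0` (`good_eval`), `s = q²-q`. -/

namespace Pool.Agent.H980R2.Cross

open Pool.Agent.H988R2.Perc Finset

structure Good2 (k : ℕ) (c : ℤ → ℤ → ℂ) : Prop where
  supp : ∀ l l', l ∉ Lam k → c l l' = 0
  anti : ∀ l l', c l l' = - c l' l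
  odd : ∀ l l', c (-l) l' = - c l l'
  mom : ∀ r < 2 * k - 1, ∀ l', ∑ l ∈ Lam k, c l l' * (l : ℂ)^r = 0

noncomputable def Ev2 (k j : ℕ) (c : ℤ → ℤ → ℂ) : ℂ :=
  ∑ l ∈ Lam k, ∑ l' ∈ Lam k, c l l' * (l : ℂ)^j * (-q)^l * (-q)^(-l')

theorem good_exists (k : ℕ) : ∃ c, Good k c := by
  classical
  let f : (Lam k → ℂ) →ₗ[ℂ] (Fin (2*k+1) → ℂ) :=
    { toFun := fun v r => ∑ l : Lam k, v l * ((l : ℤ) : ℂ)^(r : ℕ)
      map_add' := by
        intro u v; funext r
        simp only [Pi.add_apply, add_mul, Finset.sum_add_distrib]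
      map_smul' := by
        intro t v; funext r
        simp only [Pi.smul_apply, smul_eq_mul, RingHom.id_apply, Finset.mul_sum]
        exact Finset.sum_congr rfl fun l _ => by ring }
  have hker : LinearMap.ker f ≠ ⊥ := by
    apply LinearMap.ker_ne_bot_of_finrank_lt
    simp only [Module.finrank_fintype_fun_eq_card, Fintype.card_fin, Fintype.card_coe, card_Lam]
    omega
  obtain ⟨v, hv, hv0⟩ := (Submodule.ne_bot_iff _).mp hker
  rw [LinearMap.mem_ker] at hv
  refine ⟨fun l => if h : l ∈ Lam k then v ⟨l, h⟩ else 0, ?_, ?_, ?_⟩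
  · intro l hl
    simp only [hl, dif_neg, not_false_eq_true]
  · intro r hr
    have h1 := congrFun hv ⟨r, hr⟩
    simp only [f, LinearMap.coe_mk, AddHom.coe_mk, Pi.zero_apply] at h1
    rw [← h1, ← Finset.sum_coe_sort]
    refine Finset.sum_congr rfl fun l _ => ?_
    simp
  · obtain ⟨l, hl⟩ : ∃ l, v l ≠ 0 := by
      by_contra hcon
      push Not at hcon
      exact hv0 (funext hcon)
    refine ⟨l, ?_⟩
    simpa using hl

theorem T12_top_ne {k : ℕ} {Q : ℤ → ℂ} (h : Good (k+1) Q) : Q (mu (k+1)) ≠ 0 := by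
  intro h0
  have h1 : Q (-(mu (k+1) : ℤ)) = 0 := by rw [good_odd h, h0, neg_zero]
  have hs : ∀ l, l ∉ Lam k → Q l = 0 := by
    intro l hl
    by_cases hl' : l ∈ Lam (k+1)
    · rw [Lam_succ, mem_union] at hl'
      rcases hl' with hl' | hl'
      · exact absurd hl' hl
      · simp only [mem_insert, mem_singleton] at hl'
        rcases hl' with rfl | rfl
        · exact h0
        · exact h1
    · exact h.supp l hl'
  have hv := vandermonde_zero (Lam k) Q (by
    intro r hr
    rw [card_Lam] at hr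
    rw [← h.mom r (by omega)]
    apply T11_sum_eq
    · intro l hl; rw [hs l hl, zero_mul]
    · intro l hl; rw [h.supp l hl, zero_mul])
  obtain ⟨l, hl⟩ := h.ne
  apply hl
  by_cases hm : l ∈ Lam k
  · exact hv l hm
  · exact hs l hm

/-- the two-dimensional space of odd sequences -/
theorem T12_span {k : ℕ} {Q : ℤ → ℂ} (hQ : Good (k+1) Q) (g : ℤ → ℂ)
    (hs : ∀ l, l ∉ Lam (k+1) → g l = 0) (ho : ∀ l, g (-l) = - g l)
    (hm : ∀ r < 2 * k + 1, ∑ l ∈ Lam (k+1), g l * (l : ℂ)^r = 0) :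
    ∃ α β : ℂ, ∀ l, g l = α * Q l + β * (((l:ℂ)^2 - (mu (k+1) : ℂ)^2) * Q l) := by
  have hne := T12_top_ne hQ
  set α := g (mu (k+1)) / Q (mu (k+1)) with hα
  have hα' : g (mu (k+1)) - α * Q (mu (k+1)) = 0 := by rw [hα]; field_simp; ring
  have hs' : ∀ l, l ∉ Lam k → g l - α * Q l = 0 := by
    intro l hl
    by_cases hl' : l ∈ Lam (k+1)
    · rw [Lam_succ, mem_union] at hl'
      rcases hl' with hl' | hl'
      · exact absurd hl' hl
      · simp only [mem_insert, mem_singleton] at hl'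
        rcases hl' with rfl | rfl
        · exact hα'
        · rw [ho, good_odd hQ]; linear_combination -hα'
    · rw [hs l hl', hQ.supp l hl']; ring
  by_cases h0 : ∀ l, g l - α * Q l = 0
  · refine ⟨α, 0, fun l => ?_⟩
    linear_combination h0 l
  · push Not at h0
    have hG : Good k (fun l => g l - α * Q l) := by
      refine ⟨hs', ?_, h0⟩
      intro r hr
      have e1 : ∑ l ∈ Lam k, (g l - α * Q l) * (l:ℂ)^r =
          ∑ l ∈ Lam (k+1), (g l - α * Q l) * (l:ℂ)^r := by
        apply T11_sum_eq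
        · intro l hl; rw [hs' l hl, zero_mul]
        · intro l hl; rw [hs l hl, hQ.supp l hl]; ring
      have e2 : ∀ l ∈ Lam (k+1), (g l - α * Q l) * (l:ℂ)^r =
          g l * (l:ℂ)^r - α * (Q l * (l:ℂ)^r) := fun l _ => by ring
      rw [e1, Finset.sum_congr rfl e2, Finset.sum_sub_distrib, ← Finset.mul_sum, hm r hr,
        hQ.mom r (by omega)]
      ring
    obtain ⟨β, hβ⟩ := good_unique (good_down hQ) hG
    refine ⟨α, β, fun l => ?_⟩
    have : g l - α * Q l = β * (((l:ℂ)^2 - (mu (k+1) : ℂ)^2) * Q l) := hβ l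
    linear_combination this

theorem T12_neg_sum {k : ℕ} (Q : ℤ → ℂ) (ho : ∀ l, Q (-l) = - Q l) :
    ∑ l ∈ Lam k, Q l * (-q)^(-l) = - Ev k 0 Q := by
  rw [← T11_sum_neg k (fun l => Q l * (-q)^(-l)), Ev, ← Finset.sum_neg_distrib]
  refine Finset.sum_congr rfl fun l _ => ?_
  simp only [neg_neg, ho, pow_zero, mul_one]
  ring

theorem good2_eval {k : ℕ} {c : ℤ → ℤ → ℂ} (hk : 2 ≤ k) (h : Good2 k c) :
    Ev2 k 2 c * ((RR (k-1) : ℂ) - RR k) = 6 * (q^2 - q) * (mu (k-1) : ℂ) * Ev2 k 1 c := by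
  obtain ⟨n, rfl⟩ : ∃ n, k = n + 1 + 1 := ⟨k - 2, by omega⟩
  obtain ⟨Q, hQ⟩ := good_exists (n+1+1)
  set P : ℤ → ℂ := fun l => ((l:ℂ)^2 - (mu (n+1+1) : ℂ)^2) * Q l with hP
  have hPg : Good (n+1) P := good_down hQ
  have hspan : ∀ l', ∃ α β : ℂ, ∀ l, c l l' = α * Q l + β * P l := by
    intro l'
    apply T12_span hQ (fun l => c l l')
    · intro l hl; exact h.supp l l' hl
    · intro l; exact h.odd l l'
    · intro r hr; exact h.mom r (by omega) l'
  choose α β hαβ using hspan
  -- the form of `c`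
  have hQa := T12_top_ne hQ
  set a : ℤ := (mu (n+1+1) : ℤ) with ha
  have hPa : P a = 0 := by simp [hP, ha]
  have hdiag : ∀ l, c l l = 0 := by
    intro l
    have := h.anti l l
    have h2 : (2:ℂ) * c l l = 0 := by linear_combination this
    simpa using h2
  have hαa : α a = 0 := by
    have h1 := hαβ a a
    rw [hdiag, hPa] at h1
    have : α a * Q a = 0 := by linear_combination -h1
    exact (mul_eq_zero.mp this).resolve_right hQa
  set C := β a / Q a with hC
  have hCQ : C * Q a = β a := by rw [hC]; field_simp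
  have hα : ∀ l', α l' = - C * P l' := by
    intro l'
    have h1 := hαβ l' a
    have h2 := hαβ a l'
    have h3 := h.anti a l'
    rw [hPa] at h1
    rw [hαa] at h2
    have : Q a * (α l' + C * P l') = 0 := by
      linear_combination h3 - h1 - h2 + (P l') * hCQ
    linear_combination (mul_eq_zero.mp this).resolve_left hQa
  obtain ⟨l0, hl0⟩ := hPg.ne
  have hβ0 : β l0 = C * Q l0 := by
    have h1 := hαβ l0 l0
    rw [hdiag, hα] at h1
    have : P l0 * (β l0 - C * Q l0) = 0 := by linear_combination -h1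
    linear_combination (mul_eq_zero.mp this).resolve_left hl0
  have hβ : ∀ l', β l' = C * Q l' := by
    intro l'
    have h1 := hαβ l' l0
    have h2 := hαβ l0 l'
    have h3 := h.anti l0 l'
    rw [hα] at h1 h2
    rw [hβ0] at h2
    have : P l0 * (β l' - C * Q l') = 0 := by
      linear_combination h3 - h1 - h2
    linear_combination (mul_eq_zero.mp this).resolve_left hl0
  have hc : ∀ l l', c l l' = C * (P l * Q l' - Q l * P l') := by
    intro l l'
    rw [hαβ l' l, hα, hβ]; ring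
  -- evaluation
  have hEv : ∀ j, Ev2 (n+1+1) j c =
      - C * (Ev (n+1+1) j P * Ev (n+1+1) 0 Q - Ev (n+1+1) j Q * Ev (n+1+1) 0 P) := by
    intro j
    have hPo : ∀ l, P (-l) = - P l := good_odd hPg
    have hQo : ∀ l, Q (-l) = - Q l := good_odd hQ
    have hP0 := T12_neg_sum (k := n+1+1) P hPo
    have hQ0 := T12_neg_sum (k := n+1+1) Q hQo
    have e1 : Ev2 (n+1+1) j c = C * (Ev (n+1+1) j P * (∑ l ∈ Lam (n+1+1), Q l * (-q)^(-l)) -
        Ev (n+1+1) j Q * (∑ l ∈ Lam (n+1+1), P l * (-q)^(-l))) := by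
      rw [Ev, Ev, Finset.sum_mul_sum, Finset.sum_mul_sum, ← Finset.sum_sub_distrib,
        Finset.mul_sum, Ev2]
      refine Finset.sum_congr rfl fun l _ => ?_
      rw [← Finset.sum_sub_distrib, Finset.mul_sum]
      refine Finset.sum_congr rfl fun l' _ => ?_
      rw [hc]; ring
    rw [e1, hP0, hQ0]; ring
  have hdown : ∀ j, Ev (n+1+1) j P = Ev (n+1) j P := by
    intro j
    unfold Ev
    apply T11_sum_eq
    · intro l hl
      have : P l = 0 := by simp only [hP]; rw [hQ.supp l hl, mul_zero]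
      rw [this]; ring
    · intro l hl
      rw [hPg.supp l hl]; ring
  rw [hEv, hEv, hdown, hdown, hdown]
  have hP2 := good_second hPg
  have hQ2 := good_second hQ
  obtain ⟨-, hP1⟩ := good_eval hPg
  obtain ⟨-, hQ1⟩ := good_eval hQ
  have hmu : (mu (n+1+1) : ℂ) = mu n + 3 := by
    have : mu (n+1+1) = mu n + 3 := by unfold mu; omega
    rw [this]; push_cast; ring
  rw [hmu] at hQ2
  rw [show n + 1 + 1 - 1 = n + 1 by omega]
  rw [hP2, hQ2]
  linear_combination (3 * C * (mu (n+1) : ℂ)) * (Ev (n+1+1) 0 Q * hP1 - Ev (n+1) 0 P * hQ1)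

end Pool.Agent.H980R2.Cross
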