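import Pool.Agent.H980R2.Cross.T11
import Pool.Agent.H980R2.Cross.T13
import Pool.Agent.H988R2.Perc.T25

/-! T14: the value of the logarithmic derivative at `x = -q`, all other variables `1`.

`F x = Z (x :: 1^N)`: polynomial of degree `≤ N-1` (`Z_pd`), `F 1 ≠ 0` (`Z_ones`, `chi > 0`: see
`chi_pos` in `H988R2.Perc.T25`), `x^(N-1) F(x⁻¹) = F x`.
`H x = HH x (1^N) = (x²-1)(x-1)^(2N) F x`: degree `≤ 3N+1 = 2a`, `a = (3N+1)/2 = mu N`
(`N` odd), no powers `j ≡ 2 ≡ a mod 3` (T13: a polynomial with `H(x)+qH(qx)+q²H(q²x)=0` has no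
such coefficients).  Put `c l = coeff_{l+a} H` for `l ≥ -a` (and `0` otherwise): `Good N c`
(the moments `r < 2N+1` vanish since `(x-1)^(2N+1) ∣ H`; `|Lam N| = 2(N+1)`).
`Ev N 0 c = ζ^(-a) H ζ`, `Ev N 1 c = ζ^(-a) (ζ H'(ζ) - a H ζ)`, `ζ = -q`.  So `H ζ ≠ 0`, `F ζ ≠ 0` and
`2 s (ζ H'/H - a) = RR N`, where `ζH'/H = ζF'/F + 2ζ²/(ζ²-1) + 2Nζ/(ζ-1)`, i.e.
`ζH'/H - a = (ζF'/F - (N-1)/2) + (ζ+ζ⁻¹)/(ζ-ζ⁻¹) + N (ζ-ζ⁻¹)/(ζ+ζ⁻¹-2) = (ζF'/F-(N-1)/2) + 1/s - N s`,
`s = q²-q`, `s² = -3`. -/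

namespace Pool.Agent.H980R2.Cross

open Pool.Agent.H988R2.Perc hiding X
open Finset Polynomial

namespace T14

/-- the operator `X d/dX - a` -/
noncomputable def D (a : ℕ) (Q : ℂ[X]) : ℂ[X] := X * derivative Q - C (a : ℂ) * Q

theorem coeff_D (a : ℕ) (Q : ℂ[X]) (i : ℕ) : (D a Q).coeff i = ((i : ℂ) - a) * Q.coeff i := by
  unfold D
  rw [coeff_sub, coeff_C_mul]
  cases i with
  | zero => simp
  | succ i =>
    rw [coeff_X_mul, coeff_derivative]
    push_cast
    ring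

theorem coeff_iter (a j : ℕ) (Q : ℂ[X]) (i : ℕ) :
    ((D a)^[j] Q).coeff i = ((i : ℂ) - a)^j * Q.coeff i := by
  induction j generalizing Q with
  | zero => simp
  | succ j ih =>
    rw [Function.iterate_succ_apply, ih, coeff_D]
    ring

theorem dvd_D (a m : ℕ) (Q : ℂ[X]) (h : (X - C (1:ℂ))^(m+1) ∣ Q) : (X - C (1:ℂ))^m ∣ D a Q := by
  obtain ⟨R, rfl⟩ := h
  refine ⟨X * (C ((m:ℂ)+1) * R + (X - C 1) * derivative R) - C (a:ℂ) * ((X - C 1) * R), ?_⟩
  unfold D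
  rw [derivative_mul, derivative_X_sub_C_pow]
  simp only [Nat.add_sub_cancel, Nat.cast_add, Nat.cast_one, pow_succ, map_add, map_one,
    Polynomial.C_eq_natCast]
  ring

theorem dvd_iter (a : ℕ) (j m : ℕ) (Q : ℂ[X]) (h : (X - C (1:ℂ))^(m+j) ∣ Q) :
    (X - C (1:ℂ))^m ∣ (D a)^[j] Q := by
  induction j generalizing Q with
  | zero => simpa using h
  | succ j ih =>
    rw [Function.iterate_succ_apply]
    exact ih _ (dvd_D a _ _ h)

/-- the sequence of the coefficients -/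
noncomputable def cs (a : ℕ) (H : ℂ[X]) (l : ℤ) : ℂ := if 0 ≤ l + a then H.coeff (l + a).toNat else 0

theorem cs_sub (a : ℕ) (H : ℂ[X]) (i : ℕ) : cs a H ((i:ℤ) - a) = H.coeff i := by
  unfold cs
  rw [if_pos (by omega)]
  congr 1
  omega

theorem lacunary_coeff (H : ℂ[X]) (h : ∀ x, H.eval x + q * H.eval (q * x) + q^2 * H.eval (q^2 * x) = 0)
    (j : ℕ) (hj : j % 3 = 2) : H.coeff j = 0 := by
  have h1 : H + C q * H.comp (C q * X) + C (q^2) * H.comp (C (q^2) * X) = 0 := by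
    apply Polynomial.funext
    intro x
    simp only [eval_add, eval_mul, eval_C, eval_comp, eval_X, eval_zero]
    exact h x
  have h2 := congrArg (fun p => p.coeff j) h1
  simp only [coeff_add, coeff_C_mul, comp_C_mul_X_coeff, coeff_zero] at h2
  obtain ⟨k, rfl⟩ : ∃ k, j = 3 * k + 2 := ⟨j / 3, by omega⟩
  have e1 : q * q^(3*k+2) = 1 := by
    have : q * q^(3*k+2) = (q^3)^(k+1) := by ring
    rw [this, q_cube, one_pow]
  have e2 : q^2 * (q^2)^(3*k+2) = 1 := by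
    have : q^2 * (q^2)^(3*k+2) = (q^3)^(2*k+2) := by ring
    rw [this, q_cube, one_pow]
  have h3 : 3 * H.coeff (3*k+2) = 0 := by
    linear_combination h2 - H.coeff (3*k+2) * e1 - H.coeff (3*k+2) * e2
  simpa using h3

theorem cs_supp {k : ℕ} (H : ℂ[X]) (hd : H.natDegree ≤ 2 * mu k)
    (hl : ∀ j, j % 3 = mu k % 3 → H.coeff j = 0) (l : ℤ) (h : l ∉ Lam k) : cs (mu k) H l = 0 := by
  unfold cs
  split_ifs with h0
  · unfold Lam at h
    rw [Finset.mem_filter, Finset.mem_Icc] at h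
    by_cases h1 : l ≤ mu k
    · have h2 : (3:ℤ) ∣ l := by
        by_contra h3
        exact h ⟨⟨by omega, h1⟩, h3⟩
      apply hl
      omega
    · apply coeff_eq_zero_of_natDegree_lt
      omega
  · rfl

theorem sum_cs {k : ℕ} (H : ℂ[X]) (hd : H.natDegree ≤ 2 * mu k)
    (hl : ∀ j, j % 3 = mu k % 3 → H.coeff j = 0) (j : ℕ) (z : ℂ) (hz : z ≠ 0) :
    z^(mu k) * ∑ l ∈ Lam k, cs (mu k) H l * (l : ℂ)^j * z^l = ((D (mu k))^[j] H).eval z := by
  have hdeg : ((D (mu k))^[j] H).natDegree < 2 * mu k + 1 := by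
    rw [Nat.lt_succ_iff, natDegree_le_iff_coeff_eq_zero]
    intro i hi
    rw [coeff_iter, coeff_eq_zero_of_natDegree_lt (lt_of_le_of_lt hd hi), mul_zero]
  rw [eval_eq_sum_range' hdeg]
  have h1 : ∑ l ∈ Lam k, cs (mu k) H l * (l : ℂ)^j * z^l =
      ∑ l ∈ Finset.Icc (-(mu k : ℤ)) (mu k), cs (mu k) H l * (l : ℂ)^j * z^l := by
    apply Finset.sum_subset
    · exact Finset.filter_subset _ _
    · intro l _ hl'
      rw [cs_supp H hd hl l hl']
      ring
  have h2 : ∑ l ∈ Finset.Icc (-(mu k : ℤ)) (mu k), cs (mu k) H l * (l : ℂ)^j * z^l =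
      ∑ i ∈ Finset.range (2 * mu k + 1), cs (mu k) H ((i:ℤ) - mu k) * (((i:ℤ) - mu k : ℤ) : ℂ)^j *
        z^((i:ℤ) - mu k) := by
    symm
    apply Finset.sum_bij (fun (i : ℕ) _ => (i:ℤ) - mu k)
    · intro i hi
      rw [Finset.mem_range] at hi
      rw [Finset.mem_Icc]
      omega
    · intro i _ i' _ h
      omega
    · intro l hl'
      rw [Finset.mem_Icc] at hl'
      refine ⟨(l + mu k).toNat, ?_, ?_⟩
      · rw [Finset.mem_range]; omega
      · omega
    · intro i _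
      rfl
  rw [h1, h2, Finset.mul_sum]
  apply Finset.sum_congr rfl
  intro i _
  rw [cs_sub, coeff_iter, zpow_sub₀ hz, zpow_natCast, zpow_natCast]
  push_cast
  field_simp

theorem good_cs {k : ℕ} (H : ℂ[X]) (hd : H.natDegree ≤ 2 * mu k)
    (hl : ∀ j, j % 3 = mu k % 3 → H.coeff j = 0) (hH : H ≠ 0)
    (hdvd : (X - C (1:ℂ))^(2*k+1) ∣ H) : Good k (cs (mu k) H) := by
  refine ⟨cs_supp H hd hl, ?_, ?_⟩
  · intro r hr
    have h1 := sum_cs H hd hl r 1 one_ne_zero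
    simp only [one_pow, one_zpow, mul_one, one_mul] at h1
    rw [h1]
    have h2 := dvd_iter (mu k) r (2*k+1-r) H (by rwa [Nat.sub_add_cancel hr.le])
    obtain ⟨R, hR⟩ := h2
    rw [hR, eval_mul, eval_pow, eval_sub, eval_X, eval_C, sub_self, zero_pow (by omega), zero_mul]
  · obtain ⟨i, hi⟩ : ∃ i, H.coeff i ≠ 0 := by
      by_contra h
      push Not at h
      exact hH (Polynomial.ext (by simpa using h))
    exact ⟨(i:ℤ) - mu k, by rwa [cs_sub]⟩

theorem Ev_cs {k : ℕ} (H : ℂ[X]) (hd : H.natDegree ≤ 2 * mu k)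
    (hl : ∀ j, j % 3 = mu k % 3 → H.coeff j = 0) (j : ℕ) :
    (-q)^(mu k) * Ev k j (cs (mu k) H) = ((D (mu k))^[j] H).eval (-q) :=
  sum_cs H hd hl j (-q) (neg_ne_zero.2 q_ne_zero)

end T14

open T14

theorem LD_Z (N : ℕ) (hN : Odd N) : Z ((-q) :: List.replicate N 1) ≠ 0 ∧
    LD (-q) (List.replicate N 1) = ((RR N - 6 * N - 2 : ℝ) : ℂ) := by
  obtain ⟨n, rfl⟩ := hN
  set N := 2 * n + 1 with hNdef
  have hmu : mu N = 3 * n + 2 := by unfold mu; omega
  obtain ⟨P, hP, hPe⟩ := (Z_pd (N+1) ⟨n+1, by omega⟩).univ [] (List.replicate N 1)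
    (by simp)
  simp only [List.nil_append] at hPe
  set H : ℂ[X] := P * (X^2 - 1) * (X - C 1)^(2*N) with hH
  have hHe : ∀ x, H.eval x = HH x (List.replicate N 1) := by
    intro x
    rw [hH, HH, hPe x, List.map_replicate, List.prod_replicate]
    simp only [eval_mul, eval_sub, eval_pow, eval_X, eval_one, eval_C]
    rw [pow_mul]
    ring
  have hHd : H.natDegree ≤ 2 * mu N := by
    rw [hH]
    refine (natDegree_mul_le).trans ?_
    have h1 : (P * (X^2 - 1)).natDegree ≤ (N + 1 - 2) + 2 := by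
      refine (natDegree_mul_le).trans (add_le_add hP ?_)
      compute_degree
    have h2 : ((X - C (1:ℂ))^(2*N)).natDegree ≤ 2 * N := by
      rw [natDegree_pow, natDegree_X_sub_C, mul_one]
    omega
  have hHl : ∀ j, j % 3 = mu N % 3 → H.coeff j = 0 := by
    intro j hj
    apply lacunary_coeff H _ j (by omega)
    intro x
    rw [hHe, hHe, hHe]
    exact lacunary x _ (by simp only [List.length_replicate]; exact ⟨n, rfl⟩)
  have hP1 : P.eval 1 ≠ 0 := by
    rw [← hPe 1]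
    have h1 : (1:ℂ) :: List.replicate N 1 = List.replicate (2*(n+1)) 1 :=
      congrArg (fun m => List.replicate m (1:ℂ)) (by omega : N + 1 = 2*(n+1))
    rw [h1, Z_ones]
    refine mul_ne_zero (pow_ne_zero _ q_ne_zero) ?_
    exact_mod_cast (chi_pos _).ne'
  have hP0 : P ≠ 0 := by
    rintro rfl
    simp at hP1
  have hX21 : (X^2 - 1 : ℂ[X]) ≠ 0 := by
    intro h
    have := congrArg (eval 2) h
    simp at this
    norm_num at this
  have hH0 : H ≠ 0 := mul_ne_zero (mul_ne_zero hP0 hX21) (pow_ne_zero _ (X_sub_C_ne_zero 1))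
  have hHdvd : (X - C (1:ℂ))^(2*N+1) ∣ H := by
    refine ⟨P * (X + 1), ?_⟩
    rw [hH, pow_succ]
    simp only [map_one]
    ring
  have hgood := good_cs H hHd hHl hH0 hHdvd
  obtain ⟨he0, he1⟩ := good_eval hgood
  have hz : (-q)^(mu N) ≠ 0 := pow_ne_zero _ (neg_ne_zero.2 q_ne_zero)
  have hE0 := Ev_cs H hHd hHl 0
  have hE1 := Ev_cs H hHd hHl 1
  simp only [Function.iterate_zero, id_eq, Function.iterate_one] at hE0 hE1
  have hHz : H.eval (-q) ≠ 0 := by
    rw [← hE0]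
    exact mul_ne_zero hz he0
  have hPz : P.eval (-q) ≠ 0 := by
    intro h
    apply hHz
    rw [hH, eval_mul, eval_mul, h, zero_mul, zero_mul]
  have hmain : 2 * (q^2 - q) * (D (mu N) H).eval (-q) = (RR N : ℂ) * H.eval (-q) := by
    rw [← hE0, ← hE1]
    linear_combination (-q)^(mu N) * he1
  have hderiv : deriv (fun t => Z (t :: List.replicate N 1)) (-q) = (derivative P).eval (-q) := by
    have : (fun t => Z (t :: List.replicate N 1)) = fun t => P.eval t := funext hPe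
    rw [this, Polynomial.deriv]
  have hZz := hPe (-q)
  have hspec := q_spec
  have hw : (-q - 1)^(2*N-1) ≠ 0 := by
    apply pow_ne_zero
    intro h
    have : q^2 = 0 := by linear_combination hspec + h
    exact q_ne_zero (by simpa using this)
  have hHz' : H.eval (-q) = P.eval (-q) * (q^2 - 1) * (-q-1) * (-q-1)^(2*N-1) := by
    rw [hH]
    simp only [eval_mul, eval_sub, eval_pow, eval_X, eval_one, eval_C]
    have : (-q - 1)^(2*N) = (-q-1) * (-q-1)^(2*N-1) := by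
      rw [← pow_succ']; congr 1
    rw [this]
    ring
  have hDz : (D (mu N) H).eval (-q) = (-q-1)^(2*N-1) *
      ((-q) * ((derivative P).eval (-q) * (q^2-1) * (-q-1) + P.eval (-q) * (2 * (-q)) * (-q-1) +
        P.eval (-q) * (q^2-1) * (2 * N)) - (mu N : ℂ) * (P.eval (-q) * (q^2-1) * (-q-1))) := by
    have h1 : (D (mu N) H).eval (-q) = (-q) * (derivative H).eval (-q) - (mu N : ℂ) * H.eval (-q) := by
      simp [D]
    have h2 : (derivative H).eval (-q) = (-q-1)^(2*N-1) * ((derivative P).eval (-q) * (q^2-1) * (-q-1) +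
        P.eval (-q) * (2 * (-q)) * (-q-1) + P.eval (-q) * (q^2-1) * (2 * N)) := by
      rw [hH, derivative_mul, derivative_mul, derivative_X_sub_C_pow]
      simp only [eval_mul, eval_sub, eval_add, eval_pow, eval_X, eval_one, eval_C, derivative_sub,
        derivative_X_pow, derivative_one, eval_zero]
      have : (-q - 1)^(2*N) = (-q-1) * (-q-1)^(2*N-1) := by
        rw [← pow_succ']; congr 1
      rw [this]
      push_cast
      ring
    rw [h1, h2, hHz']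
    ring
  have hmuC : (mu N : ℂ) = (3 * (N:ℂ) + 1) / 2 := by
    rw [hmu, hNdef]; push_cast; ring
  rw [hHz', hDz] at hmain
  have hmain2 : 2 * (q^2 - q) * ((-q) * ((derivative P).eval (-q) * (q^2-1) * (-q-1) +
      P.eval (-q) * (2 * (-q)) * (-q-1) +
        P.eval (-q) * (q^2-1) * (2 * N)) - (mu N : ℂ) * (P.eval (-q) * (q^2-1) * (-q-1))) =
      (RR N : ℂ) * (P.eval (-q) * (q^2 - 1) * (-q-1)) := by
    apply mul_left_cancel₀ hw
    linear_combination hmain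
  refine ⟨by rw [hZz]; exact hPz, ?_⟩
  unfold LD DZ
  rw [hderiv, hZz, List.length_replicate, div_eq_iff hPz]
  push_cast
  rw [hmuC] at hmain2
  set P0 := P.eval (-q)
  set D0 := (derivative P).eval (-q)
  set R := (RR N : ℂ)
  linear_combination (q^2 - q)/3 * hmain2 + (((-2/3))*q^6*D0 + ((1/3))*q^5*P0*N + (1)*q^5*P0 +
    ((4/3))*q^5*D0 + (-2)*q^4*P0*N + (-2)*q^4*P0 + ((2/3))*q^4*D0 + ((11/3))*q^3*P0*N +
    ((-1/3))*q^3*P0*R + ((1/3))*q^3*P0 + ((-10/3))*q^3*D0 + (-1)*q^2*P0*N + ((1/3))*q^2*P0*R +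
    ((7/3))*q^2*P0 + (2)*q^2*D0 + (-5)*q*P0*N + ((2/3))*q*P0*R + (-3)*q*P0 + (6)*P0*N +
    (-1)*P0*R + (2)*P0) * hspec

end Pool.Agent.H980R2.Cross
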