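import Pool.Agent.H980R2.Cross.Defs

/-! T16: asymptotics of `rho`.

`mu (2j+1) = 3j+2`, `mu (2j+2) = 3j+4`.  Let `r m = RR (2m+1)`, `N = 2m+1`: `r 0 = 8`,
`r (m+1)/r m = (6m+8)(6m+10)/((6m+5)(6m+7))`.  So
`r m = 8 ∏_{j<m} (j+4/3)(j+5/3)/((j+5/6)(j+7/6))`, and `r m/m → 8 Γ(5/6)Γ(7/6)/(Γ(4/3)Γ(5/3)) = 6√3`
(Gauss' product `Real.GammaSeq_tendsto_Gamma`, reflection formula: `Γ(7/6)=Γ(1/6)/6`, `Γ(4/3)=Γ(1/3)/3`,
`Γ(5/3)=(2/3)Γ(2/3)`, `Γ(1/6)Γ(5/6)=2π`, `Γ(1/3)Γ(2/3)=2π/√3`), i.e. `r m/N → 3√3`.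
With `P(m) = 27N²+27N+21/2` one has `P m - 1/(m+1) ≤ r m² ≤ P m` (both quotients are monotone with
limit `1`).  Hence `rho N = (r m² - 27N² - 27N - 6)/r m` satisfies
`N rho N → (21/2 - 6)/(3√3) = √3/2`. -/

namespace Pool.Agent.H980R2.Cross

open Pool.Agent.H988R2.Perc Finset Filter Topology

namespace T16

theorem mu_ge (j : ℕ) : 2 ≤ mu (j+1) := by unfold mu; omega

theorem mu_pos' (j : ℕ) : (0:ℝ) < 2 * (mu (j+1) : ℝ) - 3 := by
  have : (2:ℝ) ≤ (mu (j+1) : ℝ) := by exact_mod_cast mu_ge j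
  linarith

end T16

open T16

theorem RR_pos (N : ℕ) : 0 < RR N := by
  unfold RR
  apply mul_pos (by norm_num)
  apply Finset.prod_pos
  intro j _
  have h1 := mu_pos' j
  apply div_pos (by linarith) h1

theorem RR_succ (N : ℕ) : RR (N+1) = RR N * ((2 * (mu (N+1) : ℝ)) / (2 * (mu (N+1) : ℝ) - 3)) := by
  unfold RR
  rw [Finset.prod_range_succ]
  ring

namespace T16

noncomputable def r (m : ℕ) : ℝ := RR (2*m+1)

theorem r_pos (m : ℕ) : 0 < r m := RR_pos _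

theorem r_zero : r 0 = 8 := by
  unfold r RR
  norm_num [mu]

theorem r_succ (m : ℕ) :
    r (m+1) = r m * (((6*m+8) * (6*m+10)) / ((6*m+5) * (6*m+7))) := by
  unfold r
  rw [show 2*(m+1)+1 = (2*m+1+1)+1 by ring, RR_succ, RR_succ]
  have h1 : mu (2*m+1+1) = 3*m+4 := by unfold mu; omega
  have h2 : mu (2*m+1+1+1) = 3*m+5 := by unfold mu; omega
  rw [h1, h2]
  push_cast
  have e1 : (2 * (3 * (m:ℝ) + 4) - 3) = 6*m+5 := by ring
  have e2 : (2 * (3 * (m:ℝ) + 5) - 3) = 6*m+7 := by ring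
  rw [e1, e2]
  have : (6*(m:ℝ)+5) ≠ 0 := by positivity
  have : (6*(m:ℝ)+7) ≠ 0 := by positivity
  field_simp
  ring

theorem r_prod (m : ℕ) : r m = 8 * (((∏ j ∈ range m, ((4/3:ℝ) + j)) * ∏ j ∈ range m, ((5/3:ℝ) + j)) /
    ((∏ j ∈ range m, ((5/6:ℝ) + j)) * ∏ j ∈ range m, ((7/6:ℝ) + j))) := by
  induction m with
  | zero => simp [r_zero]
  | succ m ih =>
    rw [r_succ, ih]
    simp only [Finset.prod_range_succ]
    have h1 : (∏ j ∈ range m, ((5/6:ℝ) + j)) ≠ 0 := by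
      apply Finset.prod_ne_zero_iff.2; intro j _; positivity
    have h2 : (∏ j ∈ range m, ((7/6:ℝ) + j)) ≠ 0 := by
      apply Finset.prod_ne_zero_iff.2; intro j _; positivity
    have h3 : (6*(m:ℝ)+5) ≠ 0 := by positivity
    have h4 : (6*(m:ℝ)+7) ≠ 0 := by positivity
    have h5 : ((5/6:ℝ)+m) ≠ 0 := by positivity
    have h6 : ((7/6:ℝ)+m) ≠ 0 := by positivity
    rw [← sub_eq_zero]
    field_simp
    ring

theorem r_gamma (n : ℕ) (hn : 1 ≤ n) : r (n+1) / n =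
    8 * (Real.GammaSeq (5/6) n * Real.GammaSeq (7/6) n) /
      (Real.GammaSeq (4/3) n * Real.GammaSeq (5/3) n) := by
  have hn0 : (0:ℝ) < n := by exact_mod_cast hn
  rw [r_prod]
  unfold Real.GammaSeq
  have hp : ∀ s : ℝ, 0 < s → (∏ j ∈ range (n+1), (s + j)) ≠ 0 := by
    intro s hs
    apply Finset.prod_ne_zero_iff.2; intro j _; positivity
  have h1 := hp (4/3) (by norm_num)
  have h2 := hp (5/3) (by norm_num)
  have h3 := hp (5/6) (by norm_num)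
  have h4 := hp (7/6) (by norm_num)
  have hf : ((Nat.factorial n : ℕ) : ℝ) ≠ 0 := by positivity
  have e1 : (n:ℝ)^(4/3:ℝ) * (n:ℝ)^(5/3:ℝ) = (n:ℝ)^3 := by
    rw [← Real.rpow_add hn0]
    norm_num
  have e2 : (n:ℝ)^(5/6:ℝ) * (n:ℝ)^(7/6:ℝ) = (n:ℝ)^2 := by
    rw [← Real.rpow_add hn0]
    norm_num
  have p1 : (n:ℝ)^(4/3:ℝ) ≠ 0 := (Real.rpow_pos_of_pos hn0 _).ne'
  have p2 : (n:ℝ)^(5/3:ℝ) ≠ 0 := (Real.rpow_pos_of_pos hn0 _).ne'
  set a := (n:ℝ)^(4/3:ℝ)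
  set b := (n:ℝ)^(5/3:ℝ)
  set c := (n:ℝ)^(5/6:ℝ)
  set d := (n:ℝ)^(7/6:ℝ)
  set A := ∏ j ∈ range (n+1), ((4/3:ℝ) + j)
  set B := ∏ j ∈ range (n+1), ((5/3:ℝ) + j)
  set C := ∏ j ∈ range (n+1), ((5/6:ℝ) + j)
  set D := ∏ j ∈ range (n+1), ((7/6:ℝ) + j)
  have : 8 * (A * B / (C * D)) / (n:ℝ) = 8 * (A * B / (C * D)) * (c * d) / (a * b) := by
    rw [e1, e2]
    field_simp
  rw [this]
  field_simp

theorem gamma_val : 8 * (Real.Gamma (5/6) * Real.Gamma (7/6)) /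
    (Real.Gamma (4/3) * Real.Gamma (5/3)) = 6 * Real.sqrt 3 := by
  have h1 : Real.Gamma (7/6) = (1/6) * Real.Gamma (1/6) := by
    rw [show (7/6:ℝ) = 1/6 + 1 by norm_num, Real.Gamma_add_one (by norm_num)]
  have h2 : Real.Gamma (4/3) = (1/3) * Real.Gamma (1/3) := by
    rw [show (4/3:ℝ) = 1/3 + 1 by norm_num, Real.Gamma_add_one (by norm_num)]
  have h3 : Real.Gamma (5/3) = (2/3) * Real.Gamma (2/3) := by
    rw [show (5/3:ℝ) = 2/3 + 1 by norm_num, Real.Gamma_add_one (by norm_num)]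
  have h4 : Real.Gamma (1/6) * Real.Gamma (5/6) = 2 * Real.pi := by
    have := Real.Gamma_mul_Gamma_one_sub (1/6)
    rw [show (1 - 1/6 : ℝ) = 5/6 by norm_num, show Real.pi * (1/6) = Real.pi / 6 by ring,
      Real.sin_pi_div_six] at this
    rw [this]; ring
  have h5 : Real.Gamma (1/3) * Real.Gamma (2/3) = 2 * Real.pi / Real.sqrt 3 := by
    have := Real.Gamma_mul_Gamma_one_sub (1/3)
    rw [show (1 - 1/3 : ℝ) = 2/3 by norm_num, show Real.pi * (1/3) = Real.pi / 3 by ring,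
      Real.sin_pi_div_three] at this
    rw [this]
    have : Real.sqrt 3 ≠ 0 := by positivity
    field_simp
  have hs : Real.sqrt 3 ≠ 0 := by positivity
  have hs2 : Real.sqrt 3 ^ 2 = 3 := Real.sq_sqrt (by norm_num)
  have hpi := Real.pi_pos.ne'
  have e1 : Real.Gamma (5/6) * Real.Gamma (7/6) = Real.pi / 3 := by
    rw [h1]; linear_combination (1/6) * h4
  have e2 : Real.Gamma (4/3) * Real.Gamma (5/3) = (2/9) * (2 * Real.pi / Real.sqrt 3) := by
    rw [h2, h3]; linear_combination (2/9) * h5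
  rw [e1, e2]
  field_simp
  norm_num

theorem r_lim : Tendsto (fun n : ℕ => r (n+1) / n) atTop (𝓝 (6 * Real.sqrt 3)) := by
  rw [← gamma_val]
  have h : Tendsto (fun n : ℕ => 8 * (Real.GammaSeq (5/6) n * Real.GammaSeq (7/6) n) /
      (Real.GammaSeq (4/3) n * Real.GammaSeq (5/3) n)) atTop
      (𝓝 (8 * (Real.Gamma (5/6) * Real.Gamma (7/6)) / (Real.Gamma (4/3) * Real.Gamma (5/3)))) := by
    apply Tendsto.div
    · exact ((Real.GammaSeq_tendsto_Gamma _).mul (Real.GammaSeq_tendsto_Gamma _)).const_mul 8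
    · exact (Real.GammaSeq_tendsto_Gamma _).mul (Real.GammaSeq_tendsto_Gamma _)
    · exact mul_ne_zero (Real.Gamma_pos_of_pos (by norm_num)).ne'
        (Real.Gamma_pos_of_pos (by norm_num)).ne'
  refine h.congr' ?_
  filter_upwards [eventually_ge_atTop 1] with n hn
  exact (r_gamma n hn).symm

theorem r_lim' : Tendsto (fun m : ℕ => r m / (m:ℝ)) atTop (𝓝 (6 * Real.sqrt 3)) := by
  rw [← tendsto_add_atTop_iff_nat 1]
  have h : Tendsto (fun n : ℕ => (n:ℝ) / (n + 1)) atTop (𝓝 1) := tendsto_natCast_div_add_atTop 1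
  have h2 := r_lim.mul h
  rw [mul_one] at h2
  refine h2.congr' ?_
  filter_upwards [eventually_ge_atTop 1] with n hn
  have hn0 : (0:ℝ) < n := by exact_mod_cast hn
  push_cast
  field_simp

noncomputable def P (m : ℕ) : ℝ := 108 * (m:ℝ)^2 + 162 * m + 129/2

theorem P_pos (m : ℕ) : 0 < P m := by unfold P; positivity

theorem inv_lim : Tendsto (fun m : ℕ => ((m:ℝ))⁻¹) atTop (𝓝 0) := tendsto_inv_atTop_nhds_zero_nat

/-- `r m ^2 / (P m - e/(m+1)) → 1` -/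
theorem quot_lim (e : ℝ) : Tendsto (fun m : ℕ => (r m)^2 / (P m - e / (m+1))) atTop (𝓝 1) := by
  have h1 : Tendsto (fun m : ℕ => (r m / (m:ℝ))^2) atTop (𝓝 108) := by
    have := r_lim'.pow 2
    have hs2 : Real.sqrt 3 ^ 2 = 3 := Real.sq_sqrt (by norm_num)
    rw [mul_pow, hs2] at this
    norm_num at this
    exact this
  have h3 : Tendsto (fun m : ℕ => ((m:ℝ)+1)⁻¹) atTop (𝓝 0) := by
    have := tendsto_one_div_add_atTop_nhds_zero_nat (𝕜 := ℝ)
    simpa using this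
  have h2 : Tendsto (fun m : ℕ => 108 + 162 * ((m:ℝ))⁻¹ + 129/2 * ((m:ℝ))⁻¹^2 -
      e * ((m:ℝ)+1)⁻¹ * ((m:ℝ))⁻¹^2) atTop (𝓝 (108 + 162 * 0 + 129/2 * 0^2 - e * 0 * 0^2)) := by
    exact (((tendsto_const_nhds.add (inv_lim.const_mul _)).add ((inv_lim.pow 2).const_mul _)).sub
      ((h3.const_mul e).mul (inv_lim.pow 2)))
  have h4 := h1.div h2 (by norm_num)
  norm_num at h4
  refine h4.congr' ?_
  filter_upwards [eventually_ge_atTop 1] with n hn
  have hn0 : (0:ℝ) < n := by exact_mod_cast hn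
  simp only [Pi.div_apply]
  unfold P
  have : (108 + 162 * ((n:ℝ))⁻¹ + 129/2 * ((n:ℝ)^2)⁻¹ - e * ((n:ℝ)+1)⁻¹ * ((n:ℝ)^2)⁻¹) =
    (108 * (n:ℝ)^2 + 162 * n + 129/2 - e / (n+1)) / n^2 := by
    field_simp
  rw [this, div_pow, div_div_div_cancel_right₀]
  positivity

theorem sq_le (m : ℕ) : (r m)^2 ≤ P m := by
  have hmono : Monotone (fun m : ℕ => (r m)^2 / (P m - 0 / (m+1))) := by
    apply monotone_nat_of_le_succ
    intro m
    simp only [zero_div, sub_zero]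
    rw [r_succ, div_le_div_iff₀ (P_pos _) (P_pos _)]
    have h1 : 0 < (6*(m:ℝ)+5) * (6*m+7) := by positivity
    rw [mul_pow, div_pow, mul_assoc]
    apply mul_le_mul_of_nonneg_left _ (sq_nonneg _)
    rw [div_mul_eq_mul_div, le_div_iff₀ (by positivity)]
    unfold P
    push_cast
    nlinarith [(Nat.cast_nonneg m : (0:ℝ) ≤ m)]
  have h := hmono.ge_of_tendsto (quot_lim 0) m
  simp only [zero_div, sub_zero] at h
  rwa [div_le_one (P_pos m)] at h

theorem Q_pos (m : ℕ) : 0 < P m - 1 / (m+1) := by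
  have h1 : 1 / ((m:ℝ)+1) ≤ 1 := by
    rw [div_le_one (by positivity)]
    linarith [(Nat.cast_nonneg m : (0:ℝ) ≤ m)]
  unfold P
  nlinarith [(Nat.cast_nonneg m : (0:ℝ) ≤ m)]

theorem le_sq (m : ℕ) : P m - 1 / (m+1) ≤ (r m)^2 := by
  have hanti : Antitone (fun m : ℕ => (r m)^2 / (P m - 1 / (m+1))) := by
    apply antitone_nat_of_succ_le
    intro m
    rw [r_succ, div_le_div_iff₀ (Q_pos _) (Q_pos _)]
    have h1 : 0 < (6*(m:ℝ)+5) * (6*m+7) := by positivity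
    rw [mul_pow, div_pow, mul_assoc]
    apply mul_le_mul_of_nonneg_left _ (sq_nonneg _)
    rw [div_mul_eq_mul_div, div_le_iff₀ (by positivity)]
    unfold P
    push_cast
    have hm : (0:ℝ) ≤ m := Nat.cast_nonneg m
    have e1 : 108 * (m:ℝ)^2 + 162 * m + 129/2 - 1 / (m+1) =
      ((108 * (m:ℝ)^2 + 162 * m + 129/2) * (m+1) - 1) / (m+1) := by field_simp
    have e2 : 108 * ((m:ℝ)+1)^2 + 162 * (m+1) + 129/2 - 1 / (m+1+1) =
      ((108 * ((m:ℝ)+1)^2 + 162 * (m+1) + 129/2) * (m+2) - 1) / (m+2) := by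
      rw [show (m:ℝ)+1+1 = m+2 by ring]; field_simp
    rw [e1, e2, mul_div_assoc', div_mul_eq_mul_div, div_le_div_iff₀ (by positivity) (by positivity)]
    rw [← sub_nonneg]
    ring_nf
    positivity
  have h := hanti.le_of_tendsto (quot_lim 1) m
  rwa [one_le_div (Q_pos m)] at h

end T16

open T16

theorem rho_tendsto :
    Tendsto (fun m : ℕ => ((2 * m + 1 : ℕ) : ℝ) * rho (2 * m + 1)) atTop (𝓝 (Real.sqrt 3 / 2)) := by
  have hs : (0:ℝ) < Real.sqrt 3 := by positivity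
  have hs2 : Real.sqrt 3 ^ 2 = 3 := Real.sq_sqrt (by norm_num)
  have h1 : Tendsto (fun m : ℕ => (r m)^2 - (P m - 9/2)) atTop (𝓝 (9/2)) := by
    have h3 : Tendsto (fun m : ℕ => 9/2 - 1 / ((m:ℝ)+1)) atTop (𝓝 (9/2)) := by
      have := (tendsto_one_div_add_atTop_nhds_zero_nat (𝕜 := ℝ)).const_sub (9/2)
      simpa using this
    refine tendsto_of_tendsto_of_tendsto_of_le_of_le h3 tendsto_const_nhds ?_ ?_
    · intro m
      have := le_sq m
      simp only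
      linarith
    · intro m
      have := sq_le m
      simp only
      linarith
  have h2 : Tendsto (fun m : ℕ => ((2 * (m:ℝ) + 1) / m) / (r m / m)) atTop
      (𝓝 (2 / (6 * Real.sqrt 3))) := by
    apply Tendsto.div _ r_lim' (by positivity)
    have : Tendsto (fun m : ℕ => 2 + ((m:ℝ))⁻¹) atTop (𝓝 (2 + 0)) :=
      tendsto_const_nhds.add inv_lim
    rw [add_zero] at this
    refine this.congr' ?_
    filter_upwards [eventually_ge_atTop 1] with n hn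
    have hn0 : (0:ℝ) < n := by exact_mod_cast hn
    field_simp
  have h3 := h1.mul h2
  have e : (9/2 : ℝ) * (2 / (6 * Real.sqrt 3)) = Real.sqrt 3 / 2 := by
    field_simp
    nlinarith
  rw [e] at h3
  refine h3.congr' ?_
  filter_upwards [eventually_ge_atTop 1] with n hn
  have hn0 : (0:ℝ) < n := by exact_mod_cast hn
  have hr := r_pos n
  unfold rho
  change _ = ((2 * n + 1 : ℕ) : ℝ) * (r n - 3 * (3 * ((2*n+1 : ℕ):ℝ) + 1) * (3 * ((2*n+1 : ℕ):ℝ) + 2) / r n)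
  unfold P
  push_cast
  field_simp
  ring

end Pool.Agent.H980R2.Cross
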