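import Pool.Agent.H980R2.Cross.T01
import Pool.Agent.H980R2.Cross.T02
import Pool.Agent.H988R2.Perc.T12

/-! T17: words and states.

* `Phi_rel_arc`: induction on `n` with `w = ins j w'`, `j = firstArc w` (`dyck_firstArc` in
  `H988R2.Perc.T01`), `Phi (n+1) w = St.ins j (Phi n w')`: faces `p, p+2` are joined in `St.ins j R` iff
  `p = j` (both come from the same old face), or `p ≥ j+2` and `R.rel (p-2) p`, or `p ≤ j-2` and
  `R.rel p (p+2)`; for `p = j ± 1` one of the two faces is the new isolated one.  Compare
  `arc_ins_self`, `not_arc_succ_ins`, `not_arc_ins_succ`, `arc_ins_right`, `arc_ins_left`.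
* `ext_act`: by induction on `Dyck w` (`w = ins j w'`) with `ext_ins` and the `act_ins_*` lemmas.
* `Phi_ext_outer`: induction with `Phi_ins`. -/

namespace Pool.Agent.H980R2.Cross

open Pool.Agent.H988R2.Perc

theorem Phi_rel_arc {n p : ℕ} {w : Word} (hw : Dyck w) (hl : w.length = 2*n) (hp : p % 2 = 1)
    (h : p + 2 ≤ 2*n) : (Phi n w).rel p (p+2) ↔ arc p w := by
  induction n generalizing p w with
  | zero => omega
  | succ n ih =>
    have hne : w ≠ [] := by rintro rfl; simp at hl
    obtain ⟨h1, h2, h3⟩ := dyck_firstArc hw hne
    generalize firstArc w = j at h1 h2 h3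
    generalize rem j w = x at h2 h3
    subst h2
    rw [length_ins] at h1 hl
    have hxl : x.length = 2*n := by omega
    rw [Phi_ins h3 hxl (by omega), St.ins_rel]
    rcases Nat.lt_trichotomy p j with hpj | hpj | hpj
    · rcases Nat.lt_or_ge (p+1) j with h' | h'
      · have e1 : St.low j p = p := by unfold St.low; rw [if_pos (by omega)]
        have e2 : St.low j (p+2) = p+2 := by unfold St.low; rw [if_pos (by omega)]
        rw [e1, e2, ih h3 hxl hp (by omega), arc_ins_left (by omega) (by omega)]
        constructor
        · rintro (h4 | ⟨-, -, -, -, h4⟩)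
          · omega
          · exact h4
        · intro h4
          exact Or.inr ⟨hp, by omega, by omega, by omega, h4⟩
      · obtain rfl : j = p+1 := by omega
        constructor
        · rintro (h4 | ⟨-, -, -, h4, -⟩)
          · omega
          · omega
        · intro h4
          exact absurd h4 (not_arc_ins_succ (by omega))
    · subst hpj
      have e1 : St.low p p = p := by unfold St.low; rw [if_pos (by omega)]
      have e2 : St.low p (p+2) = p := by unfold St.low; rw [if_neg (by omega)]; omega
      rw [e1, e2]
      constructor
      · intro _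
        exact arc_ins_self (by omega)
      · intro _
        exact Or.inr ⟨hp, by omega, by omega, by omega, (Phi n x).eqv.1 p⟩
    · rcases Nat.lt_or_ge (j+1) p with h' | h'
      · have e1 : St.low j p = p - 2 := by unfold St.low; rw [if_neg (by omega)]
        have e2 : St.low j (p+2) = p := by unfold St.low; rw [if_neg (by omega)]; omega
        have e3 : p - 2 + 2 = p := by omega
        have ih' := ih (p := p - 2) h3 hxl (by omega) (by omega)
        rw [e3] at ih'
        rw [e1, e2, ih', arc_ins_right (by omega) (by omega)]
        constructor
        · rintro (h4 | ⟨-, -, -, -, h4⟩)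
          · omega
          · exact h4
        · intro h4
          exact Or.inr ⟨hp, by omega, by omega, by omega, h4⟩
      · obtain rfl : p = j+1 := by omega
        constructor
        · rintro (h4 | ⟨-, -, h4, -, -⟩)
          · omega
          · omega
        · intro h4
          exact absurd h4 (not_arc_succ_ins (by omega))

theorem length_ext (w : Word) : (ext w).length = w.length + 2 := by
  simp [ext]

theorem ext_ins {i : ℕ} {w : Word} (h : i ≤ w.length) : ext (ins i w) = ins (i+1) (ext w) := by
  obtain ⟨a, b, rfl, ha⟩ := exists_split h
  rw [ins_app _ _ ha]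
  have e : ext (a ++ b) = (true :: a) ++ (b ++ [false]) := by
    simp [ext]
  rw [e, ins_app _ _ (by simp [ha])]
  simp [ext]

theorem ext_dyck {w : Word} (hw : Dyck w) : Dyck (ext w) := by
  induction hw with
  | nil => exact Dyck.ins 0 [] (by simp) Dyck.nil
  | ins i w h _ ih =>
    rw [ext_ins h]
    exact Dyck.ins _ _ (by rw [length_ext]; omega) ih

theorem ext_act {i : ℕ} {w : Word} (hw : Dyck w) (h : i + 2 ≤ w.length) :
    act (i+1) (ext w) = ext (act i w) := by
  induction hw generalizing i with
  | nil => simp at h
  | ins j x hj hx ih =>
    rw [length_ins] at h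
    have hl := length_ext x
    rw [ext_ins hj]
    rcases lt_trichotomy i j with h' | h' | h'
    · rcases Nat.lt_or_ge (i+1) j with h'' | h''
      · rw [act_ins_right (by omega) (by omega), act_ins_right (by omega) (by omega),
          ih (by omega), ext_ins (by rw [length_act (by omega)]; omega)]
      · obtain rfl : j = i+1 := by omega
        rw [act_ins_succ (by omega), act_ins_succ (by omega), ext_ins (by omega)]
    · subst h'
      rw [act_ins_self (by omega), act_ins_self (by omega), ext_ins (by omega)]
    · rcases Nat.lt_or_ge (j+1) i with h'' | h''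
      · have e : i + 1 - 2 = (i - 2) + 1 := by omega
        rw [act_ins_left (by omega) (by omega), act_ins_left (by omega) (by omega), e,
          ih (by omega), ext_ins (by rw [length_act (by omega)]; omega)]
      · obtain rfl : i = j+1 := by omega
        rw [act_succ_ins (by omega), act_succ_ins (by omega), ext_ins (by omega)]

theorem arc_ext {i : ℕ} {w : Word} (h : i + 2 ≤ w.length) : arc (i+1) (ext w) ↔ arc i w := by
  unfold arc ext
  rw [List.getElem?_cons_succ, List.getElem?_cons_succ, List.getElem?_append_left (by omega),
    List.getElem?_append_left (by omega)]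

theorem Phi_ext_outer {n : ℕ} {w : Word} (hw : Dyck w) (hl : w.length = 2*n) :
    (Phi (n+1) (ext w)).rel 1 (2*n+1) := by
  induction n generalizing w with
  | zero => exact (Phi 1 (ext w)).eqv.1 1
  | succ n ih =>
    have hne : w ≠ [] := by rintro rfl; simp at hl
    obtain ⟨h1, h2, h3⟩ := dyck_firstArc hw hne
    generalize firstArc w = j at h1 h2 h3
    generalize rem j w = x at h2 h3
    subst h2
    rw [length_ins] at h1 hl
    have hxl : x.length = 2*n := by omega
    rw [ext_ins (by omega), Phi_ins (ext_dyck h3) (by rw [length_ext]; omega) (by omega),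
      St.ins_rel]
    have e1 : St.low (j+1) 1 = 1 := by unfold St.low; rw [if_pos (by omega)]
    have e2 : St.low (j+1) (2*(n+1)+1) = 2*n+1 := by
      unfold St.low; rw [if_neg (by omega)]; omega
    rw [e1, e2]
    exact Or.inr ⟨by omega, by omega, by omega, by omega, ih h3 hxl⟩

end Pool.Agent.H980R2.Cross
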