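import Pool.Agent.H980R2.Cross.T18
import Pool.Agent.H980R2.Cross.T09
import Pool.Agent.H980R2.Cross.T10
import Pool.Agent.H980R2.Cross.T15

/-! T19: the stationary value of `JT`.

Let `l' = 1^N ++ [0]`, `N` odd, `Fc = fac (-q²) l' ≠ 0` (`fac_ne`), `Z' = Z ((-q²)::(-q)::l') = Fc Z l'`
(`Z_rec`, as `q² (-q²) = -q`).  `Fc • ins0 (Psi l') = Psi ((-q²)::(-q)::l')` (`Psi_rec`).
All maps `fwV, bwV, JF, JB` are linear.  `fwV 1 k` of this vector is
`Psi ((-q²)::1^k ++ (-q)::(1^(N-k) ++ [0]))` (`fwd_eq` in T20; `fwV 1 = fwd`, `bwV 1 = bwd`), so the forward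
part is the sum over odd `i = 1,3,…,N` of `A i` (`phi_Psi`) of this list (`k = i-1`).  `A_exch` with
`x = -q, y = 1` gives `A_i(before) = Z' + 2 (A_i(before) - A_i(after))`.  So the forward part is
`(N+1)/2 * Z' + 2 Fro [-q²] (-q) l'` (the last step, past the entry `0`, is at the even position `N+1`
and does not count in `Fro`).  At the turn: `Psi_inv0` gives the factor `(-q)^(N+1)` and `-q ↦ (-q)⁻¹ = -q²`;
backwards (`bwd_eq`, `A_exch` with `x = 1, y = -q²`): `(N+1)/2 * Z' - 2 (-q)^(N+1) Fro [-q²] (-q²) l'`.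
As `Fro [] x (y::v) = 0 + Fro [y] x v`, the sum is `(N+1) Z' + 2 Mto (-q) ((-q²)::l')`; use `two_Mto`,
`loop_formula`, the definition of `LD`, and `Z ((-q)::(-q²)::l') = Z'` (`Z_perm`). -/

namespace Pool.Agent.H980R2.Cross

open Pool.Agent.H988R2.Perc Finset

namespace T19

theorem fwV_smul (d L : ℕ) (c : ℂ) (f : St →₀ ℂ) : fwV d L (c • f) = c • fwV d L f := by
  induction L with
  | zero => rfl
  | succ L ih => simp only [fwV]; rw [ih, T20.tile_smul]

theorem JF_smul (d L : ℕ) (c : ℂ) (f : St →₀ ℂ) : JF d L (c • f) = c * JF d L f := by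
  induction L with
  | zero => simp [JF]
  | succ L ih =>
    simp only [JF]
    rw [ih, fwV_smul]
    split_ifs
    · rw [phi_smul]; ring
    · ring

theorem JB_smul (d L : ℕ) (c : ℂ) (f : St →₀ ℂ) : JB d L (c • f) = c * JB d L f := by
  induction L generalizing f with
  | zero => simp [JB]
  | succ L ih =>
    simp only [JB]
    rw [T20.tile_smul, ih]
    split_ifs
    · rw [phi_smul]; ring
    · ring

theorem fwV_one (L : ℕ) (f : St →₀ ℂ) : fwV 1 L f = fwd L f := by
  induction L with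
  | zero => rfl
  | succ L ih => simp only [fwV, fwd]; rw [ih]

/-- the prefix -/
noncomputable def uu (k : ℕ) : List ℂ := (-q^2) :: List.replicate k 1

theorem uu_len (k : ℕ) : (uu k).length = k + 1 := by simp [uu]

theorem uu_succ (k : ℕ) (v : List ℂ) : uu (k+1) ++ v = uu k ++ 1 :: v := by
  unfold uu
  rw [List.replicate_succ']
  simp

theorem uu_succ' (k : ℕ) : uu (k+1) = uu k ++ [1] := by
  have := uu_succ k []
  simpa using this

/-- the suffix -/
noncomputable def vv (m : ℕ) : List ℂ := List.replicate m 1 ++ [0]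

theorem vv_len (m : ℕ) : (vv m).length = m + 1 := by simp [vv]

theorem vv_succ (m : ℕ) : vv (m+1) = 1 :: vv m := by
  unfold vv
  rw [List.replicate_succ]
  rfl

theorem even_len (k m : ℕ) (h : Odd (k + m + 1)) : Even ((uu k).length + (vv m).length) := by
  rw [uu_len, vv_len]
  obtain ⟨t, ht⟩ := h
  exact ⟨t + 1, by omega⟩

/-- the arc mass before and after moving `-q` to the right -/
theorem A_right (k m : ℕ) (h : Odd (k + m + 1)) :
    A (k+1) (uu k ++ (-q) :: 1 :: vv m) =
      2 * A (k+1) (uu k ++ 1 :: (-q) :: vv m) - Z (uu k ++ (-q) :: 1 :: vv m) := by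
  have h1 := A_exch (uu k) (vv m) (-q) 1 (even_len k m h)
  rw [uu_len] at h1
  have e1 : q * (-q) - q^2 * 1 = -2 * q^2 := by ring
  have e2 : q * 1 - q^2 * (-q) = -q^2 := by
    have := q_cube; have h2 := q_spec
    linear_combination this + h2
  have e3 : (1 : ℂ) - (-q) = -q^2 := by
    have h2 := q_spec
    linear_combination h2
  rw [e1, e2, e3] at h1
  have hq : q^2 ≠ 0 := pow_ne_zero _ q_ne_zero
  apply mul_left_cancel₀ hq
  linear_combination h1

theorem A_left (k m : ℕ) (h : Odd (k + m + 1)) :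
    A (k+1) (uu k ++ 1 :: (-q^2) :: vv m) =
      2 * A (k+1) (uu k ++ (-q^2) :: 1 :: vv m) - Z (uu k ++ 1 :: (-q^2) :: vv m) := by
  have h1 := A_exch (uu k) (vv m) 1 (-q^2) (even_len k m h)
  rw [uu_len] at h1
  have e1 : q * 1 - q^2 * (-q^2) = 2 * q := by
    have := T20.q4
    linear_combination this
  have e2 : q * (-q^2) - q^2 * 1 = q := by
    have := q_cube; have h2 := q_spec
    linear_combination -this - h2
  have e3 : (-q^2 : ℂ) - 1 = q := by
    have h2 := q_spec
    linear_combination -h2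
  rw [e1, e2, e3] at h1
  apply mul_left_cancel₀ q_ne_zero
  linear_combination -h1

theorem Z_all (x : ℂ) (k m : ℕ) (h : Odd (k + m)) :
    Z (uu k ++ x :: vv m) = Z ((-q^2) :: x :: vv (k + m)) := by
  apply Z_perm
  · simp only [List.length_append, uu_len, List.length_cons, vv_len]
    obtain ⟨t, ht⟩ := h
    exact ⟨t + 2, by omega⟩
  · have e : vv (k + m) = List.replicate k 1 ++ vv m := by
      unfold vv
      rw [List.replicate_add, List.append_assoc]
    rw [e]
    unfold uu
    simp only [List.cons_append]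
    refine List.Perm.cons _ ?_
    exact List.perm_middle

theorem fwd_part (N : ℕ) (hN : Odd N) (k : ℕ) (hk : k ≤ N) :
    JF 1 k (Psi ((-q^2) :: (-q) :: vv N)) + 2 * Fro (uu k) (-q) (vv (N-k)) =
      (((k+1)/2 : ℕ) : ℂ) * Z ((-q^2) :: (-q) :: vv N) + 2 * Fro (uu 0) (-q) (vv N) := by
  induction k with
  | zero => simp [JF]
  | succ k ih =>
    have ih' := ih (by omega)
    obtain ⟨m, hm⟩ : ∃ m, N - k = m + 1 := ⟨N - k - 1, by omega⟩
    have hm' : N - (k+1) = m := by omega
    have hkm : k + m + 1 = N := by omega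
    have hodd : Odd (k + m + 1) := by rw [hkm]; exact hN
    rw [hm, vv_succ] at ih'
    rw [hm']
    simp only [Fro, uu_len] at ih'
    simp only [JF]
    have hf := T20.fwd_eq N hN k (by omega)
    rw [hm] at hf
    have hf' : fwV 1 k (Psi ((-q^2) :: (-q) :: vv N)) = Psi (uu k ++ (-q) :: 1 :: vv m) := by
      rw [fwV_one]
      have e : (-q^2) :: (-q) :: (List.replicate N (1:ℂ) ++ [0]) = (-q^2) :: (-q) :: vv N := rfl
      rw [e] at hf
      rw [← hf]
      have e2 : (-q^2) :: List.replicate k (1:ℂ) ++ (-q) :: (List.replicate (m+1) 1 ++ [0]) =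
        uu k ++ (-q) :: vv (m+1) := rfl
      rw [e2, vv_succ]
    rw [hf', uu_succ']
    by_cases hp : (k+1) % 2 = 1
    · rw [if_pos hp] at ih' ⊢
      have hphi : phi (k+1) (Psi (uu k ++ (-q) :: 1 :: vv m)) =
          A (k+1) (uu k ++ (-q) :: 1 :: vv m) := by
        apply phi_Psi _ hp
        · simp only [List.length_append, uu_len, List.length_cons, vv_len]; omega
        · simp only [List.length_append, uu_len, List.length_cons, vv_len]
          obtain ⟨t, ht⟩ := hodd
          exact ⟨t + 2, by omega⟩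
      rw [hphi]
      have hA := A_right k m hodd
      have hZ : Z (uu k ++ (-q) :: 1 :: vv m) = Z ((-q^2) :: (-q) :: vv N) := by
        rw [← vv_succ, Z_all (-q) k (m+1) (by rw [← add_assoc]; exact hodd), ← add_assoc, hkm]
      rw [hZ] at hA
      have hc : (((k+1+1)/2 : ℕ) : ℂ) = (((k+1)/2 : ℕ) : ℂ) + 1 := by
        have : (k+1+1)/2 = (k+1)/2 + 1 := by omega
        rw [this]; push_cast; ring
      rw [hc]
      linear_combination ih' - hA
    · rw [if_neg hp] at ih' ⊢
      have hc : (k+1+1)/2 = (k+1)/2 := by omega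
      rw [hc]
      linear_combination ih'

theorem bwd_part (N : ℕ) (hN : Odd N) (k : ℕ) (hk : k ≤ N) :
    JB 1 k (Psi (uu k ++ (-q^2) :: vv (N-k))) =
      (((k+1)/2 : ℕ) : ℂ) * Z ((-q^2) :: (-q^2) :: vv N) + 2 * Fro (uu k) (-q^2) (vv (N-k)) -
        2 * Fro (uu 0) (-q^2) (vv N) := by
  induction k with
  | zero => simp [JB]
  | succ k ih =>
    have ih' := ih (by omega)
    obtain ⟨m, hm⟩ : ∃ m, N - k = m + 1 := ⟨N - k - 1, by omega⟩
    have hm' : N - (k+1) = m := by omega
    have hkm : k + m + 1 = N := by omega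
    have hodd : Odd (k + m + 1) := by rw [hkm]; exact hN
    rw [hm, vv_succ] at ih'
    rw [hm']
    simp only [Fro, uu_len] at ih'
    simp only [JB]
    have hml := T20.move_left (uu k) (vv m) (even_len k m hodd)
    rw [uu_len] at hml
    rw [uu_succ, ← hml, ih', uu_succ']
    by_cases hp : (k+1) % 2 = 1
    · rw [if_pos hp, if_pos hp]
      have hphi : phi (k+1) (Psi (uu k ++ 1 :: (-q^2) :: vv m)) =
          A (k+1) (uu k ++ 1 :: (-q^2) :: vv m) := by
        apply phi_Psi _ hp
        · simp only [List.length_append, uu_len, List.length_cons, vv_len]; omega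
        · simp only [List.length_append, uu_len, List.length_cons, vv_len]
          obtain ⟨t, ht⟩ := hodd
          exact ⟨t + 2, by omega⟩
      rw [hphi]
      have hA := A_left k m hodd
      have hZ : Z (uu k ++ 1 :: (-q^2) :: vv m) = Z ((-q^2) :: (-q^2) :: vv N) := by
        rw [Z_swap (uu k) (vv m) (-q^2) 1 (even_len k m hodd), ← vv_succ,
          Z_all (-q^2) k (m+1) (by rw [← add_assoc]; exact hodd), ← add_assoc, hkm]
      rw [hZ] at hA
      have hc : (((k+1+1)/2 : ℕ) : ℂ) = (((k+1)/2 : ℕ) : ℂ) + 1 := by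
        have : (k+1+1)/2 = (k+1)/2 + 1 := by omega
        rw [this]; push_cast; ring
      rw [hc]
      linear_combination -hA
    · rw [if_neg hp, if_neg hp]
      have hc : (k+1+1)/2 = (k+1)/2 := by omega
      rw [hc]
      ring

theorem inv_q : (-q)⁻¹ = -q^2 := by
  have hq := q_ne_zero
  have h3 := q_cube
  rw [inv_eq_iff_eq_inv]
  have : (-q^2) ≠ 0 := neg_ne_zero.mpr (pow_ne_zero _ hq)
  apply mul_right_cancel₀ this
  rw [inv_mul_cancel₀ this]
  linear_combination h3

end T19

open T19 in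
theorem JT_value (N : ℕ) (hN : Odd N) :
    JT N (Psi (List.replicate N 1 ++ [0])) =
      ((N : ℂ) + 1 + LD (-q) ((-q^2) :: (List.replicate N 1 ++ [0]))) *
        Z (List.replicate N 1 ++ [0]) := by
  have h4 := T20.q4
  have hq := q_ne_zero
  have hLe : Even (N + 1) := hN.add_one
  change JT N (Psi (vv N)) = ((N : ℂ) + 1 + LD (-q) ((-q^2) :: vv N)) * Z (vv N)
  have hFc : fac (-q^2) (vv N) ≠ 0 := T20.fac_ne N
  have hrec : Psi ((-q^2) :: (-q) :: vv N) = fac (-q^2) (vv N) • ins0 (Psi (vv N)) := by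
    have := Psi_rec [] (vv N) (-q^2) (by simpa [vv_len] using hLe)
    have e : q^2 * (-q^2) = -q := by linear_combination -h4
    rw [e] at this
    simpa [ins0] using this
  have hZrec : Z ((-q^2) :: (-q) :: vv N) = fac (-q^2) (vv N) * Z (vv N) := by
    have := Z_rec [] (vv N) (-q^2) (by simpa [vv_len] using hLe)
    have e : q^2 * (-q^2) = -q := by linear_combination -h4
    rw [e] at this
    simpa using this
  -- the last steps of `Fro`
  have hlast : ∀ x, Fro (uu N) x (vv 0) = 0 := by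
    intro x
    have e : vv 0 = [0] := rfl
    rw [e]
    simp only [Fro, uu_len]
    rw [if_neg (by obtain ⟨t, ht⟩ := hN; omega)]
    ring
  -- forward part
  have hf := fwd_part N hN N le_rfl
  rw [Nat.sub_self, hlast] at hf
  -- the turn
  have hturn : fwV 1 N (Psi ((-q^2) :: (-q) :: vv N)) =
      (-q)^(N+1) • Psi (uu N ++ (-q^2) :: vv 0) := by
    rw [fwV_one]
    have h1 := T20.fwd_eq N hN N le_rfl
    rw [Nat.sub_self] at h1
    have e : (-q^2) :: (-q) :: (List.replicate N (1:ℂ) ++ [0]) = (-q^2) :: (-q) :: vv N := rfl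
    rw [e] at h1
    rw [← h1]
    have := Psi_inv0 (-q) (uu N) (neg_ne_zero.mpr hq) (by rw [uu_len]; exact hLe)
    rw [inv_q, uu_len] at this
    exact this
  have hb := bwd_part N hN N le_rfl
  rw [Nat.sub_self, hlast] at hb
  -- Z at the turn
  have hZturn : (-q)^(N+1) * Z ((-q^2) :: (-q^2) :: vv N) = Z ((-q^2) :: (-q) :: vv N) := by
    have h1 := congrArg mass (Psi_inv0 (-q) (uu N) (neg_ne_zero.mpr hq) (by rw [uu_len]; exact hLe))
    rw [mass_smul, inv_q, uu_len] at h1
    change Z (uu N ++ (-q) :: vv 0) = (-q)^(N+1) * Z (uu N ++ (-q^2) :: vv 0) at h1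
    rw [Z_all (-q) N 0 hN, Z_all (-q^2) N 0 hN, add_zero] at h1
    exact h1.symm
  -- the loop formula
  have hMto : Mto (-q) ((-q^2) :: vv N) =
      Fro (uu 0) (-q) (vv N) - (-q)^(N+1) * Fro (uu 0) (-q^2) (vv N) := by
    unfold Mto
    have e : ∀ x : ℂ, Fro [] x ((-q^2) :: vv N) = Fro (uu 0) x (vv N) := by
      intro x
      simp only [Fro, List.length_nil, List.nil_append]
      rw [if_neg (by norm_num)]
      have : uu 0 = [-q^2] := rfl
      rw [this]; ring
    rw [e, e, inv_q]
    simp only [List.length_cons, vv_len]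
    rfl
  have hodd : Odd ((-q^2) :: vv N).length := by
    simp only [List.length_cons, vv_len]
    exact hLe.add_one
  have h2 := two_Mto (-q) ((-q^2) :: vv N) (neg_ne_zero.mpr hq) hodd
  rw [loop_formula (-q) (neg_ne_zero.mpr hq) ((-q^2) :: vv N) hodd] at h2
  have hZne : Z ((-q) :: (-q^2) :: vv N) ≠ 0 := (LD_T N hN).1
  have hZsw : Z ((-q) :: (-q^2) :: vv N) = Z ((-q^2) :: (-q) :: vv N) := by
    have := Z_swap [] (vv N) (-q^2) (-q) (by simpa [vv_len] using hLe)
    simpa using this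
  have hLD : LD (-q) ((-q^2) :: vv N) * Z ((-q^2) :: (-q) :: vv N) =
      (q^2 - q) * DZ (-q) ((-q^2) :: vv N) := by
    unfold LD
    rw [← hZsw, div_mul_cancel₀ _ hZne]
  -- conclusion
  apply mul_left_cancel₀ hFc
  have hJ : fac (-q^2) (vv N) * JT N (Psi (vv N)) =
      JF 1 N (Psi ((-q^2) :: (-q) :: vv N)) + JB 1 N (fwV 1 N (Psi ((-q^2) :: (-q) :: vv N))) := by
    unfold JT
    rw [hrec, fwV_smul, JF_smul, JB_smul]
    ring
  rw [hJ, hturn, JB_smul, hb]
  have hc : (((N+1)/2 : ℕ) : ℂ) = ((N : ℂ) + 1) / 2 := by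
    obtain ⟨t, ht⟩ := hLe
    have : (N+1)/2 = t := by omega
    rw [this]
    have h5 : ((N + 1 : ℕ) : ℂ) = ((t + t : ℕ) : ℂ) := by rw [ht]
    push_cast at h5
    rw [h5]; ring
  rw [hc] at hf ⊢
  rw [hMto] at h2
  linear_combination hf + ((N : ℂ) + 1) / 2 * hZturn + h2 - hLD +
    ((N : ℂ) + 1 + LD (-q) ((-q^2) :: vv N)) * hZrec

end Pool.Agent.H980R2.Cross
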