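import Pool.Agent.H980R2.Cross.T18
import Pool.Agent.H980R2.Cross.T09
import Pool.Agent.H980R2.Cross.T14

/-! T20: stationarity and stationary values for the chains `UV 0` and `UV 1`.

`N` odd, `l = 1^N` (so `(-q)::l` has even length).  `fwV 0 k (Psi ((-q)::1^N)) = Psi (1^k ++ (-q)::1^(N-k))`
(`move_right` of T20), at the end `Psi (1^N ++ [-q]) = (-q)^(N-1) • Psi (1^N ++ [-q²])` (`Psi_invN`,
`(-q)⁻¹ = -q²`), backwards with `move_left`, and finally `(-q)^(N-1) • Psi ((-q²)::1^N) = Psi ((-q)::1^N)`
(`Psi_inv1`).  The same for `PsiX` with positions shifted by one (`PsiX_right`, `PsiX_left`, ...).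
`JU 0` collects `A i` of the current list for the odd positions `i` (`phi_Psi`), `JU 1` for the even
positions `i` (`phi_PsiX`); each `A_i(before) = Z + 2 (A_i(before) - A_i(after))` as in T19.  In total
`2N Z + 2 Mt (-q) (1^N)`; `loop_formula`. -/

namespace Pool.Agent.H980R2.Cross

open Pool.Agent.H988R2.Perc Finset

namespace T20

open Pool.Agent.H988R2.Perc.T20 (q4 q2 tile_smul mapDomain_lin move_right move_left)

/-- `1^k ++ x :: 1^m` -/
def rep (k : ℕ) (x : ℂ) (m : ℕ) : List ℂ := List.replicate k 1 ++ x :: List.replicate m 1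

theorem length_rep (k : ℕ) (x : ℂ) (m : ℕ) : (rep k x m).length = k + m + 1 := by
  simp [rep]; omega

theorem rep_zero (x : ℂ) (m : ℕ) : rep 0 x m = x :: List.replicate m 1 := by
  simp [rep]

theorem rep_last (x : ℂ) (m : ℕ) : rep m x 0 = List.replicate m 1 ++ [x] := by
  simp [rep]

theorem rep_succ_left (k : ℕ) (x : ℂ) (m : ℕ) :
    rep (k+1) x m = List.replicate k 1 ++ 1 :: x :: List.replicate m 1 := by
  unfold rep
  rw [List.replicate_succ']; simp

theorem rep_succ_right (k : ℕ) (x : ℂ) (m : ℕ) :
    rep k x (m+1) = List.replicate k 1 ++ x :: 1 :: List.replicate m 1 := by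
  unfold rep
  rw [List.replicate_succ]

theorem rep_perm (k : ℕ) (x : ℂ) (m : ℕ) : (rep k x m).Perm (x :: List.replicate (k+m) 1) := by
  unfold rep
  refine List.perm_middle.trans ?_
  rw [← List.replicate_add]

theorem Z_rep (k : ℕ) (x : ℂ) (m : ℕ) (h : Odd (k + m)) :
    Z (rep k x m) = Z (x :: List.replicate (k+m) 1) := by
  apply Z_perm _ (rep_perm k x m)
  rw [length_rep]; exact h.add_one

theorem inv_q : (-q)⁻¹ = -q^2 := by
  have h3 := q_cube
  rw [inv_eq_iff_eq_inv]
  have : (-q^2) ≠ 0 := neg_ne_zero.mpr (pow_ne_zero _ q_ne_zero)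
  apply mul_right_cancel₀ this
  rw [inv_mul_cancel₀ this]
  linear_combination h3

/-- the hypotheses under which the sweep can be computed -/
structure Sw (d : ℕ) (V : List ℂ → (St →₀ ℂ)) : Prop where
  right : ∀ (u v : List ℂ), Even (u.length + v.length) →
    V (u ++ 1 :: (-q) :: v) = tile (u.length + d) (V (u ++ (-q) :: 1 :: v))
  left : ∀ (u v : List ℂ), Even (u.length + v.length) →
    V (u ++ (-q^2) :: 1 :: v) = tile (u.length + d) (V (u ++ 1 :: (-q^2) :: v))
  inv1 : ∀ (x : ℂ) (l : List ℂ), x ≠ 0 → Odd l.length →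
    V (x :: l) = x^(l.length - 1) • V (x⁻¹ :: l)
  invN : ∀ (x : ℂ) (l : List ℂ), x ≠ 0 → Odd l.length →
    V (l ++ [x]) = x^(l.length - 1) • V (l ++ [x⁻¹])
  ph : ∀ (l : List ℂ), Even l.length → ∀ p, p + 2 ≤ l.length → (p + d) % 2 = 1 →
    phi (p + d) (V l) = A p l

variable {d : ℕ} {V : List ℂ → (St →₀ ℂ)}

theorem fwV_rep (hV : Sw d V) {N : ℕ} (hN : Odd N) (k : ℕ) (hk : k ≤ N) :
    fwV d k (V ((-q) :: List.replicate N 1)) = V (rep k (-q) (N-k)) := by
  induction k with
  | zero => rw [Nat.sub_zero, rep_zero]; rfl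
  | succ k ih =>
    obtain ⟨m, hm⟩ : ∃ m, N - k = m + 1 := ⟨N - k - 1, by omega⟩
    have hm' : N - (k+1) = m := by omega
    have e : Even ((List.replicate k (1:ℂ)).length + (List.replicate m (1:ℂ)).length) := by
      simp only [List.length_replicate]
      obtain ⟨t, ht⟩ := hN
      exact ⟨t, by omega⟩
    have key := hV.right (List.replicate k 1) (List.replicate m 1) e
    rw [List.length_replicate] at key
    show tile (k+d) (fwV d k _) = _
    rw [ih (by omega), hm, hm', rep_succ_left, rep_succ_right, key]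

theorem bwV_rep (hV : Sw d V) {N : ℕ} (hN : Odd N) (k : ℕ) (hk : k ≤ N) :
    bwV d k (V (rep k (-q^2) (N-k))) = V ((-q^2) :: List.replicate N 1) := by
  induction k with
  | zero => rw [Nat.sub_zero, rep_zero]; rfl
  | succ k ih =>
    obtain ⟨m, hm⟩ : ∃ m, N - k = m + 1 := ⟨N - k - 1, by omega⟩
    have hm' : N - (k+1) = m := by omega
    have e : Even ((List.replicate k (1:ℂ)).length + (List.replicate m (1:ℂ)).length) := by
      simp only [List.length_replicate]
      obtain ⟨t, ht⟩ := hN
      exact ⟨t, by omega⟩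
    have key := hV.left (List.replicate k 1) (List.replicate m 1) e
    rw [List.length_replicate] at key
    have ih' := ih (by omega)
    rw [hm, rep_succ_right, key] at ih'
    show bwV d k (tile (k+d) (V (rep (k+1) (-q^2) (N-(k+1))))) = _
    rw [hm', rep_succ_left, ih']

theorem fwV_smul (d L : ℕ) (c : ℂ) (f : St →₀ ℂ) : fwV d L (c • f) = c • fwV d L f := by
  induction L with
  | zero => rfl
  | succ L ih => simp only [fwV]; rw [ih, tile_smul]

theorem bwV_smul (d L : ℕ) (c : ℂ) (f : St →₀ ℂ) : bwV d L (c • f) = c • bwV d L f := by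
  induction L generalizing f with
  | zero => rfl
  | succ L ih => simp only [bwV]; rw [tile_smul, ih]

theorem JB_smul (d L : ℕ) (c : ℂ) (f : St →₀ ℂ) : JB d L (c • f) = c * JB d L f := by
  induction L generalizing f with
  | zero => simp [JB]
  | succ L ih =>
    simp only [JB]
    rw [tile_smul, ih, mul_add]
    congr 1
    split_ifs
    · rw [phi_smul]
    · simp

/-- difference of the arc masses at the step `L` -/
noncomputable def dif (x : ℂ) (N L : ℕ) : ℂ := A L (rep L x (N-L)) - A L (rep (L+1) x (N-L-1))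

/-- sum of the steps of one parity -/
noncomputable def S (d : ℕ) (x : ℂ) (N : ℕ) : ℕ → ℂ
  | 0 => 0
  | L+1 => S d x N L + if (L+d) % 2 = 1 then dif x N L else 0

/-- number of steps of one parity -/
def cnt (d : ℕ) : ℕ → ℕ
  | 0 => 0
  | L+1 => cnt d L + if (L+d) % 2 = 1 then 1 else 0

theorem A_right {N L : ℕ} (hN : Odd N) (hL : L < N) :
    A L (rep L (-q) (N-L)) = Z ((-q) :: List.replicate N 1) + 2 * dif (-q) N L := by
  obtain ⟨m, hm⟩ : ∃ m, N - L = m + 1 := ⟨N - L - 1, by omega⟩
  have e : Even ((List.replicate L (1:ℂ)).length + (List.replicate m (1:ℂ)).length) := by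
    simp only [List.length_replicate]
    obtain ⟨t, ht⟩ := hN
    exact ⟨t, by omega⟩
  have key := A_exch (List.replicate L 1) (List.replicate m 1) (-q) 1 e
  rw [List.length_replicate, ← rep_succ_left, ← rep_succ_right] at key
  have hZ : Z (rep L (-q) (m+1)) = Z ((-q) :: List.replicate N 1) := by
    have h1 : L + (m + 1) = N := by omega
    rw [Z_rep _ _ _ (by rw [h1]; exact hN), h1]
  unfold dif
  rw [hm, Nat.add_sub_cancel, ← hZ]
  have e1 : q * (-q) - q^2 * 1 = -2 * q^2 := by ring
  have e2 : q * 1 - q^2 * (-q) = -q^2 := by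
    have := q_cube; have h2 := q_spec
    linear_combination this + h2
  have e3 : (1 : ℂ) - (-q) = -q^2 := by
    have h2 := q_spec
    linear_combination h2
  rw [e1, e2, e3] at key
  have hq : (-q^2 : ℂ) ≠ 0 := neg_ne_zero.mpr (pow_ne_zero _ q_ne_zero)
  apply mul_left_cancel₀ hq
  linear_combination key

theorem A_left {N L : ℕ} (hN : Odd N) (hL : L < N) :
    A L (rep (L+1) (-q^2) (N-L-1)) =
      Z ((-q^2) :: List.replicate N 1) - 2 * dif (-q^2) N L := by
  obtain ⟨m, hm⟩ : ∃ m, N - L = m + 1 := ⟨N - L - 1, by omega⟩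
  have e : Even ((List.replicate L (1:ℂ)).length + (List.replicate m (1:ℂ)).length) := by
    simp only [List.length_replicate]
    obtain ⟨t, ht⟩ := hN
    exact ⟨t, by omega⟩
  have key := A_exch (List.replicate L 1) (List.replicate m 1) 1 (-q^2) e
  rw [List.length_replicate, ← rep_succ_left, ← rep_succ_right] at key
  have hZ : Z (rep (L+1) (-q^2) m) = Z ((-q^2) :: List.replicate N 1) := by
    have h1 : (L + 1) + m = N := by omega
    rw [Z_rep _ _ _ (by rw [h1]; exact hN), h1]
  unfold dif
  rw [hm, Nat.add_sub_cancel, ← hZ]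
  have e1 : q * 1 - q^2 * (-q^2) = 2 * q := by
    have := q4
    linear_combination this
  have e2 : q * (-q^2) - q^2 * 1 = q := by
    have := q_cube; have h2 := q_spec
    linear_combination -this - h2
  have e3 : (-q^2 : ℂ) - 1 = q := by
    have h2 := q_spec
    linear_combination -h2
  rw [e1, e2, e3] at key
  apply mul_left_cancel₀ q_ne_zero
  linear_combination key

theorem JF_rep (hV : Sw d V) {N : ℕ} (hN : Odd N) (k : ℕ) (hk : k ≤ N) :
    JF d k (V ((-q) :: List.replicate N 1)) =
      cnt d k * Z ((-q) :: List.replicate N 1) + 2 * S d (-q) N k := by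
  induction k with
  | zero => simp [JF, cnt, S]
  | succ k ih =>
    simp only [JF, cnt, S]
    rw [ih (by omega), fwV_rep hV hN k (by omega)]
    by_cases hp : (k + d) % 2 = 1
    · rw [if_pos hp, if_pos hp, if_pos hp, hV.ph _ _ k _ hp, A_right hN (by omega)]
      · push_cast; ring
      · rw [length_rep]
        have : k + (N - k) + 1 = N + 1 := by omega
        rw [this]; exact hN.add_one
      · rw [length_rep]; omega
    · rw [if_neg hp, if_neg hp, if_neg hp]
      push_cast; ring

theorem JB_rep (hV : Sw d V) {N : ℕ} (hN : Odd N) (k : ℕ) (hk : k ≤ N) :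
    JB d k (V (rep k (-q^2) (N-k))) =
      cnt d k * Z ((-q^2) :: List.replicate N 1) - 2 * S d (-q^2) N k := by
  induction k with
  | zero => simp [JB, cnt, S]
  | succ k ih =>
    obtain ⟨m, hm⟩ : ∃ m, N - k = m + 1 := ⟨N - k - 1, by omega⟩
    have hm' : N - (k+1) = m := by omega
    have e : Even ((List.replicate k (1:ℂ)).length + (List.replicate m (1:ℂ)).length) := by
      simp only [List.length_replicate]
      obtain ⟨t, ht⟩ := hN
      exact ⟨t, by omega⟩
    have key := hV.left (List.replicate k 1) (List.replicate m 1) e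
    rw [List.length_replicate, ← rep_succ_left, ← rep_succ_right, ← hm] at key
    simp only [JB, cnt, S]
    have hml : N - k - 1 = m := by omega
    rw [hm', ← key, ih (by omega)]
    by_cases hp : (k + d) % 2 = 1
    · rw [if_pos hp, if_pos hp, if_pos hp, hV.ph _ _ k _ hp]
      · have := A_left hN (show k < N by omega)
        rw [hml] at this
        rw [this]
        push_cast; ring
      · rw [length_rep]
        have : k + 1 + m + 1 = N + 1 := by omega
        rw [this]; exact hN.add_one
      · rw [length_rep]; omega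
    · rw [if_neg hp, if_neg hp, if_neg hp]
      push_cast; ring

theorem turn (hV : Sw d V) {N : ℕ} (hN : Odd N) :
    fwV d N (V ((-q) :: List.replicate N 1)) = (-q)^(N-1) • V (rep N (-q^2) (N-N)) := by
  rw [fwV_rep hV hN N le_rfl, Nat.sub_self, rep_last, rep_last]
  have := hV.invN (-q) (List.replicate N 1) (neg_ne_zero.mpr q_ne_zero) (by simpa using hN)
  rw [inv_q, List.length_replicate] at this
  exact this

theorem start (hV : Sw d V) {N : ℕ} (hN : Odd N) :
    V ((-q) :: List.replicate N 1) = (-q)^(N-1) • V ((-q^2) :: List.replicate N 1) := by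
  have := hV.inv1 (-q) (List.replicate N 1) (neg_ne_zero.mpr q_ne_zero) (by simpa using hN)
  rw [inv_q, List.length_replicate] at this
  exact this

theorem UV_fix (hV : Sw d V) {N : ℕ} (hN : Odd N) :
    UV d N (V ((-q) :: List.replicate N 1)) = V ((-q) :: List.replicate N 1) := by
  unfold UV
  rw [turn hV hN, bwV_smul, bwV_rep hV hN N le_rfl, ← start hV hN]

theorem JU_rep (hV : Sw d V) {N : ℕ} (hN : Odd N) :
    JU d N (V ((-q) :: List.replicate N 1)) =
      2 * cnt d N * Z ((-q) :: List.replicate N 1) +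
        2 * (S d (-q) N N - (-q)^(N-1) * S d (-q^2) N N) := by
  unfold JU
  rw [JF_rep hV hN N le_rfl, turn hV hN, JB_smul, JB_rep hV hN N le_rfl]
  have hZ : Z ((-q) :: List.replicate N 1) = (-q)^(N-1) * Z ((-q^2) :: List.replicate N 1) := by
    have := Z_inv (-q) (List.replicate N 1) (neg_ne_zero.mpr q_ne_zero) (by simpa using hN)
    rw [inv_q, List.length_replicate] at this
    exact this
  rw [hZ]
  ring

theorem cnt_add (N : ℕ) : cnt 0 N + cnt 1 N = N := by
  induction N with
  | zero => rfl
  | succ N ih =>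
    simp only [cnt]
    split_ifs <;> omega

theorem S_add (x : ℂ) (N k : ℕ) : S 0 x N k + S 1 x N k = ∑ i ∈ range k, dif x N i := by
  induction k with
  | zero => simp [S]
  | succ k ih =>
    simp only [S]
    rw [Finset.sum_range_succ, ← ih]
    rcases Nat.mod_two_eq_zero_or_one k with h | h
    · rw [if_neg (by omega), if_pos (by omega)]; ring
    · rw [if_pos (by omega), if_neg (by omega)]; ring

theorem Fr_rep (x : ℂ) (N : ℕ) : Fr [] x (List.replicate N 1) = ∑ i ∈ range N, dif x N i := by
  rw [Fr_eq_sum, List.length_replicate]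
  refine Finset.sum_congr rfl fun i hi => ?_
  rw [Finset.mem_range] at hi
  unfold dif rep
  rw [List.take_replicate, List.drop_replicate, List.take_replicate, List.drop_replicate,
    min_eq_left hi.le, min_eq_left (show i + 1 ≤ N by omega)]
  rfl

theorem sw_Psi : Sw 0 Psi where
  right u v h := by simpa using move_right u v h
  left u v h := by simpa using move_left u v h
  inv1 := Psi_inv1
  invN := Psi_invN
  ph l hl p h hp := phi_Psi hl (by simpa using hp) h

theorem sw_PsiX : Sw 1 PsiX where
  right := PsiX_right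
  left := PsiX_left
  inv1 := PsiX_inv1
  invN := PsiX_invN
  ph l hl p h hp := phi_PsiX hl (by omega) h

end T20

open T20

theorem UV0_fix (N : ℕ) (hN : Odd N) :
    UV 0 N (Psi ((-q) :: List.replicate N 1)) = Psi ((-q) :: List.replicate N 1) :=
  UV_fix sw_Psi hN

theorem UV1_fix (N : ℕ) (hN : Odd N) :
    UV 1 N (PsiX ((-q) :: List.replicate N 1)) = PsiX ((-q) :: List.replicate N 1) :=
  UV_fix sw_PsiX hN

theorem JU_value (N : ℕ) (hN : Odd N) :
    JU 0 N (Psi ((-q) :: List.replicate N 1)) + JU 1 N (PsiX ((-q) :: List.replicate N 1)) =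
      (2 * (N : ℂ) + 2 * LD (-q) (List.replicate N 1)) * Z ((-q) :: List.replicate N 1) := by
  rw [JU_rep sw_Psi hN, JU_rep sw_PsiX hN]
  have hM : Mt (-q) (List.replicate N 1) =
      (∑ i ∈ range N, dif (-q) N i) - (-q)^(N-1) * ∑ i ∈ range N, dif (-q^2) N i := by
    unfold Mt
    rw [Fr_rep, inv_q, Fr_rep, List.length_replicate]
  have hL := loop_formula (-q) (neg_ne_zero.mpr q_ne_zero) (List.replicate N 1)
    (by simpa using hN)
  have hZ := (LD_Z N hN).1
  have hLD : LD (-q) (List.replicate N 1) * Z ((-q) :: List.replicate N 1) =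
      Mt (-q) (List.replicate N 1) := by
    rw [hL]
    unfold LD
    field_simp
  have hc : (cnt 0 N : ℂ) + cnt 1 N = N := by exact_mod_cast cnt_add N
  rw [add_mul, mul_assoc 2 (LD _ _), hLD, hM, ← S_add, ← S_add]
  linear_combination (2 * Z ((-q) :: List.replicate N 1)) * hc

end Pool.Agent.H980R2.Cross
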