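import Pool.Agent.H980R2.Cross.Defs
import Pool.Agent.H988R2.Perc.T21

/-! T23: counting classes.  `T21.eqvGen_add`, `T21.eqvGen_iso` (`H988R2.Perc.T21`) describe the relation
after adding one edge, resp. isolated vertices.

`ncl_wire`: the classes of `E ∨ (W × W)` are: the classes of `E` not meeting `W`, and one class for all
the others; those of the others which meet `S` are counted by `ncl E (S.filter W)` (`E`-edges stay
inside `S`, so a vertex of `W` outside `S` is `E`-isolated). -/

namespace Pool.Agent.H980R2.Cross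

open Pool.Agent.H988R2.Perc Finset Relation

namespace T23Aux

theorem cls_eq_iff {α : Type*} (E : α → α → Prop) (a a' : α) :
    ({b | EqvGen E a b} = {b | EqvGen E a' b}) ↔ EqvGen E a a' := by
  constructor
  · intro h
    have h1 : a' ∈ {b | EqvGen E a' b} := EqvGen.refl _
    rw [← h] at h1
    exact h1
  · intro h
    ext b
    exact ⟨fun h1 => (h.symm _ _).trans _ _ _ h1, fun h1 => h.trans _ _ _ h1⟩

open Classical in
theorem card_image_congr {α β γ : Type*} (S : Finset α) (f : α → β) (g : α → γ)
    (h : ∀ a ∈ S, ∀ b ∈ S, f a = f b ↔ g a = g b) : (S.image f).card = (S.image g).card := by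
  have h1 : (S.image (fun a => (f a, g a))).card = (S.image f).card := by
    have h2 : S.image f = (S.image (fun a => (f a, g a))).image Prod.fst := by
      rw [Finset.image_image]; rfl
    rw [h2]
    symm
    apply Finset.card_image_of_injOn
    intro x hx y hy hxy
    rw [Finset.mem_coe, Finset.mem_image] at hx hy
    obtain ⟨a, ha, rfl⟩ := hx
    obtain ⟨b, hb, rfl⟩ := hy
    have h3 : f a = f b := hxy
    exact Prod.ext h3 ((h a ha b hb).1 h3)
  have h2 : (S.image (fun a => (f a, g a))).card = (S.image g).card := by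
    have h2 : S.image g = (S.image (fun a => (f a, g a))).image Prod.snd := by
      rw [Finset.image_image]; rfl
    rw [h2]
    symm
    apply Finset.card_image_of_injOn
    intro x hx y hy hxy
    rw [Finset.mem_coe, Finset.mem_image] at hx hy
    obtain ⟨a, ha, rfl⟩ := hx
    obtain ⟨b, hb, rfl⟩ := hy
    have h3 : g a = g b := hxy
    exact Prod.ext ((h a ha b hb).2 h3) h3
  rw [← h1, h2]

theorem eqvGen_mono {α : Type*} {E E' : α → α → Prop} (h : ∀ a b, E a b → E' a b) {a b : α}
    (hab : EqvGen E a b) : EqvGen E' a b := by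
  induction hab with
  | rel a b h1 => exact EqvGen.rel _ _ (h a b h1)
  | refl a => exact EqvGen.refl _
  | symm a b _ ih => exact EqvGen.symm _ _ ih
  | trans a b d _ _ ih1 ih2 => exact EqvGen.trans _ _ _ ih1 ih2

theorem eqvGen_wire {α : Type*} (E : α → α → Prop) (W : α → Prop) {a b : α}
    (h : EqvGen (fun a b => E a b ∨ (W a ∧ W b)) a b) :
    EqvGen E a b ∨ ((∃ w, W w ∧ EqvGen E a w) ∧ (∃ w, W w ∧ EqvGen E b w)) := by
  induction h with
  | rel a b h =>
    rcases h with h | ⟨h1, h2⟩
    · exact Or.inl (EqvGen.rel _ _ h)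
    · exact Or.inr ⟨⟨a, h1, EqvGen.refl _⟩, ⟨b, h2, EqvGen.refl _⟩⟩
  | refl a => exact Or.inl (EqvGen.refl _)
  | symm a b _ ih =>
    rcases ih with h | ⟨h1, h2⟩
    · exact Or.inl (h.symm _ _)
    · exact Or.inr ⟨h2, h1⟩
  | trans a b d _ _ ih1 ih2 =>
    rcases ih1 with h | ⟨h1, h2⟩
    · rcases ih2 with k | ⟨⟨w, hw, k1⟩, k2⟩
      · exact Or.inl (h.trans _ _ _ k)
      · exact Or.inr ⟨⟨w, hw, h.trans _ _ _ k1⟩, k2⟩
    · rcases ih2 with k | ⟨k1, k2⟩
      · obtain ⟨w, hw, h3⟩ := h2
        exact Or.inr ⟨h1, ⟨w, hw, (k.symm _ _).trans _ _ _ h3⟩⟩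
      · exact Or.inr ⟨h1, k2⟩

theorem eqvGen_inside {α : Type*} (E : α → α → Prop) (S : Finset α)
    (hE : ∀ a b, E a b → a ∈ S ∧ b ∈ S) {a b : α} (h : EqvGen E a b) : a = b ∨ (a ∈ S ∧ b ∈ S) := by
  induction h with
  | rel a b h => exact Or.inr (hE a b h)
  | refl a => exact Or.inl rfl
  | symm a b _ ih =>
    rcases ih with h | ⟨h1, h2⟩
    · exact Or.inl h.symm
    · exact Or.inr ⟨h2, h1⟩
  | trans a b d _ _ ih1 ih2 =>
    rcases ih1 with rfl | ⟨h1, h2⟩
    · exact ih2
    · rcases ih2 with rfl | ⟨h3, h4⟩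
      · exact Or.inr ⟨h1, h2⟩
      · exact Or.inr ⟨h1, h4⟩

end T23Aux

open T23Aux

theorem ncl_congr {α : Type*} {E E' : α → α → Prop} (S : Finset α)
    (h : ∀ a ∈ S, ∀ b, EqvGen E a b ↔ EqvGen E' a b) : ncl E S = ncl E' S := by
  classical
  unfold ncl
  congr 1
  apply Finset.image_congr
  intro a ha
  ext b
  exact h a ha b

open Classical in
theorem ncl_add_edge {α : Type*} (E : α → α → Prop) (S : Finset α) (c : Prop) (p p' : α)
    (hp : p ∈ S) (hp' : p' ∈ S) :
    (ncl (fun a b => E a b ∨ (c ∧ a = p ∧ b = p')) S : ℤ) =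
      ncl E S - (if c ∧ ¬ EqvGen E p p' then 1 else 0) := by
  by_cases hc : c ∧ ¬ EqvGen E p p'
  · rw [if_pos hc]
    obtain ⟨hc1, hc2⟩ := hc
    set E' : α → α → Prop := fun a b => E a b ∨ (c ∧ a = p ∧ b = p') with hE'
    have key : ∀ a b, EqvGen E' a b ↔ EqvGen E a b ∨ (c ∧ ((EqvGen E a p ∧ EqvGen E p' b) ∨
        (EqvGen E a p' ∧ EqvGen E p b))) := fun a b => T21.eqvGen_add E c p p' a b
    set S' := S.filter (fun a => ¬ EqvGen E p' a) with hS'
    have h1 : S.image (fun a => {b | EqvGen E' a b}) = S'.image (fun a => {b | EqvGen E' a b}) := by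
      apply Finset.Subset.antisymm
      · intro x hx
        rw [Finset.mem_image] at hx ⊢
        obtain ⟨a, ha, rfl⟩ := hx
        by_cases h2 : EqvGen E p' a
        · refine ⟨p, ?_, ?_⟩
          · rw [hS', Finset.mem_filter]
            exact ⟨hp, fun h3 => hc2 (h3.symm _ _)⟩
          · rw [cls_eq_iff, key]
            exact Or.inr ⟨hc1, Or.inl ⟨EqvGen.refl _, h2⟩⟩
        · exact ⟨a, by rw [hS', Finset.mem_filter]; exact ⟨ha, h2⟩, rfl⟩
      · exact Finset.image_subset_image (Finset.filter_subset _ _)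
    have h2 : (S'.image (fun a => {b | EqvGen E' a b})).card =
        (S'.image (fun a => {b | EqvGen E a b})).card := by
      apply card_image_congr
      intro a ha b hb
      rw [hS', Finset.mem_filter] at ha hb
      rw [cls_eq_iff, cls_eq_iff, key]
      constructor
      · rintro (h | ⟨_, ⟨_, h⟩ | ⟨h, _⟩⟩)
        · exact h
        · exact absurd h hb.2
        · exact absurd (h.symm _ _) ha.2
      · exact Or.inl
    have h3 : S.image (fun a => {b | EqvGen E a b}) =
        insert {b | EqvGen E p' b} (S'.image (fun a => {b | EqvGen E a b})) := by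
      apply Finset.Subset.antisymm
      · intro x hx
        rw [Finset.mem_image] at hx
        obtain ⟨a, ha, rfl⟩ := hx
        rw [Finset.mem_insert]
        by_cases h2 : EqvGen E p' a
        · left
          rw [cls_eq_iff]
          exact h2.symm _ _
        · right
          exact Finset.mem_image_of_mem _ (by rw [hS', Finset.mem_filter]; exact ⟨ha, h2⟩)
      · intro x hx
        rw [Finset.mem_insert] at hx
        rcases hx with rfl | hx
        · exact Finset.mem_image_of_mem _ hp'
        · exact Finset.image_subset_image (Finset.filter_subset _ _) hx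
    have h4 : {b | EqvGen E p' b} ∉ S'.image (fun a => {b | EqvGen E a b}) := by
      intro h
      rw [Finset.mem_image] at h
      obtain ⟨a, ha, h5⟩ := h
      rw [cls_eq_iff] at h5
      rw [hS', Finset.mem_filter] at ha
      exact ha.2 (h5.symm _ _)
    have h5 : ncl E S = ncl E' S + 1 := by
      unfold ncl
      rw [h3, Finset.card_insert_of_notMem h4, h1, h2]
    rw [h5]
    push_cast
    ring
  · rw [if_neg hc, sub_zero]
    congr 1
    apply ncl_congr
    intro a _ b
    rw [T21.eqvGen_add]
    constructor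
    · rintro (h | ⟨hc1, h⟩)
      · exact h
      · have h2 : EqvGen E p p' := by
          by_contra h3
          exact hc ⟨hc1, h3⟩
        rcases h with ⟨h3, h4⟩ | ⟨h3, h4⟩
        · exact (h3.trans _ _ _ h2).trans _ _ _ h4
        · exact (h3.trans _ _ _ (h2.symm _ _)).trans _ _ _ h4
    · exact Or.inl

open Classical in
theorem ncl_add_vertex {α : Type*} (E : α → α → Prop) (S : Finset α) (v : α)
    (h1 : ∀ a, ¬ E v a) (h2 : ∀ a, ¬ E a v) (hv : v ∉ S) :
    ncl E (insert v S) = ncl E S + 1 := by
  unfold ncl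
  rw [Finset.image_insert, Finset.card_insert_of_notMem]
  intro h
  rw [Finset.mem_image] at h
  obtain ⟨a, ha, h3⟩ := h
  rw [cls_eq_iff] at h3
  rcases T21.eqvGen_iso E v h1 h2 h3 with h4 | ⟨_, h4⟩
  · exact hv (h4 ▸ ha)
  · exact h4 rfl

open Classical in
theorem ncl_add_old {α : Type*} (E : α → α → Prop) (S : Finset α) (v : α)
    (h : ∃ s ∈ S, EqvGen E v s) : ncl E (insert v S) = ncl E S := by
  obtain ⟨s, hs, h1⟩ := h
  unfold ncl
  rw [Finset.image_insert, Finset.insert_eq_of_mem]
  rw [Finset.mem_image]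
  refine ⟨s, hs, ?_⟩
  rw [cls_eq_iff]
  exact h1.symm _ _

open Classical in
theorem ncl_wire {α : Type*} (E : α → α → Prop) (S : Finset α) (W : α → Prop)
    (hE : ∀ a b, E a b → a ∈ S ∧ b ∈ S) (hW : ∃ a ∈ S, W a) :
    ncl (fun a b => E a b ∨ (W a ∧ W b)) S + ncl E (S.filter W) = ncl E S + 1 := by
  obtain ⟨w0, hw0, hW0⟩ := hW
  set E' : α → α → Prop := fun a b => E a b ∨ (W a ∧ W b) with hE'
  set sat : α → Prop := fun a => ∃ w, W w ∧ EqvGen E a w with hsat
  have hmono : ∀ {a b}, EqvGen E a b → EqvGen E' a b := fun h =>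
    eqvGen_mono (fun a b h1 => Or.inl h1) h
  have hss : ∀ {a b}, sat a → sat b → EqvGen E' a b := by
    rintro a b ⟨w, hw, h1⟩ ⟨w', hw', h2⟩
    have h3 : EqvGen E' w w' := EqvGen.rel _ _ (Or.inr ⟨hw, hw'⟩)
    exact ((hmono h1).trans _ _ _ h3).trans _ _ _ ((hmono h2).symm _ _)
  have hsw : sat w0 := ⟨w0, hW0, EqvGen.refl _⟩
  set S1 := S.filter (fun a => ¬ sat a) with hS1
  -- classes of E'
  have h1 : S.image (fun a => {b | EqvGen E' a b}) =
      insert {b | EqvGen E' w0 b} (S1.image (fun a => {b | EqvGen E' a b})) := by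
    apply Finset.Subset.antisymm
    · intro x hx
      rw [Finset.mem_image] at hx
      obtain ⟨a, ha, rfl⟩ := hx
      rw [Finset.mem_insert]
      by_cases h2 : sat a
      · left
        rw [cls_eq_iff]
        exact hss h2 hsw
      · right
        exact Finset.mem_image_of_mem _ (by rw [hS1, Finset.mem_filter]; exact ⟨ha, h2⟩)
    · intro x hx
      rw [Finset.mem_insert] at hx
      rcases hx with rfl | hx
      · exact Finset.mem_image_of_mem _ hw0
      · exact Finset.image_subset_image (Finset.filter_subset _ _) hx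
  have h2 : {b | EqvGen E' w0 b} ∉ S1.image (fun a => {b | EqvGen E' a b}) := by
    intro h
    rw [Finset.mem_image] at h
    obtain ⟨a, ha, h5⟩ := h
    rw [cls_eq_iff] at h5
    rw [hS1, Finset.mem_filter] at ha
    rcases eqvGen_wire E W h5 with h6 | ⟨h6, _⟩
    · exact ha.2 ⟨w0, hW0, h6⟩
    · exact ha.2 h6
  have h3 : (S1.image (fun a => {b | EqvGen E' a b})).card =
      (S1.image (fun a => {b | EqvGen E a b})).card := by
    apply card_image_congr
    intro a ha b hb
    rw [hS1, Finset.mem_filter] at ha hb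
    rw [cls_eq_iff, cls_eq_iff]
    constructor
    · intro h
      rcases eqvGen_wire E W h with h6 | ⟨h6, _⟩
      · exact h6
      · exact absurd h6 ha.2
    · exact fun h => hmono h
  have h4 : S.image (fun a => {b | EqvGen E a b}) =
      (S1.image (fun a => {b | EqvGen E a b})) ∪
        ((S.filter W).image (fun a => {b | EqvGen E a b})) := by
    apply Finset.Subset.antisymm
    · intro x hx
      rw [Finset.mem_image] at hx
      obtain ⟨a, ha, rfl⟩ := hx
      rw [Finset.mem_union]
      by_cases h2 : sat a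
      · right
        obtain ⟨w, hw, h3⟩ := h2
        rw [Finset.mem_image]
        refine ⟨w, ?_, ?_⟩
        · rw [Finset.mem_filter]
          refine ⟨?_, hw⟩
          rcases eqvGen_inside E S hE h3 with rfl | ⟨_, h5⟩
          · exact ha
          · exact h5
        · rw [cls_eq_iff]
          exact h3.symm _ _
      · left
        exact Finset.mem_image_of_mem _ (by rw [hS1, Finset.mem_filter]; exact ⟨ha, h2⟩)
    · intro x hx
      rw [Finset.mem_union] at hx
      rcases hx with hx | hx
      · exact Finset.image_subset_image (Finset.filter_subset _ _) hx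
      · exact Finset.image_subset_image (Finset.filter_subset _ _) hx
  have h5 : Disjoint (S1.image (fun a => {b | EqvGen E a b}))
      ((S.filter W).image (fun a => {b | EqvGen E a b})) := by
    rw [Finset.disjoint_left]
    intro x hx hx'
    rw [Finset.mem_image] at hx hx'
    obtain ⟨a, ha, rfl⟩ := hx
    obtain ⟨w, hw, h6⟩ := hx'
    rw [cls_eq_iff] at h6
    rw [hS1, Finset.mem_filter] at ha
    rw [Finset.mem_filter] at hw
    exact ha.2 ⟨w, hw.2, h6.symm _ _⟩
  unfold ncl
  rw [h1, Finset.card_insert_of_notMem h2, h3, h4, Finset.card_union_of_disjoint h5]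
  omega

theorem ncl_le_card {α : Type*} (E : α → α → Prop) (S : Finset α) : ncl E S ≤ S.card := by
  classical
  unfold ncl
  exact Finset.card_image_le

end Pool.Agent.H980R2.Cross
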